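import Pool.Agent.AL.QDefs

/-!
# PIECE AL-Tail: from the Poincaré inequality to a bound for the entropy

Names: `K i = - log (lam i)` for `lam i > 0`, `P(..)` the probability for the weights `lam`,
`S = ∑ negMulLog (lam i) = E K`.
`sqrt_log`: with `u = log x - log y`: `(x + y) / √(x y) = exp (u/2) + exp (-u/2) ≥ 2 + u²/4`, so
`√(x y) u² ≤ 4 (x + y)`.
(1) `PI` with `G = - log`, `κ = 4`, `t = 0`: `Var K ≤ 4 s`. Chebyshev: `P(K < S - 3 √s) ≤ 4/9 ≤ 1/2`.
(2) Let `a` be real, `δ = 8 √s`, `a + δ ≤ S - 3 √s`. `PI` with `G x = max 0 (min 1 ((- log x - a) / δ))`,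
`κ = 4 / δ²`, `t = exp (-(a + δ))` (`G = 1` on `(0, t]`, `|G x - G y| ≤ |log x - log y| / δ`):
`Var G ≤ (1/16) P(K < a + δ)`. `Var G = (1/2) ∑ lam_i lam_j (G_i - G_j)² ≥ P(K ≤ a) P(K ≥ a + δ)
≥ P(K ≤ a) / 2`. So `P(K ≤ a) ≤ (1/8) P(K < a + δ) ≤ exp (-2) P(K ≤ a + δ)`.
(3) Iterate: `P(K ≤ S - 3 √s - x) ≤ exp (2 - 2 x / δ)` for `x ≥ 0` (`⌊x / δ⌋` steps).
(4) `P(K ≤ log r + y) ≥ μ² - exp (-y)`: `∑_{lam_i < exp(-y) / r} w_i lam_i ≤ (exp (-y) / r) ∑ w_i ≤
exp (-y)`. With `y = log (2 / μ²)`: `P(K ≤ log r + y) ≥ μ² / 2`.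
(5) If `log r + y ≥ S - 3 √s` done. Otherwise `x = S - 3 √s - log r - y > 0` and
`μ² / 2 ≤ exp (2 - x / (4 √s))`, so `x ≤ 4 √s (2 + log (2 / μ²))`.
Total: `S ≤ log r + y + 3 √s + 4 √s (2 + y)`.
-/

namespace Pool.Agent.AL

theorem sq_le_exp_aux {v : ℝ} (hv : 0 ≤ v) : v ^ 2 ≤ Real.exp v := by
  have h := Real.quadratic_le_exp_of_nonneg (x := v / 2) (by positivity)
  have h2 : Real.exp v = Real.exp (v / 2) ^ 2 := by
    rw [← Real.exp_nat_mul]; congr 1; push_cast; ring
  rw [h2]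
  have h3 : v ≤ 1 + v / 2 + (v / 2) ^ 2 / 2 := by nlinarith [sq_nonneg (v - 2)]
  exact pow_le_pow_left₀ hv (h3.trans h) 2

theorem sqrt_log_aux {x y : ℝ} (hx : 0 < x) (hy : 0 < y) (hxy : y ≤ x) :
    Real.sqrt (x * y) * (Real.log x - Real.log y) ^ 2 ≤ 4 * (x + y) := by
  set u := Real.log x - Real.log y with hu
  have hu0 : 0 ≤ u := sub_nonneg.mpr (Real.log_le_log hy hxy)
  have h1 : (u / 2) ^ 2 ≤ Real.exp (u / 2) := sq_le_exp_aux (by positivity)
  have h2 : Real.sqrt (x * y) * Real.exp (u / 2) = x := by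
    have e1 : Real.exp (u / 2) = Real.sqrt (x / y) := by
      rw [Real.sqrt_eq_rpow, Real.rpow_def_of_pos (div_pos hx hy), Real.log_div hx.ne' hy.ne']
      congr 1; rw [hu]; ring
    rw [e1, ← Real.sqrt_mul (by positivity)]
    rw [show x * y * (x / y) = x ^ 2 by field_simp]
    exact Real.sqrt_sq hx.le
  have h3 := mul_le_mul_of_nonneg_left h1 (Real.sqrt_nonneg (x * y))
  nlinarith

theorem sqrt_log {x y : ℝ} (hx : 0 < x) (hy : 0 < y) :
    Real.sqrt (x * y) * (Real.log x - Real.log y) ^ 2 ≤ 4 * (x + y) := by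
  rcases le_total y x with h | h
  · exact sqrt_log_aux hx hy h
  · have h2 := sqrt_log_aux hy hx h
    rw [mul_comm x y]
    calc _ = Real.sqrt (y * x) * (Real.log y - Real.log x) ^ 2 := by ring
      _ ≤ _ := h2
      _ = _ := by ring

section
variable {ι : Type*} [Fintype ι] {lam : ι → ℝ}

open Classical in
/-- the probability of `K ≤ a` -/
noncomputable def cdfK (lam : ι → ℝ) (a : ℝ) : ℝ :=
  ∑ i ∈ Finset.univ.filter (fun i => - Real.log (lam i) ≤ a), lam i

theorem cdfK_mono (h0 : ∀ i, 0 ≤ lam i) {a b : ℝ} (hab : a ≤ b) : cdfK lam a ≤ cdfK lam b := by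
  classical
  unfold cdfK
  apply Finset.sum_le_sum_of_subset_of_nonneg
  · intro i hi
    rw [Finset.mem_filter] at hi ⊢
    exact ⟨hi.1, hi.2.trans hab⟩
  · intro i _ _; exact h0 i

theorem cdfK_le_one (h0 : ∀ i, 0 ≤ lam i) (h1 : ∑ i, lam i = 1) (a : ℝ) : cdfK lam a ≤ 1 := by
  classical
  unfold cdfK
  rw [← h1]
  exact Finset.sum_le_sum_of_subset_of_nonneg (Finset.filter_subset _ _) (fun i _ _ => h0 i)

theorem cdfK_nonneg (h0 : ∀ i, 0 ≤ lam i) (a : ℝ) : 0 ≤ cdfK lam a := by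
  classical
  unfold cdfK
  exact Finset.sum_nonneg fun i _ => h0 i

theorem var_expand (h1 : ∑ i, lam i = 1) (g : ι → ℝ) :
    ∑ i, lam i * (g i - ∑ j, lam j * g j) ^ 2 =
      ∑ i, lam i * g i ^ 2 - (∑ i, lam i * g i) ^ 2 := by
  set m := ∑ j, lam j * g j with hm
  have : ∀ i, lam i * (g i - m) ^ 2 = lam i * g i ^ 2 - 2 * m * (lam i * g i) + m ^ 2 * lam i := by
    intro i; ring
  simp_rw [this]
  rw [Finset.sum_add_distrib, Finset.sum_sub_distrib, ← Finset.mul_sum, ← Finset.mul_sum, h1, ← hm]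
  ring

/-- `P(K < S - 3 √s) ≤ 4 / 9` -/
theorem cheb (h0 : ∀ i, 0 ≤ lam i) (h1 : ∑ i, lam i = 1) {s : ℝ} (hs : 0 < s) (hP : PI lam s) :
    ∑ i ∈ Finset.univ.filter (fun i => - Real.log (lam i) <
      ∑ i, Real.negMulLog (lam i) - 3 * Real.sqrt s), lam i ≤ 4 / 9 := by
  classical
  have hV := hP 4 0 (fun x => - Real.log x) (by norm_num) le_rfl
    ⟨fun x y hx hy => by
      have := sqrt_log hx hy
      calc _ = Real.sqrt (x * y) * (Real.log x - Real.log y) ^ 2 := by ring
        _ ≤ _ := this, fun x y hx hx0 => absurd hx (not_lt.mpr hx0)⟩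
  have hS : ∑ i, lam i * - Real.log (lam i) = ∑ i, Real.negMulLog (lam i) := by
    apply Finset.sum_congr rfl; intro i _; simp [Real.negMulLog]
  have hle : ∑ i ∈ Finset.univ.filter (fun i => 0 < lam i), lam i ≤ 1 := by
    rw [← h1]
    exact Finset.sum_le_sum_of_subset_of_nonneg (Finset.filter_subset _ _) (fun i _ _ => h0 i)
  rw [← var_expand h1 (fun i => - Real.log (lam i))] at hV
  simp only [hS] at hV
  set S := ∑ i, Real.negMulLog (lam i) with hSd
  have hsq : Real.sqrt s ^ 2 = s := Real.sq_sqrt hs.le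
  have hspos : 0 < Real.sqrt s := Real.sqrt_pos.mpr hs
  have hlow : ∑ i ∈ Finset.univ.filter (fun i => - Real.log (lam i) < S - 3 * Real.sqrt s),
      lam i * (9 * s) ≤ ∑ i, lam i * (- Real.log (lam i) - S) ^ 2 := by
    calc _ ≤ ∑ i ∈ Finset.univ.filter (fun i => - Real.log (lam i) < S - 3 * Real.sqrt s),
        lam i * (- Real.log (lam i) - S) ^ 2 := by
          apply Finset.sum_le_sum
          intro i hi
          rw [Finset.mem_filter] at hi
          apply mul_le_mul_of_nonneg_left _ (h0 i)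
          have h2 : 3 * Real.sqrt s ≤ S - (- Real.log (lam i)) := by linarith [hi.2]
          have h3 := pow_le_pow_left₀ (by positivity) h2 2
          calc 9 * s = (3 * Real.sqrt s) ^ 2 := by rw [mul_pow, hsq]; norm_num
            _ ≤ (S - (- Real.log (lam i))) ^ 2 := h3
            _ = _ := by ring
      _ ≤ _ := Finset.sum_le_sum_of_subset_of_nonneg (Finset.filter_subset _ _)
          (fun i _ _ => mul_nonneg (h0 i) (sq_nonneg _))
  rw [← Finset.sum_mul] at hlow
  have h5 : (∑ i ∈ Finset.univ.filter (fun i => - Real.log (lam i) < S - 3 * Real.sqrt s),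
      lam i) * (9 * s) ≤ 4 * s := by
    refine hlow.trans (hV.trans ?_)
    nlinarith
  have h6 : (∑ i ∈ Finset.univ.filter (fun i => - Real.log (lam i) < S - 3 * Real.sqrt s),
      lam i) * 9 ≤ 4 := by
    by_contra hcon
    push Not at hcon
    nlinarith
  linarith

theorem clip_lip {p q : ℝ} : (max 0 (min 1 p) - max 0 (min 1 q)) ^ 2 ≤ (p - q) ^ 2 := by
  rw [sq_le_sq]
  rw [abs_le]
  have hpq := abs_le.mp (le_refl |p - q|)
  constructor
  · rcases le_total 1 p with h1 | h1 <;> rcases le_total 1 q with h2 | h2 <;>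
    rcases le_total 0 p with h3 | h3 <;> rcases le_total 0 q with h4 | h4 <;>
    simp [h1, h2, h3, h4] <;> linarith
  · rcases le_total 1 p with h1 | h1 <;> rcases le_total 1 q with h2 | h2 <;>
    rcases le_total 0 p with h3 | h3 <;> rcases le_total 0 q with h4 | h4 <;>
    simp [h1, h2, h3, h4] <;> linarith

/-- one step -/
theorem step_aux (h0 : ∀ i, 0 ≤ lam i) (h1 : ∑ i, lam i = 1) {s : ℝ} (hs : 0 < s)
    (hP : PI lam s) {a : ℝ}
    (ha : a + 8 * Real.sqrt s ≤ ∑ i, Real.negMulLog (lam i) - 3 * Real.sqrt s) :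
    cdfK lam a ≤ Real.exp (-2) * cdfK lam (a + 8 * Real.sqrt s) := by
  classical
  have hspos : 0 < Real.sqrt s := Real.sqrt_pos.mpr hs
  have hsq : Real.sqrt s ^ 2 = s := Real.sq_sqrt hs.le
  set δ := 8 * Real.sqrt s with hδ
  have hδ0 : 0 < δ := by positivity
  set G : ℝ → ℝ := fun x => max 0 (min 1 ((- Real.log x - a) / δ)) with hG
  have hG0 : ∀ x, 0 ≤ G x := fun x => le_max_left _ _
  have hGt : ∀ x, 0 < x → x ≤ Real.exp (-(a + δ)) → G x = 1 := by
    intro x hx hxt
    have h2 : Real.log x ≤ -(a + δ) := by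
      rw [← Real.log_exp (-(a + δ))]; exact Real.log_le_log hx hxt
    have h3 : 1 ≤ (- Real.log x - a) / δ := by
      rw [le_div_iff₀ hδ0]; linarith
    simp [hG, min_eq_left h3]
  have hok : Gok (4 / δ ^ 2) (Real.exp (-(a + δ))) G := by
    refine ⟨?_, ?_⟩
    · intro x y hx hy
      have h2 : (G x - G y) ^ 2 ≤ (Real.log x - Real.log y) ^ 2 / δ ^ 2 := by
        refine (clip_lip).trans (le_of_eq ?_)
        rw [← sub_div]; rw [div_pow]; congr 1; ring
      have h3 := sqrt_log hx hy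
      calc _ ≤ Real.sqrt (x * y) * ((Real.log x - Real.log y) ^ 2 / δ ^ 2) :=
            mul_le_mul_of_nonneg_left h2 (Real.sqrt_nonneg _)
        _ = Real.sqrt (x * y) * (Real.log x - Real.log y) ^ 2 / δ ^ 2 := by ring
        _ ≤ 4 * (x + y) / δ ^ 2 := by gcongr
        _ = _ := by ring
    · intro x y hx hxt hy hyt
      rw [hGt x hx hxt, hGt y hy hyt]
  have hV := hP (4 / δ ^ 2) (Real.exp (-(a + δ))) G (by positivity) (Real.exp_pos _).le hok
  rw [← var_expand h1 (fun i => G (lam i))] at hV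
  set m := ∑ j, lam j * G (lam j) with hm
  have hk : 4 / δ ^ 2 * s = 1 / 16 := by
    rw [hδ, mul_pow, hsq]; field_simp; norm_num
  rw [hk] at hV
  -- the right side
  have hR : ∑ i ∈ Finset.univ.filter (fun i => Real.exp (-(a + δ)) < lam i), lam i ≤
      cdfK lam (a + δ) := by
    unfold cdfK
    apply Finset.sum_le_sum_of_subset_of_nonneg
    · intro i hi
      rw [Finset.mem_filter] at hi ⊢
      refine ⟨hi.1, ?_⟩
      have h2 := Real.log_le_log (Real.exp_pos _) hi.2.le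
      rw [Real.log_exp] at h2
      linarith
    · intro i _ _; exact h0 i
  -- the left side
  set A := Finset.univ.filter (fun i => - Real.log (lam i) ≤ a) with hA
  set B := Finset.univ.filter (fun i => ¬ (- Real.log (lam i) < a + δ)) with hB
  have hdis : Disjoint A B := by
    rw [Finset.disjoint_left]
    intro i hi hi2
    rw [hA, Finset.mem_filter] at hi
    rw [hB, Finset.mem_filter] at hi2
    exact hi2.2 (by linarith [hi.2])
  have hAs : ∑ i ∈ A, lam i * (G (lam i) - m) ^ 2 = cdfK lam a * m ^ 2 := by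
    have hAA : cdfK lam a = ∑ i ∈ A, lam i := by unfold cdfK; rw [hA]
    rw [hAA, Finset.sum_mul]
    apply Finset.sum_congr rfl
    intro i hi
    rw [hA, Finset.mem_filter] at hi
    have : G (lam i) = 0 := by
      have h2 : (- Real.log (lam i) - a) / δ ≤ 0 := div_nonpos_of_nonpos_of_nonneg
        (by linarith [hi.2]) hδ0.le
      simp only [hG]
      exact max_eq_left ((min_le_right _ _).trans h2)
    rw [this]; ring
  have hBs : ∑ i ∈ B, lam i * (G (lam i) - m) ^ 2 = (∑ i ∈ B, lam i) * (1 - m) ^ 2 := by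
    rw [Finset.sum_mul]
    apply Finset.sum_congr rfl
    intro i hi
    rw [hB, Finset.mem_filter] at hi
    have : G (lam i) = 1 := by
      have h2 : 1 ≤ (- Real.log (lam i) - a) / δ := by
        rw [le_div_iff₀ hδ0]; linarith [not_lt.mp hi.2]
      simp only [hG]
      rw [min_eq_left h2]; norm_num
    rw [this]
  have hBp : 1 / 2 ≤ ∑ i ∈ B, lam i := by
    have hc := cheb h0 h1 hs hP
    have hsplit := Finset.sum_filter_add_sum_filter_not (s := Finset.univ)
      (p := fun i => - Real.log (lam i) < a + δ) (f := lam)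
    rw [h1] at hsplit
    have hsub : ∑ i ∈ Finset.univ.filter (fun i => - Real.log (lam i) < a + δ), lam i ≤
        ∑ i ∈ Finset.univ.filter (fun i => - Real.log (lam i) <
          ∑ i, Real.negMulLog (lam i) - 3 * Real.sqrt s), lam i := by
      apply Finset.sum_le_sum_of_subset_of_nonneg
      · intro i hi
        rw [Finset.mem_filter] at hi ⊢
        exact ⟨hi.1, lt_of_lt_of_le hi.2 ha⟩
      · intro i _ _; exact h0 i
    have : ∑ i ∈ B, lam i = 1 - ∑ i ∈ Finset.univ.filter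
        (fun i => - Real.log (lam i) < a + δ), lam i := by
      rw [hB]; linarith
    rw [this]; linarith
  have hAB : cdfK lam a + ∑ i ∈ B, lam i ≤ 1 := by
    have : cdfK lam a = ∑ i ∈ A, lam i := by unfold cdfK; rw [hA]
    rw [this, ← Finset.sum_union hdis, ← h1]
    exact Finset.sum_le_sum_of_subset_of_nonneg (Finset.subset_univ _) (fun i _ _ => h0 i)
  have hL : cdfK lam a * m ^ 2 + (∑ i ∈ B, lam i) * (1 - m) ^ 2 ≤
      ∑ i, lam i * (G (lam i) - m) ^ 2 := by
    rw [← hAs, ← hBs, ← Finset.sum_union hdis]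
    exact Finset.sum_le_sum_of_subset_of_nonneg (Finset.subset_univ _)
      (fun i _ _ => mul_nonneg (h0 i) (sq_nonneg _))
  have hp0 := cdfK_nonneg h0 a
  set p := cdfK lam a with hp
  set q := ∑ i ∈ B, lam i with hq
  have hpq : p * q ≤ p * m ^ 2 + q * (1 - m) ^ 2 := by
    have e : (p + q) * (p * m ^ 2 + q * (1 - m) ^ 2) - p * q = (p * m - q * (1 - m)) ^ 2 := by
      ring
    have hnn : 0 ≤ p * m ^ 2 + q * (1 - m) ^ 2 := by positivity
    nlinarith [sq_nonneg (p * m - q * (1 - m))]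
  have h8 : p ≤ 1 / 8 * cdfK lam (a + δ) := by nlinarith
  refine h8.trans ?_
  have h9 : (1 : ℝ) / 8 ≤ Real.exp (-2) := by
    rw [Real.exp_neg, one_div]
    apply inv_anti₀ (Real.exp_pos _)
    have := Real.exp_one_lt_d9
    have h10 : Real.exp 2 = Real.exp 1 ^ 2 := by rw [← Real.exp_nat_mul]; norm_num
    rw [h10]
    nlinarith [Real.exp_pos 1]
  exact mul_le_mul_of_nonneg_right h9 (cdfK_nonneg h0 _)

theorem iter_aux (h0 : ∀ i, 0 ≤ lam i) (h1 : ∑ i, lam i = 1) {s : ℝ} (hs : 0 < s)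
    (hP : PI lam s) (k : ℕ) : ∀ a : ℝ,
    a + k * (8 * Real.sqrt s) ≤ ∑ i, Real.negMulLog (lam i) - 3 * Real.sqrt s →
    cdfK lam a ≤ Real.exp (-2 * k) := by
  have hspos : 0 < Real.sqrt s := Real.sqrt_pos.mpr hs
  induction k with
  | zero => intro a _; simpa using cdfK_le_one h0 h1 a
  | succ k ih =>
    intro a ha
    push_cast at ha
    have h2 := ih (a + 8 * Real.sqrt s) (by linarith)
    have hk : (0 : ℝ) ≤ k := Nat.cast_nonneg k
    have h3 := step_aux h0 h1 hs hP (a := a) (by nlinarith)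
    refine h3.trans ?_
    calc _ ≤ Real.exp (-2) * Real.exp (-2 * k) := mul_le_mul_of_nonneg_left h2 (Real.exp_pos _).le
      _ = _ := by rw [← Real.exp_add]; congr 1; push_cast; ring

theorem tail_aux (h0 : ∀ i, 0 ≤ lam i) (h1 : ∑ i, lam i = 1) {s : ℝ} (hs : 0 < s)
    (hP : PI lam s) {x : ℝ} (hx : 0 ≤ x) :
    cdfK lam (∑ i, Real.negMulLog (lam i) - 3 * Real.sqrt s - x) ≤
      Real.exp (2 - x / (4 * Real.sqrt s)) := by
  have hspos : 0 < Real.sqrt s := Real.sqrt_pos.mpr hs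
  have h2 : (⌊x / (8 * Real.sqrt s)⌋₊ : ℝ) ≤ x / (8 * Real.sqrt s) :=
    Nat.floor_le (by positivity)
  have h3 : x / (8 * Real.sqrt s) < ⌊x / (8 * Real.sqrt s)⌋₊ + 1 := Nat.lt_floor_add_one _
  have h4 := iter_aux h0 h1 hs hP ⌊x / (8 * Real.sqrt s)⌋₊
    (∑ i, Real.negMulLog (lam i) - 3 * Real.sqrt s - x) (by
      rw [le_div_iff₀ (by positivity)] at h2
      linarith)
  refine h4.trans (Real.exp_le_exp.mpr ?_)
  have : x / (4 * Real.sqrt s) = 2 * (x / (8 * Real.sqrt s)) := by field_simp; ring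
  rw [this]; linarith

theorem mass_aux (h0 : ∀ i, 0 ≤ lam i) {r y μ : ℝ} (hr : 1 ≤ r)
    {w : ι → ℝ} (hw : ∀ i, 0 ≤ w i ∧ w i ≤ 1) (hwr : ∑ i, w i ≤ r)
    (hwμ : μ ^ 2 ≤ ∑ i, w i * lam i) :
    μ ^ 2 - Real.exp (-y) ≤ cdfK lam (Real.log r + y) := by
  classical
  have hr0 : 0 < r := by linarith
  have hsplit := Finset.sum_filter_add_sum_filter_not (s := Finset.univ)
      (p := fun i => lam i < Real.exp (-y) / r) (f := fun i => w i * lam i)
  have hA : ∑ i ∈ Finset.univ.filter (fun i => lam i < Real.exp (-y) / r), w i * lam i ≤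
      Real.exp (-y) := by
    calc _ ≤ ∑ i ∈ Finset.univ.filter (fun i => lam i < Real.exp (-y) / r),
          w i * (Real.exp (-y) / r) := by
          apply Finset.sum_le_sum
          intro i hi
          rw [Finset.mem_filter] at hi
          exact mul_le_mul_of_nonneg_left hi.2.le (hw i).1
      _ ≤ ∑ i, w i * (Real.exp (-y) / r) :=
          Finset.sum_le_sum_of_subset_of_nonneg (Finset.filter_subset _ _)
            (fun i _ _ => mul_nonneg (hw i).1 (by positivity))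
      _ = (∑ i, w i) * (Real.exp (-y) / r) := by rw [Finset.sum_mul]
      _ ≤ r * (Real.exp (-y) / r) := mul_le_mul_of_nonneg_right hwr (by positivity)
      _ = _ := by field_simp
  have hB : ∑ i ∈ Finset.univ.filter (fun i => ¬ lam i < Real.exp (-y) / r), w i * lam i ≤
      cdfK lam (Real.log r + y) := by
    calc _ ≤ ∑ i ∈ Finset.univ.filter (fun i => ¬ lam i < Real.exp (-y) / r), lam i := by
          apply Finset.sum_le_sum
          intro i _
          nlinarith [(hw i).2, h0 i]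
      _ ≤ _ := by
          unfold cdfK
          apply Finset.sum_le_sum_of_subset_of_nonneg
          · intro i hi
            rw [Finset.mem_filter] at hi ⊢
            refine ⟨hi.1, ?_⟩
            have h2 := Real.log_le_log (by positivity) (not_lt.mp hi.2)
            rw [Real.log_div (Real.exp_pos _).ne' hr0.ne', Real.log_exp] at h2
            linarith
          · intro i _ _; exact h0 i
  linarith

end

theorem tail_bound {ι : Type*} [Fintype ι] {lam : ι → ℝ} (h0 : ∀ i, 0 ≤ lam i)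
    (h1 : ∑ i, lam i = 1) {s : ℝ} (hs : 0 < s) (hP : PI lam s) {r μ : ℝ} (hr : 1 ≤ r)
    (hμ : 0 < μ) (hμ1 : μ ≤ 1) {w : ι → ℝ} (hw : ∀ i, 0 ≤ w i ∧ w i ≤ 1) (hwr : ∑ i, w i ≤ r)
    (hwμ : μ ^ 2 ≤ ∑ i, w i * lam i) :
    ∑ i, Real.negMulLog (lam i) ≤
      Real.log r + (1 + 4 * Real.sqrt s) * Real.log (2 / μ ^ 2) + 11 * Real.sqrt s := by
  have hspos : 0 < Real.sqrt s := Real.sqrt_pos.mpr hs
  set S := ∑ i, Real.negMulLog (lam i) with hS
  set y := Real.log (2 / μ ^ 2) with hy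
  have hy0 : 0 ≤ y := by
    apply Real.log_nonneg
    rw [le_div_iff₀ (by positivity)]
    nlinarith
  have hey : Real.exp (-y) = μ ^ 2 / 2 := by
    rw [Real.exp_neg, hy, Real.exp_log (by positivity), inv_div]
  have hm := mass_aux (y := y) h0 hr hw hwr hwμ
  rw [hey] at hm
  by_cases hc : S - 3 * Real.sqrt s ≤ Real.log r + y
  · nlinarith
  · push Not at hc
    have ht := tail_aux h0 h1 hs hP (x := S - 3 * Real.sqrt s - (Real.log r + y)) (by linarith)
    rw [← hS] at ht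
    rw [sub_sub_cancel] at ht
    have h3 : Real.exp (-y) ≤ Real.exp (2 - (S - 3 * Real.sqrt s - (Real.log r + y)) /
        (4 * Real.sqrt s)) := by
      rw [hey]; linarith
    rw [Real.exp_le_exp] at h3
    have h4 : (S - 3 * Real.sqrt s - (Real.log r + y)) / (4 * Real.sqrt s) ≤ 2 + y := by linarith
    rw [div_le_iff₀ (by positivity)] at h4
    nlinarith

end Pool.Agent.AL
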