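import Pool.Agent.AL.PoinW
import Pool.Agent.AL.Tail

/-!
# Exponential moments from the Poincaré inequality

`K = - log λ`, `S` its mean. With `G = exp (θ K / 2)` and `W = λ exp (θ K)` the Poincaré inequality
gives `M(θ) (1 - 2 θ² s) ≤ M(θ / 2)²` for `M(θ) = ∑ λ exp (θ K)`, `|θ| ≤ 1 / 4`. Iteration gives
`M(θ) ≤ exp (θ S + 8 s θ²)`.
-/

namespace Pool.Agent.AL

open scoped Matrix ComplexOrder

/-- the Poincaré inequality with weights -/
def PIW {ι : Type*} [Fintype ι] (lam : ι → ℝ) (s : ℝ) : Prop :=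
  ∀ (κ : ℝ) (G W : ℝ → ℝ), 0 ≤ κ → (∀ x, 0 ≤ x → 0 ≤ W x) →
    (∀ x y : ℝ, 0 < x → 0 < y → Real.sqrt (x * y) * (G x - G y) ^ 2 ≤ 2 * κ * (W x + W y)) →
    ∑ i, lam i * G (lam i) ^ 2 - (∑ i, lam i * G (lam i)) ^ 2 ≤ κ * s * ∑ i, W (lam i)

theorem piw {L : ℕ} [NeZero L] {d : ℕ} {Ω : Finset (ℤ × ℤ)}
    {h : Matrix (Ω → Fin d) (Ω → Fin d) ℂ} (hh : h.IsHermitian) {ψ : (Tor L → Fin d) → ℂ}
    {E Δ : ℝ} (hΔ : 0 < Δ) (hg : GS (ham Ω h L) ψ E Δ) (A : Finset (Tor L)) :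
    PIW (rdm_isHermitian A ψ).eigenvalues (2 * NN Ω * hN h * bdry A / Δ) :=
  fun _ _ _ hκ hW hG => poincareW hh hΔ hg A hκ hW hG

theorem exp_sub_sq {p q : ℝ} (h : q ≤ p) :
    (Real.exp p - Real.exp q) ^ 2 ≤ (p - q) ^ 2 * Real.exp (2 * p) := by
  have h1 : Real.exp p - Real.exp q ≤ (p - q) * Real.exp p := by
    have h2 := Real.add_one_le_exp (q - p)
    have h3 : Real.exp q = Real.exp p * Real.exp (q - p) := by
      rw [← Real.exp_add]
      congr 1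
      ring
    rw [h3]
    nlinarith [Real.exp_pos p]
  have h0 : 0 ≤ Real.exp p - Real.exp q := sub_nonneg.2 (Real.exp_le_exp.2 h)
  have h4 := pow_le_pow_left₀ h0 h1 2
  refine h4.trans (le_of_eq ?_)
  rw [mul_pow, ← Real.exp_nat_mul]
  norm_num

theorem exp_aux {θ a b : ℝ} (hθ : |θ| ≤ 1 / 4) (hab : b ≤ a) :
    Real.exp ((a + b) / 2) * (Real.exp (θ / 2 * -a) - Real.exp (θ / 2 * -b)) ^ 2 ≤
      4 * θ ^ 2 * Real.exp ((1 - θ) * a) := by
  obtain ⟨hθ1, hθ2⟩ := abs_le.1 hθ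
  have hu : 0 ≤ a - b := sub_nonneg.2 hab
  have h1 : (Real.exp (θ / 2 * -a) - Real.exp (θ / 2 * -b)) ^ 2 ≤
      θ ^ 2 / 4 * (a - b) ^ 2 * Real.exp ((1 - θ) * a - (a - b) / 4 - (a + b) / 2) := by
    rcases le_total 0 θ with h | h
    · have h2 : θ / 2 * -a ≤ θ / 2 * -b := by nlinarith
      have h3 := exp_sub_sq h2
      have h4 : (Real.exp (θ / 2 * -a) - Real.exp (θ / 2 * -b)) ^ 2 =
          (Real.exp (θ / 2 * -b) - Real.exp (θ / 2 * -a)) ^ 2 := by ring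
      rw [h4]
      refine h3.trans ?_
      have h5 : (θ / 2 * -b - θ / 2 * -a) ^ 2 = θ ^ 2 / 4 * (a - b) ^ 2 := by ring
      rw [h5]
      refine mul_le_mul_of_nonneg_left (Real.exp_le_exp.2 ?_) (by positivity)
      nlinarith
    · have h2 : θ / 2 * -b ≤ θ / 2 * -a := by nlinarith
      have h3 := exp_sub_sq h2
      refine h3.trans ?_
      have h5 : (θ / 2 * -a - θ / 2 * -b) ^ 2 = θ ^ 2 / 4 * (a - b) ^ 2 := by ring
      rw [h5]
      refine mul_le_mul_of_nonneg_left (Real.exp_le_exp.2 ?_) (by positivity)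
      nlinarith
  have h6 : (a - b) ^ 2 ≤ 16 * Real.exp ((a - b) / 4) := by
    have := sq_le_exp_aux (v := (a - b) / 4) (by positivity)
    nlinarith
  calc Real.exp ((a + b) / 2) * (Real.exp (θ / 2 * -a) - Real.exp (θ / 2 * -b)) ^ 2
      ≤ Real.exp ((a + b) / 2) * (θ ^ 2 / 4 * (a - b) ^ 2 *
        Real.exp ((1 - θ) * a - (a - b) / 4 - (a + b) / 2)) :=
        mul_le_mul_of_nonneg_left h1 (Real.exp_pos _).le
    _ = θ ^ 2 / 4 * (a - b) ^ 2 * (Real.exp ((a + b) / 2) *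
        Real.exp ((1 - θ) * a - (a - b) / 4 - (a + b) / 2)) := by ring
    _ = θ ^ 2 / 4 * (a - b) ^ 2 * (Real.exp ((1 - θ) * a) * Real.exp (-((a - b) / 4))) := by
        rw [← Real.exp_add, ← Real.exp_add]
        congr 2
        ring
    _ ≤ θ ^ 2 / 4 * (16 * Real.exp ((a - b) / 4)) *
        (Real.exp ((1 - θ) * a) * Real.exp (-((a - b) / 4))) := by
        refine mul_le_mul_of_nonneg_right (mul_le_mul_of_nonneg_left h6 (by positivity)) ?_
        positivity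
    _ = 4 * θ ^ 2 * Real.exp ((1 - θ) * a) *
        (Real.exp ((a - b) / 4) * Real.exp (-((a - b) / 4))) := by ring
    _ = 4 * θ ^ 2 * Real.exp ((1 - θ) * a) := by
        rw [← Real.exp_add, add_neg_cancel, Real.exp_zero, mul_one]

theorem sqrt_exp {θ x y : ℝ} (hθ : |θ| ≤ 1 / 4) (hx : 0 < x) (hy : 0 < y) :
    Real.sqrt (x * y) * (Real.exp (θ / 2 * -Real.log x) - Real.exp (θ / 2 * -Real.log y)) ^ 2 ≤
      2 * (2 * θ ^ 2) * (x * Real.exp (θ * -Real.log x) + y * Real.exp (θ * -Real.log y)) := by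
  have hsq : Real.sqrt (x * y) = Real.exp ((Real.log x + Real.log y) / 2) := by
    rw [← Real.log_mul hx.ne' hy.ne', ← Real.log_sqrt (by positivity),
      Real.exp_log (Real.sqrt_pos.2 (by positivity))]
  have hx' : x * Real.exp (θ * -Real.log x) = Real.exp ((1 - θ) * Real.log x) := by
    conv_lhs => rw [← Real.exp_log hx, Real.log_exp]
    rw [← Real.exp_add]
    congr 1
    ring
  have hy' : y * Real.exp (θ * -Real.log y) = Real.exp ((1 - θ) * Real.log y) := by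
    conv_lhs => rw [← Real.exp_log hy, Real.log_exp]
    rw [← Real.exp_add]
    congr 1
    ring
  rw [hsq, hx', hy']
  have hpx := Real.exp_pos ((1 - θ) * Real.log x)
  have hpy := Real.exp_pos ((1 - θ) * Real.log y)
  rcases le_total (Real.log y) (Real.log x) with h | h
  · have h1 := exp_aux hθ h
    nlinarith [mul_nonneg (sq_nonneg θ) hpy.le]
  · have h1 := exp_aux hθ h
    rw [add_comm (Real.log y)] at h1
    have h2 : (Real.exp (θ / 2 * -Real.log x) - Real.exp (θ / 2 * -Real.log y)) ^ 2 =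
        (Real.exp (θ / 2 * -Real.log y) - Real.exp (θ / 2 * -Real.log x)) ^ 2 := by ring
    rw [h2]
    nlinarith [mul_nonneg (sq_nonneg θ) hpx.le]

section
variable {ι : Type*} [Fintype ι]

/-- `∑ λ exp (θ K)` -/
noncomputable def Mom (lam : ι → ℝ) (θ : ℝ) : ℝ :=
  ∑ i, lam i * Real.exp (θ * -Real.log (lam i))

variable {lam : ι → ℝ}

theorem Mom_pos (h0 : ∀ i, 0 ≤ lam i) (h1 : ∑ i, lam i = 1) (θ : ℝ) : 0 < Mom lam θ := by
  have h2 : ∃ i, 0 < lam i := by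
    by_contra hcon
    push Not at hcon
    have : ∑ i, lam i = 0 := Finset.sum_eq_zero fun i _ => le_antisymm (hcon i) (h0 i)
    rw [this] at h1
    exact zero_ne_one h1
  obtain ⟨i, hi⟩ := h2
  refine Finset.sum_pos' (fun j _ => mul_nonneg (h0 j) (Real.exp_pos _).le)
    ⟨i, Finset.mem_univ i, mul_pos hi (Real.exp_pos _)⟩

theorem Mom_zero (h1 : ∑ i, lam i = 1) : Mom lam 0 = 1 := by
  unfold Mom
  simp [h1]

theorem Mom_step (s : ℝ) (hP : PIW lam s) {θ : ℝ} (hθ : |θ| ≤ 1 / 4) :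
    Mom lam θ * (1 - 2 * θ ^ 2 * s) ≤ Mom lam (θ / 2) ^ 2 := by
  have h := hP (2 * θ ^ 2) (fun x => Real.exp (θ / 2 * -Real.log x))
    (fun x => x * Real.exp (θ * -Real.log x)) (by positivity)
    (fun x hx => mul_nonneg hx (Real.exp_pos _).le) (fun x y hx hy => sqrt_exp hθ hx hy)
  have h2 : ∑ i, lam i * Real.exp (θ / 2 * -Real.log (lam i)) ^ 2 = Mom lam θ := by
    unfold Mom
    refine Finset.sum_congr rfl fun i _ => ?_
    rw [← Real.exp_nat_mul]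
    congr 2
    push_cast
    ring
  beta_reduce at h
  rw [h2] at h
  change Mom lam θ - Mom lam (θ / 2) ^ 2 ≤ 2 * θ ^ 2 * s * Mom lam θ at h
  linarith

/-- the cumulant -/
noncomputable def Cum (lam : ι → ℝ) (θ : ℝ) : ℝ :=
  Real.log (Mom lam θ) - θ * ∑ i, Real.negMulLog (lam i)

theorem Cum_step (h0 : ∀ i, 0 ≤ lam i) (h1 : ∑ i, lam i = 1) {s : ℝ} (hs : 0 ≤ s)
    (hP : PIW lam s) {θ : ℝ} (hθ : |θ| ≤ 1 / 4) (hθs : 4 * s * θ ^ 2 ≤ 1) :
    Cum lam θ ≤ 2 * Cum lam (θ / 2) + 4 * s * θ ^ 2 := by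
  have hst := Mom_step s hP hθ
  have hM := Mom_pos h0 h1 θ
  have hM2 := Mom_pos h0 h1 (θ / 2)
  have hx0 : 0 ≤ 2 * θ ^ 2 * s := by positivity
  have hx1 : 2 * θ ^ 2 * s ≤ 1 / 2 := by linarith
  have hx2 : 0 < 1 - 2 * θ ^ 2 * s := by linarith
  have h2 := Real.log_le_log (mul_pos hM hx2) hst
  rw [Real.log_mul hM.ne' hx2.ne', Real.log_pow] at h2
  have h3 := Real.one_sub_inv_le_log_of_pos hx2
  have h4 : -(2 * (2 * θ ^ 2 * s)) ≤ 1 - (1 - 2 * θ ^ 2 * s)⁻¹ := by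
    rw [neg_le_sub_iff_le_add, inv_le_iff_one_le_mul₀' hx2]
    nlinarith
  unfold Cum
  push_cast at h2
  linarith

theorem Cum_iter (h0 : ∀ i, 0 ≤ lam i) (h1 : ∑ i, lam i = 1) {s : ℝ} (hs : 0 ≤ s)
    (hP : PIW lam s) {θ : ℝ} (hθ : |θ| ≤ 1 / 4) (hθs : 4 * s * θ ^ 2 ≤ 1) (n : ℕ) :
    Cum lam θ ≤ 2 ^ n * Cum lam (θ / 2 ^ n) + 8 * s * θ ^ 2 * (1 - (1 / 2) ^ n) := by
  induction n with
  | zero => simp
  | succ n ih =>
    have hp : (1 : ℝ) ≤ 2 ^ n := one_le_pow₀ one_le_two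
    have hq : (2 : ℝ) ^ n * (1 / 2) ^ n = 1 := by
      rw [← mul_pow]
      norm_num
    have h2 : |θ / 2 ^ n| ≤ 1 / 4 := by
      rw [abs_div, abs_of_pos (show (0 : ℝ) < 2 ^ n by positivity)]
      exact (div_le_self (abs_nonneg θ) hp).trans hθ
    have h3 : 4 * s * (θ / 2 ^ n) ^ 2 ≤ 1 := by
      refine le_trans ?_ hθs
      refine mul_le_mul_of_nonneg_left ?_ (by positivity)
      rw [div_pow]
      refine div_le_self (sq_nonneg θ) ?_
      exact one_le_pow₀ hp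
    have h4 := Cum_step h0 h1 hs hP h2 h3
    have h5 : θ / 2 ^ n / 2 = θ / 2 ^ (n + 1) := by
      rw [pow_succ]
      field_simp
    rw [h5] at h4
    have h6 := mul_le_mul_of_nonneg_left h4 (show (0 : ℝ) ≤ 2 ^ n by positivity)
    have h7 : (2 : ℝ) ^ n * (2 * Cum lam (θ / 2 ^ (n + 1)) + 4 * s * (θ / 2 ^ n) ^ 2) =
        2 ^ (n + 1) * Cum lam (θ / 2 ^ (n + 1)) + 4 * s * θ ^ 2 * (1 / 2) ^ n := by
      have h8 : (θ / 2 ^ n) ^ 2 = θ ^ 2 * (1 / 2) ^ n * (1 / 2) ^ n := by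
        rw [div_pow, one_div, inv_pow]
        field_simp
      rw [h8, pow_succ]
      calc (2 : ℝ) ^ n * (2 * Cum lam (θ / (2 ^ n * 2)) +
            4 * s * (θ ^ 2 * (1 / 2) ^ n * (1 / 2) ^ n))
          = 2 ^ n * 2 * Cum lam (θ / (2 ^ n * 2)) +
            4 * s * θ ^ 2 * (1 / 2) ^ n * (2 ^ n * (1 / 2) ^ n) := by ring
        _ = _ := by rw [hq]; ring
    rw [h7] at h6
    have h9 : (1 / 2 : ℝ) ^ (n + 1) = (1 / 2) ^ n / 2 := by
      rw [pow_succ]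
      ring
    rw [h9]
    linarith

theorem Cum_deriv (h1 : ∑ i, lam i = 1) : HasDerivAt (Cum lam) 0 0 := by
  have h2 : HasDerivAt (Mom lam) (∑ i, lam i * -Real.log (lam i)) 0 := by
    unfold Mom
    refine HasDerivAt.fun_sum fun i _ => ?_
    have h3 : HasDerivAt (fun θ : ℝ => θ * -Real.log (lam i)) (-Real.log (lam i)) 0 := by
      simpa using (hasDerivAt_id (0 : ℝ)).mul_const (-Real.log (lam i))
    have h4 := (h3.exp).const_mul (lam i)
    simpa using h4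
  have h5 : HasDerivAt (fun θ => Real.log (Mom lam θ)) (∑ i, lam i * -Real.log (lam i)) 0 := by
    have h6 := h2.log (by rw [Mom_zero h1]; exact one_ne_zero)
    rwa [Mom_zero h1, div_one] at h6
  have h7 : HasDerivAt (fun θ : ℝ => θ * ∑ i, Real.negMulLog (lam i))
      (∑ i, Real.negMulLog (lam i)) 0 := by
    simpa using (hasDerivAt_id (0 : ℝ)).mul_const (∑ i, Real.negMulLog (lam i))
  have h8 := h5.sub h7
  have h9 : ∑ i, lam i * -Real.log (lam i) - ∑ i, Real.negMulLog (lam i) = 0 := by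
    rw [sub_eq_zero]
    refine Finset.sum_congr rfl fun i _ => ?_
    rw [Real.negMulLog]
    ring
  rw [h9] at h8
  exact h8

theorem Cum_zero (h1 : ∑ i, lam i = 1) : Cum lam 0 = 0 := by
  unfold Cum
  rw [Mom_zero h1]
  simp

theorem Cum_le (h0 : ∀ i, 0 ≤ lam i) (h1 : ∑ i, lam i = 1) {s : ℝ} (hs : 0 ≤ s)
    (hP : PIW lam s) {θ : ℝ} (hθ : |θ| ≤ 1 / 4) (hθs : 4 * s * θ ^ 2 ≤ 1) :
    Cum lam θ ≤ 8 * s * θ ^ 2 := by
  rcases eq_or_ne θ 0 with rfl | hne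
  · rw [Cum_zero h1]
    simp
  have h2 := (Cum_deriv h1).tendsto_slope_zero
  have h3 : Filter.Tendsto (fun n : ℕ => θ / 2 ^ n) Filter.atTop (nhdsWithin 0 {0}ᶜ) := by
    rw [tendsto_nhdsWithin_iff]
    constructor
    · have h4 : Filter.Tendsto (fun n : ℕ => θ * (1 / 2 : ℝ) ^ n) Filter.atTop (nhds (θ * 0)) :=
        (tendsto_pow_atTop_nhds_zero_of_lt_one (by norm_num) (by norm_num)).const_mul θ
      rw [mul_zero] at h4
      refine h4.congr fun n => ?_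
      rw [one_div, inv_pow, div_eq_mul_inv]
    · exact Filter.Eventually.of_forall fun n => div_ne_zero hne (by positivity)
  have h5 := (h2.comp h3).const_mul θ
  rw [mul_zero] at h5
  have h6 : Filter.Tendsto (fun n : ℕ => 2 ^ n * Cum lam (θ / 2 ^ n)) Filter.atTop (nhds 0) := by
    refine h5.congr fun n => ?_
    simp only [Function.comp_apply, zero_add, Cum_zero h1, sub_zero, smul_eq_mul]
    field_simp
  refine ge_of_tendsto (x := Filter.atTop) (f := fun n : ℕ =>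
    2 ^ n * Cum lam (θ / 2 ^ n) + 8 * s * θ ^ 2) ?_ (Filter.Eventually.of_forall fun n => ?_)
  · simpa using h6.add_const (8 * s * θ ^ 2)
  · refine (Cum_iter h0 h1 hs hP hθ hθs n).trans ?_
    have h7 : 0 ≤ 8 * s * θ ^ 2 * (1 / 2) ^ n := by positivity
    linarith

theorem exp_moment (h0 : ∀ i, 0 ≤ lam i) (h1 : ∑ i, lam i = 1) {s : ℝ} (hs : 0 ≤ s)
    (hP : PIW lam s) {θ : ℝ} (hθ : |θ| ≤ 1 / 4) (hθs : 4 * s * θ ^ 2 ≤ 1) :
    ∑ i, lam i * Real.exp (θ * (-Real.log (lam i) - ∑ j, Real.negMulLog (lam j))) ≤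
      Real.exp (8 * s * θ ^ 2) := by
  have h2 := Cum_le h0 h1 hs hP hθ hθs
  have hM := Mom_pos h0 h1 θ
  have h3 : ∑ i, lam i * Real.exp (θ * (-Real.log (lam i) - ∑ j, Real.negMulLog (lam j))) =
      Mom lam θ * Real.exp (-(θ * ∑ j, Real.negMulLog (lam j))) := by
    unfold Mom
    rw [Finset.sum_mul]
    refine Finset.sum_congr rfl fun i _ => ?_
    rw [mul_assoc, ← Real.exp_add]
    congr 2
    ring
  rw [h3]
  unfold Cum at h2
  calc Mom lam θ * Real.exp (-(θ * ∑ j, Real.negMulLog (lam j)))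
      = Real.exp (Real.log (Mom lam θ) - θ * ∑ j, Real.negMulLog (lam j)) := by
        rw [sub_eq_add_neg, Real.exp_add, Real.exp_log hM]
    _ ≤ _ := Real.exp_le_exp.2 h2

end

end Pool.Agent.AL
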