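import Pool.Agent.AL.Rank
import Pool.Agent.AL.ExpMom

/-!
# Approximation of a vector by a vector of bounded Schmidt rank

`approx_rank`: projection to the eigenvectors of `ρ_A` with eigenvalues `≥ exp (-y)`.
-/

namespace Pool.Agent.AL

open scoped Matrix ComplexOrder

section aux

variable {m n : Type*} [Fintype m] [DecidableEq m] [Fintype n]

omit [DecidableEq m] in
/-- the square of the Hilbert-Schmidt norm as a trace -/
private theorem hs_trace (X : Matrix m n ℂ) :
    Matrix.trace (X * Xᴴ) = ((∑ i, ∑ j, ‖X i j‖ ^ 2 : ℝ) : ℂ) := by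
  simp only [Matrix.trace, Matrix.diag_apply, Matrix.mul_apply, Matrix.conjTranspose_apply]
  push_cast
  refine Finset.sum_congr rfl fun i _ => Finset.sum_congr rfl fun j _ => ?_
  rw [← Complex.mul_conj']
  rfl

/-- the spectral decomposition -/
private theorem spec {R : Matrix m m ℂ} (hR : R.IsHermitian) :
    ∃ U : Matrix m m ℂ, U * Uᴴ = 1 ∧ Uᴴ * U = 1 ∧
      R = U * Matrix.diagonal (fun i => (hR.eigenvalues i : ℂ)) * Uᴴ := by
  refine ⟨hR.eigenvectorUnitary, ?_, ?_, ?_⟩
  · exact (Matrix.mem_unitaryGroup_iff).1 hR.eigenvectorUnitary.2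
  · exact (Matrix.mem_unitaryGroup_iff').1 hR.eigenvectorUnitary.2
  · conv_lhs => rw [hR.spectral_theorem, Unitary.conjStarAlgAut_apply]
    rfl

end aux

theorem approx_rank {V : Type} [Fintype V] [DecidableEq V] {d : ℕ} (A : Finset V)
    {ψ : (V → Fin d) → ℂ} (hU : Unitv ψ) {y δ : ℝ} (hδ : δ < 1)
    (hout : ∑ i ∈ Finset.univ.filter
      (fun i => ¬ Real.exp (-y) ≤ (rdm_isHermitian A ψ).eigenvalues i),
      (rdm_isHermitian A ψ).eigenvalues i ≤ δ) :
    ∃ φ : (V → Fin d) → ℂ, Unitv φ ∧ ((mat A φ).rank : ℝ) ≤ Real.exp y ∧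
      1 - δ ≤ ‖ip φ ψ‖ ^ 2 := by
  classical
  set M := mat A ψ with hM
  have hR : (M * Mᴴ).IsHermitian := rdm_isHermitian A ψ
  change ∑ i ∈ Finset.univ.filter (fun i => ¬ Real.exp (-y) ≤ hR.eigenvalues i),
    hR.eigenvalues i ≤ δ at hout
  set lam := hR.eigenvalues with hlam
  obtain ⟨U, hU1, hU2, hU3⟩ := spec hR
  rw [← hlam] at hU3
  have hlam0 : ∀ i, 0 ≤ lam i := by
    intro i
    exact (Matrix.posSemidef_self_mul_conjTranspose M).eigenvalues_nonneg i
  have hsum : ∑ i, lam i = 1 := by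
    have h1 := hs_trace M
    have h2 : ∑ i, ∑ j, ‖M i j‖ ^ 2 = 1 := by
      rw [hM, ← sum_mat]
      exact hU
    rw [h2, hU3, Matrix.trace_mul_comm, ← Matrix.mul_assoc, hU2, Matrix.one_mul,
      Matrix.trace_diagonal] at h1
    exact_mod_cast h1
  have hlam1 : ∀ i, lam i ≤ 1 := by
    intro i
    rw [← hsum]
    exact Finset.single_le_sum (fun j _ => hlam0 j) (Finset.mem_univ i)
  set I := Finset.univ.filter fun i => Real.exp (-y) ≤ lam i with hI
  have hcard : (I.card : ℝ) ≤ Real.exp y := by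
    have h1 : (I.card : ℝ) * Real.exp (-y) ≤ 1 := by
      rw [← hsum, ← nsmul_eq_mul]
      calc I.card • Real.exp (-y) ≤ ∑ i ∈ I, lam i :=
            Finset.card_nsmul_le_sum _ _ _ fun i hi => (Finset.mem_filter.1 hi).2
        _ ≤ ∑ i, lam i := Finset.sum_le_univ_sum_of_nonneg hlam0
    rw [Real.exp_neg] at h1
    have h2 := Real.exp_pos y
    rwa [← div_eq_mul_inv, div_le_one h2] at h1
  set mm : ℝ := ∑ i ∈ I, lam i with hmm
  have hmsum : mm + ∑ i ∈ Finset.univ.filter (fun i => ¬ Real.exp (-y) ≤ lam i), lam i =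
      1 := by
    rw [hmm, hI, Finset.sum_filter_add_sum_filter_not, hsum]
  have hm2 : 1 - δ ≤ mm := by linarith
  have hm0 : 0 < mm := by linarith
  -- the spectral projection
  set e : ({v // v ∈ A} → Fin d) → ℂ := fun i => if i ∈ I then 1 else 0 with he
  have hee : ∀ i, e i * e i = e i := by
    intro i
    simp only [he]
    split_ifs <;> simp
  have hestar : ∀ i, star (e i) = e i := by
    intro i
    simp only [he]
    split_ifs <;> simp
  set Q := U * Matrix.diagonal e * Uᴴ with hQ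
  have hQH : Qᴴ = Q := by
    rw [hQ, Matrix.conjTranspose_mul, Matrix.conjTranspose_mul, Matrix.conjTranspose_conjTranspose,
      Matrix.diagonal_conjTranspose, ← Matrix.mul_assoc]
    congr 3
    funext i
    exact hestar i
  have hQQ : Q * Q = Q := by
    have h1 : Q * Q = U * (Matrix.diagonal e * (Uᴴ * U) * Matrix.diagonal e) * Uᴴ := by
      rw [hQ]
      simp only [Matrix.mul_assoc]
    rw [h1, hU2, Matrix.mul_one, Matrix.diagonal_mul_diagonal, hQ]
    congr 3
    funext i
    exact hee i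
  have htrQ : Matrix.trace (M * Mᴴ * Q) = (mm : ℂ) := by
    rw [hU3, hQ]
    have h1 : U * Matrix.diagonal (fun i => (lam i : ℂ)) * Uᴴ * (U * Matrix.diagonal e * Uᴴ) =
        U * (Matrix.diagonal (fun i => (lam i : ℂ)) * (Uᴴ * U) * Matrix.diagonal e) * Uᴴ := by
      simp only [Matrix.mul_assoc]
    rw [h1, hU2, Matrix.mul_one, Matrix.diagonal_mul_diagonal, Matrix.trace_mul_comm,
      ← Matrix.mul_assoc, hU2, Matrix.one_mul, Matrix.trace_diagonal, hmm]
    push_cast
    rw [← Finset.sum_filter_add_sum_filter_not Finset.univ (fun i => i ∈ I)]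
    have h2 : ∑ i ∈ Finset.univ.filter (fun i => ¬ i ∈ I), (lam i : ℂ) * e i = 0 := by
      refine Finset.sum_eq_zero fun i hi => ?_
      have := (Finset.mem_filter.1 hi).2
      simp [he, this]
    rw [h2, add_zero, Finset.filter_mem_eq_inter, Finset.univ_inter]
    refine Finset.sum_congr rfl fun i hi => ?_
    simp [he, hi]
  set r : ℝ := (Real.sqrt mm)⁻¹ with hr
  have hsq : Real.sqrt mm * Real.sqrt mm = mm := Real.mul_self_sqrt hm0.le
  have hsq0 : 0 < Real.sqrt mm := Real.sqrt_pos.2 hm0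
  have hrr : r * r * mm = 1 := by
    rw [hr]
    field_simp
    nlinarith
  set W := (r : ℂ) • (Q * M) with hW
  set φ : (V → Fin d) → ℂ := fun σ => W (resA A σ) (resC A σ) with hφ
  have hmatφ : mat A φ = W := by
    ext a b
    simp only [mat, Matrix.of_apply, hφ]
    congr 1
    · funext v
      simp [resA, glue, v.2]
    · funext v
      simp [resC, glue, v.2]
  have hWn : ∑ i, ∑ j, ‖W i j‖ ^ 2 = 1 := by
    have h1 := hs_trace W
    have h2 : Matrix.trace (W * Wᴴ) = 1 := by
      rw [hW, Matrix.conjTranspose_smul, Matrix.smul_mul, Matrix.mul_smul, smul_smul,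
        Matrix.trace_smul, Matrix.conjTranspose_mul, hQH, Matrix.mul_assoc,
        ← Matrix.mul_assoc M, Matrix.trace_mul_comm, Matrix.mul_assoc, hQQ, htrQ]
      have h3 : star (r : ℂ) = (r : ℂ) := Complex.conj_ofReal r
      rw [h3, smul_eq_mul, ← Complex.ofReal_mul, ← Complex.ofReal_mul, hrr, Complex.ofReal_one]
    rw [h2] at h1
    exact_mod_cast h1.symm
  refine ⟨φ, ?_, ?_, ?_⟩
  · unfold Unitv
    rw [sum_mat A, hmatφ]
    exact hWn
  · rw [hmatφ]
    refine le_trans ?_ hcard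
    have h1 : W.rank ≤ I.card := by
      have h2 : W = (((r : ℂ) • U) * Matrix.diagonal e) * (Uᴴ * M) := by
        rw [hW, hQ, Matrix.smul_mul, Matrix.smul_mul]
        simp only [Matrix.mul_assoc]
      rw [h2]
      refine (Matrix.rank_mul_le_left _ _).trans ((Matrix.rank_mul_le_right _ _).trans ?_)
      rw [Matrix.rank_diagonal, Fintype.card_subtype]
      refine Finset.card_le_card ?_
      intro i hi
      have h3 := (Finset.mem_filter.1 hi).2
      by_contra h4
      exact h3 (by simp [he, h4])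
    exact_mod_cast h1
  · rw [ip_mat A, hmatφ, ← hM]
    have h1 : Matrix.trace (Wᴴ * M) = ((r * mm : ℝ) : ℂ) := by
      rw [hW, Matrix.conjTranspose_smul, Matrix.smul_mul, Matrix.trace_smul,
        Matrix.conjTranspose_mul, hQH, Matrix.mul_assoc, Matrix.trace_mul_comm, Matrix.mul_assoc,
        Matrix.trace_mul_comm, htrQ]
      have h3 : star (r : ℂ) = (r : ℂ) := Complex.conj_ofReal r
      rw [h3, smul_eq_mul, ← Complex.ofReal_mul]
    rw [h1, Complex.norm_real]
    have h2 : r * mm = Real.sqrt mm := by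
      rw [hr]
      field_simp
      nlinarith
    rw [h2, Real.norm_of_nonneg hsq0.le, Real.sq_sqrt hm0.le]
    exact hm2

/-- the upper tail of `- log λ` -/
theorem upper_tail {ι : Type*} [Fintype ι] {lam : ι → ℝ} (h0 : ∀ i, 0 ≤ lam i)
    (h1 : ∑ i, lam i = 1) {s : ℝ} (hs : 0 ≤ s) (hP : PIW lam s) (x : ℝ) :
    ∑ i ∈ Finset.univ.filter
      (fun i => ¬ Real.exp (-(∑ j, Real.negMulLog (lam j) + x)) ≤ lam i), lam i ≤
      Real.exp (2 - x / (2 * Real.sqrt (s + 4))) := by
  set S := ∑ j, Real.negMulLog (lam j) with hS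
  have hq2 : (2 : ℝ) ≤ Real.sqrt (s + 4) := by
    rw [show (2 : ℝ) = Real.sqrt (2 ^ 2) by rw [Real.sqrt_sq (by norm_num)]]
    exact Real.sqrt_le_sqrt (by linarith)
  have hq0 : 0 < Real.sqrt (s + 4) := by linarith
  have hqq : Real.sqrt (s + 4) ^ 2 = s + 4 := Real.sq_sqrt (by linarith)
  set θ : ℝ := 1 / (2 * Real.sqrt (s + 4)) with hθ
  have hθ0 : 0 < θ := by positivity
  have hθ1 : |θ| ≤ 1 / 4 := by
    rw [abs_of_pos hθ0, hθ, div_le_div_iff₀ (by positivity) (by norm_num)]
    linarith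
  have hθ2 : θ ^ 2 * (s + 4) = 1 / 4 := by
    rw [← hqq, hθ]
    field_simp
    norm_num
  have hθs : 4 * s * θ ^ 2 ≤ 1 := by nlinarith [sq_nonneg θ]
  have hm := exp_moment h0 h1 hs hP hθ1 hθs
  rw [← hS] at hm
  have hstep : ∑ i ∈ Finset.univ.filter (fun i => ¬ Real.exp (-(S + x)) ≤ lam i), lam i *
      Real.exp (θ * x) ≤ ∑ i, lam i * Real.exp (θ * (-Real.log (lam i) - S)) := by
    refine (Finset.sum_le_sum fun i hi => ?_).trans
      (Finset.sum_le_sum_of_subset_of_nonneg (Finset.filter_subset _ _)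
        (fun i _ _ => mul_nonneg (h0 i) (Real.exp_pos _).le))
    have hi' := not_le.1 (Finset.mem_filter.1 hi).2
    rcases (h0 i).eq_or_lt with h | h
    · rw [← h]
      simp
    · refine mul_le_mul_of_nonneg_left (Real.exp_le_exp.2 ?_) (h0 i)
      have h2 : Real.log (lam i) < -(S + x) := by
        rw [← Real.log_exp (-(S + x))]
        exact Real.log_lt_log h hi'
      refine mul_le_mul_of_nonneg_left ?_ hθ0.le
      linarith
  rw [← Finset.sum_mul] at hstep
  have h3 : x / (2 * Real.sqrt (s + 4)) = θ * x := by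
    rw [hθ]
    ring
  rw [h3, Real.exp_sub, le_div_iff₀ (Real.exp_pos _)]
  refine hstep.trans (hm.trans (Real.exp_le_exp.2 ?_))
  nlinarith [sq_nonneg θ]

end Pool.Agent.AL
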