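import Pool.Agent.AL.Geo

/-!
# PIECE AL-Count: counting edges

`EE_comm`: `ed u X Y = ed (-u) Y X` (bijection `p ↦ p + u`).
`per_eq`: for `X ⊆ K`: `p + u ∉ X` iff `p + u ∉ K` or `p + u ∈ K \ X` (exclusive).
`per_pos`: take a point of `K` with the largest first coordinate.
`ed_le_bd`: `ed (0,-1) X U ≤ #{p ∈ X | p + (0,-1) ∉ X} = #X - #{p ∈ X | p + (0,-1) ∈ X}
= #X - #{p ∈ X | p + (0,1) ∈ X} = #{p ∈ X | p + (0,1) ∉ X} ≤ bd (0,1) X K`.
-/

namespace Pool.Agent.AL

private theorem count_ed_comm (u : Pt) (X Y : Finset Pt) : ed u X Y = ed (-u) Y X := by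
  unfold ed
  refine Finset.card_bij (fun p _ => p + u) ?_ ?_ ?_
  · intro p hp
    have hp' := Finset.mem_filter.1 hp
    refine Finset.mem_filter.2 ⟨hp'.2, ?_⟩
    rw [add_neg_cancel_right]
    exact hp'.1
  · intro p _ q _ h
    exact add_right_cancel h
  · intro q hq
    have hq' := Finset.mem_filter.1 hq
    refine ⟨q + -u, Finset.mem_filter.2 ⟨hq'.2, ?_⟩, ?_⟩
    · rw [neg_add_cancel_right]
      exact hq'.1
    · exact neg_add_cancel_right q u

private theorem count_ed_union (u : Pt) {X X' : Finset Pt} (h : Disjoint X X') (Y : Finset Pt) :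
    ed u (X ∪ X') Y = ed u X Y + ed u X' Y := by
  unfold ed
  rw [Finset.filter_union, Finset.card_union_of_disjoint]
  exact Finset.disjoint_filter_filter h

private theorem count_bd_union (u : Pt) {X X' : Finset Pt} (h : Disjoint X X') (K : Finset Pt) :
    bd u (X ∪ X') K = bd u X K + bd u X' K := by
  unfold bd
  rw [Finset.filter_union, Finset.card_union_of_disjoint]
  exact Finset.disjoint_filter_filter h

private theorem count_bd_eq (u : Pt) {X K : Finset Pt} (h : X ⊆ K) :
    bd u X X = bd u X K + ed u X (K \ X) := by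
  unfold bd ed
  rw [← Finset.card_union_of_disjoint]
  · congr 1
    ext p
    simp only [Finset.mem_filter, Finset.mem_union, Finset.mem_sdiff]
    constructor
    · rintro ⟨h1, h2⟩
      by_cases h3 : p + u ∈ K
      · exact Or.inr ⟨h1, h3, h2⟩
      · exact Or.inl ⟨h1, h3⟩
    · rintro (⟨h1, h2⟩ | ⟨h1, h2, h3⟩)
      · exact ⟨h1, fun h3 => h2 (h h3)⟩
      · exact ⟨h1, h3⟩
  · rw [Finset.disjoint_left]
    intro p h1 h2
    exact (Finset.mem_filter.1 h1).2 (Finset.mem_sdiff.1 (Finset.mem_filter.1 h2).2).1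

private theorem count_bd_add_ed (u : Pt) (X Y : Finset Pt) : bd u X Y + ed u X Y = X.card := by
  unfold bd ed
  rw [Nat.add_comm]
  exact Finset.card_filter_add_card_filter_not (s := X) (fun p => p + u ∈ Y)

private theorem count_ed_zero (u : Pt) {X Y : Finset Pt} (h : ∀ p ∈ X, p + u ∉ Y) :
    ed u X Y = 0 := by
  unfold ed
  rw [Finset.card_eq_zero, Finset.filter_eq_empty_iff]
  exact fun p hp => h p hp

private theorem count_ed_le (u : Pt) {X U K : Finset Pt} (hXU : Disjoint X U)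
    (h : ∀ p ∈ X, p + u ∈ K → p + u ∈ X) : ed (-u) X U ≤ bd u X K := by
  have h1 : ed (-u) X U ≤ bd (-u) X X := by
    unfold ed bd
    refine Finset.card_le_card fun p hp => ?_
    have hp' := Finset.mem_filter.1 hp
    exact Finset.mem_filter.2 ⟨hp'.1, fun h2 => Finset.disjoint_left.1 hXU h2 hp'.2⟩
  have h2 : bd u X X ≤ bd u X K := by
    unfold bd
    refine Finset.card_le_card fun p hp => ?_
    have hp' := Finset.mem_filter.1 hp
    exact Finset.mem_filter.2 ⟨hp'.1, fun h3 => hp'.2 (h p hp'.1 h3)⟩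
  have h3 := count_bd_add_ed u X X
  have h4 := count_bd_add_ed (-u) X X
  have h5 := count_ed_comm u X X
  omega

private theorem count_neg1 : -((1, 0) : Pt) = (-1, 0) := by
  ext <;> simp

private theorem count_neg2 : -((-1, 0) : Pt) = (1, 0) := by
  ext <;> simp

private theorem count_neg3 : -((0, 1) : Pt) = (0, -1) := by
  ext <;> simp

private theorem count_neg4 : -((0, -1) : Pt) = (0, 1) := by
  ext <;> simp

theorem EE_comm (X Y : Finset Pt) : EE X Y = EE Y X := by
  unfold EE
  rw [count_ed_comm (1, 0) X Y, count_ed_comm (-1, 0) X Y, count_ed_comm (0, 1) X Y,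
    count_ed_comm (0, -1) X Y, count_neg1, count_neg2, count_neg3, count_neg4]
  omega

theorem EE_union_left {X X' : Finset Pt} (h : Disjoint X X') (Y : Finset Pt) :
    EE (X ∪ X') Y = EE X Y + EE X' Y := by
  unfold EE
  rw [count_ed_union _ h, count_ed_union _ h, count_ed_union _ h, count_ed_union _ h]
  omega

theorem EE_union_right (X : Finset Pt) {Y Y' : Finset Pt} (h : Disjoint Y Y') :
    EE X (Y ∪ Y') = EE X Y + EE X Y' := by
  rw [EE_comm, EE_union_left h, EE_comm Y X, EE_comm Y' X]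

theorem BB_union {X X' : Finset Pt} (h : Disjoint X X') (K : Finset Pt) :
    BB (X ∪ X') K = BB X K + BB X' K := by
  unfold BB
  rw [count_bd_union _ h, count_bd_union _ h, count_bd_union _ h, count_bd_union _ h]
  omega

theorem per_eq {X K : Finset Pt} (h : X ⊆ K) : per X = BB X K + EE X (K \ X) := by
  unfold per BB EE
  rw [count_bd_eq (1, 0) h, count_bd_eq (-1, 0) h, count_bd_eq (0, 1) h, count_bd_eq (0, -1) h]
  omega

theorem EE_eq_zero {X Y : Finset Pt} (h : ∀ p ∈ X, ∀ q ∈ Y, ¬ Adj p q) : EE X Y = 0 := by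
  unfold EE
  rw [count_ed_zero (1, 0) fun p hp hq => h p hp _ hq (Or.inl rfl),
    count_ed_zero (-1, 0) fun p hp hq => h p hp _ hq (Or.inr (Or.inl rfl)),
    count_ed_zero (0, 1) fun p hp hq => h p hp _ hq (Or.inr (Or.inr (Or.inl rfl))),
    count_ed_zero (0, -1) fun p hp hq => h p hp _ hq (Or.inr (Or.inr (Or.inr rfl)))]

theorem per_pos {K : Finset Pt} (h : K.Nonempty) : 0 < per K := by
  obtain ⟨p, hp, hmax⟩ := Finset.exists_max_image K (fun p => p.1) h
  have h1 : 0 < bd (1, 0) K K := by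
    unfold bd
    refine Finset.card_pos.2 ⟨p, Finset.mem_filter.2 ⟨hp, fun h2 => ?_⟩⟩
    have h3 := hmax _ h2
    change p.1 + 1 ≤ p.1 at h3
    omega
  unfold per BB
  omega

theorem ed_le_bd {X U K : Finset Pt} (hXU : Disjoint X U)
    (h : ∀ p ∈ X, p + (0, 1) ∈ K → p + (0, 1) ∈ X) :
    ed (0, -1) X U ≤ bd (0, 1) X K := by
  rw [← count_neg3]
  exact count_ed_le (0, 1) hXU h

theorem ed_le_bd' {X U K : Finset Pt} (hXU : Disjoint X U)
    (h : ∀ p ∈ X, p + (0, -1) ∈ K → p + (0, -1) ∈ X) :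
    ed (0, 1) X U ≤ bd (0, -1) X K := by
  rw [← count_neg4]
  exact count_ed_le (0, -1) hXU h

end Pool.Agent.AL
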