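import Pool.Agent.AL.QDefs

/-!
# PIECE AL-Cross: the number of the translates of `Ω` which meet both sides

`D z := #{v | ¬ (v ∈ A ↔ v + red L z ∈ A)}`: `D (z + z') ≤ D z + D z'`, `D (-z) = D z`,
`D (1, 0), D (0, 1) ≤ bdry A`, so `D z ≤ (|z.1| + |z.2|) bdry A`. If `v + red x ∈ A` and
`v + red y ∉ A` then `v + red x` is counted in `D (y - x)`.
`bdry_Qs`: the boundary edges of the square lie on its four sides.
-/

namespace Pool.Agent.AL

variable {L : ℕ} [NeZero L]

open Classical in
/-- the number of the points `w` such that exactly one of `w`, `w + g` is in `A` -/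
private noncomputable def CrossD (A : Finset (Tor L)) (g : Tor L) : ℕ :=
  (Finset.univ.filter fun w : Tor L => ¬ (w ∈ A ↔ w + g ∈ A)).card

private theorem CrossD_add (A : Finset (Tor L)) (g h : Tor L) :
    CrossD A (g + h) ≤ CrossD A g + CrossD A h := by
  classical
  have h1 : (Finset.univ.filter fun w : Tor L => ¬ (w ∈ A ↔ w + (g + h) ∈ A)) ⊆
      (Finset.univ.filter fun w : Tor L => ¬ (w ∈ A ↔ w + g ∈ A)) ∪
        (Finset.univ.filter fun w : Tor L => ¬ (w + g ∈ A ↔ w + g + h ∈ A)) := by
    intro w hw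
    simp only [Finset.mem_filter, Finset.mem_univ, true_and, Finset.mem_union] at hw ⊢
    rw [← add_assoc] at hw
    by_contra hcon
    push Not at hcon
    exact hw (hcon.1.trans hcon.2)
  have h2 : (Finset.univ.filter fun w : Tor L => ¬ (w + g ∈ A ↔ w + g + h ∈ A)).card ≤
      CrossD A h := by
    unfold CrossD
    refine Finset.card_le_card_of_injOn (fun w => w + g) ?_ ?_
    · intro w hw
      simp only [Finset.coe_filter, Finset.mem_univ, true_and, Set.mem_ofPred_eq] at hw ⊢
      exact hw
    · intro a _ b _ hab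
      exact add_right_cancel hab
  refine (Finset.card_le_card h1).trans ((Finset.card_union_le _ _).trans ?_)
  exact Nat.add_le_add_left h2 _

private theorem CrossD_neg (A : Finset (Tor L)) (g : Tor L) : CrossD A (-g) ≤ CrossD A g := by
  classical
  unfold CrossD
  refine Finset.card_le_card_of_injOn (fun w => w + -g) ?_ ?_
  · intro w hw
    simp only [Finset.coe_filter, Finset.mem_univ, true_and, Set.mem_ofPred_eq] at hw ⊢
    rw [neg_add_cancel_right]
    exact fun h => hw h.symm
  · intro a _ b _ hab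
    exact add_right_cancel hab

private theorem CrossD_zero (A : Finset (Tor L)) : CrossD A 0 = 0 := by
  classical
  unfold CrossD
  simp

private theorem CrossD_nsmul (A : Finset (Tor L)) (g : Tor L) (n : ℕ) :
    CrossD A (n • g) ≤ n * CrossD A g := by
  induction n with
  | zero => simp [CrossD_zero]
  | succ n ih =>
    rw [succ_nsmul, Nat.succ_mul]
    exact (CrossD_add A _ _).trans (Nat.add_le_add_right ih _)

private theorem CrossD_zsmul (A : Finset (Tor L)) (g : Tor L) (n : ℤ) :
    CrossD A (n • g) ≤ n.natAbs * CrossD A g := by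
  rcases Int.natAbs_eq n with h | h
  · rw [h, natCast_zsmul, Int.natAbs_natCast]
    exact CrossD_nsmul A g _
  · rw [h, neg_smul, natCast_zsmul, Int.natAbs_neg, Int.natAbs_natCast]
    exact (CrossD_neg A _).trans (CrossD_nsmul A g _)

private theorem CrossD_red (A : Finset (Tor L)) (z : ℤ × ℤ) :
    CrossD A (red L z) ≤ (z.1.natAbs + z.2.natAbs) * bdry A := by
  classical
  have hz : red L z = z.1 • ((1, 0) : Tor L) + z.2 • ((0, 1) : Tor L) := by
    ext <;> simp [red]
  have e1 : CrossD A ((1, 0) : Tor L) ≤ bdry A := by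
    unfold CrossD bdry
    exact (Nat.le_add_right _ _).trans' (le_of_eq (by congr))
  have e2 : CrossD A ((0, 1) : Tor L) ≤ bdry A := by
    unfold CrossD bdry
    exact (Nat.le_add_left _ _).trans' (le_of_eq (by congr))
  rw [hz, add_mul]
  refine (CrossD_add A _ _).trans (Nat.add_le_add ?_ ?_)
  · exact (CrossD_zsmul A _ _).trans (Nat.mul_le_mul_left _ e1)
  · exact (CrossD_zsmul A _ _).trans (Nat.mul_le_mul_left _ e2)

open Classical in
theorem cross_card (Ω : Finset (ℤ × ℤ)) (A : Finset (Tor L)) :
    (Finset.univ.filter fun v : Tor L =>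
      (∃ x ∈ Ω, v + red L x ∈ A) ∧ ∃ y ∈ Ω, v + red L y ∉ A).card ≤ NN Ω * bdry A := by
  have hsub : (Finset.univ.filter fun v : Tor L =>
      (∃ x ∈ Ω, v + red L x ∈ A) ∧ ∃ y ∈ Ω, v + red L y ∉ A) ⊆
      Ω.biUnion fun x => Ω.biUnion fun y =>
        Finset.univ.filter fun v : Tor L => v + red L x ∈ A ∧ v + red L y ∉ A := by
    intro v hv
    simp only [Finset.mem_filter, Finset.mem_univ, true_and, Finset.mem_biUnion] at hv ⊢
    obtain ⟨⟨x, hx, hx2⟩, y, hy, hy2⟩ := hv
    exact ⟨x, hx, y, hy, hx2, hy2⟩
  have hpair : ∀ x ∈ Ω, ∀ y ∈ Ω,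
      (Finset.univ.filter fun v : Tor L => v + red L x ∈ A ∧ v + red L y ∉ A).card ≤
        ((x.1 - y.1).natAbs + (x.2 - y.2).natAbs) * bdry A := by
    intro x _ y _
    have h1 : (Finset.univ.filter fun v : Tor L => v + red L x ∈ A ∧ v + red L y ∉ A).card ≤
        CrossD A (red L (x - y)) := by
      unfold CrossD
      refine Finset.card_le_card_of_injOn (fun w => w + red L y) ?_ ?_
      · intro w hw
        simp only [Finset.coe_filter, Finset.mem_univ, true_and, Set.mem_ofPred_eq] at hw ⊢
        have h2 : w + red L y + red L (x - y) = w + red L x := by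
          ext <;> simp [red]
        rw [h2]
        exact fun h => hw.2 (h.2 hw.1)
      · intro a _ b _ hab
        exact add_right_cancel hab
    exact h1.trans (CrossD_red A (x - y))
  refine (Finset.card_le_card hsub).trans (Finset.card_biUnion_le.trans ?_)
  unfold NN
  rw [Finset.sum_mul]
  refine Finset.sum_le_sum fun x hx => ?_
  rw [Finset.sum_mul]
  exact Finset.card_biUnion_le.trans (Finset.sum_le_sum fun y hy => hpair x hx y hy)

private theorem Cross_step (n : ℕ) (a : ZMod L) (h : ¬ (a.val < n ↔ (a + 1).val < n)) :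
    a.val = n - 1 ∨ a.val = L - 1 := by
  have hL : 0 < L := Nat.pos_of_ne_zero (NeZero.ne L)
  have h1 : (a + 1).val = (a.val + 1) % L := by
    have h2 : a + 1 = ((a.val + 1 : ℕ) : ZMod L) := by
      push_cast
      rw [ZMod.natCast_zmod_val]
    rw [h2, ZMod.val_natCast]
  have h3 : a.val < L := ZMod.val_lt a
  rw [h1] at h
  rcases Nat.lt_or_ge (a.val + 1) L with h4 | h4
  · rw [Nat.mod_eq_of_lt h4] at h
    omega
  · right
    omega

private theorem Cross_count (n : ℕ) (P : Finset (Tor L))
    (hP : ∀ v ∈ P, (v.1.val = n - 1 ∨ v.1.val = L - 1) ∧ v.2.val < n) : P.card ≤ 2 * n := by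
  classical
  have h1 : P.card ≤ (({n - 1, L - 1} : Finset ℕ) ×ˢ Finset.range n).card := by
    refine Finset.card_le_card_of_injOn (fun v => (v.1.val, v.2.val)) ?_ ?_
    · intro v hv
      have := hP v hv
      simp only [Finset.coe_product, Set.mem_prod, Finset.mem_coe, Finset.mem_insert,
        Finset.mem_singleton, Finset.mem_range]
      exact this
    · intro v _ w _ hvw
      simp only [Prod.mk.injEq] at hvw
      exact Prod.ext (ZMod.val_injective L hvw.1) (ZMod.val_injective L hvw.2)
  rw [Finset.card_product, Finset.card_range] at h1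
  exact h1.trans (Nat.mul_le_mul_right _ Finset.card_le_two)

private theorem Cross_count' (n : ℕ) (P : Finset (Tor L))
    (hP : ∀ v ∈ P, (v.2.val = n - 1 ∨ v.2.val = L - 1) ∧ v.1.val < n) : P.card ≤ 2 * n := by
  classical
  have h1 : P.card ≤ (({n - 1, L - 1} : Finset ℕ) ×ˢ Finset.range n).card := by
    refine Finset.card_le_card_of_injOn (fun v => (v.2.val, v.1.val)) ?_ ?_
    · intro v hv
      have := hP v hv
      simp only [Finset.coe_product, Set.mem_prod, Finset.mem_coe, Finset.mem_insert,
        Finset.mem_singleton, Finset.mem_range]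
      exact this
    · intro v _ w _ hvw
      simp only [Prod.mk.injEq] at hvw
      exact Prod.ext (ZMod.val_injective L hvw.2) (ZMod.val_injective L hvw.1)
  rw [Finset.card_product, Finset.card_range] at h1
  exact h1.trans (Nat.mul_le_mul_right _ Finset.card_le_two)

theorem bdry_Qs (n : ℕ) : bdry (Qs L n) ≤ 4 * n := by
  have h1 : (Finset.univ.filter fun v : Tor L =>
      ¬ (v ∈ Qs L n ↔ v + (1, 0) ∈ Qs L n)).card ≤ 2 * n := by
    refine Cross_count n _ fun v hv => ?_
    rw [Finset.mem_filter] at hv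
    have h2 := hv.2
    simp only [Qs, Finset.mem_filter, Finset.mem_univ, true_and, Prod.fst_add, Prod.snd_add,
      add_zero] at h2
    by_cases h3 : v.2.val < n
    · refine ⟨Cross_step n v.1 fun h4 => h2 ?_, h3⟩
      rw [h4]
    · exact absurd (by tauto) h2
  have h2 : (Finset.univ.filter fun v : Tor L =>
      ¬ (v ∈ Qs L n ↔ v + (0, 1) ∈ Qs L n)).card ≤ 2 * n := by
    refine Cross_count' n _ fun v hv => ?_
    rw [Finset.mem_filter] at hv
    have h2 := hv.2
    simp only [Qs, Finset.mem_filter, Finset.mem_univ, true_and, Prod.fst_add, Prod.snd_add,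
      add_zero] at h2
    by_cases h3 : v.1.val < n
    · refine ⟨Cross_step n v.2 fun h4 => h2 ?_, h3⟩
      rw [h4]
    · exact absurd (by tauto) h2
  unfold bdry
  have h3 : 4 * n = 2 * n + 2 * n := by ring
  rw [h3]
  exact Nat.add_le_add h1 h2

end Pool.Agent.AL
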