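import Mathlib

/-!
# MP_f207dd_mp : definitions

Pure states of finitely many `d`-level systems, reduced density matrices, entanglement entropy,
local translation invariant Hamiltonians on the `L × L` torus.
-/

namespace Pool.Agent.AL

open scoped Matrix

noncomputable section

/-- the `L × L` torus -/
abbrev Tor (L : ℕ) : Type := ZMod L × ZMod L

section
variable {V : Type} [Fintype V] [DecidableEq V] {d : ℕ}

/-- the configuration equal to `s` on `A` and to `r` off `A` -/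
def glue (A : Finset V) (s : {v // v ∈ A} → Fin d) (r : {v // v ∉ A} → Fin d) : V → Fin d :=
  fun v => if h : v ∈ A then s ⟨v, h⟩ else r ⟨v, h⟩

/-- A vector `ψ` of `⨂_{v ∈ V} ℂ^d` (given by its coordinates `ψ σ`, `σ : V → Fin d`) as a matrix:
rows are the configurations of `A`, columns the configurations of the complement of `A`. -/
def mat (A : Finset V) (ψ : (V → Fin d) → ℂ) :
    Matrix ({v // v ∈ A} → Fin d) ({v // v ∉ A} → Fin d) ℂ :=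
  Matrix.of fun s r => ψ (glue A s r)

/-- the reduced density matrix `ρ_A = Tr_{A^c} |ψ⟩⟨ψ|` -/
def rdm (A : Finset V) (ψ : (V → Fin d) → ℂ) :
    Matrix ({v // v ∈ A} → Fin d) ({v // v ∈ A} → Fin d) ℂ :=
  mat A ψ * (mat A ψ)ᴴ

theorem rdm_isHermitian (A : Finset V) (ψ : (V → Fin d) → ℂ) : (rdm A ψ).IsHermitian :=
  Matrix.isHermitian_mul_conjTranspose_self _

/-- the entanglement entropy `S_A(ψ) = -Tr ρ_A log ρ_A` -/
def ent (A : Finset V) (ψ : (V → Fin d) → ℂ) : ℝ :=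
  ∑ i, Real.negMulLog ((rdm_isHermitian A ψ).eigenvalues i)

/-- unit vectors -/
def Unitv (ψ : (V → Fin d) → ℂ) : Prop := ∑ σ, ‖ψ σ‖ ^ 2 = 1

/-- the inner product -/
def ip (φ ψ : (V → Fin d) → ℂ) : ℂ := ∑ σ, star (φ σ) * ψ σ

/-- `ψ` is a unit vector, `H ψ = E ψ`, and `⟨φ, H φ⟩ ≥ (E + Δ) ⟨φ, φ⟩` for all `φ ⟂ ψ`.
For `Δ > 0` this says: `ψ` is the ground state, the smallest eigenvalue `E_0 = E` of `H` is simple
and the second eigenvalue `E_1` is at least `E_0 + Δ`. -/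
def GS (H : Matrix (V → Fin d) (V → Fin d) ℂ) (ψ : (V → Fin d) → ℂ) (E Δ : ℝ) : Prop :=
  Unitv ψ ∧ H.mulVec ψ = (E : ℂ) • ψ ∧
    ∀ φ : (V → Fin d) → ℂ, ip ψ φ = 0 → (E + Δ) * ∑ σ, ‖φ σ‖ ^ 2 ≤ (ip φ (H.mulVec φ)).re

end

section
variable {L : ℕ} [NeZero L] {d : ℕ}

/-- `|∂A|`, the number of edges of the torus joining `A` to its complement (`L ≥ 3`) -/
def bdry (A : Finset (Tor L)) : ℕ :=
  (Finset.univ.filter fun v : Tor L => ¬ (v ∈ A ↔ v + (1, 0) ∈ A)).card +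
    (Finset.univ.filter fun v : Tor L => ¬ (v ∈ A ↔ v + (0, 1) ∈ A)).card

/-- the reduction of a point of `ℤ²` -/
def red (L : ℕ) (x : ℤ × ℤ) : Tor L := ((x.1 : ZMod L), (x.2 : ZMod L))

/-- the square with side `n` at the origin -/
def Qs (L : ℕ) [NeZero L] (n : ℕ) : Finset (Tor L) :=
  Finset.univ.filter fun v : Tor L => v.1.val < n ∧ v.2.val < n

/-- translation invariance (up to a phase) -/
def TInv (ψ : (Tor L → Fin d) → ℂ) : Prop :=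
  ∀ v : Tor L, ∃ z : ℂ, ‖z‖ = 1 ∧ ∀ σ, ψ (fun w => σ (w + v)) = z * ψ σ

/-- The operator `h` on `⨂_{x ∈ Ω} ℂ^d` placed on the translate `v + Ω` -/
def place (Ω : Finset (ℤ × ℤ)) (h : Matrix (Ω → Fin d) (Ω → Fin d) ℂ) (L : ℕ) (v : Tor L) :
    Matrix (Tor L → Fin d) (Tor L → Fin d) ℂ := by
  classical
  exact Matrix.of fun σ τ =>
    if ∀ w : Tor L, (∀ x ∈ Ω, w ≠ v + red L x) → σ w = τ w then
      h (fun x => σ (v + red L x)) (fun x => τ (v + red L x)) else 0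

/-- The Hamiltonian `H^[L] = ∑_v h_(v + Ω)` on the `L × L` torus (periodic boundary conditions) -/
def ham (Ω : Finset (ℤ × ℤ)) (h : Matrix (Ω → Fin d) (Ω → Fin d) ℂ) (L : ℕ) [NeZero L] :
    Matrix (Tor L → Fin d) (Tor L → Fin d) ℂ := ∑ v : Tor L, place Ω h L v

/-- The family `H^[L]` is gapped: for some `Δ > 0` and all large `L`, `E_1 - E_0 ≥ Δ`. -/
def Gapped (Ω : Finset (ℤ × ℤ)) (h : Matrix (Ω → Fin d) (Ω → Fin d) ℂ) : Prop :=
  ∃ Δ : ℝ, 0 < Δ ∧ ∃ L₀ : ℕ, ∀ (L : ℕ) [NeZero L], L₀ ≤ L →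
    ∃ (ψ : (Tor L → Fin d) → ℂ) (E : ℝ), GS (ham Ω h L) ψ E Δ

/-- `ψ` is a ground state of `H^[L]` and the ground state is unique -/
def Ground (Ω : Finset (ℤ × ℤ)) (h : Matrix (Ω → Fin d) (Ω → Fin d) ℂ) (L : ℕ) [NeZero L]
    (ψ : (Tor L → Fin d) → ℂ) : Prop :=
  ∃ E Δ : ℝ, 0 < Δ ∧ GS (ham Ω h L) ψ E Δ

/-- the area law (Q1, periodic boundary conditions) -/
def AreaLaw (Ω : Finset (ℤ × ℤ)) (h : Matrix (Ω → Fin d) (Ω → Fin d) ℂ) : Prop :=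
  ∃ (c : ℝ) (L₀ : ℕ), ∀ (L : ℕ) [NeZero L], L₀ ≤ L → ∀ ψ : (Tor L → Fin d) → ℂ,
    Ground Ω h L ψ → ∀ A : Finset (Tor L), ent A ψ ≤ c * bdry A

/-- For the squares of side `n = 2^k ≤ L / 2` only: there is a unit vector `φ` of Schmidt rank
`≤ exp (c n)` across the boundary of the square, whose overlap with the ground state is at least
`exp (- c √n)`. -/
def LowRank (Ω : Finset (ℤ × ℤ)) (h : Matrix (Ω → Fin d) (Ω → Fin d) ℂ) : Prop :=
  ∃ (c : ℝ) (L₀ : ℕ), ∀ (L : ℕ) [NeZero L], L₀ ≤ L → ∀ ψ : (Tor L → Fin d) → ℂ,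
    Ground Ω h L ψ → ∀ k : ℕ, 2 * 2 ^ k ≤ L → ∃ φ : (Tor L → Fin d) → ℂ, Unitv φ ∧
      ((mat (Qs L (2 ^ k)) φ).rank : ℝ) ≤ Real.exp (c * 2 ^ k) ∧
      Real.exp (-c * Real.sqrt (2 ^ k)) ≤ ‖ip φ ψ‖

end

end

end Pool.Agent.AL
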