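import Mathlib

/-!
# MP_f207dd_mp : geometry, definitions

Finite subsets of `ℤ²`, perimeters, paths; set functions on the box `[0, L)²` and on the torus.
-/

namespace Pool.Agent.AL

noncomputable section

/-- the points of the plane lattice -/
abbrev Pt : Type := ℤ × ℤ

/-- number of the `p ∈ X` with `p + u ∈ Y` -/
def ed (u : Pt) (X Y : Finset Pt) : ℕ := (X.filter fun p => p + u ∈ Y).card

/-- number of the `p ∈ X` with `p + u ∉ Y` -/
def bd (u : Pt) (X Y : Finset Pt) : ℕ := (X.filter fun p => p + u ∉ Y).card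

/-- number of edges from `X` to `Y` -/
def EE (X Y : Finset Pt) : ℕ :=
  ed (1, 0) X Y + ed (-1, 0) X Y + ed (0, 1) X Y + ed (0, -1) X Y

/-- number of edges from `X` to the complement of `K` -/
def BB (X K : Finset Pt) : ℕ :=
  bd (1, 0) X K + bd (-1, 0) X K + bd (0, 1) X K + bd (0, -1) X K

/-- the perimeter -/
def per (K : Finset Pt) : ℕ := BB K K

/-- the box `[0, L)²` -/
def Box (L : ℕ) : Finset Pt := Finset.Ico 0 (L : ℤ) ×ˢ Finset.Ico 0 (L : ℤ)

/-- the rectangle `[0, a) × [0, b)` -/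
def rect (a b : ℕ) : Finset Pt := Finset.Ico 0 (a : ℤ) ×ˢ Finset.Ico 0 (b : ℤ)

/-- A set function on the subsets of the box with the properties of the entropy of a translation
invariant pure state. (The values outside the box are irrelevant.) -/
structure PF (L : ℕ) where
  g : Finset Pt → ℝ
  empty : g ∅ = 0
  nonneg : ∀ K, K ⊆ Box L → 0 ≤ g K
  ssa : ∀ K M, K ⊆ Box L → M ⊆ Box L → g (K ∪ M) + g (K ∩ M) ≤ g K + g M
  tri : ∀ K M, K ⊆ Box L → M ⊆ Box L → Disjoint K M → g K ≤ g (K ∪ M) + g M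
  ti : ∀ K v, K ⊆ Box L → K.image (· + v) ⊆ Box L → g (K.image (· + v)) = g K

/-- the values on rectangles -/
def PF.F {L : ℕ} (P : PF L) (a b : ℕ) : ℝ := P.g (rect a b)

/-- the area law for the squares, with the constant `c` -/
def Sq {L : ℕ} (P : PF L) (c : ℝ) : Prop := ∀ n : ℕ, n ≤ L → P.F n n ≤ c * n

/-- A set function on the torus with the properties of the entropy of a translation invariant
pure state. -/
structure EF (L : ℕ) [NeZero L] where
  f : Finset (ZMod L × ZMod L) → ℝ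
  empty : f ∅ = 0
  compl : ∀ A, f Aᶜ = f A
  ssa : ∀ A B, f (A ∪ B) + f (A ∩ B) ≤ f A + f B
  ti : ∀ A v, f (A.image (· + v)) = f A

/-- neighbours -/
def Adj (p q : Pt) : Prop := q = p + (1, 0) ∨ q = p + (-1, 0) ∨ q = p + (0, 1) ∨ q = p + (0, -1)

/-- there is a path from `p` to `q` whose points after `p` are in `T` -/
def Pth (T : Set Pt) : Pt → Pt → Prop := Relation.ReflTransGen fun p q => Adj p q ∧ q ∈ T

/-- `T` is connected (or empty) -/
def Cn (T : Set Pt) : Prop := ∀ p ∈ T, ∀ q ∈ T, Pth T p q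

/-- `U` is closed under horizontal steps in `K` -/
def HC (K U : Finset Pt) : Prop :=
  ∀ p ∈ U, (p + (1, 0) ∈ K → p + (1, 0) ∈ U) ∧ (p + (-1, 0) ∈ K → p + (-1, 0) ∈ U)

/-- `U` is closed under vertical steps in `K` -/
def VC (K U : Finset Pt) : Prop :=
  ∀ p ∈ U, (p + (0, 1) ∈ K → p + (0, 1) ∈ U) ∧ (p + (0, -1) ∈ K → p + (0, -1) ∈ U)

open Classical in
/-- the points of `K \ U` reached from `U` by going up in `K \ U` -/
def Up (K U : Finset Pt) : Finset Pt :=
  K.filter fun q => ∃ k : ℕ, q + (0, -((k : ℤ) + 1)) ∈ U ∧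
    ∀ j : ℕ, j ≤ k → q + (0, -(j : ℤ)) ∈ K ∧ q + (0, -(j : ℤ)) ∉ U

open Classical in
/-- the points of `K \ U` reached from `U` by going down in `K \ U` -/
def Dn (K U : Finset Pt) : Finset Pt :=
  K.filter fun q => ∃ k : ℕ, q + (0, (k : ℤ) + 1) ∈ U ∧
    ∀ j : ℕ, j ≤ k → q + (0, (j : ℤ)) ∈ K ∧ q + (0, (j : ℤ)) ∉ U

/-- the potential of the induction -/
def Phi {L : ℕ} (P : PF L) (c : ℝ) (K U : Finset Pt) : ℝ :=
  P.g U + c * (3 * (BB (K \ U) K : ℝ) - (EE (K \ U) U : ℝ))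

/-- `D` is flat in the direction `u`: horizontal neighbours in `D` can move by `u` only together -/
def Flat (u : Pt) (D : Finset Pt) : Prop :=
  ∀ p ∈ D, p + (1, 0) ∈ D → (p + u ∈ D ↔ p + (1, 0) + u ∈ D)

/-- the histogram with heights `φ` over `[a, a + n)` -/
def Hs (φ : ℤ → ℕ) (a : ℤ) (n : ℕ) : Finset Pt :=
  (Finset.Ico a (a + n)).biUnion fun x => (Finset.Ico (0 : ℤ) (φ x)).image fun y => (x, y)

theorem mem_Hs {φ : ℤ → ℕ} {a : ℤ} {n : ℕ} {p : Pt} :
    p ∈ Hs φ a n ↔ a ≤ p.1 ∧ p.1 < a + n ∧ 0 ≤ p.2 ∧ p.2 < φ p.1 := by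
  simp only [Hs, Finset.mem_biUnion, Finset.mem_Ico, Finset.mem_image]
  constructor
  · rintro ⟨x, ⟨h1, h2⟩, y, ⟨h3, h4⟩, rfl⟩
    exact ⟨h1, h2, h3, h4⟩
  · rintro ⟨h1, h2, h3, h4⟩
    exact ⟨p.1, ⟨h1, h2⟩, p.2, ⟨h3, h4⟩, rfl⟩

/-- number of left boundary edges of the histogram at heights `≥ d` -/
def lv (φ : ℤ → ℕ) (a : ℤ) (n d : ℕ) : ℕ :=
  ∑ i ∈ Finset.range n, (φ (a + i) - if i = 0 then d else φ (a + i - 1))

/-- number of right boundary edges of the histogram at heights `≥ d` -/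
def rv (φ : ℤ → ℕ) (a : ℤ) (n d : ℕ) : ℕ :=
  ∑ i ∈ Finset.range n, (φ (a + i) - if i + 1 = n then d else φ (a + i + 1))

/-- exchange of the coordinates -/
def swp (K : Finset Pt) : Finset Pt := K.image fun p => (p.2, p.1)

/-- reflection in a horizontal line -/
def flp (L : ℕ) (K : Finset Pt) : Finset Pt := K.image fun p => (p.1, (L : ℤ) - 1 - p.2)

theorem mem_Box {L : ℕ} {p : Pt} : p ∈ Box L ↔ (0 ≤ p.1 ∧ p.1 < L) ∧ 0 ≤ p.2 ∧ p.2 < L := by
  simp [Box]

theorem mem_rect {a b : ℕ} {p : Pt} : p ∈ rect a b ↔ (0 ≤ p.1 ∧ p.1 < a) ∧ 0 ≤ p.2 ∧ p.2 < b := by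
  simp [rect]

theorem mem_swp {K : Finset Pt} {p : Pt} : p ∈ swp K ↔ (p.2, p.1) ∈ K := by
  simp only [swp, Finset.mem_image]
  constructor
  · rintro ⟨q, hq, rfl⟩
    exact hq
  · intro h
    exact ⟨_, h, rfl⟩

theorem mem_flp {L : ℕ} {K : Finset Pt} {p : Pt} :
    p ∈ flp L K ↔ (p.1, (L : ℤ) - 1 - p.2) ∈ K := by
  simp only [flp, Finset.mem_image]
  constructor
  · rintro ⟨q, hq, rfl⟩
    have : (L : ℤ) - 1 - ((L : ℤ) - 1 - q.2) = q.2 := by ring
    rw [this]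
    exact hq
  · intro h
    refine ⟨_, h, ?_⟩
    ext
    · rfl
    · change (L : ℤ) - 1 - ((L : ℤ) - 1 - p.2) = p.2
      ring

theorem Pth.mono {T T' : Set Pt} (h : T ⊆ T') {p q : Pt} (hp : Pth T p q) : Pth T' p q := by
  refine Relation.ReflTransGen.mono ?_ _ _ hp
  exact fun a b hab => ⟨hab.1, h hab.2⟩

theorem Pth.mem {T : Set Pt} {p q : Pt} (hp : p ∈ T) (h : Pth T p q) : q ∈ T := by
  induction h with
  | refl => exact hp
  | tail _ h _ => exact h.2

theorem Adj.symm {p q : Pt} (h : Adj p q) : Adj q p := by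
  rcases h with rfl | rfl | rfl | rfl
  · right; left; ext <;> simp
  · left; ext <;> simp
  · right; right; right; ext <;> simp
  · right; right; left; ext <;> simp

theorem Pth.symm {T : Set Pt} {p q : Pt} (hp : p ∈ T) (h : Pth T p q) : Pth T q p := by
  induction h with
  | refl => exact Relation.ReflTransGen.refl
  | tail hab hbc ih =>
    exact Relation.ReflTransGen.head ⟨hbc.1.symm, Pth.mem hp hab⟩ ih

theorem Pth.trans {T : Set Pt} {p q r : Pt} (h : Pth T p q) (h' : Pth T q r) : Pth T p r :=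
  Relation.ReflTransGen.trans h h'

end

end Pool.Agent.AL
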