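import Pool.Agent.AL.SSA
import Pool.Agent.AL.Geo

/-!
# PIECE AL-EntV: the entanglement entropy as a set function

`ent A ψ = Ent (mat A ψ)` is `rfl`.
`ent_ssa`: with the types `α = {v // v ∈ A ∧ v ∉ B} → Fin d`, `β = {v // v ∈ A ∧ v ∈ B} → Fin d`,
`γ = {v // v ∉ A ∧ v ∈ B} → Fin d`, `δ = {v // v ∉ A ∧ v ∉ B} → Fin d` and
`Ψ x y z w = ψ (fun v => ...)` (the configuration glued from the four parts) each of the four terms
is a term of `ssa4` after `Ent_submatrix` with the obvious equivalences, e.g.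
`({v // v ∈ A} → Fin d) ≃ α × β`, `({v // v ∉ A} → Fin d) ≃ γ × δ`.
`ent_compl`: `mat Aᶜ ψ` is a `submatrix` of `(mat A ψ)ᵀ`; `Ent_transpose`.
`ent_empty`: `mat ∅ ψ` has one row, `N Nᴴ = 1`, `negMulLog 1 = 0` (e.g. by `Ent_eq`, `trf_eq`: the
only eigenvalue is the trace).
`ent_image`: with `s' = s ∘ e`, `r' = r ∘ e`: `glue A s' r' = (glue (A.image e) s r) ∘ e`, so
`mat A ψ s' r' = z * mat (A.image e) ψ s r`, and `|z| = 1` gives the same `N Nᴴ` up to a
`submatrix`.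
-/

namespace Pool.Agent.AL

open scoped Matrix

section
variable {V X : Type}

/-- the restriction of a configuration to an equal set -/
private def sameE {p q : V → Prop} (h : ∀ v, p v ↔ q v) :
    ({v // p v} → X) ≃ ({v // q v} → X) where
  toFun s v := s ⟨v.1, (h v.1).2 v.2⟩
  invFun s v := s ⟨v.1, (h v.1).1 v.2⟩
  left_inv _ := rfl
  right_inv _ := rfl

/-- the restrictions of a configuration to the two parts of a set -/
private def cutE {p q r : V → Prop} [DecidablePred q] (h1 : ∀ v, q v → p v) (h2 : ∀ v, r v → p v)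
    (h3 : ∀ v, p v → ¬ q v → r v) (h4 : ∀ v, r v → ¬ q v) :
    ({v // p v} → X) ≃ ({v // q v} → X) × ({v // r v} → X) where
  toFun s := (fun v => s ⟨v.1, h1 v.1 v.2⟩, fun v => s ⟨v.1, h2 v.1 v.2⟩)
  invFun s v := if h : q v.1 then s.1 ⟨v.1, h⟩ else s.2 ⟨v.1, h3 v.1 v.2 h⟩
  left_inv s := by
    funext v
    by_cases h : q v.1
    · simp only [dif_pos h]
    · simp only [dif_neg h]
  right_inv s := by
    obtain ⟨a, b⟩ := s
    refine Prod.ext ?_ ?_
    · funext v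
      simp only [dif_pos v.2]
    · funext v
      simp only [dif_neg (h4 v.1 v.2)]

end

section
variable {V : Type} [Fintype V] [DecidableEq V] {d : ℕ}

theorem ent_ssa (hd : 0 < d) (A B : Finset V) (ψ : (V → Fin d) → ℂ) :
    ent (A ∪ B) ψ + ent (A ∩ B) ψ ≤ ent A ψ + ent B ψ := by
  classical
  have : Nonempty (Fin d) := ⟨⟨0, hd⟩⟩
  have key := ssa4 (α := {v // v ∈ A ∧ v ∉ B} → Fin d) (β := {v // v ∈ A ∧ v ∈ B} → Fin d)
    (γ := {v // v ∉ A ∧ v ∈ B} → Fin d) (δ := {v // v ∉ A ∧ v ∉ B} → Fin d)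
    (fun x y z w => ψ (fun v => if hA : v ∈ A then
      (if hB : v ∈ B then y ⟨v, hA, hB⟩ else x ⟨v, hA, hB⟩) else
      (if hB : v ∈ B then z ⟨v, hA, hB⟩ else w ⟨v, hA, hB⟩)))
  set Ψ := fun (x : {v // v ∈ A ∧ v ∉ B} → Fin d) (y : {v // v ∈ A ∧ v ∈ B} → Fin d)
    (z : {v // v ∉ A ∧ v ∈ B} → Fin d) (w : {v // v ∉ A ∧ v ∉ B} → Fin d) =>
      ψ (fun v => if hA : v ∈ A then
      (if hB : v ∈ B then y ⟨v, hA, hB⟩ else x ⟨v, hA, hB⟩) else
      (if hB : v ∈ B then z ⟨v, hA, hB⟩ else w ⟨v, hA, hB⟩)) with hΨ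
  -- the equivalences
  let eA : ({v // v ∈ A} → Fin d) ≃ ({v // v ∈ A ∧ v ∉ B} → Fin d) ×
      ({v // v ∈ A ∧ v ∈ B} → Fin d) :=
    cutE (fun v h => h.1) (fun v h => h.1) (fun v h h' => ⟨h, by
      by_contra h''
      exact h' ⟨h, h''⟩⟩) (fun v h h' => h'.2 h.2)
  let eA' : ({v // v ∉ A} → Fin d) ≃ ({v // v ∉ A ∧ v ∈ B} → Fin d) ×
      ({v // v ∉ A ∧ v ∉ B} → Fin d) :=
    cutE (fun v h => h.1) (fun v h => h.1) (fun v h h' => ⟨h, fun h'' => h' ⟨h, h''⟩⟩)
      (fun v h h' => h.2 h'.2)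
  let eB : ({v // v ∈ B} → Fin d) ≃ ({v // v ∈ A ∧ v ∈ B} → Fin d) ×
      ({v // v ∉ A ∧ v ∈ B} → Fin d) :=
    cutE (fun v h => h.2) (fun v h => h.2) (fun v h h' => ⟨fun h'' => h' ⟨h'', h⟩, h⟩)
      (fun v h h' => h.1 h'.1)
  let eB' : ({v // v ∉ B} → Fin d) ≃ ({v // v ∈ A ∧ v ∉ B} → Fin d) ×
      ({v // v ∉ A ∧ v ∉ B} → Fin d) :=
    cutE (fun v h => h.2) (fun v h => h.2) (fun v h h' => ⟨fun h'' => h' ⟨h'', h⟩, h⟩)
      (fun v h h' => h.1 h'.1)
  let eU : ({v // v ∈ A ∪ B} → Fin d) ≃ ({v // v ∈ A ∧ v ∉ B} → Fin d) ×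
      (({v // v ∈ A ∧ v ∈ B} → Fin d) × ({v // v ∉ A ∧ v ∈ B} → Fin d)) :=
    (cutE (q := fun v => v ∈ A ∧ v ∉ B) (r := fun v => v ∈ B)
      (fun v h => Finset.mem_union_left _ h.1) (fun v h => Finset.mem_union_right _ h)
      (fun v h h' => by
        rcases Finset.mem_union.1 h with h | h
        · by_contra h''
          exact h' ⟨h, h''⟩
        · exact h) (fun v h h' => h'.2 h)).trans (Equiv.prodCongr (Equiv.refl _) eB)
  let eU' : ({v // v ∉ A ∪ B} → Fin d) ≃ ({v // v ∉ A ∧ v ∉ B} → Fin d) :=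
    sameE (fun v => by rw [Finset.mem_union, not_or])
  let eI : ({v // v ∈ A ∩ B} → Fin d) ≃ ({v // v ∈ A ∧ v ∈ B} → Fin d) :=
    sameE (fun v => Finset.mem_inter)
  let eI' : ({v // v ∉ A ∩ B} → Fin d) ≃ ({v // v ∈ A ∧ v ∉ B} → Fin d) ×
      (({v // v ∉ A ∧ v ∈ B} → Fin d) × ({v // v ∉ A ∧ v ∉ B} → Fin d)) :=
    (cutE (q := fun v => v ∈ A ∧ v ∉ B) (r := fun v => v ∉ A)
      (fun v h h' => h.2 (Finset.mem_inter.1 h').2) (fun v h h' => h (Finset.mem_inter.1 h').1)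
      (fun v h h' h'' => h' ⟨h'', fun h3 => h (Finset.mem_inter.2 ⟨h'', h3⟩)⟩)
      (fun v h h' => h h'.1)).trans (Equiv.prodCongr (Equiv.refl _) eA')
  have h1 : mat (A ∪ B) ψ = (Matrix.of fun (p : ({v // v ∈ A ∧ v ∉ B} → Fin d) ×
      (({v // v ∈ A ∧ v ∈ B} → Fin d) × ({v // v ∉ A ∧ v ∈ B} → Fin d)))
      (w : {v // v ∉ A ∧ v ∉ B} → Fin d) => Ψ p.1 p.2.1 p.2.2 w).submatrix eU eU' := by
    funext s r
    show ψ (glue (A ∪ B) s r) = ψ _
    congr 1
    funext v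
    unfold glue
    by_cases hA : v ∈ A <;> by_cases hB : v ∈ B
    · rw [dif_pos (Finset.mem_union_left _ hA), dif_pos hA, dif_pos hB]
      rfl
    · rw [dif_pos (Finset.mem_union_left _ hA), dif_pos hA, dif_neg hB]
      rfl
    · rw [dif_pos (Finset.mem_union_right _ hB), dif_neg hA, dif_pos hB]
      rfl
    · rw [dif_neg (by rw [Finset.mem_union, not_or]; exact ⟨hA, hB⟩), dif_neg hA, dif_neg hB]
      rfl
  have h2 : mat (A ∩ B) ψ = (Matrix.of fun (y : {v // v ∈ A ∧ v ∈ B} → Fin d)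
      (q : ({v // v ∈ A ∧ v ∉ B} → Fin d) ×
      (({v // v ∉ A ∧ v ∈ B} → Fin d) × ({v // v ∉ A ∧ v ∉ B} → Fin d))) =>
      Ψ q.1 y q.2.1 q.2.2).submatrix eI eI' := by
    funext s r
    show ψ (glue (A ∩ B) s r) = ψ _
    congr 1
    funext v
    unfold glue
    by_cases hA : v ∈ A <;> by_cases hB : v ∈ B
    · rw [dif_pos (Finset.mem_inter.2 ⟨hA, hB⟩), dif_pos hA, dif_pos hB]
      rfl
    · rw [dif_neg (fun h => hB (Finset.mem_inter.1 h).2), dif_pos hA, dif_neg hB]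
      rfl
    · rw [dif_neg (fun h => hA (Finset.mem_inter.1 h).1), dif_neg hA, dif_pos hB]
      rfl
    · rw [dif_neg (fun h => hA (Finset.mem_inter.1 h).1), dif_neg hA, dif_neg hB]
      rfl
  have h3 : mat A ψ = (Matrix.of fun (p : ({v // v ∈ A ∧ v ∉ B} → Fin d) ×
      ({v // v ∈ A ∧ v ∈ B} → Fin d)) (q : ({v // v ∉ A ∧ v ∈ B} → Fin d) ×
      ({v // v ∉ A ∧ v ∉ B} → Fin d)) => Ψ p.1 p.2 q.1 q.2).submatrix eA eA' := by
    funext s r
    show ψ (glue A s r) = ψ _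
    congr 1
    funext v
    unfold glue
    by_cases hA : v ∈ A <;> by_cases hB : v ∈ B
    · rw [dif_pos hA, dif_pos hA, dif_pos hB]
      rfl
    · rw [dif_pos hA, dif_pos hA, dif_neg hB]
      rfl
    · rw [dif_neg hA, dif_neg hA, dif_pos hB]
      rfl
    · rw [dif_neg hA, dif_neg hA, dif_neg hB]
      rfl
  have h4 : mat B ψ = (Matrix.of fun (p : ({v // v ∈ A ∧ v ∈ B} → Fin d) ×
      ({v // v ∉ A ∧ v ∈ B} → Fin d)) (q : ({v // v ∈ A ∧ v ∉ B} → Fin d) ×
      ({v // v ∉ A ∧ v ∉ B} → Fin d)) => Ψ q.1 p.1 p.2 q.2).submatrix eB eB' := by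
    funext s r
    show ψ (glue B s r) = ψ _
    congr 1
    funext v
    unfold glue
    by_cases hA : v ∈ A <;> by_cases hB : v ∈ B
    · rw [dif_pos hB, dif_pos hA, dif_pos hB]
      rfl
    · rw [dif_neg hB, dif_pos hA, dif_neg hB]
      rfl
    · rw [dif_pos hB, dif_neg hA, dif_pos hB]
      rfl
    · rw [dif_neg hB, dif_neg hA, dif_neg hB]
      rfl
  change Ent (mat (A ∪ B) ψ) + Ent (mat (A ∩ B) ψ) ≤ Ent (mat A ψ) + Ent (mat B ψ)
  rw [h1, h2, h3, h4, Ent_submatrix, Ent_submatrix, Ent_submatrix, Ent_submatrix]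
  exact key

theorem ent_compl (A : Finset V) (ψ : (V → Fin d) → ℂ) : ent Aᶜ ψ = ent A ψ := by
  have h : mat Aᶜ ψ = ((mat A ψ)ᵀ).submatrix
      (sameE (fun v => Finset.mem_compl) : ({v // v ∈ Aᶜ} → Fin d) ≃ ({v // v ∉ A} → Fin d))
      (sameE (fun v => by rw [Finset.mem_compl, not_not]) :
        ({v // v ∉ Aᶜ} → Fin d) ≃ ({v // v ∈ A} → Fin d)) := by
    funext s r
    show ψ (glue Aᶜ s r) = ψ (glue A _ _)
    congr 1
    funext v
    unfold glue
    by_cases hv : v ∈ A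
    · have hv' : v ∉ Aᶜ := by rwa [Finset.mem_compl, not_not]
      rw [dif_pos hv, dif_neg hv']
      rfl
    · have hv' : v ∈ Aᶜ := by rwa [Finset.mem_compl]
      rw [dif_neg hv, dif_pos hv']
      rfl
  change Ent (mat Aᶜ ψ) = Ent (mat A ψ)
  rw [h, Ent_submatrix, Ent_transpose]

theorem ent_empty {ψ : (V → Fin d) → ℂ} (hU : Unitv ψ) : ent ∅ ψ = 0 := by
  have : IsEmpty {v : V // v ∈ (∅ : Finset V)} := ⟨fun v => absurd v.2 (Finset.notMem_empty _)⟩
  have h1 : (rdm ∅ ψ).trace = 1 := by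
    have h2 : (rdm ∅ ψ).trace = ∑ r : {v // v ∉ (∅ : Finset V)} → Fin d,
        mat ∅ ψ default r * star (mat ∅ ψ default r) := by
      unfold Matrix.trace rdm
      rw [Fintype.sum_unique]
      rfl
    have h3 : ∑ r : {v // v ∉ (∅ : Finset V)} → Fin d,
        mat ∅ ψ default r * star (mat ∅ ψ default r) = ∑ σ : V → Fin d, ((‖ψ σ‖ ^ 2 : ℝ) : ℂ) := by
      let e : (V → Fin d) ≃ ({v // v ∉ (∅ : Finset V)} → Fin d) :=
        { toFun := fun s v => s v.1
          invFun := fun s v => s ⟨v, Finset.notMem_empty v⟩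
          left_inv := fun _ => rfl
          right_inv := fun _ => rfl }
      rw [← Equiv.sum_comp e]
      refine Finset.sum_congr rfl fun σ _ => ?_
      have h4 : mat ∅ ψ default (e σ) = ψ σ := by
        show ψ (glue ∅ _ _) = ψ σ
        congr 1
      rw [h4]
      have := Complex.mul_conj (ψ σ)
      rw [Complex.normSq_eq_norm_sq] at this
      exact this
    rw [h2, h3, ← Complex.ofReal_sum, hU, Complex.ofReal_one]
  have h5 := (rdm_isHermitian ∅ ψ).trace_eq_sum_eigenvalues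
  rw [h1, Fintype.sum_unique] at h5
  unfold ent
  rw [Fintype.sum_unique]
  have h6 : (rdm_isHermitian ∅ ψ).eigenvalues default = 1 := by
    have : ((1 : ℝ) : ℂ) = ((rdm_isHermitian ∅ ψ).eigenvalues default : ℂ) := by
      rw [Complex.ofReal_one]
      exact h5
    exact (Complex.ofReal_injective this).symm
  rw [h6]
  simp [Real.negMulLog]

theorem ent_image {ψ : (V → Fin d) → ℂ} (e : V ≃ V) {z : ℂ} (hz : ‖z‖ = 1)
    (h : ∀ σ : V → Fin d, ψ (fun w => σ (e w)) = z * ψ σ) (A : Finset V) :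
    ent (A.image e) ψ = ent A ψ := by
  have hm : ∀ v : V, e v ∈ A.image e ↔ v ∈ A := fun v => by
    rw [Finset.mem_image]
    constructor
    · rintro ⟨w, hw, hwv⟩
      rwa [← e.injective hwv]
    · intro hv
      exact ⟨v, hv, rfl⟩
  have hm' : ∀ v : V, v ∈ A.image e ↔ e.symm v ∈ A := fun v => by
    rw [← hm, Equiv.apply_symm_apply]
  let E1 : ({v // v ∈ A.image e} → Fin d) ≃ ({v // v ∈ A} → Fin d) :=
    { toFun := fun s v => s ⟨e v.1, (hm v.1).2 v.2⟩
      invFun := fun s v => s ⟨e.symm v.1, (hm' v.1).1 v.2⟩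
      left_inv := fun s => by
        funext v
        simp only [Equiv.apply_symm_apply]
      right_inv := fun s => by
        funext v
        simp only [Equiv.symm_apply_apply] }
  let E2 : ({v // v ∉ A.image e} → Fin d) ≃ ({v // v ∉ A} → Fin d) :=
    { toFun := fun s v => s ⟨e v.1, fun h' => v.2 ((hm v.1).1 h')⟩
      invFun := fun s v => s ⟨e.symm v.1, fun h' => v.2 ((hm' v.1).2 h')⟩
      left_inv := fun s => by
        funext v
        simp only [Equiv.apply_symm_apply]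
      right_inv := fun s => by
        funext v
        simp only [Equiv.symm_apply_apply] }
  have h1 : (mat A ψ).submatrix E1 E2 = z • mat (A.image e) ψ := by
    funext s r
    show ψ (glue A _ _) = z * ψ (glue (A.image e) s r)
    rw [← h]
    congr 1
    funext v
    unfold glue
    by_cases hv : v ∈ A
    · rw [dif_pos hv, dif_pos ((hm v).2 hv)]
      rfl
    · rw [dif_neg hv, dif_neg (fun h' => hv ((hm v).1 h'))]
      rfl
  have h2 : z * star z = 1 := by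
    have := Complex.mul_conj z
    rw [Complex.normSq_eq_norm_sq, hz] at this
    rw [show star z = (starRingEnd ℂ) z from rfl, this]
    norm_num
  change Ent (mat (A.image e) ψ) = Ent (mat A ψ)
  rw [← Ent_submatrix (mat A ψ) E1 E2, h1, Ent_eq, Ent_eq, Matrix.conjTranspose_smul,
    Matrix.smul_mul, Matrix.mul_smul, smul_smul, h2, one_smul]

end

/-- the set function of a translation invariant pure state -/
noncomputable def entEF {L : ℕ} [NeZero L] {d : ℕ} (hd : 0 < d) (ψ : (Tor L → Fin d) → ℂ)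
    (hU : Unitv ψ) (hT : TInv ψ) : EF L where
  f A := ent A ψ
  empty := ent_empty hU
  compl A := ent_compl A ψ
  ssa A B := ent_ssa hd A B ψ
  ti A v := by
    obtain ⟨z, hz, h⟩ := hT v
    exact ent_image (Equiv.addRight v) hz h A

end Pool.Agent.AL
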