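import Pool.Agent.AL.HistPer

/-!
# PIECE AL-FlatUp: flat sets satisfy the area law

Induction on the cardinality of `D`. If `D ≠ ∅` let `y₀` be the smallest second coordinate of a
point of `D`, and `H = {p ∈ D | ∀ y, y₀ ≤ y → y ≤ p.2 → (p.1, y) ∈ D}`, nonempty.
(1) If `p ∈ H` and a neighbour `q` of `p` is in `D` then `q ∈ H`: for `q = p ± (1, 0)` go down step
by step with `Flat` (both `(p.1, y)` and `(p.1 ± 1, y)` are in `D` for `y₀ ≤ y ≤ p.2`); for
`q = p + (0, 1)` clear; for `q = p - (0, 1)` clear (a point of `D` has height `≥ y₀`).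
(2) So `per D = per H + per (D \ H)`, and `D \ H` is flat.
(3) `H` is the translate by `(0, y₀)` of `Hs φ 0 L` with `φ x` = number of the points of `H` over
`x`, `φ ≤ L`. So `g H ≤ c per H` by `hist_per` and `ti` (`0 ≤ y₀`; `H ⊆ Box L`; also
`H - (0, y₀) ⊆ Box L`), as the perimeter is translation invariant (`per_trans`).
`g D ≤ g H + g (D \ H)` by `PF.sub`.
-/

namespace Pool.Agent.AL

variable {L : ℕ}

private theorem FlatUp_bd_trans (u v : Pt) (K : Finset Pt) :
    bd u (K.image (· + v)) (K.image (· + v)) = bd u K K := by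
  unfold bd
  rw [← Finset.card_image_of_injective (K.filter fun p => p + u ∉ K) (add_left_injective v)]
  congr 1
  ext p
  simp only [Finset.mem_filter, Finset.mem_image]
  constructor
  · rintro ⟨⟨q, hq, rfl⟩, h⟩
    exact ⟨q, ⟨hq, fun h' => h ⟨q + u, h', by abel⟩⟩, rfl⟩
  · rintro ⟨q, ⟨hq, h⟩, rfl⟩
    refine ⟨⟨q, hq, rfl⟩, ?_⟩
    rintro ⟨r, hr, hrq⟩
    apply h
    have h1 : r = q + u := by
      have h2 : r + v = (q + u) + v := by rw [hrq]; abel
      exact add_right_cancel h2
    rwa [← h1]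

theorem per_trans (K : Finset Pt) (v : Pt) : per (K.image (· + v)) = per K := by
  unfold per BB
  rw [FlatUp_bd_trans, FlatUp_bd_trans, FlatUp_bd_trans, FlatUp_bd_trans]

private theorem FlatUp_bd_split (u : Pt) (D H : Finset Pt) (hH : H ⊆ D)
    (h1 : ∀ p ∈ H, p + u ∈ D → p + u ∈ H) (h2 : ∀ p ∈ D, p + u ∈ H → p ∈ H) :
    bd u D D = bd u H H + bd u (D \ H) (D \ H) := by
  unfold bd
  rw [← Finset.card_union_of_disjoint]
  · congr 1
    ext p
    simp only [Finset.mem_filter, Finset.mem_union, Finset.mem_sdiff]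
    constructor
    · rintro ⟨hp, hpu⟩
      by_cases hpH : p ∈ H
      · exact Or.inl ⟨hpH, fun h => hpu (hH h)⟩
      · exact Or.inr ⟨⟨hp, hpH⟩, fun h => hpu h.1⟩
    · rintro (⟨hp, hpu⟩ | ⟨⟨hp, hpH⟩, hpu⟩)
      · exact ⟨hH hp, fun h => hpu (h1 p hp h)⟩
      · exact ⟨hp, fun h => hpu ⟨h, fun h' => hpH (h2 p hp h')⟩⟩
  · rw [Finset.disjoint_left]
    intro p hp hp'
    exact (Finset.mem_sdiff.1 (Finset.mem_filter.1 hp').1).2 (Finset.mem_filter.1 hp).1

private theorem FlatUp_per_split (D H : Finset Pt) (hH : H ⊆ D)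
    (h : ∀ p ∈ H, ∀ q ∈ D, Adj p q → q ∈ H) : per D = per H + per (D \ H) := by
  have hb : ∀ u : Pt, (∀ p : Pt, Adj p (p + u)) →
      bd u D D = bd u H H + bd u (D \ H) (D \ H) := fun u hu =>
    FlatUp_bd_split u D H hH (fun p hp hpu => h p hp _ hpu (hu p))
      (fun p hp hpu => h _ hpu p hp (hu p).symm)
  unfold per BB
  rw [hb (1, 0) fun p => Or.inl rfl, hb (-1, 0) fun p => Or.inr (Or.inl rfl),
    hb (0, 1) fun p => Or.inr (Or.inr (Or.inl rfl)),
    hb (0, -1) fun p => Or.inr (Or.inr (Or.inr rfl))]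
  ring

private theorem FlatUp_adj {D : Finset Pt} (hF : Flat (0, -1) D) {y₀ : ℤ}
    (hy : ∀ p ∈ D, y₀ ≤ p.2) {p q : Pt} (hp : p ∈ D)
    (hpc : ∀ y, y₀ ≤ y → y ≤ p.2 → (p.1, y) ∈ D) (hq : q ∈ D) (hpq : Adj p q) :
    ∀ y, y₀ ≤ y → y ≤ q.2 → (q.1, y) ∈ D := by
  obtain ⟨a, b⟩ := p
  -- one step down on both columns
  rcases hpq with rfl | rfl | rfl | rfl
  · have hq' : ((a + 1, b) : Pt) ∈ D := by
      have e : ((a, b) : Pt) + (1, 0) = (a + 1, b) := by ext <;> simp
      rwa [e] at hq
    have key : ∀ n : ℕ, y₀ ≤ b - n → ((a + 1, b - n) : Pt) ∈ D := by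
      intro n
      induction n with
      | zero =>
        intro _
        simpa using hq'
      | succ n ih =>
        intro hn
        have hn' : y₀ ≤ b - n := by push_cast at hn; omega
        have h1 := ih hn'
        have h2 : ((a, b - n) : Pt) ∈ D := hpc _ hn' (by simp)
        have h3 := hF (a, b - n) h2 (by
          have e : ((a, b - n) : Pt) + (1, 0) = (a + 1, b - n) := by ext <;> simp
          rwa [e])
        have e1 : ((a, b - n) : Pt) + (0, -1) = (a, b - (n + 1 : ℕ)) := by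
          ext
          · simp
          · simp; ring
        have e2 : ((a, b - n) : Pt) + (1, 0) + (0, -1) = (a + 1, b - (n + 1 : ℕ)) := by
          ext
          · simp
          · simp; ring
        rw [e1, e2] at h3
        exact h3.1 (hpc _ hn (by push_cast; omega))
    intro y hy1 hy2
    have hy2' : y ≤ b := by simpa using hy2
    have h := key (b - y).toNat (by
      have : (((b - y).toNat : ℕ) : ℤ) = b - y := Int.toNat_of_nonneg (by omega)
      omega)
    have e : (((b - y).toNat : ℕ) : ℤ) = b - y := Int.toNat_of_nonneg (by omega)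
    rw [e] at h
    have e1 : b - (b - y) = y := by ring
    rw [e1] at h
    simpa using h
  · have hq' : ((a - 1, b) : Pt) ∈ D := by
      have e : ((a, b) : Pt) + (-1, 0) = (a - 1, b) := by
        ext
        · simp; ring
        · simp
      rwa [e] at hq
    have key : ∀ n : ℕ, y₀ ≤ b - n → ((a - 1, b - n) : Pt) ∈ D := by
      intro n
      induction n with
      | zero =>
        intro _
        simpa using hq'
      | succ n ih =>
        intro hn
        have hn' : y₀ ≤ b - n := by push_cast at hn; omega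
        have h1 := ih hn'
        have h2 : ((a, b - n) : Pt) ∈ D := hpc _ hn' (by simp)
        have h3 := hF (a - 1, b - n) h1 (by
          have e : ((a - 1, b - n) : Pt) + (1, 0) = (a, b - n) := by ext <;> simp
          rwa [e])
        have e1 : ((a - 1, b - n) : Pt) + (0, -1) = (a - 1, b - (n + 1 : ℕ)) := by
          ext
          · simp
          · simp; ring
        have e2 : ((a - 1, b - n) : Pt) + (1, 0) + (0, -1) = (a, b - (n + 1 : ℕ)) := by
          ext
          · simp
          · simp; ring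
        rw [e1, e2] at h3
        exact h3.2 (hpc _ hn (by push_cast; omega))
    intro y hy1 hy2
    have hy2' : y ≤ b := by simpa using hy2
    have e : (((b - y).toNat : ℕ) : ℤ) = b - y := Int.toNat_of_nonneg (by omega)
    have h := key (b - y).toNat (by omega)
    rw [e] at h
    have e1 : b - (b - y) = y := by ring
    rw [e1] at h
    have e2 : (((a, b) : Pt) + (-1, 0)).1 = a - 1 := by simp; ring
    rw [e2]
    exact h
  · intro y hy1 hy2
    have hy2' : y ≤ b + 1 := by simpa using hy2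
    rcases le_or_gt y b with h | h
    · simpa using hpc y hy1 h
    · have e : y = b + 1 := by omega
      have e1 : ((((a, b) : Pt) + (0, 1)).1, y) = ((a, b) : Pt) + (0, 1) := by
        rw [e]
        ext <;> simp
      rw [e1]
      exact hq
  · intro y hy1 hy2
    have hy2' : y ≤ b - 1 := by
      have e : (((a, b) : Pt) + (0, -1)).2 = b - 1 := by simp; ring
      rwa [e] at hy2
    simpa using hpc y hy1 (by simp; omega)

theorem flat_up (P : PF L) {c : ℝ} (hc : 0 ≤ c) (hS : Sq P c) (D : Finset Pt)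
    (hD : D ⊆ Box L) (hF : Flat (0, -1) D) : P.g D ≤ c * per D := by
  classical
  induction hn : D.card using Nat.strong_induction_on generalizing D with
  | _ n ih =>
  subst hn
  rcases D.eq_empty_or_nonempty with rfl | hne
  · rw [P.empty]
    exact mul_nonneg hc (Nat.cast_nonneg _)
  -- the smallest height
  obtain ⟨p₀, hp₀, hmin⟩ := D.exists_min_image (fun p => p.2) hne
  set y₀ := p₀.2 with hy₀
  have hy0 : 0 ≤ y₀ := (mem_Box.1 (hD hp₀)).2.1
  let H : Finset Pt := D.filter fun p => ∀ y, y₀ ≤ y → y ≤ p.2 → ((p.1, y) : Pt) ∈ D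
  have hHD : H ⊆ D := Finset.filter_subset _ _
  have hmemH : ∀ p, p ∈ H ↔ p ∈ D ∧ ∀ y, y₀ ≤ y → y ≤ p.2 → ((p.1, y) : Pt) ∈ D := fun p =>
    Finset.mem_filter
  have hp₀H : p₀ ∈ H := by
    rw [hmemH]
    refine ⟨hp₀, fun y h1 h2 => ?_⟩
    have e : y = p₀.2 := le_antisymm h2 h1
    rw [e]
    exact hp₀
  have hadj : ∀ p ∈ H, ∀ q ∈ D, Adj p q → q ∈ H := by
    intro p hp q hq hpq
    rw [hmemH] at hp ⊢
    exact ⟨hq, FlatUp_adj hF (fun p hp => hmin p hp) hp.1 hp.2 hq hpq⟩
  have hper := FlatUp_per_split D H hHD hadj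
  -- the rest
  have hrest : P.g (D \ H) ≤ c * per (D \ H) := by
    refine ih (D \ H).card (Finset.card_lt_card ?_) (D \ H)
      (Finset.sdiff_subset.trans hD) ?_ rfl
    · refine ⟨Finset.sdiff_subset, fun h => ?_⟩
      exact (Finset.mem_sdiff.1 (h hp₀)).2 hp₀H
    · intro p hp hp1
      have hup : ∀ r : Pt, r ∈ D \ H → (r + (0, -1) ∈ D \ H ↔ r + (0, -1) ∈ D) := by
        intro r hr
        rw [Finset.mem_sdiff]
        refine ⟨fun h => h.1, fun h => ⟨h, fun h' => ?_⟩⟩
        have hrr : Adj (r + (0, -1)) r := by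
          have : Adj r (r + (0, -1)) := Or.inr (Or.inr (Or.inr rfl))
          exact this.symm
        exact (Finset.mem_sdiff.1 hr).2 (hadj _ h' r (Finset.mem_sdiff.1 hr).1 hrr)
      rw [hup p hp, hup _ hp1]
      exact hF p (Finset.mem_sdiff.1 hp).1 (Finset.mem_sdiff.1 hp1).1
  -- the histogram
  let φ : ℤ → ℕ := fun x => (H.filter fun p => p.1 = x).sup fun p => (p.2 - y₀ + 1).toNat
  have hφ : ∀ x y : ℤ, y₀ ≤ y → (((x, y) : Pt) ∈ H ↔ y - y₀ < φ x) := by
    intro x y hy
    constructor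
    · intro h
      have h0 : ((x, y) : Pt) ∈ H.filter fun p => p.1 = x := Finset.mem_filter.2 ⟨h, rfl⟩
      have h1 : (y - y₀ + 1).toNat ≤ φ x :=
        Finset.le_sup (f := fun p : Pt => (p.2 - y₀ + 1).toNat) h0
      omega
    · intro h
      have h1 : (y - y₀).toNat < φ x := by omega
      obtain ⟨p, hp, hlt⟩ := Finset.lt_sup_iff.1 h1
      obtain ⟨hpH, rfl⟩ := Finset.mem_filter.1 hp
      have h2 : y ≤ p.2 := by omega
      rw [hmemH] at hpH ⊢
      exact ⟨hpH.2 y hy h2, fun y' h3 h4 => hpH.2 y' h3 (le_trans h4 h2)⟩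
  have hφL : ∀ x, φ x ≤ L := by
    intro x
    refine Finset.sup_le fun p hp => ?_
    have h1 := (mem_Box.1 (hD (hHD (Finset.mem_filter.1 hp).1))).2.2
    omega
  have himg : (Hs φ 0 L).image (· + ((0, y₀) : Pt)) = H := by
    ext ⟨x, y⟩
    rw [Finset.mem_image]
    constructor
    · rintro ⟨⟨a, b⟩, hab, he⟩
      obtain ⟨h1, h2, h3, h4⟩ := mem_Hs.1 hab
      have e1 : a = x := by simpa using congrArg Prod.fst he
      have e2 : b + y₀ = y := by simpa using congrArg Prod.snd he
      subst e1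
      subst e2
      rw [hφ a (b + y₀) (by simp only at h3; omega)]
      simp only at h4
      omega
    · intro h
      have hb := mem_Box.1 (hD (hHD h))
      have hy : y₀ ≤ y := hmin _ (hHD h)
      refine ⟨(x, y - y₀), mem_Hs.2 ⟨hb.1.1, ?_, ?_, ?_⟩, ?_⟩
      · have := hb.1.2
        simp only at this ⊢
        omega
      · simp only
        omega
      · exact (hφ x y hy).1 h
      · ext
        · simp
        · simp
  have hHsL : Hs φ 0 L ⊆ Box L := by
    intro p hp
    obtain ⟨h1, h2, h3, h4⟩ := mem_Hs.1 hp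
    have h5 := hφL p.1
    rw [mem_Box]
    refine ⟨⟨h1, by omega⟩, h3, by omega⟩
  have hH1 : P.g H ≤ c * per H := by
    have h1 := hist_per P hc hS φ hφL L 0 (le_refl 0) (by omega)
    have h2 := P.ti (Hs φ 0 L) (0, y₀) hHsL (by rw [himg]; exact hHD.trans hD)
    have h3 := per_trans (Hs φ 0 L) (0, y₀)
    rw [himg] at h2 h3
    rw [h2, h3]
    exact h1
  have hsub : P.g D ≤ P.g H + P.g (D \ H) := by
    have h1 := P.sub (hHD.trans hD) ((Finset.sdiff_subset (s := D) (t := H)).trans hD)
    rwa [Finset.union_sdiff_of_subset hHD] at h1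
  rw [hper]
  push_cast
  linarith

end Pool.Agent.AL
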