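import Pool.Agent.AL.Defs

/-!
# PIECE AL-GSU: ground states

`gs_tinv`: let `(T φ) σ = φ (fun w => σ (w + v))`. The matrix `H = ham Ω h L` satisfies
`H (σ ∘ (· + v)) (τ ∘ (· + v)) = H σ τ` (the summand of `u` becomes the summand of `u + v` or
`u - v`), so `H (T φ) = T (H φ)`. Put `z = ip ψ (T ψ)`, `χ = T ψ - z ψ`, so `ip ψ χ = 0` and
`H χ = E χ`; the inequality in `GS` gives `(E + Δ) ‖χ‖² ≤ E ‖χ‖²`, so `χ = 0`; `|z| = 1` by the norms.
`gs_transfer`: `z = ip ψ ψ'`, `χ = ψ' - z ψ ⟂ ψ`: `H χ = E' ψ' - z E ψ`, `ip χ (H χ) = E' ‖χ‖²`, so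
`(E + Δ - E') ‖χ‖² ≤ 0`. If `E' ≤ E` then `χ = 0`, `ψ' = z ψ`, `|z| = 1`, `E' = E`. If `E ≤ E'` exchange
the roles. (`GS` is invariant under `ψ ↦ z ψ`.)
`ham_isHermitian`: each `place` is hermitian (the condition is symmetric in `σ`, `τ`).
-/

namespace Pool.Agent.AL

open scoped Matrix

section
variable {V : Type} [Fintype V] [DecidableEq V] {d : ℕ}

private theorem GSU_conj (φ ψ : (V → Fin d) → ℂ) : star (ip φ ψ) = ip ψ φ := by
  unfold ip
  rw [star_sum]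
  refine Finset.sum_congr rfl fun σ _ => ?_
  rw [star_mul', star_star, mul_comm]

private theorem GSU_self (φ : (V → Fin d) → ℂ) : ip φ φ = ((∑ σ, ‖φ σ‖ ^ 2 : ℝ) : ℂ) := by
  unfold ip
  push_cast
  refine Finset.sum_congr rfl fun σ _ => ?_
  have h := Complex.conj_mul' (φ σ)
  rw [← h]
  rfl

private theorem GSU_add (φ x y : (V → Fin d) → ℂ) : ip φ (x + y) = ip φ x + ip φ y := by
  unfold ip
  rw [← Finset.sum_add_distrib]
  refine Finset.sum_congr rfl fun σ _ => ?_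
  rw [Pi.add_apply, mul_add]

private theorem GSU_smul (φ x : (V → Fin d) → ℂ) (c : ℂ) : ip φ (c • x) = c * ip φ x := by
  unfold ip
  rw [Finset.mul_sum]
  refine Finset.sum_congr rfl fun σ _ => ?_
  rw [Pi.smul_apply, smul_eq_mul]
  ring

private theorem GSU_smul_left (φ x : (V → Fin d) → ℂ) (c : ℂ) :
    ip (c • φ) x = star c * ip φ x := by
  rw [← GSU_conj, GSU_smul, star_mul', GSU_conj]

/-- an eigenvector below the gap is a multiple of the ground state -/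
private theorem GSU_par {H : Matrix (V → Fin d) (V → Fin d) ℂ} {ψ ψ' : (V → Fin d) → ℂ}
    {E E' Δ : ℝ} (h : GS H ψ E Δ) (hU : Unitv ψ') (hE : H.mulVec ψ' = (E' : ℂ) • ψ')
    (hlt : E' < E + Δ) : ∃ z : ℂ, ‖z‖ = 1 ∧ ψ' = z • ψ := by
  obtain ⟨h1, h2, h3⟩ := h
  set z : ℂ := ip ψ ψ' with hz
  set χ : (V → Fin d) → ℂ := ψ' + (-z) • ψ with hχ
  have e1 : ip ψ ψ = 1 := by
    rw [GSU_self, show (∑ σ, ‖ψ σ‖ ^ 2) = 1 from h1]
    simp
  have e2 : ip ψ χ = 0 := by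
    rw [hχ, GSU_add, GSU_smul, e1, ← hz]
    ring
  have e3 : ip χ ψ = 0 := by rw [← GSU_conj, e2, star_zero]
  have e4 : H.mulVec χ = (E' : ℂ) • χ + (((E' : ℂ) - E) * z) • ψ := by
    rw [hχ, Matrix.mulVec_add, Matrix.mulVec_smul, hE, h2]
    funext σ
    simp only [Pi.add_apply, Pi.smul_apply, smul_eq_mul]
    ring
  have e5 : ip χ (H.mulVec χ) = ((E' * ∑ σ, ‖χ σ‖ ^ 2 : ℝ) : ℂ) := by
    rw [e4, GSU_add, GSU_smul, GSU_smul, e3, GSU_self]
    push_cast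
    ring
  have e6 := h3 χ e2
  rw [e5, Complex.ofReal_re] at e6
  have e7 : ∑ σ, ‖χ σ‖ ^ 2 = 0 := by
    have h0 : 0 ≤ ∑ σ, ‖χ σ‖ ^ 2 := Finset.sum_nonneg fun σ _ => by positivity
    rcases h0.lt_or_eq with h4 | h4
    · exfalso
      have := mul_lt_mul_of_pos_right hlt h4
      linarith
    · exact h4.symm
  have e8 : ∀ σ, χ σ = 0 := by
    intro σ
    have h4 := (Finset.sum_eq_zero_iff_of_nonneg fun σ _ => by positivity).1 e7 σ
      (Finset.mem_univ σ)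
    exact norm_eq_zero.1 (pow_eq_zero_iff two_ne_zero |>.1 h4)
  have e9 : ψ' = z • ψ := by
    funext σ
    have h4 := e8 σ
    rw [hχ] at h4
    simp only [Pi.add_apply, Pi.smul_apply, smul_eq_mul] at h4 ⊢
    linear_combination h4
  refine ⟨z, ?_, e9⟩
  have h5 : ∑ σ, ‖ψ' σ‖ ^ 2 = ‖z‖ ^ 2 * ∑ σ, ‖ψ σ‖ ^ 2 := by
    rw [Finset.mul_sum]
    refine Finset.sum_congr rfl fun σ _ => ?_
    rw [e9, Pi.smul_apply, norm_smul, mul_pow]
  rw [show (∑ σ, ‖ψ' σ‖ ^ 2) = 1 from hU, show (∑ σ, ‖ψ σ‖ ^ 2) = 1 from h1, mul_one] at h5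
  nlinarith [norm_nonneg z]

private theorem GSU_ne {ψ : (V → Fin d) → ℂ} (hU : Unitv ψ) : ∃ σ, ψ σ ≠ 0 := by
  by_contra h
  push Not at h
  have : ∑ σ, ‖ψ σ‖ ^ 2 = 0 := Finset.sum_eq_zero fun σ _ => by rw [h σ]; simp
  rw [Unitv, this] at hU
  exact zero_ne_one hU

private theorem GSU_final {H : Matrix (V → Fin d) (V → Fin d) ℂ} {ψ ψ' : (V → Fin d) → ℂ}
    {E E' Δ : ℝ} (h : GS H ψ E Δ) (hU : Unitv ψ') (hE : H.mulVec ψ' = (E' : ℂ) • ψ')
    {z : ℂ} (hz : ‖z‖ = 1) (hψ : ψ' = z • ψ) : GS H ψ' E Δ := by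
  obtain ⟨h1, h2, h3⟩ := h
  refine ⟨hU, ?_, ?_⟩
  · rw [hψ, Matrix.mulVec_smul, h2, smul_comm]
  · intro φ hφ
    apply h3
    rw [hψ, GSU_smul_left] at hφ
    rcases mul_eq_zero.1 hφ with h4 | h4
    · exfalso
      have h5 : z = 0 := by simpa using h4
      rw [h5, norm_zero] at hz
      exact zero_ne_one hz
    · exact h4

theorem gs_transfer {H : Matrix (V → Fin d) (V → Fin d) ℂ} {ψ ψ' : (V → Fin d) → ℂ}
    {E E' Δ Δ' : ℝ} (hΔ : 0 < Δ) (hΔ' : 0 < Δ') (h : GS H ψ E Δ) (h' : GS H ψ' E' Δ') :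
    GS H ψ' E Δ := by
  rcases le_total E' E with h1 | h1
  · obtain ⟨z, hz, hψ⟩ := GSU_par h h'.1 h'.2.1 (by linarith)
    exact GSU_final h h'.1 h'.2.1 hz hψ
  · obtain ⟨z, hz, hψ⟩ := GSU_par h' h.1 h.2.1 (by linarith)
    have hz0 : z ≠ 0 := by
      intro h2
      rw [h2, norm_zero] at hz
      exact zero_ne_one hz
    refine GSU_final h h'.1 h'.2.1 (z := z⁻¹) (by rw [norm_inv, hz, inv_one]) ?_
    rw [hψ, smul_smul, inv_mul_cancel₀ hz0, one_smul]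

theorem unit_pos [Nonempty V] {ψ : (V → Fin d) → ℂ} (hU : Unitv ψ) : 0 < d := by
  obtain ⟨σ, _⟩ := GSU_ne hU
  obtain ⟨v⟩ := (inferInstance : Nonempty V)
  exact lt_of_le_of_lt (Nat.zero_le _) (σ v).2

end

variable {L : ℕ} [NeZero L] {d : ℕ}

private theorem GSU_place {Ω : Finset (ℤ × ℤ)} {h : Matrix (Ω → Fin d) (Ω → Fin d) ℂ}
    (u v : Tor L) (σ τ : Tor L → Fin d) :
    place Ω h L u (fun w => σ (w + v)) (fun w => τ (w + v)) = place Ω h L (u + v) σ τ := by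
  classical
  unfold place
  rw [Matrix.of_apply, Matrix.of_apply]
  have e1 : ∀ x : Ω, u + red L x + v = u + v + red L x := fun x => by
    rw [add_right_comm]
  have e2 : (∀ w : Tor L, (∀ x ∈ Ω, w ≠ u + red L x) → σ (w + v) = τ (w + v)) ↔
      ∀ w : Tor L, (∀ x ∈ Ω, w ≠ u + v + red L x) → σ w = τ w := by
    constructor
    · intro h1 w hw
      have h2 := h1 (w - v) (fun x hx hxw => hw x hx (by
        rw [add_right_comm, ← hxw, sub_add_cancel]))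
      rwa [sub_add_cancel] at h2
    · intro h1 w hw
      exact h1 (w + v) (fun x hx hxw => hw x hx (by
        rw [add_right_comm] at hxw
        exact add_right_cancel hxw))
  simp only [e1]
  by_cases h3 : ∀ w : Tor L, (∀ x ∈ Ω, w ≠ u + v + red L x) → σ w = τ w
  · rw [if_pos (e2.2 h3), if_pos h3]
  · rw [if_neg (fun h4 => h3 (e2.1 h4)), if_neg h3]

private theorem GSU_ham {Ω : Finset (ℤ × ℤ)} {h : Matrix (Ω → Fin d) (Ω → Fin d) ℂ}
    (v : Tor L) (σ τ : Tor L → Fin d) :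
    ham Ω h L (fun w => σ (w + v)) (fun w => τ (w + v)) = ham Ω h L σ τ := by
  unfold ham
  rw [Matrix.sum_apply, Matrix.sum_apply]
  rw [← Equiv.sum_comp (Equiv.addRight v) (fun u => place Ω h L u σ τ)]
  refine Finset.sum_congr rfl fun u _ => ?_
  rw [GSU_place]
  rfl

/-- the shift of configurations -/
private def GSU_e (v : Tor L) : (Tor L → Fin d) ≃ (Tor L → Fin d) where
  toFun σ := fun w => σ (w + v)
  invFun σ := fun w => σ (w - v)
  left_inv σ := by funext w; simp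
  right_inv σ := by funext w; simp

theorem gs_tinv {Ω : Finset (ℤ × ℤ)} {h : Matrix (Ω → Fin d) (Ω → Fin d) ℂ}
    {ψ : (Tor L → Fin d) → ℂ} {E Δ : ℝ} (hΔ : 0 < Δ) (hg : GS (ham Ω h L) ψ E Δ) : TInv ψ := by
  intro v
  set ψ' : (Tor L → Fin d) → ℂ := fun σ => ψ (GSU_e v σ) with hψ'
  have hU : Unitv ψ' := by
    unfold Unitv
    rw [hψ']
    rw [Equiv.sum_comp (GSU_e v) (fun σ => ‖ψ σ‖ ^ 2)]
    exact hg.1
  have hE : (ham Ω h L).mulVec ψ' = (E : ℂ) • ψ' := by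
    funext σ
    have h1 : (ham Ω h L).mulVec ψ (GSU_e v σ) = E * ψ (GSU_e v σ) := by
      rw [hg.2.1]
      rfl
    rw [Pi.smul_apply, smul_eq_mul]
    show _ = E * ψ (GSU_e v σ)
    rw [← h1]
    unfold Matrix.mulVec dotProduct
    rw [← Equiv.sum_comp (GSU_e v) (fun τ => ham Ω h L (GSU_e v σ) τ * ψ τ)]
    refine Finset.sum_congr rfl fun τ _ => ?_
    have h2 : ham Ω h L (GSU_e v σ) (GSU_e v τ) = ham Ω h L σ τ := GSU_ham v σ τ
    rw [h2]
  obtain ⟨z, hz, hψ⟩ := GSU_par hg hU hE (by linarith)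
  refine ⟨z, hz, fun σ => ?_⟩
  have := congrFun hψ σ
  rw [hψ', Pi.smul_apply, smul_eq_mul] at this
  exact this

theorem ham_isHermitian {Ω : Finset (ℤ × ℤ)} {h : Matrix (Ω → Fin d) (Ω → Fin d) ℂ}
    (hh : h.IsHermitian) : (ham Ω h L).IsHermitian := by
  classical
  unfold ham
  rw [Matrix.IsHermitian, Matrix.conjTranspose_sum]
  refine Finset.sum_congr rfl fun v _ => ?_
  ext σ τ
  rw [Matrix.conjTranspose_apply]
  unfold place
  rw [Matrix.of_apply, Matrix.of_apply]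
  have e2 : (∀ w : Tor L, (∀ x ∈ Ω, w ≠ v + red L x) → τ w = σ w) ↔
      ∀ w : Tor L, (∀ x ∈ Ω, w ≠ v + red L x) → σ w = τ w :=
    ⟨fun h1 w hw => (h1 w hw).symm, fun h1 w hw => (h1 w hw).symm⟩
  by_cases h3 : ∀ w : Tor L, (∀ x ∈ Ω, w ≠ v + red L x) → σ w = τ w
  · rw [if_pos (e2.2 h3), if_pos h3]
    exact hh.apply _ _
  · rw [if_neg (fun h4 => h3 (e2.1 h4)), if_neg h3, star_zero]

end Pool.Agent.AL
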