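import Pool.Agent.AL.Rect

/-!
# PIECE AL-Hist: the histogram lemma

Write `I = [a, a + n)`, `H_I = Hs φ a n`. Claim: if `φ ≥ d` on `I` then
`g(H_I) ≤ F(n, d) + ψ(n, d) + c (lv + rv)`, where `ψ(n, d) = 2 c n - F(n, d)` if `d < n` and `0`
otherwise. Strong induction on `n` (for all `a`, `d`). `n = 0`: everything is `0`. Otherwise let
`m = φ (a + j)` be the minimum of `φ` on `I`, `I₁ = [a, a + j)`, `I₂ = [a + j + 1, a + n)`, with
lengths `n₁ = j`, `n₂ = n - j - 1`, and let `R = I × [0, m)` (a translate of `rect n m`). Then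
`H_I = R ∪ H_{I₁} ∪ H_{I₂}`, `R ∩ H_{I₁} = I₁ × [0, m)`, `(R ∪ H_{I₁}) ∩ H_{I₂} = I₂ × [0, m)`, so
twice `ssa`: `g(H_I) ≤ F(n, m) + (g(H_{I₁}) - F(n₁, m)) + (g(H_{I₂}) - F(n₂, m))`. Induction for
`I₁`, `I₂` with depth `m` and `lv_split`, `rv_split` reduce the claim to
`F(n, m) - F(n, d) + ψ(n₁, m) + ψ(n₂, m) ≤ ψ(n, d) + 2 c (m - d)`.
(a) `n ≤ d`: `n_i < n ≤ m`, so `ψ(n_i, m) = 0` and `F_up2` is the claim.
(b) `d < n ≤ m`: `ψ(n_i, m) = 0`; `F(n, m) ≤ c (n + m) ≤ 2 c n + 2 c (m - d)` as `2 d ≤ n + m`.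
(c) `m < n`: if no `n_i > m`: `F(n, m) ≤ c (n + m) ≤ 2 c n`. If one `n_i > m`:
`F(n, m) ≤ F(n_i, m) + 2 c (n - n_i)` by `F_up1`. If both: `F(n, m) ≤ F(n₁ + n₂, m) + 2 c` and
`F(n₁ + n₂, m) ≤ F(n₁, m) + F(n₂, m)`.
-/

namespace Pool.Agent.AL

variable {L : ℕ}

private theorem Hist_lv0 (φ : ℤ → ℕ) (a : ℤ) {j m d : ℕ} (hd : d ≤ m) (h0 : 0 < j → m ≤ φ a) :
    ∑ i ∈ Finset.range j, (φ (a + i) - if i = 0 then d else φ (a + i - 1)) =
      (if 0 < j then m - d else 0) +
        ∑ i ∈ Finset.range j, (φ (a + i) - if i = 0 then m else φ (a + i - 1)) := by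
  rcases j with _ | j
  · simp
  · have h := h0 (Nat.succ_pos j)
    rw [Finset.sum_range_succ', Finset.sum_range_succ' (fun i : ℕ =>
      (φ (a + i) - if i = 0 then m else φ (a + i - 1)))]
    have e1 : ∀ i : ℕ, ¬ (i + 1 = 0) := fun i => Nat.succ_ne_zero i
    simp only [e1, if_false, if_true, Nat.cast_zero, add_zero, Nat.succ_pos]
    omega

private theorem Hist_rv0 (φ : ℤ → ℕ) (a : ℤ) {j m d : ℕ} (hd : d ≤ m)
    (h0 : 0 < j → m ≤ φ (a + j - 1)) :
    ∑ i ∈ Finset.range j, (φ (a + i) - if i + 1 = j then d else φ (a + i + 1)) =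
      (if 0 < j then m - d else 0) +
        ∑ i ∈ Finset.range j, (φ (a + i) - if i + 1 = j then m else φ (a + i + 1)) := by
  rcases j with _ | j
  · simp
  · have h := h0 (Nat.succ_pos j)
    have e0 : a + ((j + 1 : ℕ) : ℤ) - 1 = a + (j : ℤ) := by push_cast; ring
    rw [e0] at h
    rw [Finset.sum_range_succ, Finset.sum_range_succ (fun i : ℕ =>
      (φ (a + i) - if i + 1 = j + 1 then m else φ (a + i + 1)))]
    have e1 : ∀ e : ℕ, ∑ i ∈ Finset.range j, (φ (a + i) - if i + 1 = j + 1 then e else φ (a + i + 1)) =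
        ∑ i ∈ Finset.range j, (φ (a + i) - φ (a + i + 1)) := fun e =>
      Finset.sum_congr rfl fun i hi => by
        rw [Finset.mem_range] at hi
        rw [if_neg (by omega)]
    rw [e1, e1]
    simp only [if_true, Nat.succ_pos]
    omega

theorem lv_split (φ : ℤ → ℕ) (a : ℤ) {n j m d : ℕ} (hj : j < n) (hm : φ (a + j) = m)
    (hd : d ≤ m) (hφ : ∀ x, a ≤ x → x < a + n → m ≤ φ x) :
    lv φ a n d = (m - d) + lv φ a j m + lv φ (a + j + 1) (n - j - 1) m := by
  obtain ⟨k, rfl⟩ : ∃ k, n = j + 1 + k := ⟨n - j - 1, by omega⟩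
  have e1 : j + 1 + k - j - 1 = k := by omega
  unfold lv
  rw [e1, Finset.sum_range_add, Finset.sum_range_succ, Hist_lv0 φ a hd (fun h0 => hφ a le_rfl (by
    push_cast; omega))]
  have e2 : ∑ x ∈ Finset.range k, (φ (a + ((j + 1 + x : ℕ) : ℤ)) -
      if j + 1 + x = 0 then d else φ (a + ((j + 1 + x : ℕ) : ℤ) - 1)) =
      ∑ i ∈ Finset.range k, (φ (a + j + 1 + i) - if i = 0 then m else φ (a + j + 1 + i - 1)) := by
    refine Finset.sum_congr rfl fun i _ => ?_
    have h1 : a + ((j + 1 + i : ℕ) : ℤ) = a + j + 1 + i := by push_cast; ring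
    rw [h1, if_neg (by omega)]
    rcases Nat.eq_zero_or_pos i with rfl | hi
    · rw [if_pos rfl, ← hm]
      congr 2
      push_cast
      ring
    · rw [if_neg (by omega)]
  rw [e2, hm]
  rcases Nat.eq_zero_or_pos j with rfl | hj0
  · simp
  · have h2 := hφ (a + j - 1) (by omega) (by push_cast; omega)
    rw [if_pos hj0, if_neg (by omega)]
    omega

theorem rv_split (φ : ℤ → ℕ) (a : ℤ) {n j m d : ℕ} (hj : j < n) (hm : φ (a + j) = m)
    (hd : d ≤ m) (hφ : ∀ x, a ≤ x → x < a + n → m ≤ φ x) :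
    rv φ a n d = (m - d) + rv φ a j m + rv φ (a + j + 1) (n - j - 1) m := by
  obtain ⟨k, rfl⟩ : ∃ k, n = j + 1 + k := ⟨n - j - 1, by omega⟩
  have e1 : j + 1 + k - j - 1 = k := by omega
  unfold rv
  rw [e1, Finset.sum_range_add, Finset.sum_range_succ]
  have e2 : ∑ x ∈ Finset.range k, (φ (a + ((j + 1 + x : ℕ) : ℤ)) -
      if j + 1 + x + 1 = j + 1 + k then d else φ (a + ((j + 1 + x : ℕ) : ℤ) + 1)) =
      ∑ i ∈ Finset.range k, (φ (a + j + 1 + i) - if i + 1 = k then d else φ (a + j + 1 + i + 1)) := by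
    refine Finset.sum_congr rfl fun i _ => ?_
    have h1 : a + ((j + 1 + i : ℕ) : ℤ) = a + j + 1 + i := by push_cast; ring
    have h2 : (j + 1 + i + 1 = j + 1 + k) ↔ (i + 1 = k) := by omega
    simp only [h1, h2]
  have e3 : ∑ i ∈ Finset.range j, (φ (a + i) - if i + 1 = j + 1 + k then d else φ (a + i + 1)) =
      ∑ i ∈ Finset.range j, (φ (a + i) - if i + 1 = j then m else φ (a + i + 1)) := by
    refine Finset.sum_congr rfl fun i hi => ?_
    rw [Finset.mem_range] at hi
    rw [if_neg (by omega)]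
    split_ifs with h
    · rw [← hm, ← h]
      congr 2
      push_cast
      ring
    · rfl
  rw [e2, e3, Hist_rv0 φ (a + j + 1) hd (fun h0 => hφ _ (by omega) (by push_cast; omega)), hm]
  rcases Nat.eq_zero_or_pos k with rfl | hk
  · simp
    omega
  · have h2 := hφ (a + j + 1) (by omega) (by push_cast; omega)
    rw [if_pos hk, if_neg (by omega)]
    omega

private theorem Hist_mem {a b : ℕ} {u v : ℤ} {p : Pt} :
    p ∈ (rect a b).image (· + ((u, v) : Pt)) ↔
      (u ≤ p.1 ∧ p.1 < u + a) ∧ v ≤ p.2 ∧ p.2 < v + b := by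
  simp only [Finset.mem_image]
  constructor
  · rintro ⟨q, hq, rfl⟩
    rw [mem_rect] at hq
    simp only [Prod.fst_add, Prod.snd_add]
    omega
  · intro h
    refine ⟨(p.1 - u, p.2 - v), ?_, ?_⟩
    · rw [mem_rect]
      simp only
      omega
    · ext <;> simp

private theorem Hist_sub (φ : ℤ → ℕ) (hL : ∀ x, φ x ≤ L) (n : ℕ) (a : ℤ) (ha : 0 ≤ a)
    (han : a + n ≤ L) : Hs φ a n ⊆ Box L := by
  intro p hp
  rw [mem_Hs] at hp
  have := hL p.1
  rw [mem_Box]
  omega

private theorem Hist_rsub {n m : ℕ} {a : ℤ} (ha : 0 ≤ a) (han : a + n ≤ L) (hm : m ≤ L) :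
    (rect n m).image (· + ((a, 0) : Pt)) ⊆ Box L := by
  intro p hp
  rw [Hist_mem] at hp
  rw [mem_Box]
  omega

private theorem Hist_ti (P : PF L) {n m : ℕ} {a : ℤ} (ha : 0 ≤ a) (han : a + n ≤ L)
    (hm : m ≤ L) : P.g ((rect n m).image (· + ((a, 0) : Pt))) = P.F n m := by
  refine P.ti _ _ ?_ (Hist_rsub ha han hm)
  intro p hp
  rw [mem_rect] at hp
  rw [mem_Box]
  omega

private theorem Hist_cut (P : PF L) (φ : ℤ → ℕ) (hL : ∀ x, φ x ≤ L) {n j : ℕ} (hj : j < n)
    {a : ℤ} (ha : 0 ≤ a) (han : a + n ≤ L) {m : ℕ} (hm : φ (a + j) = m)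
    (hφ : ∀ x, a ≤ x → x < a + n → m ≤ φ x) :
    P.g (Hs φ a n) + P.F j m + P.F (n - j - 1) m ≤
      P.F n m + P.g (Hs φ a j) + P.g (Hs φ (a + j + 1) (n - j - 1)) := by
  have hmL : m ≤ L := hm ▸ hL _
  have hn2 : ((n - j - 1 : ℕ) : ℤ) = n - j - 1 := by omega
  have b1 := Hist_rsub (L := L) (n := n) (m := m) ha han hmL
  have b2 := Hist_sub φ hL j a ha (by omega)
  have b3 := Hist_sub φ hL (n - j - 1) (a + j + 1) (by omega) (by omega)
  have s1 := P.ssa _ _ b1 b2
  have s2 := P.ssa _ _ (Finset.union_subset b1 b2) b3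
  have e1 : (rect n m).image (· + ((a, 0) : Pt)) ∩ Hs φ a j =
      (rect j m).image (· + ((a, 0) : Pt)) := by
    ext p
    rw [Finset.mem_inter, Hist_mem, Hist_mem, mem_Hs]
    constructor
    · rintro ⟨h1, h2⟩
      omega
    · intro h
      have := hφ p.1 h.1.1 (by omega)
      omega
  have e2 : ((rect n m).image (· + ((a, 0) : Pt)) ∪ Hs φ a j) ∩ Hs φ (a + j + 1) (n - j - 1) =
      (rect (n - j - 1) m).image (· + ((a + j + 1, 0) : Pt)) := by
    ext p
    rw [Finset.mem_inter, Finset.mem_union, Hist_mem, Hist_mem, mem_Hs, mem_Hs, hn2]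
    constructor
    · rintro ⟨h1, h2⟩
      omega
    · intro h
      have := hφ p.1 (by omega) (by omega)
      omega
  have e3 : (rect n m).image (· + ((a, 0) : Pt)) ∪ Hs φ a j ∪ Hs φ (a + j + 1) (n - j - 1) =
      Hs φ a n := by
    ext p
    rw [Finset.mem_union, Finset.mem_union, Hist_mem, mem_Hs, mem_Hs, mem_Hs, hn2]
    constructor
    · rintro ((h | h) | h)
      · have := hφ p.1 h.1.1 (by omega)
        omega
      · omega
      · omega
    · intro h
      rcases lt_trichotomy p.1 (a + j) with h1 | h1 | h1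
      · left; right
        omega
      · left; left
        have h2 : φ p.1 = m := by rw [h1, hm]
        omega
      · right
        omega
  rw [e1, Hist_ti P ha han hmL, Hist_ti P ha (by omega) hmL] at s1
  rw [e2, e3, Hist_ti P (by omega) (by omega) hmL] at s2
  linarith

theorem hist_le (P : PF L) {c : ℝ} (hc : 0 ≤ c) (hS : Sq P c) (φ : ℤ → ℕ)
    (hL : ∀ x, φ x ≤ L) (n : ℕ) (a : ℤ) (d : ℕ) (ha : 0 ≤ a) (han : a + n ≤ L)
    (hd : ∀ x, a ≤ x → x < a + n → d ≤ φ x) :
    P.g (Hs φ a n) ≤ P.F n d + (if d < n then 2 * c * n - P.F n d else 0) +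
      c * ((lv φ a n d : ℝ) + rv φ a n d) := by
  induction n using Nat.strong_induction_on generalizing a d with
  | _ n ih =>
    rcases Nat.eq_zero_or_pos n with rfl | hn0
    · have h : Hs φ a 0 = ∅ := by
        ext p
        rw [mem_Hs]
        simp
        omega
      rw [h, P.empty, F_zero_left]
      simp [lv, rv]
    · obtain ⟨j, hj, hmin⟩ := Finset.exists_min_image (Finset.range n) (fun i : ℕ => φ (a + i))
        ⟨0, Finset.mem_range.2 hn0⟩
      rw [Finset.mem_range] at hj
      obtain ⟨m, hm⟩ : ∃ m, φ (a + j) = m := ⟨_, rfl⟩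
      have hφ : ∀ x, a ≤ x → x < a + n → m ≤ φ x := by
        intro x h1 h2
        have h3 := hmin (x - a).toNat (Finset.mem_range.2 (by omega))
        have h4 : a + ((x - a).toNat : ℤ) = x := by omega
        simp only [h4, hm] at h3
        exact h3
      have hdm : d ≤ m := hm ▸ hd (a + j) (by omega) (by omega)
      have hmL : m ≤ L := hm ▸ hL _
      have hnL : n ≤ L := by omega
      have hn2 : ((n - j - 1 : ℕ) : ℤ) = n - j - 1 := by omega
      have i1 := ih j hj a m ha (by omega) (fun x h1 h2 => hφ x h1 (by omega))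
      have i2 := ih (n - j - 1) (by omega) (a + j + 1) m (by omega) (by omega)
        (fun x h1 h2 => hφ x (by omega) (by omega))
      have hcut := Hist_cut P φ hL hj ha han hm hφ
      have hl := lv_split φ a hj hm hdm hφ
      have hr := rv_split φ a hj hm hdm hφ
      obtain ⟨k, hk⟩ : ∃ k, k = n - j - 1 := ⟨_, rfl⟩
      rw [← hk] at i2 hcut hl hr
      have hl' : (lv φ a n d : ℝ) = ((m : ℝ) - d) + lv φ a j m + lv φ (a + j + 1) k m := by
        rw [hl]
        push_cast [Nat.cast_sub hdm]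
        ring
      have hr' : (rv φ a n d : ℝ) = ((m : ℝ) - d) + rv φ a j m + rv φ (a + j + 1) k m := by
        rw [hr]
        push_cast [Nat.cast_sub hdm]
        ring
      have hmd : (d : ℝ) ≤ m := by exact_mod_cast hdm
      have hnjk : (n : ℝ) = j + k + 1 := by
        have : n = j + k + 1 := by omega
        rw [this]
        push_cast
        ring
      have hcmd : 0 ≤ c * ((m : ℝ) - d) := mul_nonneg hc (by linarith)
      have key : P.F n m + (if m < j then 2 * c * j - P.F j m else 0) +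
          (if m < k then 2 * c * k - P.F k m else 0) ≤
          P.F n d + (if d < n then 2 * c * n - P.F n d else 0) + 2 * c * ((m : ℝ) - d) := by
        by_cases h1 : n ≤ d
        · rw [if_neg (by omega), if_neg (by omega), if_neg (by omega)]
          have := F_up2 P hc hS hnL hmL hdm (by omega)
          linarith
        · rw [if_pos (show d < n by omega)]
          have hF := F_le P hc hS hnL hmL
          by_cases h2 : n ≤ m
          · rw [if_neg (by omega), if_neg (by omega)]
            have h3 : (d : ℝ) ≤ n := by exact_mod_cast (show d ≤ n by omega)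
            nlinarith [mul_nonneg hc (show (0 : ℝ) ≤ (n : ℝ) - d by linarith)]
          · have h3 : (m : ℝ) ≤ n := by exact_mod_cast (show m ≤ n by omega)
            have h4 := mul_nonneg hc (show (0 : ℝ) ≤ (n : ℝ) - m by linarith)
            by_cases h5 : m < j
            · have u1 := F_up1 P hc hS hnL hmL (show j ≤ n by omega) (show m ≤ j + 1 by omega)
              by_cases h6 : m < k
              · rw [if_pos h5, if_pos h6]
                have u2 := F_up1 P hc hS hnL hmL (show j + k ≤ n by omega)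
                  (show m ≤ j + k + 1 by omega)
                have u3 := F_add1 P (show j + k ≤ L by omega) hmL
                push_cast at u2
                rw [hnjk] at u2 ⊢
                nlinarith
              · rw [if_pos h5, if_neg h6]
                nlinarith
            · by_cases h6 : m < k
              · rw [if_neg h5, if_pos h6]
                have u1 := F_up1 P hc hS hnL hmL (show k ≤ n by omega) (show m ≤ k + 1 by omega)
                nlinarith
              · rw [if_neg h5, if_neg h6]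
                nlinarith
      rw [hl', hr']
      linarith

end Pool.Agent.AL
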