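import Pool.Agent.AL.Hist

/-!
# PIECE AL-HistPer: histograms satisfy the area law

`per_Hs`: `bd (-1, 0)` of `H = Hs φ a n` counts for each column `a + i` the `y` with
`φ (a + i - 1) ≤ y < φ (a + i)` (all `y < φ a` for `i = 0`), i.e. `lv φ a n 0`; `bd (1, 0)` is
`rv φ a n 0`; `bd (0, 1)` and `bd (0, -1)` are the number of the columns with `φ ≥ 1`.
`hist_per`: strong induction on `n`. If `φ ≥ 1` on `[a, a + n)`, `n ≥ 1`: `hist_le` with `d = 0`
(`F n 0 = 0`, so the bound is `2 c n + c (lv + rv)`) and `per_Hs`. If `φ (a + j) = 0`: `Hs φ a n` is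
the union of `Hs φ a j` and `Hs φ (a + j + 1) (n - j - 1)`, use `PF.sub`; the perimeters add
(directly, or from `per_Hs` and `lv_split`, `rv_split` with `m = d = 0`).
-/

namespace Pool.Agent.AL

variable {L : ℕ}

/-- counting points of a histogram column by column -/
private theorem HistPer_card (φ : ℤ → ℕ) (a : ℤ) (n : ℕ) (q : Pt → Prop) [DecidablePred q] :
    ((Hs φ a n).filter q).card =
      ∑ i ∈ Finset.range n, ((Finset.range (φ (a + i))).filter fun y : ℕ => q (a + i, (y : ℤ))).card := by
  rw [Finset.card_eq_sum_card_fiberwise (f := fun p : Pt => (p.1 - a).toNat)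
    (t := Finset.range n)]
  · refine Finset.sum_congr rfl fun i hi => ?_
    rw [Finset.mem_range] at hi
    refine Finset.card_nbij' (fun p : Pt => p.2.toNat) (fun y : ℕ => ((a + i, (y : ℤ)) : Pt))
      ?_ ?_ ?_ ?_
    · intro p hp
      simp only [Finset.coe_filter, Finset.mem_filter, mem_Hs, Set.mem_ofPred_eq] at hp
      simp only [Finset.coe_filter, Finset.mem_range, Set.mem_ofPred_eq]
      obtain ⟨⟨⟨h1, h2, h3, h4⟩, h5⟩, h6⟩ := hp
      have h7 : a + i = p.1 := by omega
      have h8 : (p.2.toNat : ℤ) = p.2 := Int.toNat_of_nonneg h3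
      rw [h7, h8]
      refine ⟨by omega, ?_⟩
      exact h5
    · intro y hy
      simp only [Finset.coe_filter, Finset.mem_range, Set.mem_ofPred_eq] at hy
      simp only [Finset.coe_filter, Finset.mem_filter, mem_Hs, Set.mem_ofPred_eq]
      refine ⟨⟨⟨by omega, by omega, by omega, by exact_mod_cast hy.1⟩, hy.2⟩, by omega⟩
    · intro p hp
      simp only [Finset.coe_filter, Finset.mem_filter, mem_Hs, Set.mem_ofPred_eq] at hp
      obtain ⟨⟨⟨h1, h2, h3, h4⟩, h5⟩, h6⟩ := hp
      have h7 : a + i = p.1 := by omega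
      have h8 : (p.2.toNat : ℤ) = p.2 := Int.toNat_of_nonneg h3
      simp only [h7, h8]
    · intro y _
      simp
  · intro p hp
    simp only [Finset.coe_filter, mem_Hs, Set.mem_ofPred_eq] at hp
    simp only [Finset.coe_range, Set.mem_Iio]
    omega

private theorem HistPer_ge (m k : ℕ) :
    ((Finset.range m).filter fun y : ℕ => k ≤ y).card = m - k := by
  have : (Finset.range m).filter (fun y : ℕ => k ≤ y) = Finset.Ico k m := by
    ext y
    simp only [Finset.mem_filter, Finset.mem_range, Finset.mem_Ico]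
    omega
  rw [this, Nat.card_Ico]

private theorem HistPer_top (m : ℕ) :
    ((Finset.range m).filter fun y : ℕ => m ≤ y + 1).card = if 1 ≤ m then 1 else 0 := by
  have : (Finset.range m).filter (fun y : ℕ => m ≤ y + 1) = Finset.Ico (m - 1) m := by
    ext y
    simp only [Finset.mem_filter, Finset.mem_range, Finset.mem_Ico]
    omega
  rw [this, Nat.card_Ico]
  split_ifs <;> omega

private theorem HistPer_bot (m : ℕ) :
    ((Finset.range m).filter fun y : ℕ => y < 1).card = if 1 ≤ m then 1 else 0 := by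
  have : (Finset.range m).filter (fun y : ℕ => y < 1) = Finset.range (min m 1) := by
    ext y
    simp only [Finset.mem_filter, Finset.mem_range]
    omega
  rw [this, Finset.card_range]
  split_ifs <;> omega

private theorem HistPer_up (φ : ℤ → ℕ) (a : ℤ) (n : ℕ) :
    bd (0, 1) (Hs φ a n) (Hs φ a n) =
      ((Finset.range n).filter fun i : ℕ => 1 ≤ φ (a + i)).card := by
  rw [bd, HistPer_card, Finset.card_filter]
  refine Finset.sum_congr rfl fun i hi => ?_
  rw [Finset.mem_range] at hi
  rw [← HistPer_top]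
  congr 1
  refine Finset.filter_congr fun y hy => ?_
  rw [Finset.mem_range] at hy
  rw [mem_Hs]
  simp only [Prod.mk_add_mk, add_zero]
  omega

private theorem HistPer_dn (φ : ℤ → ℕ) (a : ℤ) (n : ℕ) :
    bd (0, -1) (Hs φ a n) (Hs φ a n) =
      ((Finset.range n).filter fun i : ℕ => 1 ≤ φ (a + i)).card := by
  rw [bd, HistPer_card, Finset.card_filter]
  refine Finset.sum_congr rfl fun i hi => ?_
  rw [Finset.mem_range] at hi
  rw [← HistPer_bot]
  congr 1
  refine Finset.filter_congr fun y hy => ?_
  rw [Finset.mem_range] at hy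
  rw [mem_Hs]
  simp only [Prod.mk_add_mk, add_zero]
  omega

private theorem HistPer_rt (φ : ℤ → ℕ) (a : ℤ) (n : ℕ) :
    bd (1, 0) (Hs φ a n) (Hs φ a n) = rv φ a n 0 := by
  rw [bd, HistPer_card, rv]
  refine Finset.sum_congr rfl fun i hi => ?_
  rw [Finset.mem_range] at hi
  rw [← HistPer_ge]
  congr 1
  refine Finset.filter_congr fun y hy => ?_
  rw [Finset.mem_range] at hy
  rw [mem_Hs]
  simp only [Prod.mk_add_mk, add_zero]
  split_ifs with h
  · omega
  · constructor
    · intro h1
      by_contra h2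
      exact h1 ⟨by omega, by omega, by omega, by omega⟩
    · rintro h1 ⟨-, -, -, h2⟩
      omega

private theorem HistPer_lf (φ : ℤ → ℕ) (a : ℤ) (n : ℕ) :
    bd (-1, 0) (Hs φ a n) (Hs φ a n) = lv φ a n 0 := by
  rw [bd, HistPer_card, lv]
  refine Finset.sum_congr rfl fun i hi => ?_
  rw [Finset.mem_range] at hi
  rw [← HistPer_ge]
  congr 1
  refine Finset.filter_congr fun y hy => ?_
  rw [Finset.mem_range] at hy
  rw [mem_Hs]
  simp only [Prod.mk_add_mk, add_zero]
  have e : a + (i : ℤ) + -1 = a + i - 1 := by ring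
  rw [e]
  split_ifs with h
  · omega
  · constructor
    · intro h1
      by_contra h2
      exact h1 ⟨by omega, by omega, by omega, by omega⟩
    · rintro h1 ⟨-, -, -, h2⟩
      omega

theorem per_Hs (φ : ℤ → ℕ) (a : ℤ) (n : ℕ) :
    per (Hs φ a n) = 2 * ((Finset.range n).filter fun i : ℕ => 1 ≤ φ (a + i)).card +
      lv φ a n 0 + rv φ a n 0 := by
  rw [per, BB, HistPer_up, HistPer_dn, HistPer_rt, HistPer_lf]
  ring

private theorem HistPer_box (φ : ℤ → ℕ) (hL : ∀ x, φ x ≤ L) (n : ℕ) (a : ℤ) (ha : 0 ≤ a)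
    (han : a + n ≤ L) : Hs φ a n ⊆ Box L := by
  intro p hp
  rw [mem_Hs] at hp
  rw [mem_Box]
  have := hL p.1
  omega

theorem hist_per (P : PF L) {c : ℝ} (hc : 0 ≤ c) (hS : Sq P c) (φ : ℤ → ℕ)
    (hL : ∀ x, φ x ≤ L) (n : ℕ) (a : ℤ) (ha : 0 ≤ a) (han : a + n ≤ L) :
    P.g (Hs φ a n) ≤ c * per (Hs φ a n) := by
  induction n using Nat.strong_induction_on generalizing a with
  | _ n ih =>
    by_cases h0 : ∃ j < n, φ (a + (j : ℕ)) = 0
    · obtain ⟨j, hj, hj0⟩ := h0
      have hU : Hs φ a n = Hs φ a j ∪ Hs φ (a + j + 1) (n - j - 1) := by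
        ext p
        rw [Finset.mem_union, mem_Hs, mem_Hs, mem_Hs]
        constructor
        · rintro ⟨h1, h2, h3, h4⟩
          have h5 : p.1 ≠ a + j := by
            intro h5
            rw [h5, hj0] at h4
            omega
          by_cases h6 : p.1 < a + j
          · exact Or.inl ⟨h1, h6, h3, h4⟩
          · exact Or.inr ⟨by omega, by omega, h3, h4⟩
        · rintro (⟨h1, h2, h3, h4⟩ | ⟨h1, h2, h3, h4⟩)
          · exact ⟨h1, by omega, h3, h4⟩
          · exact ⟨by omega, by omega, h3, h4⟩
      have i1 := ih j hj a ha (by omega)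
      have i2 := ih (n - j - 1) (by omega) (a + j + 1) (by omega) (by omega)
      have b1 := HistPer_box φ hL j a ha (by omega)
      have b2 := HistPer_box φ hL (n - j - 1) (a + j + 1) (by omega) (by omega)
      have hsub := P.sub b1 b2
      rw [← hU] at hsub
      have hl := lv_split φ a (n := n) (j := j) (m := 0) (d := 0) hj hj0 le_rfl
        (fun _ _ _ => Nat.zero_le _)
      have hr := rv_split φ a (n := n) (j := j) (m := 0) (d := 0) hj hj0 le_rfl
        (fun _ _ _ => Nat.zero_le _)
      have hcard : ((Finset.range n).filter fun i : ℕ => 1 ≤ φ (a + i)).card =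
          ((Finset.range j).filter fun i : ℕ => 1 ≤ φ (a + i)).card +
          ((Finset.range (n - j - 1)).filter fun i : ℕ => 1 ≤ φ (a + j + 1 + i)).card := by
        obtain ⟨k, rfl⟩ : ∃ k, n = j + 1 + k := ⟨n - j - 1, by omega⟩
        have hk : j + 1 + k - j - 1 = k := by omega
        rw [hk, Finset.card_filter, Finset.card_filter, Finset.card_filter,
          Finset.sum_range_add, Finset.sum_range_succ, hj0]
        rw [if_neg (by norm_num : ¬ (1 : ℕ) ≤ 0), add_zero]
        congr 1
        refine Finset.sum_congr rfl fun i _ => ?_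
        push_cast
        rw [show a + (j + 1 + (i : ℤ)) = a + j + 1 + i by ring]
      have hper : (per (Hs φ a n) : ℝ) =
          per (Hs φ a j) + per (Hs φ (a + j + 1) (n - j - 1)) := by
        have : per (Hs φ a n) = per (Hs φ a j) + per (Hs φ (a + j + 1) (n - j - 1)) := by
          rw [per_Hs, per_Hs, per_Hs, hl, hr, hcard]
          ring
        exact_mod_cast this
      rw [hper]
      calc P.g (Hs φ a n) ≤ P.g (Hs φ a j) + P.g (Hs φ (a + j + 1) (n - j - 1)) := hsub
        _ ≤ c * per (Hs φ a j) + c * per (Hs φ (a + j + 1) (n - j - 1)) := add_le_add i1 i2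
        _ = _ := by ring
    · push Not at h0
      have hpos : ∀ i < n, 1 ≤ φ (a + (i : ℕ)) := fun i hi => Nat.one_le_iff_ne_zero.2 (h0 i hi)
      have h1 := hist_le P hc hS φ hL n a 0 ha han (fun _ _ _ => Nat.zero_le _)
      have hF : P.F n 0 = 0 := F_zero_right P n
      have hcard : ((Finset.range n).filter fun i : ℕ => 1 ≤ φ (a + i)).card = n := by
        rw [Finset.filter_true_of_mem (fun i hi => hpos i (Finset.mem_range.1 hi)),
          Finset.card_range]
      rw [per_Hs, hcard]
      rw [hF] at h1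
      push_cast
      rcases Nat.eq_zero_or_pos n with rfl | hn
      · simp only [lt_irrefl, if_false] at h1
        simp only [Nat.cast_zero, mul_zero, zero_add]
        linarith
      · rw [if_pos hn] at h1
        linarith

end Pool.Agent.AL
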