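import Pool.Agent.AL.Planar

/-!
# PIECE AL-Holes: arbitrary subsets of the box

`out_path`: two points outside the box are joined by a path outside the box (go straight to the
left side or to the right side, above or below ...: first show that every point outside is joined
to `(-1, -1)`; a straight path lemma is useful).
`holes`: strong induction on `per K`.
(1) `K` not connected: `p, q ∈ K` without path; `K₁ = {r ∈ K | Pth K p r}`, `K₂ = K \ K₁`, both
nonempty, no point of `K₁` is adjacent to a point of `K₂`. By `per_eq`, `EE_eq_zero`, `BB_union`: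
`per K = per K₁ + per K₂`, both `> 0` (`per_pos`); `PF.sub`.
(2) `Kᶜ` not connected: let `O` be the set of the points of `Kᶜ` with a path in `Kᶜ` to `(-1, -1)`;
it contains all points outside the box. `h = (Box L \ K)` minus `O` is nonempty (otherwise `Kᶜ = O` is
connected) and no point of `h` is adjacent to a point of `O`. So
`per h = EE h K`, `per (K ∪ h) = BB K (K ∪ h)`, `per K = EE K h + BB K (K ∪ h)`, i.e.
`per K = per (K ∪ h) + per h` with both terms `> 0`; `g K ≤ g (K ∪ h) + g h` by `tri`.
(3) Otherwise `planar`.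
-/

namespace Pool.Agent.AL

variable {L : ℕ}

private theorem holes_hor {T : Set Pt} (x y : ℤ) (n : ℕ)
    (h : ∀ k : ℤ, 0 ≤ k → k ≤ n → (x + k, y) ∈ T) : Pth T (x, y) (x + n, y) := by
  induction n with
  | zero =>
    have e : ((x + ((0 : ℕ) : ℤ), y) : Pt) = (x, y) := by simp
    rw [e]
    exact Relation.ReflTransGen.refl
  | succ n ih =>
    refine Relation.ReflTransGen.tail (ih fun k h1 h2 => h k h1 (by push_cast; omega)) ⟨?_, ?_⟩
    · left
      ext
      · change x + ((n + 1 : ℕ) : ℤ) = x + n + 1
        push_cast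
        ring
      · change y = y + 0
        ring
    · exact h _ (by positivity) le_rfl

private theorem holes_ver {T : Set Pt} (x y : ℤ) (n : ℕ)
    (h : ∀ k : ℤ, 0 ≤ k → k ≤ n → (x, y + k) ∈ T) : Pth T (x, y) (x, y + n) := by
  induction n with
  | zero =>
    have e : ((x, y + ((0 : ℕ) : ℤ)) : Pt) = (x, y) := by simp
    rw [e]
    exact Relation.ReflTransGen.refl
  | succ n ih =>
    refine Relation.ReflTransGen.tail (ih fun k h1 h2 => h k h1 (by push_cast; omega)) ⟨?_, ?_⟩
    · right; right; left
      ext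
      · change x = x + 0
        ring
      · change y + ((n + 1 : ℕ) : ℤ) = y + n + 1
        push_cast
        ring
    · exact h _ (by positivity) le_rfl

private theorem holes_hor' {T : Set Pt} (x x' y : ℤ)
    (h : ∀ z : ℤ, min x x' ≤ z → z ≤ max x x' → (z, y) ∈ T) : Pth T (x, y) (x', y) := by
  rcases le_total x x' with hx | hx
  · obtain ⟨n, hn⟩ := Int.eq_ofNat_of_zero_le (sub_nonneg.2 hx)
    have e : x' = x + n := by omega
    rw [e]
    exact holes_hor x y n fun k h1 h2 => h _ (by omega) (by omega)
  · obtain ⟨n, hn⟩ := Int.eq_ofNat_of_zero_le (sub_nonneg.2 hx)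
    have e : x = x' + n := by omega
    refine Pth.symm (h x' (by omega) (by omega)) ?_
    rw [e]
    exact holes_hor x' y n fun k h1 h2 => h _ (by omega) (by omega)

private theorem holes_ver' {T : Set Pt} (x y y' : ℤ)
    (h : ∀ z : ℤ, min y y' ≤ z → z ≤ max y y' → (x, z) ∈ T) : Pth T (x, y) (x, y') := by
  rcases le_total y y' with hx | hx
  · obtain ⟨n, hn⟩ := Int.eq_ofNat_of_zero_le (sub_nonneg.2 hx)
    have e : y' = y + n := by omega
    rw [e]
    exact holes_ver x y n fun k h1 h2 => h _ (by omega) (by omega)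
  · obtain ⟨n, hn⟩ := Int.eq_ofNat_of_zero_le (sub_nonneg.2 hx)
    have e : y = y' + n := by omega
    refine Pth.symm (h y' (by omega) (by omega)) ?_
    rw [e]
    exact holes_ver x y' n fun k h1 h2 => h _ (by omega) (by omega)

private theorem holes_out {a b : ℤ} (h : a < 0 ∨ (L : ℤ) ≤ a ∨ b < 0 ∨ (L : ℤ) ≤ b) :
    ((a, b) : Pt) ∈ ((Box L : Set Pt)ᶜ) := by
  intro h'
  obtain ⟨⟨h1, h2⟩, h3, h4⟩ := mem_Box.1 (Finset.mem_coe.1 h')
  change 0 ≤ a at h1
  change a < L at h2
  change 0 ≤ b at h3
  change b < L at h4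
  omega

theorem out_path {p : Pt} (hp : p ∉ Box L) : Pth ((Box L : Set Pt)ᶜ) (-1, -1) p := by
  obtain ⟨a, b⟩ := p
  have h : (a < 0 ∨ (L : ℤ) ≤ b) ∨ (b < 0 ∨ (L : ℤ) ≤ a) := by
    by_contra hcon
    apply hp
    rw [mem_Box]
    change (0 ≤ a ∧ a < L) ∧ 0 ≤ b ∧ b < L
    omega
  rcases h with h | h
  · refine Pth.trans (holes_ver' (-1) (-1) b fun z _ _ => holes_out (by omega)) ?_
    exact holes_hor' (-1) a b fun z h1 h2 => holes_out (by omega)
  · refine Pth.trans (holes_hor' (-1) a (-1) fun z _ _ => holes_out (by omega)) ?_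
    exact holes_ver' a (-1) b fun z h1 h2 => holes_out (by omega)

private theorem holes_bd {X K : Finset Pt} (u : Pt) (h : ∀ p ∈ X, p + u ∈ K) : bd u X K = 0 := by
  unfold bd
  rw [Finset.card_eq_zero, Finset.filter_eq_empty_iff]
  exact fun p hp h' => h' (h p hp)

private theorem holes_BB {X K : Finset Pt} (h : ∀ p ∈ X, ∀ q, Adj p q → q ∈ K) : BB X K = 0 := by
  unfold BB
  rw [holes_bd (1, 0) fun p hp => h p hp _ (Or.inl rfl),
    holes_bd (-1, 0) fun p hp => h p hp _ (Or.inr (Or.inl rfl)),
    holes_bd (0, 1) fun p hp => h p hp _ (Or.inr (Or.inr (Or.inl rfl))),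
    holes_bd (0, -1) fun p hp => h p hp _ (Or.inr (Or.inr (Or.inr rfl)))]

theorem holes (P : PF L) {c : ℝ} (hc : 0 ≤ c) (hS : Sq P c) {K : Finset Pt} (hK : K ⊆ Box L) :
    P.g K ≤ 3 * c * per K := by
  classical
  generalize hn : per K = n
  induction n using Nat.strong_induction_on generalizing K with
  | _ n ih =>
  subst hn
  by_cases h1 : Cn (K : Set Pt)
  · by_cases h2 : Cn ((K : Set Pt)ᶜ)
    · exact planar P hc hS hK h1 h2
    · -- the complement is not connected
      set h := (Box L).filter fun x => x ∉ K ∧ ¬ Pth ((K : Set Pt)ᶜ) (-1, -1) x with hh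
      have hsub : ((Box L : Set Pt)ᶜ) ⊆ ((K : Set Pt)ᶜ) := by
        intro x hx hx'
        exact hx (hK hx')
      have h0 : ((-1, -1) : Pt) ∈ ((K : Set Pt)ᶜ) := hsub (holes_out (Or.inl (by norm_num)))
      have hne : h.Nonempty := by
        by_contra hem
        rw [Finset.not_nonempty_iff_eq_empty] at hem
        apply h2
        have hall : ∀ x ∈ ((K : Set Pt)ᶜ), Pth ((K : Set Pt)ᶜ) (-1, -1) x := by
          intro x hx
          by_contra hx'
          have hxB : x ∈ Box L := by
            by_contra hxB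
            exact hx' ((out_path hxB).mono hsub)
          have : x ∈ h := Finset.mem_filter.2 ⟨hxB, fun h => hx h, hx'⟩
          rw [hem] at this
          exact absurd this (Finset.notMem_empty x)
        intro p hp q hq
        exact ((hall p hp).symm h0).trans (hall q hq)
      have hdis : Disjoint K h := by
        rw [Finset.disjoint_left]
        intro x hx hx'
        exact (Finset.mem_filter.1 hx').2.1 hx
      have hhB : h ⊆ Box L := Finset.filter_subset _ _
      have hadj : ∀ p ∈ h, ∀ q, Adj p q → q ∈ K ∪ h := by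
        intro p hp q hpq
        by_contra hq
        rw [Finset.mem_union, not_or] at hq
        obtain ⟨hqK, hqh⟩ := hq
        have hqp : Pth ((K : Set Pt)ᶜ) (-1, -1) q := by
          by_contra hno
          have hqB : q ∈ Box L := by
            by_contra hqB
            exact hno ((out_path hqB).mono hsub)
          exact hqh (Finset.mem_filter.2 ⟨hqB, hqK, hno⟩)
        have hp' := (Finset.mem_filter.1 hp).2
        exact hp'.2 (Relation.ReflTransGen.tail hqp ⟨hpq.symm, fun h => hp'.1 h⟩)
      have e0 : BB h (K ∪ h) = 0 := holes_BB hadj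
      have e1 : per h = EE h K := by
        rw [per_eq (Finset.subset_union_right : h ⊆ K ∪ h), e0, Finset.union_sdiff_right,
          Finset.sdiff_eq_self_of_disjoint hdis, zero_add]
      have e2 : per K = BB K (K ∪ h) + EE K h := by
        rw [per_eq (Finset.subset_union_left : K ⊆ K ∪ h), Finset.union_sdiff_left,
          Finset.sdiff_eq_self_of_disjoint hdis.symm]
      have e3 : per (K ∪ h) = BB K (K ∪ h) := by
        change BB (K ∪ h) (K ∪ h) = _
        rw [BB_union hdis, e0, add_zero]
      have e4 : per K = per (K ∪ h) + per h := by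
        rw [e1, e2, e3, EE_comm h K]
      have p1 := per_pos hne
      have p2 := per_pos (hne.mono (Finset.subset_union_right : h ⊆ K ∪ h))
      have i1 := ih (per (K ∪ h)) (by omega) (Finset.union_subset hK hhB) rfl
      have i2 := ih (per h) (by omega) hhB rfl
      have i3 := P.tri K h hK hhB hdis
      rw [e4]
      push_cast
      linarith
  · -- not connected
    unfold Cn at h1
    push Not at h1
    obtain ⟨p, hp, q, hq, hpq⟩ := h1
    set K₁ := K.filter fun r => Pth (K : Set Pt) p r with hK1
    have hsub : K₁ ⊆ K := Finset.filter_subset _ _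
    have hp1 : p ∈ K₁ := Finset.mem_filter.2 ⟨hp, Relation.ReflTransGen.refl⟩
    have hq2 : q ∈ K \ K₁ := Finset.mem_sdiff.2 ⟨hq, fun h => hpq (Finset.mem_filter.1 h).2⟩
    have hadj : EE K₁ (K \ K₁) = 0 := by
      refine EE_eq_zero fun x hx y hy hxy => ?_
      have hy' := Finset.mem_sdiff.1 hy
      exact hy'.2 (Finset.mem_filter.2 ⟨hy'.1, Relation.ReflTransGen.tail
        (Finset.mem_filter.1 hx).2 ⟨hxy, hy'.1⟩⟩)
    have e1 : per K₁ = BB K₁ K := by
      rw [per_eq hsub, hadj, add_zero]
    have e2 : per (K \ K₁) = BB (K \ K₁) K := by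
      rw [per_eq (Finset.sdiff_subset : K \ K₁ ⊆ K), Finset.sdiff_sdiff_eq_self hsub, EE_comm,
        hadj, add_zero]
    have e3 : per K = per K₁ + per (K \ K₁) := by
      rw [e1, e2, ← BB_union Finset.disjoint_sdiff K, Finset.union_sdiff_of_subset hsub]
      rfl
    have p1 := per_pos ⟨p, hp1⟩
    have p2 := per_pos ⟨q, hq2⟩
    have i1 := ih (per K₁) (by omega) (hsub.trans hK) rfl
    have i2 := ih (per (K \ K₁)) (by omega) (Finset.sdiff_subset.trans hK) rfl
    have i3 := P.ssa K₁ (K \ K₁) (hsub.trans hK) (Finset.sdiff_subset.trans hK)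
    rw [Finset.union_sdiff_of_subset hsub, Finset.disjoint_iff_inter_eq_empty.1
      Finset.disjoint_sdiff, P.empty] at i3
    rw [e3]
    push_cast
    linarith

end Pool.Agent.AL
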