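import Pool.Agent.AL.QDefs

/-!
# PIECE AL-Iso: the isometry of Nielsen and Petz

`m` is traced out. `C` hermitian with `C² = ρ`, `D` hermitian with `D² = ptr ρ`, both invertible.
`W = (1 ⊗ D⁻¹) C`, and `V ((x, i), q) (k, l) = if i = k then W (x, l) q else 0`.
(1) `(Vᴴ V) (k, l) (k', l') = δ_{kk'} ∑_{x, q} conj (W (x, l) q) W (x, l') q
  = δ_{kk'} (ptr (W Wᴴ)) l' l`, and `W Wᴴ = (1 ⊗ D⁻¹) ρ (1 ⊗ D⁻¹)`, `ptr` of it is
  `D⁻¹ (ptr ρ) D⁻¹ = 1`.
(2) `(Vᴴ (σ ⊗ₖ (ρ⁻¹)ᵀ) V) (k, l) (k', l')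
  = ∑_{x, x'} σ (x, k) (x', k') (W ρ⁻¹ Wᴴ) (x', l') (x, l)`, `W ρ⁻¹ Wᴴ = 1 ⊗ D⁻²= 1 ⊗ (ptr ρ)⁻¹`.
(3) `∑_{k, l} V ((x, i), q) (k, l) D k l = ∑_l D i l W (x, l) q = ((1 ⊗ D) W) (x, i) q = C (x, i) q`
  (`D i l = D` and no conjugation: `V *ᵥ (fun p => D p.1 p.2)`).
-/

namespace Pool.Agent.AL

open scoped Matrix Kronecker ComplexOrder

universe u v

set_option linter.unusedSectionVars false
set_option linter.unusedSimpArgs false

variable {m : Type u} {n : Type v} [Fintype m] [DecidableEq m] [Fintype n] [DecidableEq n]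

theorem ptr_posDef [Nonempty m] {ρ : Matrix (m × n) (m × n) ℂ} (hρ : ρ.PosDef) :
    (ptr ρ).PosDef := by
  have h : ptr ρ = ∑ x : m, ρ.submatrix (fun i => (x, i)) (fun i => (x, i)) := by
    ext i j
    rw [Matrix.sum_apply]
    rfl
  rw [h]
  apply Matrix.posDef_sum
  · exact Finset.univ_nonempty
  · intro x _
    exact hρ.submatrix (fun i j hij => (Prod.mk.inj hij).2)

private theorem Iso_ptr_conj (ρ : Matrix (m × n) (m × n) ℂ) (A B : Matrix n n ℂ) :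
    ptr (((1 : Matrix m m ℂ) ⊗ₖ A) * ρ * ((1 : Matrix m m ℂ) ⊗ₖ B)) = A * ptr ρ * B := by
  ext i j
  simp only [ptr, Matrix.of_apply, Matrix.mul_apply, Fintype.sum_prod_type,
    Matrix.kroneckerMap_apply, Matrix.one_apply, ite_mul, one_mul, zero_mul, mul_ite, mul_zero]
  simp only [Finset.sum_ite_irrel, Finset.sum_const_zero, Finset.sum_ite_eq, Finset.sum_ite_eq',
    Finset.mem_univ, if_true, Finset.mul_sum, Finset.sum_mul]
  rw [Finset.sum_comm]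
  refine Finset.sum_congr rfl fun l _ => ?_
  rw [Finset.sum_comm]

/-- The matrix of the isometry. -/
private def IsoV (W : Matrix (m × n) (m × n) ℂ) : Matrix ((m × n) × (m × n)) (n × n) ℂ :=
  Matrix.of fun a b => if a.1.2 = b.1 then W (a.1.1, b.2) a.2 else 0

private theorem Iso_sum (W : Matrix (m × n) (m × n) ℂ) (S : Matrix (m × n) (m × n) ℂ)
    (R : Matrix (m × n) (m × n) ℂ) (k l k' l' : n) :
    ((IsoV W)ᴴ * (S ⊗ₖ Rᵀ) * IsoV W) (k, l) (k', l') =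
      ∑ x, ∑ x', S (x, k) (x', k') * (W * R * Wᴴ) (x', l') (x, l) := by
  have h1 : ∀ a : (m × n) × (m × n), ((IsoV W)ᴴ * (S ⊗ₖ Rᵀ)) (k, l) a =
      ∑ x, ∑ q, star (W (x, l) q) * (S (x, k) a.1 * R a.2 q) := by
    intro a
    rw [Matrix.mul_apply, Fintype.sum_prod_type, Fintype.sum_prod_type]
    refine Finset.sum_congr rfl fun x _ => ?_
    rw [Finset.sum_eq_single k]
    · refine Finset.sum_congr rfl fun q _ => ?_
      simp [IsoV, Matrix.conjTranspose_apply]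
    · intro i _ hi
      refine Finset.sum_eq_zero fun q _ => ?_
      simp [IsoV, Matrix.conjTranspose_apply, hi]
    · intro h
      exact absurd (Finset.mem_univ k) h
  rw [Matrix.mul_apply, Fintype.sum_prod_type, Fintype.sum_prod_type]
  have h2 : ∀ x' : m, ∑ i', ∑ q', ((IsoV W)ᴴ * (S ⊗ₖ Rᵀ)) (k, l) ((x', i'), q') *
      IsoV W ((x', i'), q') (k', l') =
      ∑ x, S (x, k) (x', k') * (W * R * Wᴴ) (x', l') (x, l) := by
    intro x'
    rw [Finset.sum_eq_single k']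
    · have h3 : ∀ q', IsoV W ((x', k'), q') (k', l') = W (x', l') q' := by
        intro q'
        simp [IsoV]
      simp only [h1, h3, Matrix.mul_apply, Finset.sum_mul, Finset.mul_sum,
        Matrix.conjTranspose_apply]
      rw [Finset.sum_comm]
      refine Finset.sum_congr rfl fun x _ => ?_
      rw [Finset.sum_comm]
      refine Finset.sum_congr rfl fun q _ => ?_
      refine Finset.sum_congr rfl fun q' _ => ?_
      ring
    · intro i' _ hi'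
      refine Finset.sum_eq_zero fun q' _ => ?_
      simp [IsoV, hi']
    · intro h
      exact absurd (Finset.mem_univ k') h
  rw [Finset.sum_congr rfl fun x' _ => h2 x', Finset.sum_comm]

theorem exists_iso [Nonempty m] {ρ σ : Matrix (m × n) (m × n) ℂ} (hρ : ρ.PosDef)
    {C : Matrix (m × n) (m × n) ℂ} {D : Matrix n n ℂ} (hC : C.IsHermitian) (hC2 : C * C = ρ)
    (hD : D.IsHermitian) (hD2 : D * D = ptr ρ) :
    ∃ V : Matrix ((m × n) × (m × n)) (n × n) ℂ, Vᴴ * V = 1 ∧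
      Vᴴ * (σ ⊗ₖ (ρ⁻¹)ᵀ) * V = ptr σ ⊗ₖ ((ptr ρ)⁻¹)ᵀ ∧
      V *ᵥ (fun p => D p.1 p.2) = fun p => C p.1 p.2 := by
  have hptr : (ptr ρ).PosDef := ptr_posDef hρ
  have hDu : IsUnit D.det := by
    have h1 : IsUnit (ptr ρ).det := (Matrix.isUnit_iff_isUnit_det _).1 hptr.isUnit
    rw [← hD2, Matrix.det_mul] at h1
    exact isUnit_of_mul_isUnit_left h1
  have hCu : IsUnit C.det := by
    have h1 : IsUnit ρ.det := (Matrix.isUnit_iff_isUnit_det _).1 hρ.isUnit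
    rw [← hC2, Matrix.det_mul] at h1
    exact isUnit_of_mul_isUnit_left h1
  have hDi : (D⁻¹)ᴴ = D⁻¹ := hD.inv
  set W : Matrix (m × n) (m × n) ℂ := ((1 : Matrix m m ℂ) ⊗ₖ D⁻¹) * C with hW
  have hWH : Wᴴ = C * ((1 : Matrix m m ℂ) ⊗ₖ D⁻¹) := by
    rw [hW, Matrix.conjTranspose_mul, Matrix.conjTranspose_kronecker, hDi,
      Matrix.conjTranspose_one, hC.eq]
  have hWW : W * Wᴴ = ((1 : Matrix m m ℂ) ⊗ₖ D⁻¹) * ρ * ((1 : Matrix m m ℂ) ⊗ₖ D⁻¹) := by
    rw [hWH, hW, ← hC2]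
    simp only [Matrix.mul_assoc]
  have hWR : W * ρ⁻¹ * Wᴴ = (1 : Matrix m m ℂ) ⊗ₖ (ptr ρ)⁻¹ := by
    have hρi : ρ⁻¹ = C⁻¹ * C⁻¹ := by rw [← hC2, Matrix.mul_inv_rev]
    have hpi : (ptr ρ)⁻¹ = D⁻¹ * D⁻¹ := by rw [← hD2, Matrix.mul_inv_rev]
    rw [hWH, hW, hρi, hpi]
    have h1 : ((1 : Matrix m m ℂ) ⊗ₖ D⁻¹) * C * (C⁻¹ * C⁻¹) * (C * ((1 : Matrix m m ℂ) ⊗ₖ D⁻¹)) =
        ((1 : Matrix m m ℂ) ⊗ₖ D⁻¹) * (C * C⁻¹) * (C⁻¹ * C) * ((1 : Matrix m m ℂ) ⊗ₖ D⁻¹) := by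
      simp only [Matrix.mul_assoc]
    rw [h1, Matrix.mul_nonsing_inv _ hCu, Matrix.nonsing_inv_mul _ hCu, Matrix.mul_one,
      Matrix.mul_one, ← Matrix.mul_kronecker_mul, Matrix.one_mul]
  refine ⟨IsoV W, ?_, ?_, ?_⟩
  · have h0 : (IsoV W)ᴴ * IsoV W = (IsoV W)ᴴ * ((1 : Matrix (m × n) (m × n) ℂ) ⊗ₖ
        (1 : Matrix (m × n) (m × n) ℂ)ᵀ) * IsoV W := by
      rw [Matrix.transpose_one, Matrix.one_kronecker_one, Matrix.mul_one]
    rw [h0]
    ext ⟨k, l⟩ ⟨k', l'⟩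
    rw [Iso_sum, Matrix.mul_one, hWW]
    have h1 : ∀ x x' : m, (1 : Matrix (m × n) (m × n) ℂ) (x, k) (x', k') =
        if x = x' then (if k = k' then 1 else 0) else 0 := by
      intro x x'
      by_cases h : x = x' <;> by_cases h' : k = k' <;> simp [Matrix.one_apply, h, h']
    simp only [h1, ite_mul, zero_mul, one_mul, Finset.sum_ite_eq, Finset.mem_univ, if_true]
    have h2 : ∑ x : m, (((1 : Matrix m m ℂ) ⊗ₖ D⁻¹) * ρ * ((1 : Matrix m m ℂ) ⊗ₖ D⁻¹))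
        (x, l') (x, l) = (1 : Matrix n n ℂ) l' l := by
      have h4 : D⁻¹ * ptr ρ * D⁻¹ = 1 := by
        rw [← hD2, ← Matrix.mul_assoc, Matrix.nonsing_inv_mul _ hDu, Matrix.one_mul,
          Matrix.mul_nonsing_inv _ hDu]
      have h3 := congrFun (congrFun (Iso_ptr_conj ρ D⁻¹ D⁻¹) l') l
      rw [h4] at h3
      exact h3
    by_cases hk : k = k'
    · subst hk
      have h5 : (∑ x : m, if k = k then (((1 : Matrix m m ℂ) ⊗ₖ D⁻¹) * ρ *
          ((1 : Matrix m m ℂ) ⊗ₖ D⁻¹)) (x, l') (x, l) else 0) = (1 : Matrix n n ℂ) l' l := by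
        rw [← h2]
        exact Finset.sum_congr rfl fun x _ => if_pos rfl
      refine h5.trans ?_
      by_cases hl : l = l'
      · subst hl
        rw [Matrix.one_apply_eq, Matrix.one_apply_eq]
      · have hp : ((k, l) : n × n) ≠ (k, l') := fun h => hl (Prod.mk.inj h).2
        rw [Matrix.one_apply_ne hp, Matrix.one_apply_ne (Ne.symm hl)]
    · have hp : ((k, l) : n × n) ≠ (k', l') := fun h => hk (Prod.mk.inj h).1
      rw [Matrix.one_apply_ne hp]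
      simp [hk]
  · ext ⟨k, l⟩ ⟨k', l'⟩
    rw [Iso_sum, hWR]
    simp only [Matrix.kroneckerMap_apply, Matrix.one_apply, ite_mul, one_mul, zero_mul, mul_ite,
      mul_zero, Finset.sum_ite_eq', Finset.sum_ite_eq, Finset.mem_univ, if_true,
      Matrix.transpose_apply, ptr, Matrix.of_apply, Finset.sum_mul]
  · funext p
    obtain ⟨⟨x, i⟩, q⟩ := p
    have h1 : ((1 : Matrix m m ℂ) ⊗ₖ D) * W = C := by
      rw [hW, ← Matrix.mul_assoc, ← Matrix.mul_kronecker_mul, Matrix.one_mul,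
        Matrix.mul_nonsing_inv _ hDu, Matrix.one_kronecker_one, Matrix.one_mul]
    have h2 := congrFun (congrFun h1 (x, i)) q
    rw [← h2]
    simp only [Matrix.mulVec, dotProduct, Fintype.sum_prod_type, IsoV, Matrix.of_apply, ite_mul,
      zero_mul, Matrix.mul_apply, Matrix.kroneckerMap_apply, Matrix.one_apply, one_mul]
    simp only [Finset.sum_ite_irrel, Finset.sum_const_zero, Finset.sum_ite_eq, Finset.mem_univ,
      if_true]
    exact Finset.sum_congr rfl fun l _ => mul_comm _ _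

end Pool.Agent.AL
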