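import Pool.Agent.AL.QDefs

/-!
# PIECE AL-Jen: Jensen's inequality for the logarithm and an isometry

`lg` is `CFC.log` (by `rfl` after `open scoped Matrix.Norms.L2Operator MatrixOrder ComplexOrder`);
`CFC.concaveOn_log`, `Matrix.isStrictlyPositive_iff_posDef`.
`lg_intertwine`: a real polynomial `q` agrees with `log` on both (finite) spectra (Lagrange
interpolation), so `lg Y = q(Y)`, `lg Z = q(Z)` (`cfc_congr`, `cfc_polynomial`), and `q(Y) V = V q(Z)`.
`lg_unitary`: for a hermitian unitary `U`: take `V = U` in `lg_intertwine` (`(U T U) U = U T`).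
`jensen_log`: `U = 2 V Vᴴ - 1` is hermitian with `U U = 1`, `Y = (T + U T U) / 2` is positive definite;
concavity: `(lg T + U (lg T) U) / 2 ≤ lg Y`. As `Vᴴ U = Vᴴ`, `U V = V`: `Vᴴ (lg T) V ≤ Vᴴ (lg Y) V`.
With `P = V Vᴴ`: `Y = P T P + (1 - P) T (1 - P)`, so `Y V = V Z`, `Z = Vᴴ T V`, and by `lg_intertwine`
`Vᴴ (lg Y) V = Vᴴ V lg Z = lg Z`.
-/

namespace Pool.Agent.AL

open scoped Matrix Kronecker ComplexOrder

universe u v

variable {m : Type u} {n : Type v} [Fintype m] [DecidableEq m] [Fintype n] [DecidableEq n]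

theorem lg_isHermitian {T : Matrix m m ℂ} : (lg T).IsHermitian := by
  have h : IsSelfAdjoint (cfc Real.log T) := cfc_predicate Real.log T
  exact h

private theorem Jen_pow {Y : Matrix m m ℂ} {Z : Matrix n n ℂ} (V : Matrix m n ℂ)
    (h : Y * V = V * Z) (k : ℕ) : Y ^ k * V = V * Z ^ k := by
  induction k with
  | zero => rw [pow_zero, pow_zero, Matrix.one_mul, Matrix.mul_one]
  | succ k ih => rw [pow_succ, pow_succ, Matrix.mul_assoc, h, ← Matrix.mul_assoc, ih,
      Matrix.mul_assoc]

private theorem Jen_poly {Y : Matrix m m ℂ} {Z : Matrix n n ℂ} (V : Matrix m n ℂ)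
    (h : Y * V = V * Z) (q : Polynomial ℝ) :
    Polynomial.aeval Y q * V = V * Polynomial.aeval Z q := by
  rw [Polynomial.aeval_eq_sum_range, Polynomial.aeval_eq_sum_range, Matrix.sum_mul,
    Matrix.mul_sum]
  refine Finset.sum_congr rfl fun k _ => ?_
  rw [Matrix.smul_mul, Matrix.mul_smul, Jen_pow V h k]

theorem lg_intertwine {Y : Matrix m m ℂ} {Z : Matrix n n ℂ} (hY : Y.IsHermitian)
    (hZ : Z.IsHermitian) (V : Matrix m n ℂ) (h : Y * V = V * Z) : lg Y * V = V * lg Z := by
  classical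
  have hY' : IsSelfAdjoint Y := hY
  have hZ' : IsSelfAdjoint Z := hZ
  have hfY := Matrix.finite_real_spectrum (A := Y)
  have hfZ := Matrix.finite_real_spectrum (A := Z)
  set s : Finset ℝ := hfY.toFinset ∪ hfZ.toFinset with hs
  set q : Polynomial ℝ := Lagrange.interpolate s id Real.log with hq
  have hqe : ∀ x ∈ s, q.eval x = Real.log x := fun x hx =>
    Lagrange.eval_interpolate_at_node (v := id) Real.log (Set.injOn_id _) hx
  have e1 : lg Y = Polynomial.aeval Y q := by
    rw [lg, ← cfc_polynomial q Y hY']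
    apply cfc_congr
    intro x hx
    exact (hqe x (by rw [hs, Finset.mem_union]; left; simpa using hx)).symm
  have e2 : lg Z = Polynomial.aeval Z q := by
    rw [lg, ← cfc_polynomial q Z hZ']
    apply cfc_congr
    intro x hx
    exact (hqe x (by rw [hs, Finset.mem_union]; right; simpa using hx)).symm
  rw [e1, e2]
  exact Jen_poly V h q

section

open scoped Matrix.Norms.L2Operator MatrixOrder

private theorem Jen_concave {T S : Matrix m m ℂ} (hT : T.PosDef) (hS : S.PosDef) :
    (lg ((1 / 2 : ℝ) • T + (1 / 2 : ℝ) • S) -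
      ((1 / 2 : ℝ) • lg T + (1 / 2 : ℝ) • lg S)).PosSemidef := by
  have h := (CFC.concaveOn_log (A := Matrix m m ℂ)).2
    (Matrix.isStrictlyPositive_iff_posDef.2 hT) (Matrix.isStrictlyPositive_iff_posDef.2 hS)
    (show (0 : ℝ) ≤ 1 / 2 by norm_num) (show (0 : ℝ) ≤ 1 / 2 by norm_num) (by norm_num)
  exact Matrix.le_iff.1 h

end

theorem jensen_log {T : Matrix m m ℂ} (hT : T.PosDef) (V : Matrix m n ℂ) (hV : Vᴴ * V = 1) :
    (lg (Vᴴ * T * V) - Vᴴ * lg T * V).PosSemidef := by
  set U : Matrix m m ℂ := (2 : ℝ) • (V * Vᴴ) - 1 with hU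
  have hUV : U * V = V := by
    rw [hU, Matrix.sub_mul, Matrix.smul_mul, Matrix.mul_assoc, hV, Matrix.mul_one,
      Matrix.one_mul, two_smul, add_sub_cancel_right]
  have hVU : Vᴴ * U = Vᴴ := by
    rw [hU, Matrix.mul_sub, Matrix.mul_smul, ← Matrix.mul_assoc, hV, Matrix.one_mul,
      Matrix.mul_one, two_smul, add_sub_cancel_right]
  have hUh : Uᴴ = U := by
    rw [hU, Matrix.conjTranspose_sub, Matrix.conjTranspose_smul, Matrix.conjTranspose_mul,
      Matrix.conjTranspose_conjTranspose, Matrix.conjTranspose_one]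
    simp
  have hUU : U * U = 1 := by
    nth_rewrite 2 [hU]
    rw [Matrix.mul_sub, Matrix.mul_smul, ← Matrix.mul_assoc, hUV, Matrix.mul_one, hU]
    abel
  have hinj : Function.Injective U.mulVec := by
    intro x y hxy
    have h1 := congrArg (fun z => U.mulVec z) hxy
    simpa [Matrix.mulVec_mulVec, hUU] using h1
  have hS : (U * T * U).PosDef := by
    have := hT.conjTranspose_mul_mul_same hinj
    rwa [hUh] at this
  have hlS : lg (U * T * U) = U * lg T * U := by
    have h1 := lg_intertwine hS.isHermitian hT.isHermitian U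
      (show U * T * U * U = U * T by rw [Matrix.mul_assoc, hUU, Matrix.mul_one])
    calc lg (U * T * U) = lg (U * T * U) * U * U := by
          rw [Matrix.mul_assoc (lg (U * T * U)) U U, hUU, Matrix.mul_one]
      _ = U * lg T * U := by rw [h1]
  set Y : Matrix m m ℂ := (1 / 2 : ℝ) • T + (1 / 2 : ℝ) • (U * T * U) with hY
  have h1 := Jen_concave hT hS
  rw [← hY, hlS] at h1
  have h2 := h1.conjTranspose_mul_mul_same V
  have hYh : Y.IsHermitian := by
    have e1 : Tᴴ = T := hT.isHermitian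
    have e2 : (U * T * U)ᴴ = U * T * U := hS.isHermitian
    rw [Matrix.IsHermitian, hY, Matrix.conjTranspose_add, Matrix.conjTranspose_smul,
      Matrix.conjTranspose_smul, e1, e2]
    simp
  have hZh : (Vᴴ * T * V).IsHermitian := by
    have e1 : Tᴴ = T := hT.isHermitian
    rw [Matrix.IsHermitian, Matrix.conjTranspose_mul, Matrix.conjTranspose_mul,
      Matrix.conjTranspose_conjTranspose, e1, Matrix.mul_assoc]
  have hYV : Y * V = V * (Vᴴ * T * V) := by
    have e1 : U * T * U * V = (2 : ℝ) • (V * (Vᴴ * T * V)) - T * V := by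
      rw [Matrix.mul_assoc, hUV, hU, Matrix.sub_mul, Matrix.sub_mul, Matrix.smul_mul,
        Matrix.smul_mul, Matrix.one_mul]
      simp only [Matrix.mul_assoc]
    rw [hY, Matrix.add_mul, Matrix.smul_mul, Matrix.smul_mul, e1, smul_sub, smul_smul]
    norm_num
  have h3 := lg_intertwine hYh hZh V hYV
  have h4 : Vᴴ * (lg Y - ((1 / 2 : ℝ) • lg T + (1 / 2 : ℝ) • (U * lg T * U))) * V =
      lg (Vᴴ * T * V) - Vᴴ * lg T * V := by
    rw [Matrix.mul_sub, Matrix.sub_mul, Matrix.mul_assoc Vᴴ (lg Y) V, h3, ← Matrix.mul_assoc, hV,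
      Matrix.one_mul]
    congr 1
    rw [Matrix.mul_add, Matrix.add_mul, Matrix.mul_smul, Matrix.mul_smul, Matrix.smul_mul,
      Matrix.smul_mul]
    have e1 : Vᴴ * (U * lg T * U) * V = Vᴴ * lg T * V := by
      rw [← Matrix.mul_assoc, ← Matrix.mul_assoc, hVU, Matrix.mul_assoc, hUV]
    rw [e1, ← add_smul]
    norm_num
  rw [h4] at h2
  exact h2

end Pool.Agent.AL
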