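import Pool.Agent.AL.Jen

/-!
# PIECE AL-Kron: logarithms of Kronecker products

For a positive definite `σ` one has `σ = exp (lg σ)` (`CFC.exp_log`) and `lg (exp H) = H` for
hermitian `H` (`CFC.log_exp`). `A ↦ A ⊗ₖ 1` and `B ↦ 1 ⊗ₖ B` are (continuous) algebra homomorphisms
with commuting images, so `exp (lg σ ⊗ₖ 1 + 1 ⊗ₖ lg τ) = σ ⊗ₖ τ` (`NormedSpace.exp_add_of_commute`,
`NormedSpace.map_exp`; or `Matrix.exp_...` lemmas). Similarly `Matrix.exp_transpose`, `exp_neg`.
Alternatively diagonalize: `lg_intertwine` with the unitary `V = U₁ ⊗ₖ U₂` and diagonal matrices.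
-/

namespace Pool.Agent.AL

open scoped Matrix Kronecker ComplexOrder

universe u v

variable {m : Type u} {n : Type v} [Fintype m] [DecidableEq m] [Fintype n] [DecidableEq n]

private theorem kronDiagHerm (a : m → ℝ) :
    (Matrix.diagonal (fun i => (a i : ℂ))).IsHermitian := by
  rw [Matrix.IsHermitian, Matrix.diagonal_conjTranspose]
  congr 1
  funext i
  simp

private theorem kronScalar (r : ℝ) : lg (algebraMap ℝ (Matrix Unit Unit ℂ) r) =
    algebraMap ℝ (Matrix Unit Unit ℂ) (Real.log r) := by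
  rw [lg, cfc_algebraMap]

/-- the logarithm of a real diagonal matrix -/
private theorem kronDiag (a : m → ℝ) : lg (Matrix.diagonal (fun i => (a i : ℂ))) =
    Matrix.diagonal (fun i => ((Real.log (a i) : ℝ) : ℂ)) := by
  have key : ∀ j i, lg (Matrix.diagonal (fun i => (a i : ℂ))) i j =
      (if i = j then ((Real.log (a j) : ℝ) : ℂ) else 0) := by
    intro j i
    have h1 := lg_intertwine (kronDiagHerm a)
      (Z := algebraMap ℝ (Matrix Unit Unit ℂ) (a j)) (by
        rw [Matrix.IsHermitian]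
        ext x y
        simp [Matrix.algebraMap_matrix_apply])
      (Matrix.of fun (i : m) (_ : Unit) => if i = j then (1 : ℂ) else 0) (by
        ext x y
        rw [Matrix.diagonal_mul]
        simp only [Matrix.of_apply, Matrix.mul_apply, Finset.univ_unique, Finset.sum_singleton,
          Matrix.algebraMap_matrix_apply]
        by_cases h : x = j
        · simp [h]
        · simp [h])
    rw [kronScalar] at h1
    have h2 := congrFun (congrFun h1 i) ()
    simp only [Matrix.mul_apply, Matrix.of_apply, Finset.univ_unique, Finset.sum_singleton,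
      Matrix.algebraMap_matrix_apply, mul_ite, mul_one, mul_zero, Finset.sum_ite_eq',
      Finset.mem_univ, if_true] at h2
    rw [h2]
    by_cases h : i = j
    · simp [h]
    · simp [h]
  ext i j
  rw [key j i, Matrix.diagonal_apply]
  by_cases h : i = j
  · simp [h]
  · simp [h]

/-- the logarithm from a diagonalization -/
private theorem kronOfDiag {σ : Matrix m m ℂ} (hσ : σ.IsHermitian) (U W : Matrix m m ℂ)
    (hUW : U * W = 1) (a : m → ℝ) (h : σ * U = U * Matrix.diagonal (fun i => (a i : ℂ))) :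
    lg σ = U * Matrix.diagonal (fun i => ((Real.log (a i) : ℝ) : ℂ)) * W := by
  have h1 := lg_intertwine hσ (kronDiagHerm a) U h
  rw [kronDiag] at h1
  rw [← h1, Matrix.mul_assoc, hUW, Matrix.mul_one]

private theorem kronExists {σ : Matrix m m ℂ} (hσ : σ.PosDef) :
    ∃ (U W : Matrix m m ℂ) (a : m → ℝ), U * W = 1 ∧ W * U = 1 ∧ (∀ i, 0 < a i) ∧
      σ * U = U * Matrix.diagonal (fun i => (a i : ℂ)) := by
  refine ⟨(hσ.1.eigenvectorUnitary : Matrix m m ℂ), star (hσ.1.eigenvectorUnitary : Matrix m m ℂ),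
    hσ.1.eigenvalues, ?_, ?_, hσ.1.posDef_iff_eigenvalues_pos.mp hσ, ?_⟩
  · exact Unitary.coe_mul_star_self _
  · exact Unitary.coe_star_mul_self _
  · have h1 := hσ.1.spectral_theorem
    rw [Unitary.conjStarAlgAut_apply] at h1
    calc σ * (hσ.1.eigenvectorUnitary : Matrix m m ℂ)
        = ((hσ.1.eigenvectorUnitary : Matrix m m ℂ) *
            Matrix.diagonal ((RCLike.ofReal : ℝ → ℂ) ∘ hσ.1.eigenvalues) *
            star (hσ.1.eigenvectorUnitary : Matrix m m ℂ)) *
            (hσ.1.eigenvectorUnitary : Matrix m m ℂ) :=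
          congrArg (· * (hσ.1.eigenvectorUnitary : Matrix m m ℂ)) h1
      _ = (hσ.1.eigenvectorUnitary : Matrix m m ℂ) *
            Matrix.diagonal ((RCLike.ofReal : ℝ → ℂ) ∘ hσ.1.eigenvalues) := by
          rw [Matrix.mul_assoc, Unitary.coe_star_mul_self, Matrix.mul_one]

theorem lg_kron {σ : Matrix m m ℂ} {τ : Matrix n n ℂ} (hσ : σ.PosDef) (hτ : τ.PosDef) :
    lg (σ ⊗ₖ τ) = lg σ ⊗ₖ (1 : Matrix n n ℂ) + (1 : Matrix m m ℂ) ⊗ₖ lg τ := by
  obtain ⟨U, W, a, hUW, hWU, ha, hU⟩ := kronExists hσ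
  obtain ⟨U', W', b, hUW', hWU', hb, hU'⟩ := kronExists hτ
  have hherm : (σ ⊗ₖ τ).IsHermitian := by
    rw [Matrix.IsHermitian, Matrix.conjTranspose_kronecker, hσ.1.eq, hτ.1.eq]
  have h1 := kronOfDiag hherm (U ⊗ₖ U') (W ⊗ₖ W') (by
    rw [← Matrix.mul_kronecker_mul, hUW, hUW', Matrix.one_kronecker_one])
    (fun p => a p.1 * b p.2) (by
      have h2 : Matrix.diagonal (fun p : m × n => ((a p.1 * b p.2 : ℝ) : ℂ)) =
          Matrix.diagonal (fun i => (a i : ℂ)) ⊗ₖ Matrix.diagonal (fun j => (b j : ℂ)) := by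
        rw [Matrix.diagonal_kronecker_diagonal]
        congr 1
        funext p
        push_cast
        rfl
      rw [h2, ← Matrix.mul_kronecker_mul, ← Matrix.mul_kronecker_mul, hU, hU'])
  have h3 : Matrix.diagonal (fun p : m × n => ((Real.log (a p.1 * b p.2) : ℝ) : ℂ)) =
      Matrix.diagonal (fun i => ((Real.log (a i) : ℝ) : ℂ)) ⊗ₖ (1 : Matrix n n ℂ) +
        (1 : Matrix m m ℂ) ⊗ₖ Matrix.diagonal (fun j => ((Real.log (b j) : ℝ) : ℂ)) := by
    rw [← Matrix.diagonal_one, ← Matrix.diagonal_one, Matrix.diagonal_kronecker_diagonal,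
      Matrix.diagonal_kronecker_diagonal, Matrix.diagonal_add]
    congr 1
    funext p
    rw [Real.log_mul (ha _).ne' (hb _).ne']
    push_cast
    ring
  rw [h1, h3, Matrix.mul_add, Matrix.add_mul, ← Matrix.mul_kronecker_mul,
    ← Matrix.mul_kronecker_mul, ← Matrix.mul_kronecker_mul, ← Matrix.mul_kronecker_mul,
    Matrix.mul_one, Matrix.mul_one, hUW, hUW', kronOfDiag hσ.1 U W hUW a hU,
    kronOfDiag hτ.1 U' W' hUW' b hU']

theorem lg_one : lg (1 : Matrix m m ℂ) = 0 := by
  have h := kronDiag (fun _ : m => (1 : ℝ))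
  have h1 : Matrix.diagonal (fun _ : m => ((1 : ℝ) : ℂ)) = 1 := by
    rw [← Matrix.diagonal_one]
    simp
  rw [h1] at h
  rw [h]
  simp

theorem lg_transpose {σ : Matrix m m ℂ} (hσ : σ.PosDef) : lg σᵀ = (lg σ)ᵀ := by
  obtain ⟨U, W, a, hUW, hWU, ha, hU⟩ := kronExists hσ
  have h0 : W * σ = Matrix.diagonal (fun i => (a i : ℂ)) * W := by
    have h1 : W * (σ * U) * W = W * (U * Matrix.diagonal (fun i => (a i : ℂ))) * W := by rw [hU]
    rw [Matrix.mul_assoc, Matrix.mul_assoc, hUW, Matrix.mul_one] at h1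
    rw [h1, ← Matrix.mul_assoc W U, hWU, Matrix.one_mul]
  have h2 : σᵀ.IsHermitian := hσ.1.transpose
  have h3 := kronOfDiag h2 Wᵀ Uᵀ (by rw [← Matrix.transpose_mul, hUW, Matrix.transpose_one]) a (by
    rw [← Matrix.transpose_mul, h0, Matrix.transpose_mul, Matrix.diagonal_transpose])
  rw [h3, kronOfDiag hσ.1 U W hUW a hU, Matrix.transpose_mul, Matrix.transpose_mul,
    Matrix.diagonal_transpose, Matrix.mul_assoc]

theorem lg_inv {σ : Matrix m m ℂ} (hσ : σ.PosDef) : lg σ⁻¹ = -lg σ := by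
  obtain ⟨U, W, a, hUW, hWU, ha, hU⟩ := kronExists hσ
  have hdet : IsUnit σ.det := by
    rw [isUnit_iff_ne_zero]
    exact hσ.det_pos.ne'
  have h2 : σ⁻¹.IsHermitian := hσ.1.inv
  have hD : Matrix.diagonal (fun i => (a i : ℂ)) *
      Matrix.diagonal (fun i => (((a i)⁻¹ : ℝ) : ℂ)) = 1 := by
    rw [Matrix.diagonal_mul_diagonal, ← Matrix.diagonal_one]
    congr 1
    funext i
    push_cast
    exact mul_inv_cancel₀ (by exact_mod_cast (ha i).ne')
  have h3 := kronOfDiag h2 U W hUW (fun i => (a i)⁻¹) (by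
    have h4 : σ⁻¹ * (σ * U) = U := by
      rw [← Matrix.mul_assoc, Matrix.nonsing_inv_mul _ hdet, Matrix.one_mul]
    rw [hU, ← Matrix.mul_assoc] at h4
    calc σ⁻¹ * U = σ⁻¹ * U * (Matrix.diagonal (fun i => (a i : ℂ)) *
        Matrix.diagonal (fun i => (((a i)⁻¹ : ℝ) : ℂ))) := by rw [hD, Matrix.mul_one]
      _ = U * Matrix.diagonal (fun i => (((a i)⁻¹ : ℝ) : ℂ)) := by rw [← Matrix.mul_assoc, h4])
  have h5 : Matrix.diagonal (fun i => ((Real.log ((a i)⁻¹) : ℝ) : ℂ)) =
      -Matrix.diagonal (fun i => ((Real.log (a i) : ℝ) : ℂ)) := by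
    rw [Matrix.diagonal_neg]
    congr 1
    funext i
    rw [Real.log_inv]
    push_cast
    rfl
  rw [h3, h5, kronOfDiag hσ.1 U W hUW a hU, Matrix.mul_neg, Matrix.neg_mul]

theorem lg_submatrix {σ : Matrix m m ℂ} (hσ : σ.IsHermitian) (e : n ≃ m) :
    lg (σ.submatrix e e) = (lg σ).submatrix e e := by
  have h1 := lg_intertwine (hσ.submatrix e) hσ ((1 : Matrix m m ℂ).submatrix e id) (by
    ext i j
    rw [Matrix.mul_apply, Matrix.mul_apply]
    simp only [Matrix.submatrix_apply, id_eq, Matrix.one_apply, mul_ite, mul_one, mul_zero,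
      ite_mul, one_mul, zero_mul, Finset.sum_ite_eq, Finset.mem_univ, if_true]
    rw [← Equiv.sum_comp e.symm]
    simp)
  ext i j
  have h2 := congrFun (congrFun h1 i) (e j)
  rw [Matrix.mul_apply, Matrix.mul_apply] at h2
  simp only [Matrix.submatrix_apply, id_eq, Matrix.one_apply, mul_ite, mul_one, mul_zero,
    ite_mul, one_mul, zero_mul, Finset.sum_ite_eq, Finset.mem_univ, if_true,
    EmbeddingLike.apply_eq_iff_eq, Finset.sum_ite_eq'] at h2
  rw [Matrix.submatrix_apply]
  exact h2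

end Pool.Agent.AL
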