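import Pool.Agent.AL.QDefs

/-!
# PIECE AL-Loc: local operators as sums of products

`ip_act`: for `X σ τ = a (σ|A) (τ|A) * b (τ|Aᶜ) (σ|Aᶜ)` (note the transposition) one has
`ip φ (X *ᵥ χ) = Tr ((mat A φ)ᴴ a (mat A χ) b)`; sums over `V → Fin d` are sums over pairs
(`glue A` is a bijection: `sum_glue`).
`place_decomp`: `place Ω h L v = ∑_{s,t} h s t • X_{s,t}` where `X_{s,t} σ τ = 1` if `σ = τ` off
`v + Ω`, `σ (v + red L x) = s x` and `τ (v + red L x) = t x` for all `x ∈ Ω`, and `0` otherwise.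
`a s t σ' τ' = 1` if `σ' = τ'` off `v + Ω` (in `A`) and `σ' (v + red L x) = s x`,
`τ' (v + red L x) = t x` for the `x ∈ Ω` with `v + red L x ∈ A`, and `0` otherwise; `b s t τ' σ'` is
the same on the complement. Such a matrix has at most one `1` in every row and every column, all
other entries are `0`: this is `Con` (`con_of_inj`).
-/

namespace Pool.Agent.AL

open scoped Matrix

section
variable {V : Type} [Fintype V] [DecidableEq V] {d : ℕ}

/-- restriction to `A` -/
def resA (A : Finset V) (σ : V → Fin d) : {v // v ∈ A} → Fin d := fun v => σ v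

/-- restriction to the complement of `A` -/
def resC (A : Finset V) (σ : V → Fin d) : {v // v ∉ A} → Fin d := fun v => σ v

omit [Fintype V] in
theorem glue_res (A : Finset V) (σ : V → Fin d) : glue A (resA A σ) (resC A σ) = σ := by
  funext v
  unfold glue resA resC
  split <;> rfl

omit [Fintype V] in
private theorem resA_glue (A : Finset V) (s : {v // v ∈ A} → Fin d) (r : {v // v ∉ A} → Fin d) :
    resA A (glue A s r) = s := by
  funext v
  exact dif_pos v.2

omit [Fintype V] in
private theorem resC_glue (A : Finset V) (s : {v // v ∈ A} → Fin d) (r : {v // v ∉ A} → Fin d) :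
    resC A (glue A s r) = r := by
  funext v
  exact dif_neg v.2

theorem sum_glue {M : Type*} [AddCommMonoid M] (A : Finset V) (f : (V → Fin d) → M) :
    ∑ σ, f σ = ∑ s, ∑ r, f (glue A s r) := by
  let e : (V → Fin d) ≃ ({v // v ∈ A} → Fin d) × ({v // v ∉ A} → Fin d) :=
    { toFun := fun σ => (resA A σ, resC A σ)
      invFun := fun p => glue A p.1 p.2
      left_inv := fun σ => glue_res A σ
      right_inv := fun p => Prod.ext (resA_glue A p.1 p.2) (resC_glue A p.1 p.2) }
  rw [← Fintype.sum_prod_type' (f := fun s r => f (glue A s r))]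
  exact Fintype.sum_equiv e _ _ fun σ => by
    show f σ = f (glue A (resA A σ) (resC A σ))
    rw [glue_res]

theorem ip_mat (A : Finset V) (φ ψ : (V → Fin d) → ℂ) :
    ip φ ψ = Matrix.trace ((mat A φ)ᴴ * mat A ψ) := by
  unfold ip
  rw [sum_glue A, Finset.sum_comm]
  rfl

theorem sum_mat (A : Finset V) (ψ : (V → Fin d) → ℂ) :
    ∑ σ, ‖ψ σ‖ ^ 2 = ∑ s, ∑ r, ‖mat A ψ s r‖ ^ 2 := by
  rw [sum_glue A]
  rfl

theorem ip_act (A : Finset V) (a : Matrix ({v // v ∈ A} → Fin d) ({v // v ∈ A} → Fin d) ℂ)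
    (b : Matrix ({v // v ∉ A} → Fin d) ({v // v ∉ A} → Fin d) ℂ) (φ χ : (V → Fin d) → ℂ) :
    ip φ ((Matrix.of fun σ τ : V → Fin d =>
      a (resA A σ) (resA A τ) * b (resC A τ) (resC A σ)) *ᵥ χ) =
      Matrix.trace ((mat A φ)ᴴ * a * mat A χ * b) := by
  have h1 : ip φ ((Matrix.of fun σ τ : V → Fin d =>
      a (resA A σ) (resA A τ) * b (resC A τ) (resC A σ)) *ᵥ χ) =
      ∑ s, ∑ r, ∑ s', ∑ r', star (φ (glue A s r)) * (a s s' * b r' r * χ (glue A s' r')) := by
    unfold ip
    rw [sum_glue A]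
    refine Finset.sum_congr rfl fun s _ => Finset.sum_congr rfl fun r _ => ?_
    simp only [Matrix.mulVec, dotProduct, Matrix.of_apply]
    rw [sum_glue A, Finset.mul_sum]
    refine Finset.sum_congr rfl fun s' _ => ?_
    rw [Finset.mul_sum]
    refine Finset.sum_congr rfl fun r' _ => ?_
    rw [resA_glue, resA_glue, resC_glue, resC_glue]
  have h2 : Matrix.trace ((mat A φ)ᴴ * a * mat A χ * b) =
      ∑ r, ∑ r', ∑ s', ∑ s, star (φ (glue A s r)) * (a s s' * b r' r * χ (glue A s' r')) := by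
    simp only [Matrix.trace, Matrix.diag_apply, Matrix.mul_apply]
    refine Finset.sum_congr rfl fun r _ => Finset.sum_congr rfl fun r' _ => ?_
    rw [Finset.sum_mul]
    refine Finset.sum_congr rfl fun s' _ => ?_
    rw [Finset.sum_mul, Finset.sum_mul]
    refine Finset.sum_congr rfl fun s _ => ?_
    rw [Matrix.conjTranspose_apply]
    simp only [mat, Matrix.of_apply]
    ring
  rw [h1, h2, Finset.sum_comm]
  refine Finset.sum_congr rfl fun r _ => ?_
  rw [Finset.sum_comm]
  calc ∑ s', ∑ s, ∑ r', star (φ (glue A s r)) * (a s s' * b r' r * χ (glue A s' r'))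
      = ∑ s', ∑ r', ∑ s, star (φ (glue A s r)) * (a s s' * b r' r * χ (glue A s' r')) :=
        Finset.sum_congr rfl fun s' _ => Finset.sum_comm
    _ = _ := Finset.sum_comm

end

private theorem con_aux {m : Type*} [Fintype m] {X : Matrix m m ℂ} (h0 : ∀ i j, X i j = 0 ∨ X i j = 1)
    (h1 : ∀ i j j', X i j = 1 → X i j' = 1 → j = j')
    (h2 : ∀ i i' j, X i j = 1 → X i' j = 1 → i = i') (x : m → ℂ) :
    ∑ i, ‖(X *ᵥ x) i‖ ^ 2 ≤ ∑ j, ‖x j‖ ^ 2 := by
  classical
  have h3 : ∀ i, ‖(X *ᵥ x) i‖ ^ 2 = ∑ j, ‖X i j‖ * ‖x j‖ ^ 2 := by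
    intro i
    by_cases hi : ∃ j, X i j = 1
    · obtain ⟨j, hj⟩ := hi
      have h4 : ∀ j', j' ≠ j → X i j' = 0 := fun j' hne =>
        (h0 i j').resolve_right fun h5 => hne (h1 i j' j h5 hj)
      rw [Finset.sum_eq_single j, hj, norm_one, one_mul]
      · simp only [Matrix.mulVec, dotProduct]
        rw [Finset.sum_eq_single j, hj, one_mul]
        · intro j' _ hne
          rw [h4 j' hne, zero_mul]
        · intro h6
          exact absurd (Finset.mem_univ _) h6
      · intro j' _ hne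
        rw [h4 j' hne, norm_zero, zero_mul]
      · intro h6
        exact absurd (Finset.mem_univ _) h6
    · have h4 : ∀ j', X i j' = 0 := fun j' => (h0 i j').resolve_right fun h5 => hi ⟨j', h5⟩
      simp only [Matrix.mulVec, dotProduct, h4, zero_mul, Finset.sum_const_zero, norm_zero]
      norm_num
  rw [Finset.sum_congr rfl fun i _ => h3 i, Finset.sum_comm]
  refine Finset.sum_le_sum fun j _ => ?_
  rw [← Finset.sum_mul]
  have h5 : ∑ i, ‖X i j‖ ≤ 1 := by
    by_cases hj : ∃ i, X i j = 1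
    · obtain ⟨i, hi⟩ := hj
      rw [Finset.sum_eq_single i, hi, norm_one]
      · intro i' _ hne
        rw [(h0 i' j).resolve_right fun h6 => hne (h2 i' i j h6 hi), norm_zero]
      · intro h6
        exact absurd (Finset.mem_univ _) h6
    · have h4 : ∀ i', X i' j = 0 := fun i' => (h0 i' j).resolve_right fun h5 => hj ⟨i', h5⟩
      simp only [h4, norm_zero, Finset.sum_const_zero]
      norm_num
  calc (∑ i, ‖X i j‖) * ‖x j‖ ^ 2 ≤ 1 * ‖x j‖ ^ 2 :=
        mul_le_mul_of_nonneg_right h5 (sq_nonneg _)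
    _ = _ := one_mul _

theorem con_of_inj {m : Type*} [Fintype m] {X : Matrix m m ℂ} (h0 : ∀ i j, X i j = 0 ∨ X i j = 1)
    (h1 : ∀ i j j', X i j = 1 → X i j' = 1 → j = j')
    (h2 : ∀ i i' j, X i j = 1 → X i' j = 1 → i = i') : Con X := by
  have h3 : ∀ i j, Xᴴ i j = 1 → X j i = 1 := fun i j h => by
    rw [Matrix.conjTranspose_apply] at h
    rcases h0 j i with h4 | h4
    · rw [h4, star_zero] at h
      exact absurd h zero_ne_one
    · exact h4
  refine ⟨con_aux h0 h1 h2, con_aux (X := Xᴴ) ?_ ?_ ?_⟩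
  · intro i j
    rw [Matrix.conjTranspose_apply]
    rcases h0 j i with h4 | h4
    · left
      rw [h4, star_zero]
    · right
      rw [h4, star_one]
  · intro i j j' hj hj'
    exact h2 j j' i (h3 i j hj) (h3 i j' hj')
  · intro i i' j hi hi'
    exact h1 j i i' (h3 i j hi) (h3 i' j hi')

section
variable {L : ℕ} [NeZero L] {d : ℕ}

private def Loc_condA (Ω : Finset (ℤ × ℤ)) (v : Tor L) (A : Finset (Tor L)) (s t : Ω → Fin d)
    (σ τ : {v // v ∈ A} → Fin d) : Prop :=
  (∀ w : {v // v ∈ A}, (∀ x ∈ Ω, w.1 ≠ v + red L x) → σ w = τ w) ∧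
    ∀ (x : Ω) (w : {v // v ∈ A}), w.1 = v + red L x → σ w = s x ∧ τ w = t x

private def Loc_condC (Ω : Finset (ℤ × ℤ)) (v : Tor L) (A : Finset (Tor L)) (s t : Ω → Fin d)
    (σ τ : {v // v ∉ A} → Fin d) : Prop :=
  (∀ w : {v // v ∉ A}, (∀ x ∈ Ω, w.1 ≠ v + red L x) → σ w = τ w) ∧
    ∀ (x : Ω) (w : {v // v ∉ A}), w.1 = v + red L x → σ w = s x ∧ τ w = t x

omit [NeZero L] in
private theorem Loc_conj (Ω : Finset (ℤ × ℤ)) (v : Tor L) (A : Finset (Tor L)) (s t : Ω → Fin d)
    (σ τ : Tor L → Fin d) :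
    (Loc_condA Ω v A s t (resA A σ) (resA A τ) ∧ Loc_condC Ω v A s t (resC A σ) (resC A τ)) ↔
      ((∀ w : Tor L, (∀ x ∈ Ω, w ≠ v + red L x) → σ w = τ w) ∧
        s = (fun x : Ω => σ (v + red L x)) ∧ t = fun x : Ω => τ (v + red L x)) := by
  constructor
  · rintro ⟨⟨a1, a2⟩, c1, c2⟩
    refine ⟨fun w hw => ?_, ?_, ?_⟩
    · by_cases hA : w ∈ A
      · exact a1 ⟨w, hA⟩ hw
      · exact c1 ⟨w, hA⟩ hw
    · funext x
      by_cases hA : v + red L x ∈ A
      · exact ((a2 x ⟨_, hA⟩ rfl).1).symm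
      · exact ((c2 x ⟨_, hA⟩ rfl).1).symm
    · funext x
      by_cases hA : v + red L x ∈ A
      · exact ((a2 x ⟨_, hA⟩ rfl).2).symm
      · exact ((c2 x ⟨_, hA⟩ rfl).2).symm
  · rintro ⟨h1, rfl, rfl⟩
    refine ⟨⟨fun w hw => h1 _ hw, fun x w hw => ?_⟩, fun w hw => h1 _ hw, fun x w hw => ?_⟩
    · simp only [resA, hw, and_self]
    · simp only [resC, hw, and_self]

omit [NeZero L] in
private theorem Loc_inj {Ω : Finset (ℤ × ℤ)} {v : Tor L} {P : Tor L → Prop} {t : Ω → Fin d}
    {σ τ τ' : {v // P v} → Fin d}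
    (h1 : ∀ w : {v // P v}, (∀ x ∈ Ω, w.1 ≠ v + red L x) → σ w = τ w)
    (h1' : ∀ w : {v // P v}, (∀ x ∈ Ω, w.1 ≠ v + red L x) → σ w = τ' w)
    (h2 : ∀ (x : Ω) (w : {v // P v}), w.1 = v + red L x → τ w = t x)
    (h2' : ∀ (x : Ω) (w : {v // P v}), w.1 = v + red L x → τ' w = t x) : τ = τ' := by
  funext w
  by_cases hw : ∀ x ∈ Ω, w.1 ≠ v + red L x
  · rw [← h1 w hw, h1' w hw]
  · push Not at hw
    obtain ⟨x, hx, hw⟩ := hw
    rw [h2 ⟨x, hx⟩ w hw, h2' ⟨x, hx⟩ w hw]

end

private theorem Loc_ite {p : Prop} [Decidable p] (h : (if p then (1 : ℂ) else 0) = 1) : p := by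
  by_contra hp
  rw [if_neg hp] at h
  exact zero_ne_one h

theorem place_decomp {L : ℕ} [NeZero L] {d : ℕ} (Ω : Finset (ℤ × ℤ))
    (h : Matrix (Ω → Fin d) (Ω → Fin d) ℂ) (v : Tor L) (A : Finset (Tor L)) :
    ∃ (a : (Ω → Fin d) → (Ω → Fin d) →
        Matrix ({v // v ∈ A} → Fin d) ({v // v ∈ A} → Fin d) ℂ)
      (b : (Ω → Fin d) → (Ω → Fin d) →
        Matrix ({v // v ∉ A} → Fin d) ({v // v ∉ A} → Fin d) ℂ),
      (∀ s t, Con (a s t) ∧ Con (b s t)) ∧
      (∀ φ χ : (Tor L → Fin d) → ℂ, ip φ (place Ω h L v *ᵥ χ) =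
        ∑ s, ∑ t, h s t * Matrix.trace ((mat A φ)ᴴ * a s t * mat A χ * b s t)) ∧
      ((∀ x ∈ Ω, v + red L x ∈ A) → ∀ s t, b s t = 1) ∧
      ((∀ x ∈ Ω, v + red L x ∉ A) → ∀ s t, a s t = 1) := by
  classical
  refine ⟨fun s t => Matrix.of fun σ τ => if Loc_condA Ω v A s t σ τ then 1 else 0,
    fun s t => Matrix.of fun τ σ => if Loc_condC Ω v A s t σ τ then 1 else 0,
    fun s t => ⟨?_, ?_⟩, ?_, ?_, ?_⟩
  · refine con_of_inj (fun i j => ?_) (fun i j j' hj hj' => ?_) (fun i i' j hi hi' => ?_)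
    · beta_reduce
      rw [Matrix.of_apply]
      split
      · exact Or.inr rfl
      · exact Or.inl rfl
    · have a1 := Loc_ite hj
      have a2 := Loc_ite hj'
      exact Loc_inj (t := t) a1.1 a2.1 (fun x w hw => (a1.2 x w hw).2)
        (fun x w hw => (a2.2 x w hw).2)
    · have a1 := Loc_ite hi
      have a2 := Loc_ite hi'
      exact Loc_inj (t := s) (fun w hw => (a1.1 w hw).symm) (fun w hw => (a2.1 w hw).symm)
        (fun x w hw => (a1.2 x w hw).1) (fun x w hw => (a2.2 x w hw).1)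
  · refine con_of_inj (fun i j => ?_) (fun i j j' hj hj' => ?_) (fun i i' j hi hi' => ?_)
    · beta_reduce
      rw [Matrix.of_apply]
      split
      · exact Or.inr rfl
      · exact Or.inl rfl
    · have a1 := Loc_ite hj
      have a2 := Loc_ite hj'
      exact Loc_inj (t := s) (fun w hw => (a1.1 w hw).symm) (fun w hw => (a2.1 w hw).symm)
        (fun x w hw => (a1.2 x w hw).1) (fun x w hw => (a2.2 x w hw).1)
    · have a1 := Loc_ite hi
      have a2 := Loc_ite hi'
      exact Loc_inj (t := t) a1.1 a2.1 (fun x w hw => (a1.2 x w hw).2)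
        (fun x w hw => (a2.2 x w hw).2)
  · intro φ χ
    have h1 : ∀ s t : Ω → Fin d, Matrix.trace ((mat A φ)ᴴ *
        (Matrix.of fun σ τ => if Loc_condA Ω v A s t σ τ then (1 : ℂ) else 0) * mat A χ *
        (Matrix.of fun τ σ => if Loc_condC Ω v A s t σ τ then (1 : ℂ) else 0)) =
        ∑ σ, ∑ τ, star (φ σ) * ((if (∀ w : Tor L, (∀ x ∈ Ω, w ≠ v + red L x) → σ w = τ w) ∧
        s = (fun x : Ω => σ (v + red L x)) ∧ t = (fun x : Ω => τ (v + red L x))
          then (1 : ℂ) else 0) * χ τ) := by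
      intro s t
      rw [← ip_act]
      unfold ip
      refine Finset.sum_congr rfl fun σ _ => ?_
      simp only [Matrix.mulVec, dotProduct, Matrix.of_apply]
      rw [Finset.mul_sum]
      refine Finset.sum_congr rfl fun τ _ => ?_
      congr 2
      have h2 := Loc_conj Ω v A s t σ τ
      by_cases ha : Loc_condA Ω v A s t (resA A σ) (resA A τ)
      · by_cases hc : Loc_condC Ω v A s t (resC A σ) (resC A τ)
        · rw [if_pos ha, if_pos hc, if_pos (h2.1 ⟨ha, hc⟩), one_mul]
        · rw [if_neg hc, mul_zero, if_neg fun h3 => hc (h2.2 h3).2]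
      · rw [if_neg ha, zero_mul, if_neg fun h3 => ha (h2.2 h3).1]
    have h3 : ∀ s t : Ω → Fin d, h s t * Matrix.trace ((mat A φ)ᴴ *
        (Matrix.of fun σ τ => if Loc_condA Ω v A s t σ τ then (1 : ℂ) else 0) * mat A χ *
        (Matrix.of fun τ σ => if Loc_condC Ω v A s t σ τ then (1 : ℂ) else 0)) =
        ∑ σ, ∑ τ, (if s = (fun x : Ω => σ (v + red L x)) then
          (if t = (fun x : Ω => τ (v + red L x)) then
            star (φ σ) * ((if ∀ w : Tor L, (∀ x ∈ Ω, w ≠ v + red L x) → σ w = τ w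
              then h s t else 0) * χ τ) else 0) else 0) := by
      intro s t
      rw [h1, Finset.mul_sum]
      refine Finset.sum_congr rfl fun σ _ => ?_
      rw [Finset.mul_sum]
      refine Finset.sum_congr rfl fun τ _ => ?_
      by_cases hs : s = fun x : Ω => σ (v + red L x)
      · by_cases ht : t = fun x : Ω => τ (v + red L x)
        · by_cases hw : ∀ w : Tor L, (∀ x ∈ Ω, w ≠ v + red L x) → σ w = τ w
          · rw [if_pos ⟨hw, hs, ht⟩, if_pos hs, if_pos ht, if_pos hw]
            ring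
          · rw [if_neg fun h4 => hw h4.1, if_pos hs, if_pos ht, if_neg hw]
            ring
        · rw [if_neg fun h4 => ht h4.2.2, if_pos hs, if_neg ht]
          ring
      · rw [if_neg fun h4 => hs h4.2.1, if_neg hs]
        ring
    calc ip φ (place Ω h L v *ᵥ χ)
        = ∑ σ, ∑ τ, star (φ σ) * ((if ∀ w : Tor L, (∀ x ∈ Ω, w ≠ v + red L x) → σ w = τ w
              then h (fun x : Ω => σ (v + red L x)) (fun x : Ω => τ (v + red L x)) else 0) *
                χ τ) := by
          unfold ip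
          refine Finset.sum_congr rfl fun σ _ => ?_
          simp only [Matrix.mulVec, dotProduct, place, Matrix.of_apply]
          rw [Finset.mul_sum]
          refine Finset.sum_congr rfl fun τ _ => ?_
          congr
      _ = ∑ σ, ∑ τ, ∑ s : Ω → Fin d, ∑ t : Ω → Fin d, (if s = (fun x : Ω => σ (v + red L x)) then
          (if t = (fun x : Ω => τ (v + red L x)) then
            star (φ σ) * ((if ∀ w : Tor L, (∀ x ∈ Ω, w ≠ v + red L x) → σ w = τ w
              then h s t else 0) * χ τ) else 0) else 0) := by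
          refine Finset.sum_congr rfl fun σ _ => Finset.sum_congr rfl fun τ _ => ?_
          rw [Finset.sum_eq_single (fun x : Ω => σ (v + red L x)),
            Finset.sum_eq_single (fun x : Ω => τ (v + red L x)), if_pos rfl, if_pos rfl]
          · intro t _ ht
            rw [if_pos rfl, if_neg ht]
          · intro h6
            exact absurd (Finset.mem_univ _) h6
          · intro s _ hs
            refine Finset.sum_eq_zero fun t _ => ?_
            rw [if_neg hs]
          · intro h6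
            exact absurd (Finset.mem_univ _) h6
      _ = ∑ σ, ∑ s : Ω → Fin d, ∑ τ, ∑ t : Ω → Fin d,
          (if s = (fun x : Ω => σ (v + red L x)) then
          (if t = (fun x : Ω => τ (v + red L x)) then
            star (φ σ) * ((if ∀ w : Tor L, (∀ x ∈ Ω, w ≠ v + red L x) → σ w = τ w
              then h s t else 0) * χ τ) else 0) else 0) :=
          Finset.sum_congr rfl fun σ _ => Finset.sum_comm
      _ = ∑ σ, ∑ s : Ω → Fin d, ∑ t : Ω → Fin d, ∑ τ,
          (if s = (fun x : Ω => σ (v + red L x)) then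
          (if t = (fun x : Ω => τ (v + red L x)) then
            star (φ σ) * ((if ∀ w : Tor L, (∀ x ∈ Ω, w ≠ v + red L x) → σ w = τ w
              then h s t else 0) * χ τ) else 0) else 0) :=
          Finset.sum_congr rfl fun σ _ => Finset.sum_congr rfl fun s _ => Finset.sum_comm
      _ = ∑ s : Ω → Fin d, ∑ σ, ∑ t : Ω → Fin d, ∑ τ,
          (if s = (fun x : Ω => σ (v + red L x)) then
          (if t = (fun x : Ω => τ (v + red L x)) then
            star (φ σ) * ((if ∀ w : Tor L, (∀ x ∈ Ω, w ≠ v + red L x) → σ w = τ w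
              then h s t else 0) * χ τ) else 0) else 0) := Finset.sum_comm
      _ = ∑ s : Ω → Fin d, ∑ t : Ω → Fin d, ∑ σ, ∑ τ,
          (if s = (fun x : Ω => σ (v + red L x)) then
          (if t = (fun x : Ω => τ (v + red L x)) then
            star (φ σ) * ((if ∀ w : Tor L, (∀ x ∈ Ω, w ≠ v + red L x) → σ w = τ w
              then h s t else 0) * χ τ) else 0) else 0) :=
          Finset.sum_congr rfl fun s _ => Finset.sum_comm
      _ = _ := Finset.sum_congr rfl fun s _ => Finset.sum_congr rfl fun t _ => (h3 s t).symm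
  · intro hA s t
    apply Matrix.ext
    intro τ σ
    beta_reduce
    rw [Matrix.of_apply, Matrix.one_apply]
    have h4 : Loc_condC Ω v A s t σ τ ↔ τ = σ := by
      constructor
      · intro h5
        funext w
        exact (h5.1 w fun x hx hw => w.2 (hw ▸ hA x hx)).symm
      · rintro rfl
        refine ⟨fun _ _ => rfl, fun x w hw => ?_⟩
        exact absurd (hw ▸ hA x x.2) w.2
    by_cases h5 : τ = σ
    · rw [if_pos (h4.2 h5), if_pos h5]
    · rw [if_neg fun h6 => h5 (h4.1 h6), if_neg h5]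
  · intro hA s t
    apply Matrix.ext
    intro σ τ
    beta_reduce
    rw [Matrix.of_apply, Matrix.one_apply]
    have h4 : Loc_condA Ω v A s t σ τ ↔ σ = τ := by
      constructor
      · intro h5
        funext w
        exact h5.1 w fun x hx hw => hA x hx (hw ▸ w.2)
      · rintro rfl
        refine ⟨fun _ _ => rfl, fun x w hw => ?_⟩
        exact absurd (hw ▸ w.2) (hA x x.2)
    by_cases h5 : σ = τ
    · rw [if_pos (h4.2 h5), if_pos h5]
    · rw [if_neg fun h6 => h5 (h4.1 h6), if_neg h5]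

end Pool.Agent.AL
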