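import Pool.Agent.AL.QDefs

/-!
# PIECE AL-TrC: traces of functions of hermitian matrices

`trf_eq`: `Matrix.IsHermitian.cfc_eq`, `Matrix.IsHermitian.cfc` (a unitary conjugate of a diagonal
matrix), `Matrix.trace_mul_comm`.
`trf_comm`, `trf_transpose`, `trf_submatrix`: through the roots of the characteristic polynomial.
`trf_add`: the eigenvalues of `ρ + ε` : `cfc f (ρ + ε • 1) = cfc (fun x => f (x + ε)) ρ`.
`Ent_transpose`: `Nᵀ (Nᵀ)ᴴ = (Nᴴ N)ᵀ`.
`trf_negMulLog`: for positive definite `ρ`, `cfc negMulLog ρ = - ρ * lg ρ`.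
-/

namespace Pool.Agent.AL

open scoped Matrix Kronecker ComplexOrder

universe u v w

variable {m : Type u} {n : Type v} [Fintype m] [DecidableEq m] [Fintype n] [DecidableEq n]

theorem trf_eq {ρ : Matrix m m ℂ} (hρ : ρ.IsHermitian) (f : ℝ → ℝ) :
    trf f ρ = ∑ i, f (hρ.eigenvalues i) := by
  unfold trf
  rw [hρ.cfc_eq, Matrix.IsHermitian.cfc, Unitary.conjStarAlgAut_apply, Matrix.trace_mul_cycle,
    Unitary.coe_star_mul_self, Matrix.one_mul, Matrix.trace_diagonal]
  simp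

/-- the trace of a function through the roots of the characteristic polynomial -/
private theorem trf_roots {ρ : Matrix m m ℂ} (hρ : ρ.IsHermitian) (f : ℝ → ℝ) :
    trf f ρ = (ρ.charpoly.roots.map (fun z => f z.re)).sum := by
  rw [trf_eq hρ, hρ.roots_charpoly_eq_eigenvalues, Multiset.map_map]
  change ∑ i, f (hρ.eigenvalues i) =
    ∑ i, ((fun z : ℂ => f z.re) ∘ (RCLike.ofReal ∘ hρ.eigenvalues)) i
  exact Finset.sum_congr rfl fun i _ => by simp

theorem trf_comm (f : ℝ → ℝ) (hf : f 0 = 0) (N : Matrix m n ℂ) :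
    trf f (N * Nᴴ) = trf f (Nᴴ * N) := by
  rw [trf_roots (Matrix.isHermitian_mul_conjTranspose_self N),
    trf_roots (Matrix.isHermitian_conjTranspose_mul_self N)]
  have h := Matrix.charpoly_mul_comm' N Nᴴ
  have h1 : (Polynomial.X ^ Fintype.card n * (N * Nᴴ).charpoly) ≠ 0 :=
    mul_ne_zero (pow_ne_zero _ Polynomial.X_ne_zero) (Matrix.charpoly_monic _).ne_zero
  have h2 : (Polynomial.X ^ Fintype.card m * (Nᴴ * N).charpoly) ≠ 0 :=
    mul_ne_zero (pow_ne_zero _ Polynomial.X_ne_zero) (Matrix.charpoly_monic _).ne_zero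
  have h3 := congrArg (fun p : Polynomial ℂ => (p.roots.map (fun z => f z.re)).sum) h
  rw [Polynomial.roots_mul h1, Polynomial.roots_mul h2, Polynomial.roots_X_pow,
    Polynomial.roots_X_pow] at h3
  simpa [Multiset.map_nsmul, Multiset.sum_nsmul, hf] using h3

private theorem trf_congr {ρ : Matrix m m ℂ} {σ : Matrix n n ℂ} (hρ : ρ.IsHermitian)
    (hσ : σ.IsHermitian) (h : ρ.charpoly = σ.charpoly) (f : ℝ → ℝ) : trf f ρ = trf f σ := by
  rw [trf_roots hρ, trf_roots hσ, h]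

theorem trf_transpose {ρ : Matrix m m ℂ} (hρ : ρ.IsHermitian) (f : ℝ → ℝ) :
    trf f ρᵀ = trf f ρ :=
  trf_congr hρ.transpose hρ (Matrix.charpoly_transpose ρ) f

theorem trf_submatrix {ρ : Matrix m m ℂ} (hρ : ρ.IsHermitian) (f : ℝ → ℝ) (e : n ≃ m) :
    trf f (ρ.submatrix e e) = trf f ρ := by
  refine trf_congr (hρ.submatrix e) hρ ?_ f
  have := Matrix.charpoly_reindex e.symm ρ
  rwa [Matrix.reindex_apply, Equiv.symm_symm] at this

theorem trf_add {ρ : Matrix m m ℂ} (hρ : ρ.IsHermitian) (f : ℝ → ℝ) (ε : ℝ) :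
    trf f (ρ + (ε : ℂ) • 1) = ∑ i, f (hρ.eigenvalues i + ε) := by
  have hfin : (spectrum ℝ ρ).Finite := by
    rw [hρ.spectrum_real_eq_range_eigenvalues]
    exact Set.finite_range _
  have h1 : cfc (fun x : ℝ => x + ε) ρ = ρ + (ε : ℂ) • 1 := by
    rw [cfc_add_const ε (fun x => x) ρ (by fun_prop) hρ.isSelfAdjoint, cfc_id' ℝ ρ hρ.isSelfAdjoint]
    congr 1
    ext i j
    simp [Matrix.algebraMap_matrix_apply, Matrix.one_apply, Matrix.smul_apply]
  have h2 : cfc f (ρ + (ε : ℂ) • 1) = cfc (fun x => f (x + ε)) ρ := by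
    rw [← h1, ← cfc_comp' f (fun x : ℝ => x + ε) ρ
      ((hfin.image _).continuousOn f) (by fun_prop) hρ.isSelfAdjoint]
  have h3 : trf f (ρ + (ε : ℂ) • 1) = trf (fun x => f (x + ε)) ρ := by
    unfold trf
    rw [h2]
  rw [h3, trf_eq hρ]

theorem trf_negMulLog {ρ : Matrix m m ℂ} (hρ : ρ.PosDef) :
    trf Real.negMulLog ρ = -(Matrix.trace (ρ * lg ρ)).re := by
  have hfin : (spectrum ℝ ρ).Finite := by
    rw [hρ.1.spectrum_real_eq_range_eigenvalues]
    exact Set.finite_range _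
  have h1 : cfc Real.negMulLog ρ = -(ρ * lg ρ) := by
    have e1 : Real.negMulLog = fun x => -(x * Real.log x) := by
      funext x; simp [Real.negMulLog]
    rw [e1, cfc_neg (fun x : ℝ => x * Real.log x) ρ,
      cfc_mul (fun x : ℝ => x) Real.log ρ (by fun_prop) (hfin.continuousOn _),
      cfc_id' ℝ ρ hρ.1.isSelfAdjoint]
    rfl
  unfold trf
  rw [h1]
  simp

omit [DecidableEq n] in
theorem Ent_eq (N : Matrix m n ℂ) : Ent N = trf Real.negMulLog (N * Nᴴ) := by
  rw [trf_eq (Matrix.isHermitian_mul_conjTranspose_self N)]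
  rfl

theorem Ent_transpose (N : Matrix m n ℂ) : Ent Nᵀ = Ent N := by
  rw [Ent_eq, Ent_eq, trf_comm _ (by simp) N,
    ← trf_transpose (Matrix.isHermitian_conjTranspose_mul_self N)]
  congr 1
  rw [Matrix.transpose_mul]
  rfl

theorem Ent_submatrix {m' : Type w} {n' : Type*} [Fintype m'] [DecidableEq m'] [Fintype n']
    (N : Matrix m n ℂ) (e : m' ≃ m) (e' : n' ≃ n) : Ent (N.submatrix e e') = Ent N := by
  classical
  rw [Ent_eq, Ent_eq, ← trf_submatrix (Matrix.isHermitian_mul_conjTranspose_self N) _ e]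
  congr 1
  rw [Matrix.conjTranspose_submatrix, Matrix.submatrix_mul_equiv]

end Pool.Agent.AL
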