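import Pool.Agent.AL.Loc
import Pool.Agent.AL.TrC

/-!
# PIECE AL-Rank: vectors of small Schmidt rank

`weights`: let `P` be the orthogonal projection onto the column space of `N` (dimension `N.rank`), as
a hermitian idempotent matrix with `P N = N` and `Tr P = N.rank`, `u_i` the orthonormal eigenvectors of
`M Mᴴ` and `w_i = ⟨u_i, P u_i⟩ ∈ [0, 1]`, `∑ w_i = Tr P`. Then
`|Tr (Nᴴ M)|² = |Tr (Nᴴ P M)|² ≤ ‖N‖² ‖P M‖² = Tr (P M Mᴴ) = ∑ w_i λ_i` (Cauchy-Schwarz for the
Hilbert-Schmidt norm).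
`low_rank`: `M = mat A ψ`, eigenvalues `λ_i` (sum `1`), `I = {i | exp (-2 s) ≤ λ_i}`, so
`#I ≤ exp (2 s)`; `∑_{i ∉ I} λ_i ≤ (2 s)⁻¹ ∑ negMulLog λ_i ≤ 1/2`. `Γ` = spectral projection of `M Mᴴ` for
`I` (`cfc` of the indicator function, or `∑_{i ∈ I} u_i u_iᴴ`), `m = ∑_{i ∈ I} λ_i ≥ 1/2`, `φ` the vector
with `mat A φ = m^(-1/2) Γ M`. Its rank is `≤ rank Γ ≤ #I`, its norm is `1`, and
`ip φ ψ = m^(-1/2) Tr (Mᴴ Γ M) = m^(1/2)`.
-/

namespace Pool.Agent.AL

open scoped Matrix ComplexOrder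

section aux

variable {m n : Type*} [Fintype m] [DecidableEq m] [Fintype n]

omit [DecidableEq m] in
/-- the square of the Hilbert-Schmidt norm as a trace -/
private theorem hs_trace (X : Matrix m n ℂ) :
    Matrix.trace (X * Xᴴ) = ((∑ i, ∑ j, ‖X i j‖ ^ 2 : ℝ) : ℂ) := by
  simp only [Matrix.trace, Matrix.diag_apply, Matrix.mul_apply, Matrix.conjTranspose_apply]
  push_cast
  refine Finset.sum_congr rfl fun i _ => Finset.sum_congr rfl fun j _ => ?_
  rw [← Complex.mul_conj']
  rfl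

omit [DecidableEq m] in
/-- Cauchy-Schwarz for the Hilbert-Schmidt norm -/
private theorem hs_cs (X Y : Matrix m n ℂ) :
    ‖Matrix.trace (Xᴴ * Y)‖ ^ 2 ≤ (∑ i, ∑ j, ‖X i j‖ ^ 2) * ∑ i, ∑ j, ‖Y i j‖ ^ 2 := by
  have h1 : ‖Matrix.trace (Xᴴ * Y)‖ ≤ ∑ p : m × n, ‖X p.1 p.2‖ * ‖Y p.1 p.2‖ := by
    have h2 : Matrix.trace (Xᴴ * Y) = ∑ p : m × n, star (X p.1 p.2) * Y p.1 p.2 := by
      simp only [Matrix.trace, Matrix.diag_apply, Matrix.mul_apply, Matrix.conjTranspose_apply]
      rw [Finset.sum_comm, Fintype.sum_prod_type]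
    rw [h2]
    refine (norm_sum_le _ _).trans (le_of_eq ?_)
    refine Finset.sum_congr rfl fun p _ => ?_
    rw [norm_mul, norm_star]
  have h3 := Finset.sum_mul_sq_le_sq_mul_sq Finset.univ
    (fun p : m × n => ‖X p.1 p.2‖) (fun p : m × n => ‖Y p.1 p.2‖)
  have h4 : ∀ Z : Matrix m n ℂ, ∑ p : m × n, ‖Z p.1 p.2‖ ^ 2 = ∑ i, ∑ j, ‖Z i j‖ ^ 2 := by
    intro Z
    rw [Fintype.sum_prod_type]
  rw [h4, h4] at h3
  refine le_trans ?_ h3
  exact pow_le_pow_left₀ (norm_nonneg _) h1 2

/-- the spectral decomposition -/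
private theorem spec {R : Matrix m m ℂ} (hR : R.IsHermitian) :
    ∃ U : Matrix m m ℂ, U * Uᴴ = 1 ∧ Uᴴ * U = 1 ∧
      R = U * Matrix.diagonal (fun i => (hR.eigenvalues i : ℂ)) * Uᴴ := by
  refine ⟨hR.eigenvectorUnitary, ?_, ?_, ?_⟩
  · exact (Matrix.mem_unitaryGroup_iff).1 hR.eigenvectorUnitary.2
  · exact (Matrix.mem_unitaryGroup_iff').1 hR.eigenvectorUnitary.2
  · conv_lhs => rw [hR.spectral_theorem, Unitary.conjStarAlgAut_apply]
    rfl

end aux

theorem weights {m n : Type*} [Fintype m] [DecidableEq m] [Fintype n] [DecidableEq n]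
    (N M : Matrix m n ℂ) (hN : ∑ i, ∑ j, ‖N i j‖ ^ 2 = 1) :
    ∃ w : m → ℝ, (∀ i, 0 ≤ w i ∧ w i ≤ 1) ∧ ∑ i, w i ≤ N.rank ∧
      ‖Matrix.trace (Nᴴ * M)‖ ^ 2 ≤
        ∑ i, w i * (Matrix.isHermitian_mul_conjTranspose_self M).eigenvalues i := by
  classical
  set lam := (Matrix.isHermitian_mul_conjTranspose_self M).eigenvalues with hlam
  obtain ⟨U, hU1, hU2, hU3⟩ := spec (Matrix.isHermitian_mul_conjTranspose_self M)
  rw [← hlam] at hU3
  -- the rotated matrices
  set N' := Uᴴ * N with hN'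
  set M' := Uᴴ * M with hM'
  have hMM : M' * M'ᴴ = Matrix.diagonal (fun i => (lam i : ℂ)) := by
    rw [hM', Matrix.conjTranspose_mul, Matrix.conjTranspose_conjTranspose,
      Matrix.mul_assoc, ← Matrix.mul_assoc M, hU3]
    rw [← Matrix.mul_assoc, ← Matrix.mul_assoc, ← Matrix.mul_assoc, hU2, Matrix.one_mul,
      Matrix.mul_assoc, hU2, Matrix.mul_one]
  have htr : Matrix.trace (N'ᴴ * M') = Matrix.trace (Nᴴ * M) := by
    rw [hM', hN', Matrix.conjTranspose_mul, Matrix.conjTranspose_conjTranspose,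
      Matrix.mul_assoc, ← Matrix.mul_assoc U, hU1, Matrix.one_mul]
  have hrk : N'.rank ≤ N.rank := Matrix.rank_mul_le_right _ _
  have hN1 : ∑ i, ∑ j, ‖N' i j‖ ^ 2 = 1 := by
    have h1 : Matrix.trace (N' * N'ᴴ) = Matrix.trace (N * Nᴴ) := by
      rw [hN', Matrix.conjTranspose_mul, Matrix.conjTranspose_conjTranspose,
        Matrix.mul_assoc, ← Matrix.mul_assoc N, Matrix.trace_mul_comm, Matrix.mul_assoc, hU1,
        Matrix.mul_one]
    rw [hs_trace, hs_trace, hN] at h1
    exact_mod_cast h1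
  -- the projection
  obtain ⟨V, hV1, hV2, hV3⟩ := spec (Matrix.isHermitian_mul_conjTranspose_self N')
  set mu := (Matrix.isHermitian_mul_conjTranspose_self N').eigenvalues with hmu
  set e : m → ℂ := fun i => if mu i = 0 then 0 else 1 with he
  have hee : ∀ i, e i * e i = e i := by
    intro i
    simp only [he]
    split_ifs <;> simp
  have hestar : ∀ i, star (e i) = e i := by
    intro i
    simp only [he]
    split_ifs <;> simp
  set Q := V * Matrix.diagonal e * Vᴴ with hQ
  have hQH : Qᴴ = Q := by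
    rw [hQ, Matrix.conjTranspose_mul, Matrix.conjTranspose_mul, Matrix.conjTranspose_conjTranspose,
      Matrix.diagonal_conjTranspose, ← Matrix.mul_assoc]
    congr 3
    funext i
    exact hestar i
  have hQQ : Q * Q = Q := by
    have h1 : Q * Q = V * (Matrix.diagonal e * (Vᴴ * V) * Matrix.diagonal e) * Vᴴ := by
      rw [hQ]
      simp only [Matrix.mul_assoc]
    rw [h1, hV2, Matrix.mul_one, Matrix.diagonal_mul_diagonal, hQ]
    congr 3
    funext i
    exact hee i
  have hQN : Q * N' = N' := by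
    have h1 : Q * (N' * N'ᴴ) = N' * N'ᴴ := by
      rw [hV3, hQ]
      have h2 : V * Matrix.diagonal e * Vᴴ * (V * Matrix.diagonal (fun i => (mu i : ℂ)) * Vᴴ) =
          V * (Matrix.diagonal e * (Vᴴ * V) * Matrix.diagonal (fun i => (mu i : ℂ))) * Vᴴ := by
        simp only [Matrix.mul_assoc]
      rw [h2, hV2, Matrix.mul_one, Matrix.diagonal_mul_diagonal]
      congr 3
      funext i
      simp only [he]
      split_ifs with h <;> simp [h]
    have h2 : (Q * N' - N') * (Q * N' - N')ᴴ = 0 := by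
      rw [Matrix.conjTranspose_sub, Matrix.conjTranspose_mul, hQH, Matrix.sub_mul, Matrix.mul_sub,
        Matrix.mul_sub]
      have a1 : Q * N' * (N'ᴴ * Q) = N' * N'ᴴ * Q := by
        rw [← Matrix.mul_assoc, Matrix.mul_assoc Q, h1]
      have a2 : Q * N' * N'ᴴ = N' * N'ᴴ := by
        rw [Matrix.mul_assoc, h1]
      have a3 : N' * (N'ᴴ * Q) = N' * N'ᴴ * Q := (Matrix.mul_assoc N' N'ᴴ Q).symm
      have a4 : N' * N'ᴴ * Q = N' * N'ᴴ := by
        have := congrArg Matrix.conjTranspose h1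
        rw [Matrix.conjTranspose_mul, hQH, Matrix.conjTranspose_mul,
          Matrix.conjTranspose_conjTranspose] at this
        exact this
      rw [a1, a2, a3, a4]
      simp
    have h3 := (Matrix.self_mul_conjTranspose_eq_zero).1 h2
    exact sub_eq_zero.1 h3
  -- the weights
  have hQd : ∀ i, Q i i = ((∑ k, (if mu k = 0 then 0 else 1) * ‖V i k‖ ^ 2 : ℝ) : ℂ) := by
    intro i
    rw [hQ, Matrix.mul_apply]
    push_cast
    refine Finset.sum_congr rfl fun k _ => ?_
    rw [Matrix.mul_diagonal, Matrix.conjTranspose_apply]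
    have h1 : V i k * star (V i k) = ((‖V i k‖ : ℂ)) ^ 2 := by
      rw [← Complex.mul_conj']
      rfl
    rw [mul_right_comm, h1, mul_comm]
    congr 1
    simp only [he]
    split_ifs <;> simp
  have hVrow : ∀ i, ∑ k, ‖V i k‖ ^ 2 = 1 := by
    intro i
    have h1 := congrFun (congrFun hV1 i) i
    rw [Matrix.mul_apply, Matrix.one_apply_eq] at h1
    have h2 : ((∑ k, ‖V i k‖ ^ 2 : ℝ) : ℂ) = 1 := by
      rw [← h1]
      push_cast
      refine Finset.sum_congr rfl fun k _ => ?_
      rw [Matrix.conjTranspose_apply, ← Complex.mul_conj']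
      rfl
    exact_mod_cast h2
  have hVcol : ∀ k, ∑ i, ‖V i k‖ ^ 2 = 1 := by
    intro k
    have h1 := congrFun (congrFun hV2 k) k
    rw [Matrix.mul_apply, Matrix.one_apply_eq] at h1
    have h2 : ((∑ i, ‖V i k‖ ^ 2 : ℝ) : ℂ) = 1 := by
      rw [← h1]
      push_cast
      refine Finset.sum_congr rfl fun i _ => ?_
      rw [Matrix.conjTranspose_apply, ← Complex.conj_mul']
      rfl
    exact_mod_cast h2
  refine ⟨fun i => ∑ k, (if mu k = 0 then 0 else 1) * ‖V i k‖ ^ 2, ?_, ?_, ?_⟩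
  · intro i
    constructor
    · refine Finset.sum_nonneg fun k _ => ?_
      split_ifs <;> positivity
    · refine le_trans (Finset.sum_le_sum fun k _ => ?_) (hVrow i).le
      split_ifs
      · rw [zero_mul]
        positivity
      · exact (one_mul _).le
  · rw [Finset.sum_comm]
    have h1 : ∀ k, ∑ i, (if mu k = 0 then (0 : ℝ) else 1) * ‖V i k‖ ^ 2 =
        if mu k = 0 then 0 else 1 := by
      intro k
      rw [← Finset.mul_sum, hVcol, mul_one]
    rw [Finset.sum_congr rfl fun k _ => h1 k]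
    have h2 : ∑ k, (if mu k = 0 then (0 : ℝ) else 1) = (N' * N'ᴴ).rank := by
      rw [(Matrix.isHermitian_mul_conjTranspose_self N').rank_eq_card_non_zero_eigs,
        Fintype.card_subtype, ← hmu, Finset.card_filter]
      push_cast
      refine Finset.sum_congr rfl fun k _ => ?_
      by_cases h : mu k = 0 <;> simp [h]
    rw [h2, Matrix.rank_self_mul_conjTranspose]
    exact_mod_cast hrk
  · rw [← htr]
    have h1 : Matrix.trace (N'ᴴ * M') = Matrix.trace (N'ᴴ * (Q * M')) := by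
      have : N'ᴴ * Q = N'ᴴ := by
        have := congrArg Matrix.conjTranspose hQN
        rw [Matrix.conjTranspose_mul, hQH] at this
        exact this
      rw [← Matrix.mul_assoc N'ᴴ Q M', this]
    rw [h1]
    refine (hs_cs _ _).trans (le_of_eq ?_)
    rw [hN1, one_mul]
    have h2 := hs_trace (Q * M')
    rw [Matrix.conjTranspose_mul, hQH, Matrix.mul_assoc, ← Matrix.mul_assoc M', hMM,
      Matrix.trace_mul_comm, Matrix.mul_assoc, hQQ] at h2
    have h3 : Matrix.trace (Matrix.diagonal (fun i => (lam i : ℂ)) * Q) =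
        ((∑ i, (∑ k, (if mu k = 0 then 0 else 1) * ‖V i k‖ ^ 2) * lam i : ℝ) : ℂ) := by
      rw [Matrix.trace]
      simp only [Matrix.diag_apply, Matrix.diagonal_mul]
      rw [Complex.ofReal_sum]
      refine Finset.sum_congr rfl fun i _ => ?_
      rw [hQd i, Complex.ofReal_mul, mul_comm]
    rw [h3] at h2
    exact_mod_cast h2.symm

theorem low_rank {V : Type} [Fintype V] [DecidableEq V] {d : ℕ} (A : Finset V)
    {ψ : (V → Fin d) → ℂ} (hU : Unitv ψ) {s : ℝ} (hs : 0 < s) (h : ent A ψ ≤ s) :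
    ∃ φ : (V → Fin d) → ℂ, Unitv φ ∧ ((mat A φ).rank : ℝ) ≤ Real.exp (2 * s) ∧
      1 / 2 ≤ ‖ip φ ψ‖ := by
  classical
  set M := mat A ψ with hM
  have hR : (M * Mᴴ).IsHermitian := rdm_isHermitian A ψ
  have hent : ent A ψ = ∑ i, Real.negMulLog (hR.eigenvalues i) := rfl
  set lam := hR.eigenvalues with hlam
  obtain ⟨U, hU1, hU2, hU3⟩ := spec hR
  rw [← hlam] at hU3
  have hlam0 : ∀ i, 0 ≤ lam i := by
    intro i
    exact (Matrix.posSemidef_self_mul_conjTranspose M).eigenvalues_nonneg i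
  have hsum : ∑ i, lam i = 1 := by
    have h1 := hs_trace M
    have h2 : ∑ i, ∑ j, ‖M i j‖ ^ 2 = 1 := by
      rw [hM, ← sum_mat]
      exact hU
    rw [h2, hU3, Matrix.trace_mul_comm, ← Matrix.mul_assoc, hU2, Matrix.one_mul,
      Matrix.trace_diagonal] at h1
    exact_mod_cast h1
  have hlam1 : ∀ i, lam i ≤ 1 := by
    intro i
    rw [← hsum]
    exact Finset.single_le_sum (fun j _ => hlam0 j) (Finset.mem_univ i)
  set I := Finset.univ.filter fun i => Real.exp (-(2 * s)) ≤ lam i with hI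
  have hcard : (I.card : ℝ) ≤ Real.exp (2 * s) := by
    have h1 : (I.card : ℝ) * Real.exp (-(2 * s)) ≤ 1 := by
      rw [← hsum, ← nsmul_eq_mul]
      calc I.card • Real.exp (-(2 * s)) ≤ ∑ i ∈ I, lam i :=
            Finset.card_nsmul_le_sum _ _ _ fun i hi => (Finset.mem_filter.1 hi).2
        _ ≤ ∑ i, lam i := Finset.sum_le_univ_sum_of_nonneg hlam0
    rw [Real.exp_neg] at h1
    have h2 := Real.exp_pos (2 * s)
    rwa [← div_eq_mul_inv, div_le_one h2] at h1
  have hout : ∑ i ∈ Finset.univ.filter (fun i => ¬ Real.exp (-(2 * s)) ≤ lam i), lam i ≤ 1 / 2 := by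
    have h1 : ∀ i ∈ Finset.univ.filter (fun i => ¬ Real.exp (-(2 * s)) ≤ lam i),
        2 * s * lam i ≤ Real.negMulLog (lam i) := by
      intro i hi
      have hi' := not_le.1 (Finset.mem_filter.1 hi).2
      rcases (hlam0 i).eq_or_lt with h0 | h0
      · rw [← h0]
        simp
      · have h2 : Real.log (lam i) < -(2 * s) := by
          rw [← Real.log_exp (-(2 * s))]
          exact Real.log_lt_log h0 hi'
        rw [Real.negMulLog]
        nlinarith
    have h2 : 2 * s * ∑ i ∈ Finset.univ.filter (fun i => ¬ Real.exp (-(2 * s)) ≤ lam i), lam i ≤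
        s := by
      rw [Finset.mul_sum]
      refine (Finset.sum_le_sum h1).trans ?_
      refine le_trans ?_ (hent ▸ h)
      exact Finset.sum_le_univ_sum_of_nonneg fun i => Real.negMulLog_nonneg (hlam0 i) (hlam1 i)
    by_contra hcon
    have hcon' := not_le.1 hcon
    have h3 := mul_lt_mul_of_pos_left hcon' hs
    linarith
  set mm : ℝ := ∑ i ∈ I, lam i with hmm
  have hmsum : mm + ∑ i ∈ Finset.univ.filter (fun i => ¬ Real.exp (-(2 * s)) ≤ lam i), lam i =
      1 := by
    rw [hmm, hI, Finset.sum_filter_add_sum_filter_not, hsum]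
  have hm2 : 1 / 2 ≤ mm := by linarith
  have hm0 : 0 < mm := by linarith
  -- the spectral projection
  set e : ({v // v ∈ A} → Fin d) → ℂ := fun i => if i ∈ I then 1 else 0 with he
  have hee : ∀ i, e i * e i = e i := by
    intro i
    simp only [he]
    split_ifs <;> simp
  have hestar : ∀ i, star (e i) = e i := by
    intro i
    simp only [he]
    split_ifs <;> simp
  set Q := U * Matrix.diagonal e * Uᴴ with hQ
  have hQH : Qᴴ = Q := by
    rw [hQ, Matrix.conjTranspose_mul, Matrix.conjTranspose_mul, Matrix.conjTranspose_conjTranspose,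
      Matrix.diagonal_conjTranspose, ← Matrix.mul_assoc]
    congr 3
    funext i
    exact hestar i
  have hQQ : Q * Q = Q := by
    have h1 : Q * Q = U * (Matrix.diagonal e * (Uᴴ * U) * Matrix.diagonal e) * Uᴴ := by
      rw [hQ]
      simp only [Matrix.mul_assoc]
    rw [h1, hU2, Matrix.mul_one, Matrix.diagonal_mul_diagonal, hQ]
    congr 3
    funext i
    exact hee i
  have htrQ : Matrix.trace (M * Mᴴ * Q) = (mm : ℂ) := by
    rw [hU3, hQ]
    have h1 : U * Matrix.diagonal (fun i => (lam i : ℂ)) * Uᴴ * (U * Matrix.diagonal e * Uᴴ) =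
        U * (Matrix.diagonal (fun i => (lam i : ℂ)) * (Uᴴ * U) * Matrix.diagonal e) * Uᴴ := by
      simp only [Matrix.mul_assoc]
    rw [h1, hU2, Matrix.mul_one, Matrix.diagonal_mul_diagonal, Matrix.trace_mul_comm,
      ← Matrix.mul_assoc, hU2, Matrix.one_mul, Matrix.trace_diagonal, hmm]
    push_cast
    rw [← Finset.sum_filter_add_sum_filter_not Finset.univ (fun i => i ∈ I)]
    have h2 : ∑ i ∈ Finset.univ.filter (fun i => ¬ i ∈ I), (lam i : ℂ) * e i = 0 := by
      refine Finset.sum_eq_zero fun i hi => ?_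
      have := (Finset.mem_filter.1 hi).2
      simp [he, this]
    rw [h2, add_zero, Finset.filter_mem_eq_inter, Finset.univ_inter]
    refine Finset.sum_congr rfl fun i hi => ?_
    simp [he, hi]
  set r : ℝ := (Real.sqrt mm)⁻¹ with hr
  have hsq : Real.sqrt mm * Real.sqrt mm = mm := Real.mul_self_sqrt hm0.le
  have hsq0 : 0 < Real.sqrt mm := Real.sqrt_pos.2 hm0
  have hrr : r * r * mm = 1 := by
    rw [hr]
    field_simp
    nlinarith
  set W := (r : ℂ) • (Q * M) with hW
  set φ : (V → Fin d) → ℂ := fun σ => W (resA A σ) (resC A σ) with hφ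
  have hmatφ : mat A φ = W := by
    ext a b
    simp only [mat, Matrix.of_apply, hφ]
    congr 1
    · funext v
      simp [resA, glue, v.2]
    · funext v
      simp [resC, glue, v.2]
  have hWn : ∑ i, ∑ j, ‖W i j‖ ^ 2 = 1 := by
    have h1 := hs_trace W
    have h2 : Matrix.trace (W * Wᴴ) = 1 := by
      rw [hW, Matrix.conjTranspose_smul, Matrix.smul_mul, Matrix.mul_smul, smul_smul,
        Matrix.trace_smul, Matrix.conjTranspose_mul, hQH, Matrix.mul_assoc,
        ← Matrix.mul_assoc M, Matrix.trace_mul_comm, Matrix.mul_assoc, hQQ, htrQ]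
      have h3 : star (r : ℂ) = (r : ℂ) := Complex.conj_ofReal r
      rw [h3, smul_eq_mul, ← Complex.ofReal_mul, ← Complex.ofReal_mul, hrr, Complex.ofReal_one]
    rw [h2] at h1
    exact_mod_cast h1.symm
  refine ⟨φ, ?_, ?_, ?_⟩
  · unfold Unitv
    rw [sum_mat A, hmatφ]
    exact hWn
  · rw [hmatφ]
    refine le_trans ?_ hcard
    have h1 : W.rank ≤ I.card := by
      have h2 : W = (((r : ℂ) • U) * Matrix.diagonal e) * (Uᴴ * M) := by
        rw [hW, hQ, Matrix.smul_mul, Matrix.smul_mul]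
        simp only [Matrix.mul_assoc]
      rw [h2]
      refine (Matrix.rank_mul_le_left _ _).trans ((Matrix.rank_mul_le_right _ _).trans ?_)
      rw [Matrix.rank_diagonal, Fintype.card_subtype]
      refine Finset.card_le_card ?_
      intro i hi
      have h3 := (Finset.mem_filter.1 hi).2
      by_contra h4
      exact h3 (by simp [he, h4])
    exact_mod_cast h1
  · rw [ip_mat A, hmatφ, ← hM]
    have h1 : Matrix.trace (Wᴴ * M) = ((r * mm : ℝ) : ℂ) := by
      rw [hW, Matrix.conjTranspose_smul, Matrix.smul_mul, Matrix.trace_smul,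
        Matrix.conjTranspose_mul, hQH, Matrix.mul_assoc, Matrix.trace_mul_comm, Matrix.mul_assoc,
        Matrix.trace_mul_comm, htrQ]
      have h3 : star (r : ℂ) = (r : ℂ) := Complex.conj_ofReal r
      rw [h3, smul_eq_mul, ← Complex.ofReal_mul]
    rw [h1, Complex.norm_real]
    have h2 : r * mm = Real.sqrt mm := by
      rw [hr]
      field_simp
      nlinarith
    rw [h2, Real.norm_of_nonneg hsq0.le]
    have h3 : (1 / 2 : ℝ) ≤ Real.sqrt (1 / 4) := by
      rw [show (1 / 4 : ℝ) = (1 / 2) ^ 2 by norm_num, Real.sqrt_sq (by norm_num)]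
    refine h3.trans (Real.sqrt_le_sqrt (by linarith))

end Pool.Agent.AL
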