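import Pool.Agent.AL.TorPF
import Pool.Agent.AL.Holes

/-!
# PIECE AL-TorMain: the shape theorem on the torus

For `A` in the torus let `K = lift A ⊆ Box L` (the points `(v.1.val, v.2.val)`, `v ∈ A`), so
`K.image (red L) = A`. (a) `per K ≤ bdry A + 4 L`: `bdry A` is the number of the `v ∈ A` with
`v + (1,0) ∉ A` plus the number of the `v ∈ A` with `v - (1,0) ∉ A`, plus the same for `(0,1)`; for
`v = (x, y) ∈ A` the point `(v.val + 1)` is outside `K` only if `v + (1,0) ∉ A` or `x.val = L - 1`, etc.
(b) If `(0, y), (x, 0) ∉ A` for all `x, y` then `per K ≤ bdry A`.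
Case `L ≤ bdry A`: `f A ≤ 3 (c) per K ≤ 3 c (bdry A + 4 L) ≤ 15 c bdry A` by `holes`.
Case `bdry A < L`: some column `x₀` is contained in `A` or disjoint from `A` (otherwise every column
contains a `y` with `¬ ((x, y) ∈ A ↔ (x, y + 1) ∈ A)`: the set of the `y` with `(x, y) ∈ A` is not
closed under `+ 1`; this gives `L` boundary edges). Similarly some row `y₀`. Both contain `(x₀, y₀)`. If
both are disjoint from `A`: translate `A` by `-(x₀, y₀)` (`ti`, `bdry` is invariant) and use (b). If both
are contained in `A` pass to `Aᶜ` (`compl`, `bdry Aᶜ = bdry A`).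
`shape`: `L = 1`: `A = ∅` or `A = univ = ∅ᶜ`, so `f A = 0`. `L ≥ 2`: `dyad`, `toPF_F`, `torus_main`.
-/

namespace Pool.Agent.AL

variable {L : ℕ} [NeZero L]

/-- representatives in the box -/
private def torM_io (v : Tor L) : Pt := ((v.1.val : ℤ), (v.2.val : ℤ))

private theorem torM_io_box (v : Tor L) : torM_io v ∈ Box L := by
  rw [mem_Box]
  have h1 := ZMod.val_lt v.1
  have h2 := ZMod.val_lt v.2
  change (0 ≤ (v.1.val : ℤ) ∧ (v.1.val : ℤ) < L) ∧ 0 ≤ (v.2.val : ℤ) ∧ (v.2.val : ℤ) < L
  omega

private theorem torM_red_io (v : Tor L) : red L (torM_io v) = v := by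
  unfold red torM_io
  ext <;> simp

private theorem torM_io_red {p : Pt} (hp : p ∈ Box L) : torM_io (red L p) = p := by
  rw [mem_Box] at hp
  obtain ⟨⟨h1, h2⟩, h3, h4⟩ := hp
  unfold red torM_io
  ext
  · change (((p.1 : ZMod L).val : ℕ) : ℤ) = p.1
    rw [ZMod.val_intCast, Int.emod_eq_of_lt h1 h2]
  · change (((p.2 : ZMod L).val : ℕ) : ℤ) = p.2
    rw [ZMod.val_intCast, Int.emod_eq_of_lt h3 h4]

omit [NeZero L] in
private theorem torM_red_add (p v : Pt) : red L (p + v) = red L p + red L v := by
  unfold red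
  ext <;> simp

/-- number of the `v ∈ A` with `v + u ∉ A` -/
private def torM_bt (u : Tor L) (A : Finset (Tor L)) : ℕ := (A.filter fun v => v + u ∉ A).card

private theorem torM_dir (u : Tor L) (A : Finset (Tor L)) :
    (Finset.univ.filter fun v : Tor L => ¬ (v ∈ A ↔ v + u ∈ A)).card =
      torM_bt u A + torM_bt (-u) A := by
  classical
  have h1 : (Finset.univ.filter fun v : Tor L => ¬ (v ∈ A ↔ v + u ∈ A)) =
      (A.filter fun v => v + u ∉ A) ∪
        (Finset.univ.filter fun v : Tor L => v ∉ A ∧ v + u ∈ A) := by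
    ext v
    simp only [Finset.mem_filter, Finset.mem_univ, true_and, Finset.mem_union]
    tauto
  rw [h1, Finset.card_union_of_disjoint]
  · congr 1
    unfold torM_bt
    apply Finset.card_bij (fun v _ => v + u)
    · intro v hv
      simp only [Finset.mem_filter, Finset.mem_univ, true_and] at hv ⊢
      refine ⟨hv.2, ?_⟩
      rw [add_neg_cancel_right]
      exact hv.1
    · intro v _ w _ h
      exact add_right_cancel h
    · intro v hv
      simp only [Finset.mem_filter, Finset.mem_univ, true_and] at hv ⊢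
      refine ⟨v + -u, ⟨hv.2, ?_⟩, ?_⟩
      · rw [neg_add_cancel_right]
        exact hv.1
      · rw [neg_add_cancel_right]
  · rw [Finset.disjoint_left]
    intro v hv hv'
    simp only [Finset.mem_filter, Finset.mem_univ, true_and] at hv hv'
    exact hv'.1 hv.1

private theorem torM_bdry (A : Finset (Tor L)) :
    bdry A = torM_bt (1, 0) A + torM_bt (-(1, 0)) A + (torM_bt (0, 1) A + torM_bt (-(0, 1)) A) := by
  unfold bdry
  rw [torM_dir, torM_dir]

private theorem torM_bd (A : Finset (Tor L)) (u : Pt) :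
    bd u (A.image torM_io) (A.image torM_io) ≤ torM_bt (red L u) A +
      (A.filter fun v => torM_io v + u ∉ Box L ∧ v + red L u ∈ A).card := by
  classical
  unfold bd torM_bt
  have h1 : ((A.image torM_io).filter fun p => p + u ∉ A.image torM_io) ⊆
      ((A.filter fun v => v + red L u ∉ A) ∪
        (A.filter fun v => torM_io v + u ∉ Box L ∧ v + red L u ∈ A)).image torM_io := by
    intro p hp
    rw [Finset.mem_filter, Finset.mem_image] at hp
    obtain ⟨⟨v, hv, rfl⟩, h⟩ := hp
    refine Finset.mem_image_of_mem _ ?_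
    rw [Finset.mem_union, Finset.mem_filter, Finset.mem_filter]
    by_cases h2 : v + red L u ∈ A
    · right
      refine ⟨hv, fun h3 => h ?_, h2⟩
      have h4 := torM_io_red h3
      rw [torM_red_add, torM_red_io] at h4
      rw [← h4]
      exact Finset.mem_image_of_mem _ h2
    · exact Or.inl ⟨hv, h2⟩
  exact (Finset.card_le_card h1).trans (Finset.card_image_le.trans (Finset.card_union_le _ _))

omit [NeZero L] in
private theorem torM_red10 : red L (1, 0) = ((1, 0) : Tor L) := by
  unfold red; ext <;> simp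

omit [NeZero L] in
private theorem torM_redm10 : red L (-1, 0) = (-(1, 0) : Tor L) := by
  unfold red; ext <;> simp

omit [NeZero L] in
private theorem torM_red01 : red L (0, 1) = ((0, 1) : Tor L) := by
  unfold red; ext <;> simp

omit [NeZero L] in
private theorem torM_redm01 : red L (0, -1) = (-(0, 1) : Tor L) := by
  unfold red; ext <;> simp

private theorem torM_per_le (A : Finset (Tor L)) {M : ℕ}
    (h : ∀ u : Pt, u = (1, 0) ∨ u = (-1, 0) ∨ u = (0, 1) ∨ u = (0, -1) →
      (A.filter fun v => torM_io v + u ∉ Box L ∧ v + red L u ∈ A).card ≤ M) :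
    per (A.image torM_io) ≤ bdry A + 4 * M := by
  unfold per BB
  rw [torM_bdry]
  have h1 := torM_bd A (1, 0)
  have h2 := torM_bd A (-1, 0)
  have h3 := torM_bd A (0, 1)
  have h4 := torM_bd A (0, -1)
  have k1 := h (1, 0) (Or.inl rfl)
  have k2 := h (-1, 0) (Or.inr (Or.inl rfl))
  have k3 := h (0, 1) (Or.inr (Or.inr (Or.inl rfl)))
  have k4 := h (0, -1) (Or.inr (Or.inr (Or.inr rfl)))
  rw [torM_red10] at h1 k1
  rw [torM_redm10] at h2 k2
  rw [torM_red01] at h3 k3
  rw [torM_redm01] at h4 k4
  omega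

private theorem torM_card1 (S : Finset (Tor L)) (a : ZMod L) (h : ∀ v ∈ S, v.1 = a) :
    S.card ≤ L := by
  classical
  have h1 : (S.image Prod.snd).card = S.card := by
    apply Finset.card_image_of_injOn
    intro v hv w hw hvw
    exact Prod.ext ((h v hv).trans (h w hw).symm) hvw
  rw [← h1]
  refine (Finset.card_le_univ _).trans ?_
  rw [ZMod.card]

private theorem torM_card2 (S : Finset (Tor L)) (a : ZMod L) (h : ∀ v ∈ S, v.2 = a) :
    S.card ≤ L := by
  classical
  have h1 : (S.image Prod.fst).card = S.card := by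
    apply Finset.card_image_of_injOn
    intro v hv w hw hvw
    exact Prod.ext hvw ((h v hv).trans (h w hw).symm)
  rw [← h1]
  refine (Finset.card_le_univ _).trans ?_
  rw [ZMod.card]

/-- the points leaving the box -/
private theorem torM_out (v : Tor L) {u : Pt}
    (hu : u = (1, 0) ∨ u = (-1, 0) ∨ u = (0, 1) ∨ u = (0, -1)) (h : torM_io v + u ∉ Box L) :
    (u = (1, 0) ∧ v.1 + 1 = 0) ∨ (u = (-1, 0) ∧ v.1 = 0) ∨ (u = (0, 1) ∧ v.2 + 1 = 0) ∨
      (u = (0, -1) ∧ v.2 = 0) := by
  have hb := torM_io_box v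
  rw [mem_Box] at hb h
  have e1 : (torM_io v).1 = (v.1.val : ℤ) := rfl
  have e2 : (torM_io v).2 = (v.2.val : ℤ) := rfl
  rw [e1, e2] at hb
  have key : ∀ a : ZMod L, ¬ ((a.val : ℤ) + 1 < L) → a + 1 = 0 := by
    intro a ha
    have h1 := ZMod.val_lt a
    have h2 : a.val + 1 = L := by omega
    have h3 : ((a.val + 1 : ℕ) : ZMod L) = 0 := by rw [h2]; exact ZMod.natCast_self L
    push_cast at h3
    rw [ZMod.natCast_zmod_val] at h3
    exact h3
  have key2 : ∀ a : ZMod L, ¬ (0 ≤ (a.val : ℤ) + -1) → a = 0 := by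
    intro a ha
    have h2 : a.val = 0 := by omega
    exact (ZMod.val_eq_zero a).1 h2
  rcases hu with rfl | rfl | rfl | rfl
  · left
    refine ⟨rfl, key _ fun h' => h ?_⟩
    change (0 ≤ (v.1.val : ℤ) + 1 ∧ (v.1.val : ℤ) + 1 < L) ∧
      0 ≤ (v.2.val : ℤ) + 0 ∧ (v.2.val : ℤ) + 0 < L
    omega
  · right; left
    refine ⟨rfl, key2 _ fun h' => h ?_⟩
    change (0 ≤ (v.1.val : ℤ) + -1 ∧ (v.1.val : ℤ) + -1 < L) ∧
      0 ≤ (v.2.val : ℤ) + 0 ∧ (v.2.val : ℤ) + 0 < L
    omega
  · right; right; left
    refine ⟨rfl, key _ fun h' => h ?_⟩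
    change (0 ≤ (v.1.val : ℤ) + 0 ∧ (v.1.val : ℤ) + 0 < L) ∧
      0 ≤ (v.2.val : ℤ) + 1 ∧ (v.2.val : ℤ) + 1 < L
    omega
  · right; right; right
    refine ⟨rfl, key2 _ fun h' => h ?_⟩
    change (0 ≤ (v.1.val : ℤ) + 0 ∧ (v.1.val : ℤ) + 0 < L) ∧
      0 ≤ (v.2.val : ℤ) + -1 ∧ (v.2.val : ℤ) + -1 < L
    omega

private theorem torM_per_a (A : Finset (Tor L)) : per (A.image torM_io) ≤ bdry A + 4 * L := by
  apply torM_per_le
  intro u hu
  rcases hu with rfl | rfl | rfl | rfl
  · apply torM_card1 _ (-1)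
    intro v hv
    rw [Finset.mem_filter] at hv
    rcases torM_out v (Or.inl rfl) hv.2.1 with h | h | h | h
    · exact eq_neg_of_add_eq_zero_left h.2
    · exact absurd h.1 (by decide)
    · exact absurd h.1 (by decide)
    · exact absurd h.1 (by decide)
  · apply torM_card1 _ 0
    intro v hv
    rw [Finset.mem_filter] at hv
    rcases torM_out v (Or.inr (Or.inl rfl)) hv.2.1 with h | h | h | h
    · exact absurd h.1 (by decide)
    · exact h.2
    · exact absurd h.1 (by decide)
    · exact absurd h.1 (by decide)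
  · apply torM_card2 _ (-1)
    intro v hv
    rw [Finset.mem_filter] at hv
    rcases torM_out v (Or.inr (Or.inr (Or.inl rfl))) hv.2.1 with h | h | h | h
    · exact absurd h.1 (by decide)
    · exact absurd h.1 (by decide)
    · exact eq_neg_of_add_eq_zero_left h.2
    · exact absurd h.1 (by decide)
  · apply torM_card2 _ 0
    intro v hv
    rw [Finset.mem_filter] at hv
    rcases torM_out v (Or.inr (Or.inr (Or.inr rfl))) hv.2.1 with h | h | h | h
    · exact absurd h.1 (by decide)
    · exact absurd h.1 (by decide)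
    · exact absurd h.1 (by decide)
    · exact h.2

private theorem torM_per_b (A : Finset (Tor L)) (h1 : ∀ y, ((0, y) : Tor L) ∉ A)
    (h2 : ∀ x, ((x, 0) : Tor L) ∉ A) : per (A.image torM_io) ≤ bdry A := by
  have h := torM_per_le A (M := 0) ?_
  · simpa using h
  · intro u hu
    rw [Nat.le_zero, Finset.card_eq_zero, Finset.filter_eq_empty_iff]
    rintro v hv ⟨h3, h4⟩
    rcases torM_out v hu h3 with ⟨rfl, h⟩ | ⟨rfl, h⟩ | ⟨rfl, h⟩ | ⟨rfl, h⟩
    · rw [torM_red10] at h4
      have : v + (1, 0) = ((0, v.2) : Tor L) := Prod.ext h (add_zero _)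
      rw [this] at h4
      exact h1 _ h4
    · have : v = ((0, v.2) : Tor L) := Prod.ext h rfl
      rw [this] at hv
      exact h1 _ hv
    · rw [torM_red01] at h4
      have : v + (0, 1) = ((v.1, 0) : Tor L) := Prod.ext (add_zero _) h
      rw [this] at h4
      exact h2 _ h4
    · have : v = ((v.1, 0) : Tor L) := Prod.ext rfl h
      rw [this] at hv
      exact h2 _ hv

private theorem torM_f (E : EF L) {c : ℝ} (hc : 0 ≤ c) (hS : Sq E.toPF c)
    (A : Finset (Tor L)) : E.f A ≤ 3 * c * per (A.image torM_io) := by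
  have hK : A.image torM_io ⊆ Box L := by
    intro p hp
    obtain ⟨v, _, rfl⟩ := Finset.mem_image.1 hp
    exact torM_io_box v
  have h := holes E.toPF hc hS hK
  have h2 : E.toPF.g (A.image torM_io) = E.f A := by
    change E.f ((A.image torM_io).image (red L)) = E.f A
    rw [Finset.image_image]
    congr 1
    have : (red L ∘ torM_io : Tor L → Tor L) = id := funext torM_red_io
    rw [this, Finset.image_id]
  rwa [h2] at h

omit [NeZero L] in
private theorem torM_const {S : ZMod L → Prop} (h : ∀ y, S y ↔ S (y + 1)) (a b : ZMod L) :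
    S a ↔ S b := by
  have key : ∀ n : ℤ, S a ↔ S (a + n) := by
    intro n
    induction n using Int.induction_on with
    | zero => simp
    | succ n ih =>
      rw [ih, h]
      push_cast
      rw [add_assoc]
    | pred n ih =>
      rw [ih, h (a + ((-(n : ℤ) - 1 : ℤ) : ZMod L))]
      push_cast
      ring_nf
  have := key ((b - a).cast : ℤ)
  rw [ZMod.intCast_zmod_cast] at this
  rwa [add_sub_cancel] at this

private theorem torM_col (A : Finset (Tor L)) (h : bdry A < L) :
    ∃ x : ZMod L, ∀ y y' : ZMod L, (x, y) ∈ A ↔ (x, y') ∈ A := by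
  classical
  by_contra hcon
  push Not at hcon
  have h1 : ∀ x : ZMod L, ∃ y, ¬ ((x, y) ∈ A ↔ ((x, y) : Tor L) + (0, 1) ∈ A) := by
    intro x
    by_contra h2
    push Not at h2
    obtain ⟨y, y', h3⟩ := hcon x
    have h4 := torM_const (S := fun y => (x, y) ∈ A) (fun y => by
      have := h2 y
      have e : ((x, y) : Tor L) + (0, 1) = (x, y + 1) := Prod.ext (add_zero _) rfl
      rwa [e] at this) y y'
    rcases h3 with ⟨h5, h6⟩ | ⟨h5, h6⟩
    · exact h6 (h4.1 h5)
    · exact h5 (h4.2 h6)
  choose y hy using h1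
  have h2 : L ≤ (Finset.univ.filter fun v : Tor L => ¬ (v ∈ A ↔ v + (0, 1) ∈ A)).card := by
    have h3 : (Finset.univ.image fun x : ZMod L => ((x, y x) : Tor L)) ⊆
        (Finset.univ.filter fun v : Tor L => ¬ (v ∈ A ↔ v + (0, 1) ∈ A)) := by
      intro v hv
      obtain ⟨x, _, rfl⟩ := Finset.mem_image.1 hv
      rw [Finset.mem_filter]
      exact ⟨Finset.mem_univ _, hy x⟩
    have h4 := Finset.card_le_card h3
    rw [Finset.card_image_of_injective _ fun a b hab => congrArg Prod.fst hab,
      Finset.card_univ, ZMod.card] at h4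
    exact h4
  unfold bdry at h
  omega

private theorem torM_row (A : Finset (Tor L)) (h : bdry A < L) :
    ∃ y : ZMod L, ∀ x x' : ZMod L, (x, y) ∈ A ↔ (x', y) ∈ A := by
  classical
  by_contra hcon
  push Not at hcon
  have h1 : ∀ y : ZMod L, ∃ x, ¬ ((x, y) ∈ A ↔ ((x, y) : Tor L) + (1, 0) ∈ A) := by
    intro y
    by_contra h2
    push Not at h2
    obtain ⟨x, x', h3⟩ := hcon y
    have h4 := torM_const (S := fun x => (x, y) ∈ A) (fun x => by
      have := h2 x
      have e : ((x, y) : Tor L) + (1, 0) = (x + 1, y) := Prod.ext rfl (add_zero _)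
      rwa [e] at this) x x'
    rcases h3 with ⟨h5, h6⟩ | ⟨h5, h6⟩
    · exact h6 (h4.1 h5)
    · exact h5 (h4.2 h6)
  choose x hx using h1
  have h2 : L ≤ (Finset.univ.filter fun v : Tor L => ¬ (v ∈ A ↔ v + (1, 0) ∈ A)).card := by
    have h3 : (Finset.univ.image fun y : ZMod L => ((x y, y) : Tor L)) ⊆
        (Finset.univ.filter fun v : Tor L => ¬ (v ∈ A ↔ v + (1, 0) ∈ A)) := by
      intro v hv
      obtain ⟨y, _, rfl⟩ := Finset.mem_image.1 hv
      rw [Finset.mem_filter]
      exact ⟨Finset.mem_univ _, hx y⟩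
    have h4 := Finset.card_le_card h3
    rw [Finset.card_image_of_injective _ fun a b hab => congrArg Prod.snd hab,
      Finset.card_univ, ZMod.card] at h4
    exact h4
  unfold bdry at h
  omega

private theorem torM_bdry_compl (A : Finset (Tor L)) : bdry Aᶜ = bdry A := by
  unfold bdry
  congr 2
  · ext v
    simp only [Finset.mem_filter, Finset.mem_univ, true_and, Finset.mem_compl]
    tauto
  · ext v
    simp only [Finset.mem_filter, Finset.mem_univ, true_and, Finset.mem_compl]
    tauto

omit [NeZero L] in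
private theorem torM_mem_image (A : Finset (Tor L)) (w v : Tor L) :
    v ∈ A.image (· + w) ↔ v + -w ∈ A := by
  rw [Finset.mem_image]
  constructor
  · rintro ⟨a, ha, rfl⟩
    rwa [add_neg_cancel_right]
  · intro h
    exact ⟨_, h, neg_add_cancel_right v w⟩

private theorem torM_bdry_image (A : Finset (Tor L)) (w : Tor L) :
    bdry (A.image (· + w)) = bdry A := by
  have key : ∀ u : Tor L,
      (Finset.univ.filter fun v : Tor L => ¬ (v ∈ A.image (· + w) ↔
        v + u ∈ A.image (· + w))).card =
      (Finset.univ.filter fun v : Tor L => ¬ (v ∈ A ↔ v + u ∈ A)).card := by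
    intro u
    apply Finset.card_bij (fun v _ => v + -w)
    · intro v hv
      rw [Finset.mem_filter, torM_mem_image, torM_mem_image] at hv
      rw [Finset.mem_filter]
      refine ⟨Finset.mem_univ _, ?_⟩
      rw [add_right_comm]
      exact hv.2
    · intro a _ b _ hab
      exact add_right_cancel hab
    · intro v hv
      rw [Finset.mem_filter] at hv
      refine ⟨v + w, ?_, add_neg_cancel_right v w⟩
      rw [Finset.mem_filter, torM_mem_image, torM_mem_image, add_neg_cancel_right,
        add_right_comm v w u, add_neg_cancel_right]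
      exact ⟨Finset.mem_univ _, hv.2⟩
  unfold bdry
  rw [key, key]

theorem torus_main (E : EF L) {c : ℝ} (hc : 0 ≤ c) (hS : Sq E.toPF c) (A : Finset (Tor L)) :
    E.f A ≤ 15 * c * bdry A := by
  rcases Nat.lt_or_ge (bdry A) L with h | h
  · -- few boundary edges
    have hsmall : ∀ B : Finset (Tor L), ∀ x₀ y₀ : ZMod L, (∀ y, (x₀, y) ∉ B) →
        (∀ x, (x, y₀) ∉ B) → E.f B ≤ 15 * c * bdry B := by
      intro B x₀ y₀ hx hy
      let C : Finset (Tor L) := B.image (· + -(x₀, y₀))
      have h1 : E.f C = E.f B := E.ti _ _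
      have h2 : bdry C = bdry B := torM_bdry_image _ _
      have h3 : per (C.image torM_io) ≤ bdry C := by
        apply torM_per_b
        · intro y hy'
          rw [torM_mem_image, neg_neg] at hy'
          apply hx (y + y₀)
          have e : ((0, y) : Tor L) + (x₀, y₀) = (x₀, y + y₀) := Prod.ext (zero_add _) rfl
          rwa [e] at hy'
        · intro x hx'
          rw [torM_mem_image, neg_neg] at hx'
          apply hy (x + x₀)
          have e : ((x, 0) : Tor L) + (x₀, y₀) = (x + x₀, y₀) := Prod.ext rfl (zero_add _)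
          rwa [e] at hx'
      have h4 := torM_f E hc hS C
      rw [h1] at h4
      rw [h2] at h3
      have h5 : (per (C.image torM_io) : ℝ) ≤ bdry B := by exact_mod_cast h3
      have h6 : (0 : ℝ) ≤ bdry B := by positivity
      have h7 : 3 * c * (per (C.image torM_io) : ℝ) ≤ 3 * c * bdry B :=
        mul_le_mul_of_nonneg_left h5 (by positivity)
      have h8 : 3 * c * (bdry B : ℝ) ≤ 15 * c * bdry B := by
        have : 0 ≤ c * (bdry B : ℝ) := mul_nonneg hc h6
        linarith
      linarith
    obtain ⟨x₀, hx⟩ := torM_col A h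
    obtain ⟨y₀, hy⟩ := torM_row A h
    by_cases h0 : (x₀, y₀) ∈ A
    · have h1 := hsmall Aᶜ x₀ y₀ (fun y => by
        rw [Finset.mem_compl, not_not]; exact (hx y₀ y).1 h0) (fun x => by
        rw [Finset.mem_compl, not_not]; exact (hy x₀ x).1 h0)
      rwa [E.compl, torM_bdry_compl] at h1
    · exact hsmall A x₀ y₀ (fun y h' => h0 ((hx y₀ y).2 h')) (fun x h' => h0 ((hy x₀ x).2 h'))
  · have h1 := torM_f E hc hS A
    have h2 : per (A.image torM_io) ≤ 5 * bdry A := by
      have := torM_per_a A
      omega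
    have h3 : (per (A.image torM_io) : ℝ) ≤ 5 * bdry A := by exact_mod_cast h2
    have h4 : 3 * c * (per (A.image torM_io) : ℝ) ≤ 3 * c * (5 * bdry A) :=
      mul_le_mul_of_nonneg_left h3 (by positivity)
    linarith

theorem shape (E : EF L) {c : ℝ} (hc : 0 ≤ c)
    (h : ∀ k : ℕ, 2 * 2 ^ k ≤ L → E.f (Qs L (2 ^ k)) ≤ c * 2 ^ k) (A : Finset (Tor L)) :
    E.f A ≤ 960 * c * bdry A := by
  rcases Nat.lt_or_ge 1 L with hL | hL
  · have h1 : Sq E.toPF (64 * c) := by
      apply dyad E.toPF hL hc
      intro k hk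
      rw [toPF_F E (by omega)]
      exact h k hk
    have h2 := torus_main E (c := 64 * c) (by positivity) h1 A
    linarith
  · have hL1 : L = 1 := by
      have := NeZero.pos L
      omega
    subst hL1
    have h0 : (0 : ℝ) ≤ 960 * c * bdry A := by positivity
    have h2 : E.f A = 0 := by
      rcases A.eq_empty_or_nonempty with rfl | ⟨v, hv⟩
      · exact E.empty
      · have : A = (∅ : Finset (Tor 1))ᶜ := by
          ext w
          simp only [Finset.compl_empty, Finset.mem_univ, iff_true]
          rwa [Subsingleton.elim w v]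
        rw [this, E.compl, E.empty]
    rw [h2]
    exact h0

end Pool.Agent.AL
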