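import Pool.Agent.AL.EntV
import Pool.Agent.AL.TorMain
import Pool.Agent.AL.Poin
import Pool.Agent.AL.Tail
import Pool.Agent.AL.Rank

/-!
# AL-Main: assembly
-/

namespace Pool.Agent.AL

open scoped Matrix ComplexOrder

/-- Shape theorem: for a translation invariant unit vector the area law for the dyadic squares
implies the area law for all regions. -/
theorem shape_state {L : ℕ} [NeZero L] {d : ℕ} {ψ : (Tor L → Fin d) → ℂ} (hU : Unitv ψ)
    (hT : TInv ψ) {c : ℝ} (hc : 0 ≤ c)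
    (h : ∀ k : ℕ, 2 * 2 ^ k ≤ L → ent (Qs L (2 ^ k)) ψ ≤ c * 2 ^ k) (A : Finset (Tor L)) :
    ent A ψ ≤ 960 * c * bdry A :=
  shape (entEF (unit_pos hU) ψ hU hT) hc h A

theorem lowRank_of_areaLaw {d : ℕ} {Ω : Finset (ℤ × ℤ)}
    {h : Matrix (Ω → Fin d) (Ω → Fin d) ℂ} (hA : AreaLaw Ω h) : LowRank Ω h := by
  obtain ⟨c, L₀, hc⟩ := hA
  set c' := max c 1 with hc'
  have hc1 : 1 ≤ c' := le_max_right _ _
  refine ⟨8 * c', L₀, fun L _ hL ψ hψ k hk => ?_⟩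
  have h1 := hc L hL ψ hψ (Qs L (2 ^ k))
  have hb : (bdry (Qs L (2 ^ k)) : ℝ) ≤ 4 * 2 ^ k := by
    have := bdry_Qs (L := L) (2 ^ k)
    exact_mod_cast this
  have h2 : ent (Qs L (2 ^ k)) ψ ≤ 4 * c' * 2 ^ k := by
    calc ent (Qs L (2 ^ k)) ψ ≤ c * bdry (Qs L (2 ^ k)) := h1
      _ ≤ c' * bdry (Qs L (2 ^ k)) :=
          mul_le_mul_of_nonneg_right (le_max_left _ _) (Nat.cast_nonneg _)
      _ ≤ c' * (4 * 2 ^ k) := mul_le_mul_of_nonneg_left hb (by linarith)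
      _ = 4 * c' * 2 ^ k := by ring
  have hpos : (0 : ℝ) < 4 * c' * 2 ^ k := by positivity
  obtain ⟨E, Δ, _, hgs⟩ := hψ
  obtain ⟨φ, hφU, hφr, hφi⟩ := low_rank (Qs L (2 ^ k)) hgs.1 hpos h2
  refine ⟨φ, hφU, ?_, ?_⟩
  · refine hφr.trans (le_of_eq ?_)
    congr 1
    ring
  · refine le_trans ?_ hφi
    have h3 : (1 : ℝ) ≤ Real.sqrt (2 ^ k) := by
      rw [show (1 : ℝ) = Real.sqrt 1 by simp]
      exact Real.sqrt_le_sqrt (one_le_pow₀ (by norm_num))
    have h4 : -(8 * c') * Real.sqrt (2 ^ k) ≤ -1 := by nlinarith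
    have h5 : Real.exp (-(8 * c') * Real.sqrt (2 ^ k)) ≤ Real.exp (-1) := Real.exp_le_exp.2 h4
    have h6 : Real.exp (-1) ≤ 1 / 2 := by
      rw [Real.exp_neg, inv_eq_one_div]
      have : (2 : ℝ) ≤ Real.exp 1 := by
        have := Real.add_one_le_exp (1 : ℝ)
        linarith
      exact one_div_le_one_div_of_le (by norm_num) this
    exact h5.trans h6

/-- the entropy of a square from a vector of small Schmidt rank -/
theorem square_bound {L : ℕ} [NeZero L] {d : ℕ} {Ω : Finset (ℤ × ℤ)}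
    {h : Matrix (Ω → Fin d) (Ω → Fin d) ℂ} (hh : h.IsHermitian) {ψ : (Tor L → Fin d) → ℂ}
    {E Δ : ℝ} (hΔ : 0 < Δ) (hg : GS (ham Ω h L) ψ E Δ) {n : ℕ} (hn : 1 ≤ n) {c : ℝ}
    (hc : 0 ≤ c) {φ : (Tor L → Fin d) → ℂ} (hφ : Unitv φ)
    (hr : ((mat (Qs L n) φ).rank : ℝ) ≤ Real.exp (c * n))
    (hi : Real.exp (-c * Real.sqrt n) ≤ ‖ip φ ψ‖) :
    ent (Qs L n) ψ ≤ (c + (1 + 4 * Real.sqrt ((8 * NN Ω * hN h + 1) / Δ)) * (1 + 2 * c) +
      11 * Real.sqrt ((8 * NN Ω * hN h + 1) / Δ)) * n := by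
  set A := Qs L n with hA
  set K := Real.sqrt ((8 * NN Ω * hN h + 1) / Δ) with hK
  have hhN : 0 ≤ hN h := Finset.sum_nonneg fun _ _ => Finset.sum_nonneg fun _ _ => norm_nonneg _
  have hn0 : (1 : ℝ) ≤ n := by exact_mod_cast hn
  set s : ℝ := (8 * NN Ω * hN h + 1) * n / Δ with hs
  have hs0 : 0 < s := by positivity
  have hPI : PI (rdm_isHermitian A ψ).eigenvalues s := by
    have hp := poincare hh hΔ hg A
    intro κ t G hκ ht hG
    refine (hp κ t G hκ ht hG).trans ?_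
    have hb : (bdry A : ℝ) ≤ 4 * n := by exact_mod_cast bdry_Qs (L := L) n
    have h1 : 2 * NN Ω * hN h * bdry A / Δ ≤ s := by
      rw [hs]
      refine div_le_div_of_nonneg_right ?_ hΔ.le
      have h2 : (0 : ℝ) ≤ 2 * NN Ω * hN h := by positivity
      calc 2 * NN Ω * hN h * bdry A ≤ 2 * NN Ω * hN h * (4 * n) :=
            mul_le_mul_of_nonneg_left hb h2
        _ ≤ (8 * NN Ω * hN h + 1) * n := by nlinarith
    refine mul_le_mul_of_nonneg_right (mul_le_mul_of_nonneg_left h1 hκ) ?_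
    refine Finset.sum_nonneg fun i _ => ?_
    exact (Matrix.posSemidef_self_mul_conjTranspose _).eigenvalues_nonneg i
  have hN1 : ∑ i, ∑ j, ‖mat A φ i j‖ ^ 2 = 1 := by
    rw [← sum_mat]
    exact hφ
  obtain ⟨w, hw, hwr, hwi⟩ := weights (mat A φ) (mat A ψ) hN1
  rw [← ip_mat] at hwi
  set μ := Real.exp (-c * Real.sqrt n) with hμ
  have hμ0 : 0 < μ := Real.exp_pos _
  have hμ1 : μ ≤ 1 := by
    rw [hμ]
    refine Real.exp_le_one_iff.2 ?_
    have := Real.sqrt_nonneg (n : ℝ)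
    nlinarith
  have hlam1 : ∑ i, (rdm_isHermitian A ψ).eigenvalues i = 1 := by
    have h1 := (rdm_isHermitian A ψ).trace_eq_sum_eigenvalues
    have h2 : Matrix.trace (rdm A ψ) = 1 := by
      rw [rdm, Matrix.trace_mul_comm, ← ip_mat]
      have h3 : ip ψ ψ = ((∑ σ, ‖ψ σ‖ ^ 2 : ℝ) : ℂ) := by
        rw [ip, Complex.ofReal_sum]
        refine Finset.sum_congr rfl fun σ _ => ?_
        rw [Complex.star_def, ← Complex.normSq_eq_conj_mul_self, Complex.normSq_eq_norm_sq]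
      rw [h3, hg.1, Complex.ofReal_one]
    rw [h2] at h1
    have h4 : ((∑ i, (rdm_isHermitian A ψ).eigenvalues i : ℝ) : ℂ) = ((1 : ℝ) : ℂ) := by
      rw [Complex.ofReal_sum, Complex.ofReal_one]
      exact h1.symm
    exact Complex.ofReal_injective h4
  have hr1 : (1 : ℝ) ≤ Real.exp (c * n) := Real.one_le_exp (by positivity)
  have key := tail_bound
    (fun i => (Matrix.posSemidef_self_mul_conjTranspose (mat A ψ)).eigenvalues_nonneg i) hlam1 hs0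
    hPI hr1 hμ0 hμ1 hw (hwr.trans hr)
    ((pow_le_pow_left₀ hμ0.le hi 2).trans hwi)
  have hsq : Real.sqrt s = K * Real.sqrt n := by
    rw [hs, hK, ← Real.sqrt_mul (by positivity)]
    congr 1
    ring
  have hsn : Real.sqrt n * Real.sqrt n = n := Real.mul_self_sqrt (by positivity)
  have hsn1 : 1 ≤ Real.sqrt n := by
    rw [show (1 : ℝ) = Real.sqrt 1 by simp]
    exact Real.sqrt_le_sqrt hn0
  have hlog : Real.log (2 / μ ^ 2) ≤ (1 + 2 * c) * Real.sqrt n := by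
    rw [Real.log_div (by norm_num) (by positivity), Real.log_pow, hμ, Real.log_exp]
    have := Real.log_two_lt_d9
    push_cast
    nlinarith
  have hK0 : 0 ≤ K := Real.sqrt_nonneg _
  have h7 : ent A ψ ≤ Real.log (Real.exp (c * n)) + (1 + 4 * Real.sqrt s) *
      Real.log (2 / μ ^ 2) + 11 * Real.sqrt s := key
  rw [Real.log_exp, hsq] at h7
  refine h7.trans ?_
  have h8 : (1 + 4 * (K * Real.sqrt n)) * Real.log (2 / μ ^ 2) ≤
      (1 + 4 * (K * Real.sqrt n)) * ((1 + 2 * c) * Real.sqrt n) :=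
    mul_le_mul_of_nonneg_left hlog (by positivity)
  have h9 : (1 + 4 * (K * Real.sqrt n)) * ((1 + 2 * c) * Real.sqrt n) ≤
      (1 + 4 * K) * (1 + 2 * c) * n := by
    have h10 : 1 + 4 * (K * Real.sqrt n) ≤ (1 + 4 * K) * Real.sqrt n := by nlinarith
    calc (1 + 4 * (K * Real.sqrt n)) * ((1 + 2 * c) * Real.sqrt n)
        ≤ ((1 + 4 * K) * Real.sqrt n) * ((1 + 2 * c) * Real.sqrt n) :=
          mul_le_mul_of_nonneg_right h10 (by positivity)
      _ = (1 + 4 * K) * (1 + 2 * c) * (Real.sqrt n * Real.sqrt n) := by ring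
      _ = _ := by rw [hsn]
  have h11 : 11 * (K * Real.sqrt n) ≤ 11 * K * n := by
    have : Real.sqrt n ≤ n := by nlinarith
    nlinarith
  nlinarith

theorem areaLaw_of_lowRank {d : ℕ} {Ω : Finset (ℤ × ℤ)}
    {h : Matrix (Ω → Fin d) (Ω → Fin d) ℂ} (hh : h.IsHermitian) (hg : Gapped Ω h)
    (hR : LowRank Ω h) : AreaLaw Ω h := by
  obtain ⟨Δ, hΔ, L₁, hgap⟩ := hg
  obtain ⟨c, L₀, hc⟩ := hR
  set c' := max c 0 with hc'
  have hc0 : 0 ≤ c' := le_max_right _ _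
  have hcc : c ≤ c' := le_max_left _ _
  have hhN : 0 ≤ hN h := Finset.sum_nonneg fun _ _ => Finset.sum_nonneg fun _ _ => norm_nonneg _
  refine ⟨960 * (c' + (1 + 4 * Real.sqrt ((8 * NN Ω * hN h + 1) / Δ)) * (1 + 2 * c') +
      11 * Real.sqrt ((8 * NN Ω * hN h + 1) / Δ)), max L₀ L₁, fun L _ hL ψ hψ A => ?_⟩
  obtain ⟨ψ₀, E, hgs⟩ := hgap L (le_trans (le_max_right _ _) hL)
  have hψ' := hψ
  obtain ⟨E', Δ', hΔ', hgs'⟩ := hψ
  have hgs2 : GS (ham Ω h L) ψ E Δ := gs_transfer hΔ hΔ' hgs hgs'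
  refine shape_state hgs2.1 (gs_tinv hΔ hgs2) (by positivity) (fun k hk => ?_) A
  obtain ⟨φ, hφU, hφr, hφi⟩ := hc L (le_trans (le_max_left _ _) hL) ψ hψ' k hk
  have h1 : ((2 ^ k : ℕ) : ℝ) = 2 ^ k := by push_cast; rfl
  have h2 := square_bound hh hΔ hgs2 (n := 2 ^ k) (Nat.one_le_two_pow) hc0 hφU
    (hφr.trans (Real.exp_le_exp.2 (by rw [h1]; gcongr)))
    (le_trans (Real.exp_le_exp.2 (by
      rw [h1]
      have := Real.sqrt_nonneg ((2 : ℝ) ^ k)
      nlinarith)) hφi)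
  rw [h1] at h2
  exact h2

/-- The area law for all regions is equivalent to the existence of vectors of Schmidt rank
`exp (c n)` and overlap `exp (- c √n)` for the dyadic squares. -/
theorem areaLaw_iff {d : ℕ} (Ω : Finset (ℤ × ℤ)) (h : Matrix (Ω → Fin d) (Ω → Fin d) ℂ)
    (hh : h.IsHermitian) (hg : Gapped Ω h) : AreaLaw Ω h ↔ LowRank Ω h :=
  ⟨lowRank_of_areaLaw, areaLaw_of_lowRank hh hg⟩

end Pool.Agent.AL
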