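import Pool.Agent.AL.Kron
import Pool.Agent.AL.Iso

/-!
# PIECE AL-Mono: monotonicity of the relative entropy

`quad`: for hermitian `C`: `⟨vec C, (A ⊗ₖ 1 - 1 ⊗ₖ Bᵀ) vec C⟩ = Tr (C A C) - Tr (C C B)`; here
`vec C = fun p => C p.1 p.2`. With `C² = ρ` this is `Tr (ρ A) - Tr (ρ B)`.
`rel_mono`: `C = sqrt ρ`, `D = sqrt (ptr ρ)` (`CFC.sqrt`, or `cfc Real.sqrt`), `V` from `exists_iso`,
`T = σ ⊗ₖ (ρ⁻¹)ᵀ` (positive definite: `Matrix.PosDef.kronecker`, `PosDef.inv`, `PosDef.transpose`).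
`lg T = lg σ ⊗ₖ 1 - 1 ⊗ₖ (lg ρ)ᵀ` by `lg_kron`, `lg_transpose`, `lg_inv`; the same for
`Vᴴ T V = ptr σ ⊗ₖ ((ptr ρ)⁻¹)ᵀ`. `jensen_log` evaluated at the vector `vec D` gives
`⟨V vec D, lg T (V vec D)⟩ ≤ ⟨vec D, lg (Vᴴ T V) vec D⟩`, i.e. by `quad`
`Tr (ρ lg σ) - Tr (ρ lg ρ) ≤ Tr (ptr ρ lg (ptr σ)) - Tr (ptr ρ lg (ptr ρ))`.
-/

namespace Pool.Agent.AL

open scoped Matrix Kronecker ComplexOrder

universe u v

variable {m : Type u} {n : Type v} [Fintype m] [DecidableEq m] [Fintype n] [DecidableEq n]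

omit [DecidableEq n] in
private theorem Mono_vec (C X : Matrix m m ℂ) (hC : C.IsHermitian) :
    star (fun p : m × m => C p.1 p.2) ⬝ᵥ (fun p : m × m => X p.1 p.2) =
      Matrix.trace (C * X) := by
  simp only [dotProduct, Fintype.sum_prod_type, Pi.star_apply, Matrix.trace, Matrix.diag_apply,
    Matrix.mul_apply]
  rw [Finset.sum_comm]
  refine Finset.sum_congr rfl fun i _ => Finset.sum_congr rfl fun j _ => ?_
  have h := congrFun (congrFun hC.eq i) j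
  rw [Matrix.conjTranspose_apply] at h
  rw [h]

theorem quad {C A B : Matrix m m ℂ} (hC : C.IsHermitian) :
    star (fun p : m × m => C p.1 p.2) ⬝ᵥ
      ((A ⊗ₖ (1 : Matrix m m ℂ) - (1 : Matrix m m ℂ) ⊗ₖ Bᵀ) *ᵥ fun p : m × m => C p.1 p.2) =
      Matrix.trace (C * C * A) - Matrix.trace (C * C * B) := by
  have h1 : (A ⊗ₖ (1 : Matrix m m ℂ)) *ᵥ (fun p : m × m => C p.1 p.2) =
      fun p : m × m => (A * C) p.1 p.2 := by
    funext p
    simp only [Matrix.mulVec, dotProduct, Fintype.sum_prod_type, Matrix.kroneckerMap_apply,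
      Matrix.one_apply, mul_ite, mul_one, mul_zero, ite_mul, zero_mul, Finset.sum_ite_eq,
      Finset.mem_univ, if_true, Matrix.mul_apply]
  have h2 : ((1 : Matrix m m ℂ) ⊗ₖ Bᵀ) *ᵥ (fun p : m × m => C p.1 p.2) =
      fun p : m × m => (C * B) p.1 p.2 := by
    funext p
    simp only [Matrix.mulVec, dotProduct, Fintype.sum_prod_type, Matrix.kroneckerMap_apply,
      Matrix.one_apply, ite_mul, one_mul, zero_mul, Matrix.mul_apply, Matrix.transpose_apply,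
      Finset.sum_ite_irrel, Finset.sum_const_zero, Finset.sum_ite_eq, Finset.mem_univ, if_true]
    exact Finset.sum_congr rfl fun j _ => mul_comm _ _
  rw [Matrix.sub_mulVec, h1, h2, dotProduct_sub, Mono_vec C (A * C) hC, Mono_vec C (C * B) hC,
    ← Matrix.mul_assoc C A C, Matrix.trace_mul_comm (C * A) C, ← Matrix.mul_assoc C C A,
    ← Matrix.mul_assoc C C B]

private theorem Mono_sqrt {ρ : Matrix m m ℂ} (hρ : ρ.PosDef) :
    ∃ C : Matrix m m ℂ, C.IsHermitian ∧ C * C = ρ := by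
  set U : Matrix m m ℂ := (hρ.1.eigenvectorUnitary : Matrix m m ℂ) with hU
  have hUU : star U * U = 1 := Unitary.coe_star_mul_self _
  have hsp : ρ = U * Matrix.diagonal ((RCLike.ofReal : ℝ → ℂ) ∘ hρ.1.eigenvalues) * star U := by
    have h1 := hρ.1.spectral_theorem
    rw [Unitary.conjStarAlgAut_apply] at h1
    exact h1
  have hpos := hρ.1.posDef_iff_eigenvalues_pos.mp hρ
  set E : Matrix m m ℂ := Matrix.diagonal (fun i => ((Real.sqrt (hρ.1.eigenvalues i) : ℝ) : ℂ))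
    with hE
  have hEE : E * E = Matrix.diagonal ((RCLike.ofReal : ℝ → ℂ) ∘ hρ.1.eigenvalues) := by
    rw [hE, Matrix.diagonal_mul_diagonal]
    congr 1
    funext i
    have h1 := Real.mul_self_sqrt (hpos i).le
    simp only [Function.comp_apply]
    rw [← Complex.ofReal_mul, h1]
    rfl
  have hEh : Eᴴ = E := by
    rw [hE, Matrix.diagonal_conjTranspose]
    congr 1
    funext i
    simp
  refine ⟨U * E * star U, ?_, ?_⟩
  · rw [Matrix.IsHermitian, Matrix.conjTranspose_mul, Matrix.conjTranspose_mul, hEh,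
      Matrix.star_eq_conjTranspose, Matrix.conjTranspose_conjTranspose, Matrix.mul_assoc]
  · calc U * E * star U * (U * E * star U) = U * E * (star U * U) * E * star U := by
          simp only [Matrix.mul_assoc]
      _ = U * (E * E) * star U := by rw [hUU, Matrix.mul_one, Matrix.mul_assoc U E E]
      _ = ρ := by rw [hEE, ← hsp]

private theorem Mono_lg {M : Type u} {N : Type v} [Fintype M] [DecidableEq M] [Fintype N]
    [DecidableEq N] {σ : Matrix M M ℂ} {ρ : Matrix N N ℂ} (hσ : σ.PosDef) (hρ : ρ.PosDef) :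
    lg (σ ⊗ₖ (ρ⁻¹)ᵀ) = lg σ ⊗ₖ (1 : Matrix N N ℂ) - (1 : Matrix M M ℂ) ⊗ₖ (lg ρ)ᵀ := by
  rw [lg_kron hσ hρ.inv.transpose, lg_transpose hρ.inv, lg_inv hρ, Matrix.transpose_neg,
    sub_eq_add_neg]
  congr 1
  ext p q
  simp [Matrix.kroneckerMap_apply]

theorem rel_mono [Nonempty m] {ρ σ : Matrix (m × n) (m × n) ℂ} (hρ : ρ.PosDef)
    (hσ : σ.PosDef) : rel (ptr ρ) (ptr σ) ≤ rel ρ σ := by
  have hpρ : (ptr ρ).PosDef := ptr_posDef hρ
  have hpσ : (ptr σ).PosDef := ptr_posDef hσ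
  obtain ⟨C, hC, hC2⟩ := Mono_sqrt hρ
  obtain ⟨D, hD, hD2⟩ := Mono_sqrt hpρ
  obtain ⟨V, hV, hVT, hVD⟩ := exists_iso (σ := σ) hρ hC hC2 hD hD2
  set T := σ ⊗ₖ (ρ⁻¹)ᵀ with hT
  have hTp : T.PosDef := hσ.kronecker hρ.inv.transpose
  have h1 := jensen_log hTp V hV
  set x : n × n → ℂ := fun p => D p.1 p.2 with hx
  have h2 := h1.dotProduct_mulVec_nonneg x
  have h3 : star x ⬝ᵥ (lg (Vᴴ * T * V) *ᵥ x) =
      Matrix.trace (ptr ρ * lg (ptr σ)) - Matrix.trace (ptr ρ * lg (ptr ρ)) := by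
    rw [hVT, Mono_lg hpσ hpρ, hx, quad hD, hD2]
  have h4 : star x ⬝ᵥ ((Vᴴ * lg T * V) *ᵥ x) =
      Matrix.trace (ρ * lg σ) - Matrix.trace (ρ * lg ρ) := by
    have h5 : (Vᴴ * lg T * V) *ᵥ x = Vᴴ *ᵥ (lg T *ᵥ (V *ᵥ x)) := by
      simp only [Matrix.mulVec_mulVec, Matrix.mul_assoc]
    rw [h5, Matrix.dotProduct_mulVec, Matrix.vecMul_conjTranspose, star_star, hVD, hT,
      Mono_lg hσ hρ, quad hC, hC2]
  rw [Matrix.sub_mulVec, dotProduct_sub, h3, h4] at h2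
  have h6 := (Complex.le_def.1 h2).1
  simp only [Complex.zero_re, Complex.sub_re] at h6
  unfold rel
  rw [Matrix.mul_sub, Matrix.mul_sub, Matrix.trace_sub, Matrix.trace_sub, Complex.sub_re,
    Complex.sub_re]
  linarith

end Pool.Agent.AL
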