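import Pool.Agent.AL.Stage

/-!
# PIECE AL-Planar: simply connected sets

`exists_run`: `U` = the points of the maximal horizontal run of `K` through `p`, i.e. the `q ∈ K` with
`q.2 = p.2` and `(x, p.2) ∈ K` for all `x` between `p.1` and `q.1`. (`Flat (0, -1)` is clear: no
vertical neighbours in `U`.)
`planar_ind`: induction on `n` for all `P`, `K`, `U`. Let `U' = U ∪ Up K U ∪ Dn K U`. If `U' = U` then
`U` is closed under all steps in `K` (`HC` and `stage_vc`), so `U = K` as `K` is connected and `U`
nonempty, and `Phi P c K K = g K`. Otherwise `#(K \ U') < #(K \ U)`; apply the induction hypothesis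
to `P.swap`, `swp K`, `swp U'` (`HC_swp`, `stage_vc`, `stage_cn`, `Cn_swp`, `Cn_compl_swp`,
`Sq_swap`, `swp_subset_Box`), use `Phi_swap`, `swp_swp` and `stage`.
`planar`: `K = ∅`: trivial. Otherwise start with a run `U`: `g U ≤ c per U = c (BB U K + EE U (K \ U))`
by `flat_up`, `per_eq`, so `Phi P c K U ≤ c BB U K + 3 c BB (K \ U) K ≤ 3 c per K` by `EE_comm` and
`BB_union`.
-/

namespace Pool.Agent.AL

variable {L : ℕ}

/-- the condition that `q` lies in the horizontal run of `K` through `p` -/
private def planarRun (K : Finset Pt) (p q : Pt) : Prop :=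
  q.2 = p.2 ∧ ∀ x : ℤ, min p.1 q.1 ≤ x → x ≤ max p.1 q.1 → (x, p.2) ∈ K

private theorem planar_path {K U : Finset Pt} {p : Pt}
    (hU : ∀ q, q ∈ U ↔ q ∈ K ∧ planarRun K p q) (k : ℕ) :
    ∀ q : Pt, q ∈ U → (q.1 - p.1).natAbs = k → Pth (U : Set Pt) p q := by
  induction k with
  | zero =>
    intro q hq hk
    have h1 : q = p := by
      ext
      · omega
      · exact ((hU q).1 hq).2.1
    rw [h1]
    exact Relation.ReflTransGen.refl
  | succ k ih =>
    intro q hq hk
    obtain ⟨hqK, hq2, hq3⟩ := (hU q).1 hq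
    rcases lt_or_ge p.1 q.1 with hlt | hge
    · have h1 : q + (-1, 0) ∈ U := by
        rw [hU]
        have e1 : (q + ((-1, 0) : Pt)).1 = q.1 - 1 := by
          change q.1 + -1 = q.1 - 1
          ring
        have e2 : (q + ((-1, 0) : Pt)).2 = q.2 := by
          change q.2 + 0 = q.2
          ring
        have e3 : q + ((-1, 0) : Pt) = (q.1 - 1, p.2) := by
          ext
          · exact e1
          · exact e2.trans hq2
        refine ⟨?_, e2.trans hq2, ?_⟩
        · rw [e3]
          exact hq3 _ (by omega) (by omega)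
        · intro x hx1 hx2
          rw [e1] at hx1 hx2
          exact hq3 x (by omega) (by omega)
      have h2 : Pth (U : Set Pt) p (q + (-1, 0)) := by
        refine ih _ h1 ?_
        change (q.1 + -1 - p.1).natAbs = k
        omega
      refine Relation.ReflTransGen.tail h2 ⟨?_, hq⟩
      left
      ext <;> simp
    · have h1 : q + (1, 0) ∈ U := by
        rw [hU]
        have e1 : (q + ((1, 0) : Pt)).1 = q.1 + 1 := rfl
        have e2 : (q + ((1, 0) : Pt)).2 = q.2 := by
          change q.2 + 0 = q.2
          ring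
        have e3 : q + ((1, 0) : Pt) = (q.1 + 1, p.2) := by
          ext
          · exact e1
          · exact e2.trans hq2
        refine ⟨?_, e2.trans hq2, ?_⟩
        · rw [e3]
          exact hq3 _ (by omega) (by omega)
        · intro x hx1 hx2
          rw [e1] at hx1 hx2
          exact hq3 x (by omega) (by omega)
      have h2 : Pth (U : Set Pt) p (q + (1, 0)) := by
        refine ih _ h1 ?_
        change (q.1 + 1 - p.1).natAbs = k
        omega
      refine Relation.ReflTransGen.tail h2 ⟨?_, hq⟩
      right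
      left
      ext <;> simp

theorem exists_run {K : Finset Pt} {p : Pt} (hp : p ∈ K) :
    ∃ U : Finset Pt, p ∈ U ∧ U ⊆ K ∧ Cn (U : Set Pt) ∧ HC K U ∧ Flat (0, -1) U := by
  classical
  have hU : ∀ q, q ∈ K.filter (fun q => planarRun K p q) ↔ q ∈ K ∧ planarRun K p q :=
    fun q => Finset.mem_filter
  have hpU : p ∈ K.filter (fun q => planarRun K p q) := by
    rw [hU]
    refine ⟨hp, rfl, fun x hx1 hx2 => ?_⟩
    have : x = p.1 := by
      rw [min_self] at hx1
      rw [max_self] at hx2
      omega
    rw [this]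
    exact hp
  refine ⟨K.filter (fun q => planarRun K p q), hpU, Finset.filter_subset _ _, ?_, ?_, ?_⟩
  · intro q hq q' hq'
    have h1 := planar_path hU _ q hq rfl
    have h2 := planar_path hU _ q' hq' rfl
    exact Pth.trans (Pth.symm hpU h1) h2
  · intro q hq
    obtain ⟨hqK, hq2, hq3⟩ := (hU q).1 hq
    constructor
    · intro h
      rw [hU]
      have e1 : (q + ((1, 0) : Pt)).1 = q.1 + 1 := rfl
      have e2 : (q + ((1, 0) : Pt)).2 = q.2 := by
        change q.2 + 0 = q.2
        ring
      refine ⟨h, e2.trans hq2, fun x hx1 hx2 => ?_⟩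
      rw [e1] at hx1 hx2
      by_cases hx : x = q.1 + 1
      · have e3 : q + ((1, 0) : Pt) = (x, p.2) := by
          ext
          · exact e1.trans hx.symm
          · exact e2.trans hq2
        rw [← e3]
        exact h
      · exact hq3 x (by omega) (by omega)
    · intro h
      rw [hU]
      have e1 : (q + ((-1, 0) : Pt)).1 = q.1 - 1 := by
        change q.1 + -1 = q.1 - 1
        ring
      have e2 : (q + ((-1, 0) : Pt)).2 = q.2 := by
        change q.2 + 0 = q.2
        ring
      refine ⟨h, e2.trans hq2, fun x hx1 hx2 => ?_⟩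
      rw [e1] at hx1 hx2
      by_cases hx : x = q.1 - 1
      · have e3 : q + ((-1, 0) : Pt) = (x, p.2) := by
          ext
          · exact e1.trans hx.symm
          · exact e2.trans hq2
        rw [← e3]
        exact h
      · exact hq3 x (by omega) (by omega)
  · intro q hq hq'
    have h2 := ((hU q).1 hq).2.1
    constructor
    · intro h
      have h3 := ((hU _).1 h).2.1
      change q.2 + -1 = p.2 at h3
      omega
    · intro h
      have h3 := ((hU _).1 h).2.1
      change q.2 + 0 + -1 = p.2 at h3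
      omega

private theorem planar_Phi_self (P : PF L) (c : ℝ) (K : Finset Pt) : Phi P c K K = P.g K := by
  have h1 : BB (∅ : Finset Pt) K = 0 := rfl
  have h2 : EE (∅ : Finset Pt) K = 0 := rfl
  rw [Phi, Finset.sdiff_self, h1, h2]
  simp

private theorem planar_closed {K U : Finset Pt} (hK : Cn (K : Set Pt)) (hUK : U ⊆ K)
    (hne : U.Nonempty) (hH : HC K U) (hV : VC K U) : K ⊆ U := by
  obtain ⟨p, hp⟩ := hne
  intro q hq
  have h := hK p (hUK hp) q hq
  clear hq
  induction h with
  | refl => exact hp
  | tail _ hbc ih =>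
    obtain ⟨hadj, hc⟩ := hbc
    have hc' := Finset.mem_coe.1 hc
    rcases hadj with rfl | rfl | rfl | rfl
    · exact (hH _ ih).1 hc'
    · exact (hH _ ih).2 hc'
    · exact (hV _ ih).1 hc'
    · exact (hV _ ih).2 hc'

theorem planar_ind {c : ℝ} (hc : 0 ≤ c) (n : ℕ) : ∀ (P : PF L) (K U : Finset Pt), Sq P c →
    K ⊆ Box L → Cn (K : Set Pt) → Cn ((K : Set Pt)ᶜ) → U ⊆ K → U.Nonempty → Cn (U : Set Pt) →
    HC K U → (K \ U).card ≤ n → P.g K ≤ Phi P c K U := by
  induction n with
  | zero =>
    intro P K U _ _ _ _ hUK _ _ _ hn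
    have h1 : K \ U = ∅ := Finset.card_eq_zero.1 (Nat.le_zero.1 hn)
    have h2 : U = K := Finset.Subset.antisymm hUK (Finset.sdiff_eq_empty_iff_subset.1 h1)
    rw [h2, planar_Phi_self]
  | succ n ih =>
    intro P K U hS hK hKn hKc hUK hne hU hH hn
    by_cases hU' : U ∪ Up K U ∪ Dn K U = U
    · have hV := stage_vc K U
      rw [hU'] at hV
      have h2 : U = K := Finset.Subset.antisymm hUK (planar_closed hKn hUK hne hH hV)
      rw [h2, planar_Phi_self]
    · have hsub : U ⊆ U ∪ Up K U ∪ Dn K U := by
        intro x hx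
        exact Finset.mem_union_left _ (Finset.mem_union_left _ hx)
      have hss := stage_subset hUK
      have hlt : (K \ (U ∪ Up K U ∪ Dn K U)).card < (K \ U).card := by
        refine Finset.card_lt_card ?_
        rw [Finset.ssubset_iff_subset_ne]
        refine ⟨Finset.sdiff_subset_sdiff (Finset.Subset.refl _) hsub, fun h => hU' ?_⟩
        refine Finset.Subset.antisymm (fun x hx => ?_) hsub
        by_contra hxU
        have h1 : x ∈ K \ U := Finset.mem_sdiff.2 ⟨hss hx, hxU⟩
        rw [← h] at h1
        exact (Finset.mem_sdiff.1 h1).2 hx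
      have hcard : (swp K \ swp (U ∪ Up K U ∪ Dn K U)).card ≤ n := by
        rw [← swp_sdiff]
        have h1 : (swp (K \ (U ∪ Up K U ∪ Dn K U))).card ≤ (K \ (U ∪ Up K U ∪ Dn K U)).card :=
          Finset.card_image_le
        omega
      have hne' : (swp (U ∪ Up K U ∪ Dn K U)).Nonempty := by
        obtain ⟨p, hp⟩ := hne
        exact ⟨(p.2, p.1), mem_swp.2 (hsub hp)⟩
      have hsw : swp (U ∪ Up K U ∪ Dn K U) ⊆ swp K := by
        intro x hx
        exact mem_swp.2 (hss (mem_swp.1 hx))
      have h := ih P.swap (swp K) (swp (U ∪ Up K U ∪ Dn K U)) (Sq_swap hS) (swp_subset_Box hK)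
        (Cn_swp hKn) (Cn_compl_swp hKc) hsw hne' (Cn_swp (stage_cn hUK hU))
        (HC_swp (stage_vc K U)) hcard
      rw [Phi_swap] at h
      have h1 : P.swap.g (swp K) = P.g K := by
        change P.g (swp (swp K)) = P.g K
        rw [swp_swp]
      rw [h1] at h
      exact h.trans (stage P hc hS hK hKc hUK hU hH)

theorem planar (P : PF L) {c : ℝ} (hc : 0 ≤ c) (hS : Sq P c) {K : Finset Pt} (hK : K ⊆ Box L)
    (hKn : Cn (K : Set Pt)) (hKc : Cn ((K : Set Pt)ᶜ)) : P.g K ≤ 3 * c * per K := by
  rcases K.eq_empty_or_nonempty with rfl | ⟨p, hp⟩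
  · rw [P.empty]
    positivity
  · obtain ⟨U, hpU, hUK, hU, hH, hF⟩ := exists_run hp
    have h1 := planar_ind hc _ P K U hS hK hKn hKc hUK ⟨p, hpU⟩ hU hH le_rfl
    have h2 := flat_up P hc hS U (hUK.trans hK) hF
    have h3 : (per U : ℝ) = BB U K + EE U (K \ U) := by
      rw [per_eq hUK]
      push_cast
      ring
    have h4 : (per K : ℝ) = BB U K + BB (K \ U) K := by
      have h5 : per K = BB U K + BB (K \ U) K := by
        rw [← BB_union Finset.disjoint_sdiff K, Finset.union_sdiff_of_subset hUK]
        rfl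
      rw [h5]
      push_cast
      ring
    rw [Phi, EE_comm (K \ U) U] at h1
    rw [h3] at h2
    rw [h4]
    have h6 : (0 : ℝ) ≤ BB U K := Nat.cast_nonneg _
    nlinarith [mul_nonneg hc h6]

end Pool.Agent.AL
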