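import Pool.Agent.AL.Var

/-!
# The double commutator form, with a general weight

`Qf_boundW`: as `Qf_bound` in `Var.lean`, for functions `G` and weights `W` with
`√(x y) (G x - G y)² ≤ 2 κ (W x + W y)`.
-/


namespace Pool.Agent.AL

open scoped Matrix

universe u v

variable {m : Type u} {n : Type v} [Fintype m] [DecidableEq m] [Fintype n] [DecidableEq n]

omit [DecidableEq n] in
private theorem var_nsq (v : n → ℂ) : ((∑ i, ‖v i‖ ^ 2 : ℝ) : ℂ) = star v ⬝ᵥ v := by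
  simp only [dotProduct, Pi.star_apply, RCLike.star_def, Complex.conj_mul']
  push_cast
  rfl

omit [DecidableEq m] [DecidableEq n] in
private theorem var_adj (N : Matrix m n ℂ)
    (h : ∀ y : m → ℂ, ∑ j, ‖(Nᴴ *ᵥ y) j‖ ^ 2 ≤ ∑ i, ‖y i‖ ^ 2) (x : n → ℂ) :
    ∑ i, ‖(N *ᵥ x) i‖ ^ 2 ≤ ∑ j, ‖x j‖ ^ 2 := by
  have h1 := h (N *ᵥ x)
  have h2 : ∑ i, ‖(N *ᵥ x) i‖ ^ 2 = ∑ j, (star ((Nᴴ *ᵥ (N *ᵥ x)) j) * x j).re := by
    have := var_nsq (N *ᵥ x)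
    have h3 : star (N *ᵥ x) ⬝ᵥ (N *ᵥ x) = star (Nᴴ *ᵥ (N *ᵥ x)) ⬝ᵥ x := by
      rw [Matrix.star_mulVec Nᴴ, Matrix.conjTranspose_conjTranspose, Matrix.dotProduct_mulVec]
    rw [h3] at this
    have h4 := congrArg Complex.re this
    rw [Complex.ofReal_re] at h4
    rw [h4, dotProduct, Complex.re_sum]
    rfl
  have h5 : ∀ j, (star ((Nᴴ *ᵥ (N *ᵥ x)) j) * x j).re ≤
      (‖(Nᴴ *ᵥ (N *ᵥ x)) j‖ ^ 2 + ‖x j‖ ^ 2) / 2 := by
    intro j
    have h6 := Complex.re_le_norm (star ((Nᴴ *ᵥ (N *ᵥ x)) j) * x j)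
    rw [norm_mul, norm_star] at h6
    nlinarith [sq_nonneg (‖(Nᴴ *ᵥ (N *ᵥ x)) j‖ - ‖x j‖)]
  have h7 : ∑ i, ‖(N *ᵥ x) i‖ ^ 2 ≤
      ∑ j, (‖(Nᴴ *ᵥ (N *ᵥ x)) j‖ ^ 2 + ‖x j‖ ^ 2) / 2 := by
    rw [h2]
    exact Finset.sum_le_sum fun j _ => h5 j
  rw [← Finset.sum_div, Finset.sum_add_distrib] at h7
  linarith

omit [DecidableEq m] in
private theorem var_col (X : Matrix m n ℂ)
    (h : ∀ x : n → ℂ, ∑ i, ‖(X *ᵥ x) i‖ ^ 2 ≤ ∑ j, ‖x j‖ ^ 2) (j : n) :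
    ∑ i, ‖X i j‖ ^ 2 ≤ 1 := by
  have := h (Pi.single j 1)
  have h2 : ∑ k, ‖(Pi.single j 1 : n → ℂ) k‖ ^ 2 = 1 := by
    rw [Finset.sum_eq_single j]
    · simp
    · intro k _ hk
      simp [Pi.single_eq_of_ne hk]
    · simp
  rw [h2] at this
  simpa [Matrix.mulVec_single] using this

omit [DecidableEq n] in
private theorem var_row (X : Matrix m n ℂ)
    (h : ∀ y : m → ℂ, ∑ j, ‖(Xᴴ *ᵥ y) j‖ ^ 2 ≤ ∑ i, ‖y i‖ ^ 2) (i : m) :
    ∑ j, ‖X i j‖ ^ 2 ≤ 1 := by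
  have := var_col Xᴴ h i
  simpa [Matrix.conjTranspose_apply] using this

/-- the trace as a double sum -/
private theorem var_tr (A B : Matrix m m ℂ) :
    Matrix.trace (A * B) = ∑ i, ∑ j, A i j * B j i := by
  simp [Matrix.trace, Matrix.mul_apply]

private theorem var_Qf (M : Matrix m n ℂ) (U : Matrix m m ℂ) (hU : Uᴴ * U = 1)
    (hU2 : U * Uᴴ = 1) (g : m → ℝ) (a : Matrix m m ℂ) (b : Matrix n n ℂ) :
    Qf M (U * Matrix.diagonal (fun i => (g i : ℂ)) * Uᴴ) a b =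
      - (1 / 2 : ℂ) * ∑ i, ∑ j, ((g i - g j : ℝ) : ℂ) ^ 2 * (Uᴴ * a * U) i j *
        (Uᴴ * M * b * (Uᴴ * M)ᴴ) j i := by
  set D : Matrix m m ℂ := Matrix.diagonal (fun i => (g i : ℂ)) with hD
  have hDh : Dᴴ = D := by
    rw [hD, Matrix.diagonal_conjTranspose]
    congr 1
    funext i
    simp
  set B := Uᴴ * M * b * (Uᴴ * M)ᴴ with hB
  set A := Uᴴ * a * U with hA
  have hUa : ∀ X : Matrix m m ℂ, Uᴴ * (U * X) = X := by
    intro X
    rw [← Matrix.mul_assoc, hU, Matrix.one_mul]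
  have hUm : ∀ X : Matrix m n ℂ, Uᴴ * (U * X) = X := by
    intro X
    rw [← Matrix.mul_assoc, hU, Matrix.one_mul]
  have hUm2 : ∀ X : Matrix m n ℂ, U * (Uᴴ * X) = X := by
    intro X
    rw [← Matrix.mul_assoc, hU2, Matrix.one_mul]
  have e1 : Matrix.trace ((U * D * Uᴴ * M)ᴴ * a * (U * D * Uᴴ * M) * b) =
      Matrix.trace ((D * A * D) * B) := by
    have : (U * D * Uᴴ * M)ᴴ * a * (U * D * Uᴴ * M) * b =
        (Uᴴ * M)ᴴ * (D * A * D * (Uᴴ * M * b)) := by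
      simp only [hA, Matrix.conjTranspose_mul, Matrix.conjTranspose_conjTranspose, hDh,
        Matrix.mul_assoc]
    rw [this, Matrix.trace_mul_comm]
    congr 1
    simp only [hB, Matrix.mul_assoc]
  have e2 : Matrix.trace ((U * D * Uᴴ * (U * D * Uᴴ) * M)ᴴ * a * M * b) =
      Matrix.trace ((D * D * A) * B) := by
    have : (U * D * Uᴴ * (U * D * Uᴴ) * M)ᴴ * a * M * b =
        (Uᴴ * M)ᴴ * (D * D * A * (Uᴴ * M * b)) := by
      simp only [hA, Matrix.conjTranspose_mul, Matrix.conjTranspose_conjTranspose, hDh,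
        Matrix.mul_assoc]
      rw [hUm2 (M * b)]
      congr 3
      rw [← Matrix.mul_assoc Uᴴ U, hU, Matrix.one_mul]
    rw [this, Matrix.trace_mul_comm]
    congr 1
    simp only [hB, Matrix.mul_assoc]
  have e3 : Matrix.trace (Mᴴ * a * (U * D * Uᴴ * (U * D * Uᴴ) * M) * b) =
      Matrix.trace ((A * (D * D)) * B) := by
    have : Mᴴ * a * (U * D * Uᴴ * (U * D * Uᴴ) * M) * b =
        (Uᴴ * M)ᴴ * (A * (D * D) * (Uᴴ * M * b)) := by
      simp only [hA, Matrix.conjTranspose_mul, Matrix.conjTranspose_conjTranspose,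
        Matrix.mul_assoc]
      rw [← Matrix.mul_assoc U Uᴴ (a * _), hU2, Matrix.one_mul]
      congr 4
      rw [← Matrix.mul_assoc Uᴴ U, hU, Matrix.one_mul]
    rw [this, Matrix.trace_mul_comm]
    congr 1
    simp only [hB, Matrix.mul_assoc]
  unfold Qf
  rw [e1, e2, e3, var_tr, var_tr, var_tr]
  have d1 : ∀ i j, (D * A * D) i j = (g i : ℂ) * A i j * (g j : ℂ) := by
    intro i j
    rw [hD, Matrix.mul_diagonal, Matrix.diagonal_mul]
  have d2 : ∀ i j, (D * D * A) i j = (g i : ℂ) * (g i : ℂ) * A i j := by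
    intro i j
    rw [Matrix.mul_assoc, hD, Matrix.diagonal_mul, Matrix.diagonal_mul]
    ring
  have d3 : ∀ i j, (A * (D * D)) i j = A i j * (g j : ℂ) * (g j : ℂ) := by
    intro i j
    rw [← Matrix.mul_assoc, hD, Matrix.mul_diagonal, Matrix.mul_diagonal]
  simp only [d1, d2, d3, Finset.sum_div, Finset.mul_sum, ← Finset.sum_sub_distrib]
  refine Finset.sum_congr rfl fun i _ => Finset.sum_congr rfl fun j _ => ?_
  push_cast
  ring

/-- the scalar inequality -/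
private theorem var_sc {κ : ℝ} {G W : ℝ → ℝ} (hκ : 0 ≤ κ) (hW : ∀ x, 0 ≤ x → 0 ≤ W x)
    (hG : ∀ x y : ℝ, 0 < x → 0 < y →
      Real.sqrt (x * y) * (G x - G y) ^ 2 ≤ 2 * κ * (W x + W y))
    {x y p q : ℝ} (hx : 0 ≤ x) (hy : 0 ≤ y) (hp : 0 ≤ p) (hq : 0 ≤ q) :
    (G x - G y) ^ 2 * p * (Real.sqrt x * Real.sqrt y * q) ≤
      κ * (W x + W y) * (p ^ 2 + q ^ 2) := by
  have hR : 0 ≤ κ * (W x + W y) * (p ^ 2 + q ^ 2) :=
    mul_nonneg (mul_nonneg hκ (add_nonneg (hW x hx) (hW y hy))) (by positivity)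
  rcases hx.eq_or_lt with h0 | h0
  · rw [← h0] at hR ⊢
    simpa using hR
  rcases hy.eq_or_lt with h1 | h1
  · rw [← h1] at hR ⊢
    simpa using hR
  have h4 := hG x y h0 h1
  rw [Real.sqrt_mul hx] at h4
  have h5 : p * q ≤ (p ^ 2 + q ^ 2) / 2 := by nlinarith [sq_nonneg (p - q)]
  have h6 : 0 ≤ 2 * κ * (W x + W y) :=
    mul_nonneg (by linarith) (add_nonneg (hW x hx) (hW y hy))
  calc (G x - G y) ^ 2 * p * (Real.sqrt x * Real.sqrt y * q) =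
      (Real.sqrt x * Real.sqrt y * (G x - G y) ^ 2) * (p * q) := by ring
    _ ≤ (2 * κ * (W x + W y)) * (p * q) := mul_le_mul_of_nonneg_right h4 (mul_nonneg hp hq)
    _ ≤ (2 * κ * (W x + W y)) * ((p ^ 2 + q ^ 2) / 2) := mul_le_mul_of_nonneg_left h5 h6
    _ = κ * (W x + W y) * (p ^ 2 + q ^ 2) := by ring

theorem Qf_boundW (M : Matrix m n ℂ) {κ : ℝ} {G W : ℝ → ℝ} (hκ : 0 ≤ κ)
    (hW : ∀ x, 0 ≤ x → 0 ≤ W x) (hG : ∀ x y : ℝ, 0 < x → 0 < y →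
      Real.sqrt (x * y) * (G x - G y) ^ 2 ≤ 2 * κ * (W x + W y))
    {a : Matrix m m ℂ} {b : Matrix n n ℂ} (ha : Con a) (hb : Con b) :
    ‖Qf M (cfc G (M * Mᴴ)) a b‖ ≤ 2 * κ *
      ∑ i, W ((Matrix.isHermitian_mul_conjTranspose_self M).eigenvalues i) := by
  have hρ := Matrix.isHermitian_mul_conjTranspose_self M
  set lam := hρ.eigenvalues with hlam
  set U : Matrix m m ℂ := (hρ.eigenvectorUnitary : Matrix m m ℂ) with hUdef
  have hU : Uᴴ * U = 1 := by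
    have := Matrix.mem_unitaryGroup_iff'.1 hρ.eigenvectorUnitary.2
    simpa [Matrix.star_eq_conjTranspose] using this
  have hU2 : U * Uᴴ = 1 := by
    have := Matrix.mem_unitaryGroup_iff.1 hρ.eigenvectorUnitary.2
    simpa [Matrix.star_eq_conjTranspose] using this
  have hc : cfc G (M * Mᴴ) = U * Matrix.diagonal (fun i => ((G (lam i) : ℝ) : ℂ)) * Uᴴ := by
    rw [hρ.cfc_eq, Matrix.IsHermitian.cfc, Unitary.conjStarAlgAut_apply]
    rfl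
  have hsp : M * Mᴴ = U * Matrix.diagonal (fun i => ((lam i : ℝ) : ℂ)) * Uᴴ := by
    conv_lhs => rw [hρ.spectral_theorem, Unitary.conjStarAlgAut_apply]
    rfl
  set M' := Uᴴ * M with hM'
  have hMM : M' * M'ᴴ = Matrix.diagonal (fun i => ((lam i : ℝ) : ℂ)) := by
    rw [hM', Matrix.conjTranspose_mul, Matrix.conjTranspose_conjTranspose]
    rw [show Uᴴ * M * (Mᴴ * U) = Uᴴ * (M * Mᴴ) * U by simp only [Matrix.mul_assoc], hsp]
    rw [show Uᴴ * (U * Matrix.diagonal (fun i => ((lam i : ℝ) : ℂ)) * Uᴴ) * U =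
      (Uᴴ * U) * Matrix.diagonal (fun i => ((lam i : ℝ) : ℂ)) * (Uᴴ * U) by
      simp only [Matrix.mul_assoc], hU, Matrix.one_mul, Matrix.mul_one]
  have hrow : ∀ i, ∑ k, ‖M' i k‖ ^ 2 = lam i := by
    intro i
    have h1 := congrFun (congrFun hMM i) i
    rw [Matrix.diagonal_apply_eq, Matrix.mul_apply] at h1
    have h2 : ((∑ k, ‖M' i k‖ ^ 2 : ℝ) : ℂ) = ((lam i : ℝ) : ℂ) := by
      rw [← h1]
      push_cast
      refine Finset.sum_congr rfl fun k _ => ?_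
      rw [Matrix.conjTranspose_apply, RCLike.star_def, Complex.mul_conj']
    exact_mod_cast h2
  have hpos : ∀ i, 0 ≤ lam i := fun i => by
    rw [← hrow i]
    exact Finset.sum_nonneg fun k _ => sq_nonneg _
  -- the normalised rows
  set N : Matrix m n ℂ := Matrix.of fun i k => (((Real.sqrt (lam i))⁻¹ : ℝ) : ℂ) * M' i k with hN
  have hMN : ∀ i k, M' i k = ((Real.sqrt (lam i) : ℝ) : ℂ) * N i k := by
    intro i k
    rcases (hpos i).eq_or_lt with h0 | h0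
    · have h1 : ‖M' i k‖ ^ 2 ≤ 0 := by
        rw [h0, ← hrow i]
        exact Finset.single_le_sum (f := fun k => ‖M' i k‖ ^ 2) (fun k _ => sq_nonneg _)
          (Finset.mem_univ k)
      have h2 : M' i k = 0 := by
        have := pow_eq_zero_iff (two_ne_zero) |>.1 (le_antisymm h1 (sq_nonneg _))
        exact norm_eq_zero.1 this
      rw [h2, ← h0]
      simp
    · have h1 : Real.sqrt (lam i) ≠ 0 := (Real.sqrt_pos.2 h0).ne'
      rw [hN, Matrix.of_apply, ← mul_assoc, ← Complex.ofReal_mul, mul_inv_cancel₀ h1]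
      simp
  have hNN : N * Nᴴ = Matrix.diagonal
      (fun i => (((Real.sqrt (lam i))⁻¹ ^ 2 * lam i : ℝ) : ℂ)) := by
    ext i j
    have h1 := congrFun (congrFun hMM i) j
    rw [Matrix.mul_apply] at h1
    rw [Matrix.mul_apply]
    have h2 : ∀ k, N i k * Nᴴ k j = (((Real.sqrt (lam i))⁻¹ : ℝ) : ℂ) *
        (((Real.sqrt (lam j))⁻¹ : ℝ) : ℂ) * (M' i k * M'ᴴ k j) := by
      intro k
      rw [Matrix.conjTranspose_apply, Matrix.conjTranspose_apply, hN, Matrix.of_apply,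
        Matrix.of_apply, star_mul']
      simp only [RCLike.star_def, Complex.conj_ofReal]
      ring
    simp only [h2, ← Finset.mul_sum, h1]
    by_cases hij : i = j
    · subst hij
      rw [Matrix.diagonal_apply_eq, Matrix.diagonal_apply_eq]
      push_cast
      ring
    · rw [Matrix.diagonal_apply_ne _ hij, Matrix.diagonal_apply_ne _ hij, mul_zero]
  have hle : ∀ i, (Real.sqrt (lam i))⁻¹ ^ 2 * lam i ≤ 1 := by
    intro i
    rcases (hpos i).eq_or_lt with h0 | h0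
    · rw [← h0]
      simp
    · rw [inv_pow, Real.sq_sqrt (hpos i), inv_mul_cancel₀ h0.ne']
  have hN2 : ∀ y : m → ℂ, ∑ j, ‖(Nᴴ *ᵥ y) j‖ ^ 2 ≤ ∑ i, ‖y i‖ ^ 2 := by
    intro y
    have h1 := var_nsq (Nᴴ *ᵥ y)
    rw [Matrix.star_mulVec, Matrix.conjTranspose_conjTranspose, ← Matrix.dotProduct_mulVec,
      Matrix.mulVec_mulVec, hNN] at h1
    have h2 : star y ⬝ᵥ (Matrix.diagonal
        (fun i => (((Real.sqrt (lam i))⁻¹ ^ 2 * lam i : ℝ) : ℂ)) *ᵥ y) =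
        ((∑ i, (Real.sqrt (lam i))⁻¹ ^ 2 * lam i * ‖y i‖ ^ 2 : ℝ) : ℂ) := by
      rw [dotProduct]
      push_cast
      refine Finset.sum_congr rfl fun i _ => ?_
      rw [Matrix.mulVec_diagonal, Pi.star_apply, RCLike.star_def, ← Complex.conj_mul']
      push_cast
      ring
    rw [h2] at h1
    have h3 : ∑ j, ‖(Nᴴ *ᵥ y) j‖ ^ 2 = ∑ i, (Real.sqrt (lam i))⁻¹ ^ 2 * lam i * ‖y i‖ ^ 2 := by
      exact_mod_cast h1
    rw [h3]
    refine Finset.sum_le_sum fun i _ => ?_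
    have := mul_le_mul_of_nonneg_right (hle i) (sq_nonneg ‖y i‖)
    linarith
  have hN1 := var_adj N hN2
  -- the contractions
  have hUh : ∀ y : m → ℂ, ∑ j, ‖(Uᴴ *ᵥ y) j‖ ^ 2 ≤ ∑ i, ‖y i‖ ^ 2 := by
    intro y
    have h1 := var_nsq (Uᴴ *ᵥ y)
    rw [Matrix.star_mulVec, Matrix.conjTranspose_conjTranspose, ← Matrix.dotProduct_mulVec,
      Matrix.mulVec_mulVec, hU2, Matrix.one_mulVec, ← var_nsq] at h1
    have h2 : ∑ j, ‖(Uᴴ *ᵥ y) j‖ ^ 2 = ∑ i, ‖y i‖ ^ 2 := by exact_mod_cast h1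
    exact h2.le
  have hUc := var_adj U hUh
  set A := Uᴴ * a * U with hA
  set β := N * b * Nᴴ with hβ
  have hA1 : ∀ x : m → ℂ, ∑ i, ‖(A *ᵥ x) i‖ ^ 2 ≤ ∑ j, ‖x j‖ ^ 2 := by
    intro x
    have h1 : A *ᵥ x = Uᴴ *ᵥ (a *ᵥ (U *ᵥ x)) := by
      rw [hA, Matrix.mulVec_mulVec, Matrix.mulVec_mulVec, Matrix.mul_assoc]
    rw [h1]
    exact (hUh _).trans ((ha.1 _).trans (hUc _))
  have hA2 : ∀ x : m → ℂ, ∑ i, ‖(Aᴴ *ᵥ x) i‖ ^ 2 ≤ ∑ j, ‖x j‖ ^ 2 := by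
    intro x
    have h1 : Aᴴ *ᵥ x = Uᴴ *ᵥ (aᴴ *ᵥ (U *ᵥ x)) := by
      rw [hA, Matrix.mulVec_mulVec, Matrix.mulVec_mulVec, Matrix.conjTranspose_mul,
        Matrix.conjTranspose_mul, Matrix.conjTranspose_conjTranspose, Matrix.mul_assoc]
    rw [h1]
    exact (hUh _).trans ((ha.2 _).trans (hUc _))
  have hB1 : ∀ x : m → ℂ, ∑ i, ‖(β *ᵥ x) i‖ ^ 2 ≤ ∑ j, ‖x j‖ ^ 2 := by
    intro x
    have h1 : β *ᵥ x = N *ᵥ (b *ᵥ (Nᴴ *ᵥ x)) := by
      rw [hβ, Matrix.mulVec_mulVec, Matrix.mulVec_mulVec, Matrix.mul_assoc]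
    rw [h1]
    exact (hN1 _).trans ((hb.1 _).trans (hN2 _))
  have hB2 : ∀ x : m → ℂ, ∑ i, ‖(βᴴ *ᵥ x) i‖ ^ 2 ≤ ∑ j, ‖x j‖ ^ 2 := by
    intro x
    have h1 : βᴴ *ᵥ x = N *ᵥ (bᴴ *ᵥ (Nᴴ *ᵥ x)) := by
      rw [hβ, Matrix.mulVec_mulVec, Matrix.mulVec_mulVec, Matrix.conjTranspose_mul,
        Matrix.conjTranspose_mul, Matrix.conjTranspose_conjTranspose, Matrix.mul_assoc]
    rw [h1]
    exact (hN1 _).trans ((hb.2 _).trans (hN2 _))
  have hBe : ∀ i j, (M' * b * M'ᴴ) j i =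
      ((Real.sqrt (lam j) : ℝ) : ℂ) * ((Real.sqrt (lam i) : ℝ) : ℂ) * β j i := by
    intro i j
    have h1 : M' = Matrix.diagonal (fun i => ((Real.sqrt (lam i) : ℝ) : ℂ)) * N := by
      ext p q
      rw [Matrix.diagonal_mul, hMN]
    have h2 : (Matrix.diagonal (fun i => ((Real.sqrt (lam i) : ℝ) : ℂ)))ᴴ =
        Matrix.diagonal (fun i => ((Real.sqrt (lam i) : ℝ) : ℂ)) := by
      rw [Matrix.diagonal_conjTranspose]
      congr 1
      funext i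
      simp
    rw [h1, Matrix.conjTranspose_mul, h2]
    rw [show Matrix.diagonal (fun i => ((Real.sqrt (lam i) : ℝ) : ℂ)) * N * b *
        (Nᴴ * Matrix.diagonal (fun i => ((Real.sqrt (lam i) : ℝ) : ℂ))) =
        Matrix.diagonal (fun i => ((Real.sqrt (lam i) : ℝ) : ℂ)) * β *
        Matrix.diagonal (fun i => ((Real.sqrt (lam i) : ℝ) : ℂ)) by
      simp only [hβ, Matrix.mul_assoc], Matrix.mul_diagonal, Matrix.diagonal_mul]
    ring
  rw [hc, var_Qf M U hU hU2, norm_mul]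
  have hhalf : ‖(-(1 / 2) : ℂ)‖ = 1 / 2 := by
    rw [norm_neg]
    norm_num
  rw [hhalf]
  set w : m → ℝ := fun i => W (lam i) with hw
  have hw0 : ∀ i, 0 ≤ w i := fun i => hW _ (hpos i)
  have hterm : ∀ i j, ‖((G (lam i) - G (lam j) : ℝ) : ℂ) ^ 2 * A i j * (M' * b * M'ᴴ) j i‖ ≤
      κ * (w i + w j) * (‖A i j‖ ^ 2 + ‖β j i‖ ^ 2) := by
    intro i j
    have h1 := var_sc hκ hW hG (hpos i) (hpos j) (norm_nonneg (A i j)) (norm_nonneg (β j i))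
    rw [hBe, norm_mul, norm_mul, norm_pow, Complex.norm_real, norm_mul, norm_mul,
      Complex.norm_real, Complex.norm_real, Real.norm_eq_abs, sq_abs, Real.norm_eq_abs,
      Real.norm_eq_abs, abs_of_nonneg (Real.sqrt_nonneg _), abs_of_nonneg (Real.sqrt_nonneg _)]
    calc _ = (G (lam i) - G (lam j)) ^ 2 * ‖A i j‖ *
        (Real.sqrt (lam i) * Real.sqrt (lam j) * ‖β j i‖) := by ring
      _ ≤ _ := h1
  have hsum : ‖∑ i, ∑ j, ((G (lam i) - G (lam j) : ℝ) : ℂ) ^ 2 * A i j *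
      (M' * b * M'ᴴ) j i‖ ≤ ∑ i, ∑ j, κ * (w i + w j) * (‖A i j‖ ^ 2 + ‖β j i‖ ^ 2) := by
    refine (norm_sum_le _ _).trans (Finset.sum_le_sum fun i _ => ?_)
    exact (norm_sum_le _ _).trans (Finset.sum_le_sum fun j _ => hterm i j)
  have hrowA : ∀ i, ∑ j, (‖A i j‖ ^ 2 + ‖β j i‖ ^ 2) ≤ 2 := by
    intro i
    rw [Finset.sum_add_distrib]
    have := var_row A hA2 i
    have := var_col β hB1 i
    linarith
  have hcolA : ∀ j, ∑ i, (‖A i j‖ ^ 2 + ‖β j i‖ ^ 2) ≤ 2 := by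
    intro j
    rw [Finset.sum_add_distrib]
    have := var_col A hA1 j
    have := var_row β hB2 j
    linarith
  have htot : ∑ i, ∑ j, κ * (w i + w j) * (‖A i j‖ ^ 2 + ‖β j i‖ ^ 2) ≤ 4 * κ * ∑ i, w i := by
    have h1 : ∑ i, ∑ j, κ * (w i + w j) * (‖A i j‖ ^ 2 + ‖β j i‖ ^ 2) =
        κ * (∑ i, w i * ∑ j, (‖A i j‖ ^ 2 + ‖β j i‖ ^ 2)) +
        κ * (∑ j, w j * ∑ i, (‖A i j‖ ^ 2 + ‖β j i‖ ^ 2)) := by
      have h2 : ∑ j, w j * ∑ i, (‖A i j‖ ^ 2 + ‖β j i‖ ^ 2) =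
          ∑ i, ∑ j, w j * (‖A i j‖ ^ 2 + ‖β j i‖ ^ 2) := by
        rw [Finset.sum_comm]
        exact Finset.sum_congr rfl fun j _ => Finset.mul_sum _ _ _
      rw [h2]
      simp only [Finset.mul_sum, ← Finset.sum_add_distrib]
      refine Finset.sum_congr rfl fun i _ => Finset.sum_congr rfl fun j _ => ?_
      ring
    rw [h1]
    have h3 : ∑ i, w i * ∑ j, (‖A i j‖ ^ 2 + ‖β j i‖ ^ 2) ≤ (∑ i, w i) * 2 := by
      rw [Finset.sum_mul]
      exact Finset.sum_le_sum fun i _ => mul_le_mul_of_nonneg_left (hrowA i) (hw0 i)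
    have h4 : ∑ j, w j * ∑ i, (‖A i j‖ ^ 2 + ‖β j i‖ ^ 2) ≤ (∑ i, w i) * 2 := by
      rw [Finset.sum_mul]
      exact Finset.sum_le_sum fun i _ => mul_le_mul_of_nonneg_left (hcolA i) (hw0 i)
    nlinarith
  calc 1 / 2 * ‖∑ i, ∑ j, ((G (lam i) - G (lam j) : ℝ) : ℂ) ^ 2 * A i j *
      (M' * b * M'ᴴ) j i‖ ≤ 1 / 2 * (4 * κ * ∑ i, w i) :=
        mul_le_mul_of_nonneg_left (hsum.trans htot) (by norm_num)
    _ = 2 * κ * ∑ i, w i := by ring

end Pool.Agent.AL
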