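import Pool.Agent.AL.Poin
import Pool.Agent.AL.VarW

/-!
# Poincaré inequality for the entanglement spectrum, with a general weight
-/


namespace Pool.Agent.AL

open scoped Matrix ComplexOrder

section
variable {V : Type} [Fintype V] [DecidableEq V] {d : ℕ}

private theorem ip_star (φ ψ : (V → Fin d) → ℂ) : star (ip φ ψ) = ip ψ φ := by
  unfold ip
  rw [star_sum]
  refine Finset.sum_congr rfl fun σ _ => ?_
  rw [star_mul, star_star]

private theorem ip_add_right (φ ψ χ : (V → Fin d) → ℂ) : ip φ (ψ + χ) = ip φ ψ + ip φ χ := by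
  unfold ip
  rw [← Finset.sum_add_distrib]
  exact Finset.sum_congr rfl fun σ _ => by rw [Pi.add_apply, mul_add]

private theorem ip_smul_right (z : ℂ) (φ ψ : (V → Fin d) → ℂ) : ip φ (z • ψ) = z * ip φ ψ := by
  unfold ip
  rw [Finset.mul_sum]
  exact Finset.sum_congr rfl fun σ _ => by rw [Pi.smul_apply, smul_eq_mul]; ring

private theorem ip_add_left (φ ψ χ : (V → Fin d) → ℂ) : ip (φ + ψ) χ = ip φ χ + ip ψ χ := by
  rw [← ip_star, ip_add_right, star_add, ip_star, ip_star]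

private theorem ip_smul_left (z : ℂ) (φ ψ : (V → Fin d) → ℂ) :
    ip (z • φ) ψ = star z * ip φ ψ := by
  rw [← ip_star, ip_smul_right, star_mul, ip_star, mul_comm]

private theorem ip_self (φ : (V → Fin d) → ℂ) : ip φ φ = ((∑ σ, ‖φ σ‖ ^ 2 : ℝ) : ℂ) := by
  unfold ip
  rw [Complex.ofReal_sum]
  refine Finset.sum_congr rfl fun σ _ => ?_
  rw [mul_comm, Complex.star_def, Complex.mul_conj, Complex.normSq_eq_norm_sq]

private theorem ip_mulVec (H : Matrix (V → Fin d) (V → Fin d) ℂ) (φ ψ : (V → Fin d) → ℂ) :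
    ip φ (H *ᵥ ψ) = ∑ σ, ∑ τ, star (φ σ) * (H σ τ * ψ τ) := by
  unfold ip
  refine Finset.sum_congr rfl fun σ _ => ?_
  rw [Matrix.mulVec, dotProduct, Finset.mul_sum]

private theorem ip_herm {H : Matrix (V → Fin d) (V → Fin d) ℂ} (hH : H.IsHermitian)
    (φ ψ : (V → Fin d) → ℂ) : star (ip φ (H *ᵥ ψ)) = ip ψ (H *ᵥ φ) := by
  rw [ip_mulVec, ip_mulVec, star_sum]
  simp_rw [star_sum]
  rw [Finset.sum_comm]
  refine Finset.sum_congr rfl fun σ _ => Finset.sum_congr rfl fun τ _ => ?_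
  rw [star_mul, star_mul, star_star, ← hH.apply σ τ]
  ring

end

theorem poincareW {L : ℕ} [NeZero L] {d : ℕ} {Ω : Finset (ℤ × ℤ)}
    {h : Matrix (Ω → Fin d) (Ω → Fin d) ℂ} (hh : h.IsHermitian) {ψ : (Tor L → Fin d) → ℂ}
    {E Δ : ℝ} (hΔ : 0 < Δ) (hg : GS (ham Ω h L) ψ E Δ) (A : Finset (Tor L))
    {κ : ℝ} {G W : ℝ → ℝ} (hκ : 0 ≤ κ) (hW : ∀ x, 0 ≤ x → 0 ≤ W x)
    (hG : ∀ x y : ℝ, 0 < x → 0 < y →
      Real.sqrt (x * y) * (G x - G y) ^ 2 ≤ 2 * κ * (W x + W y)) :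
    ∑ i, (rdm_isHermitian A ψ).eigenvalues i * G ((rdm_isHermitian A ψ).eigenvalues i) ^ 2 -
      (∑ i, (rdm_isHermitian A ψ).eigenvalues i *
        G ((rdm_isHermitian A ψ).eigenvalues i)) ^ 2 ≤
      κ * (2 * NN Ω * hN h * bdry A / Δ) *
        ∑ i, W ((rdm_isHermitian A ψ).eigenvalues i) := by
  classical
  have hH : (ham Ω h L).IsHermitian := ham_isHermitian hh
  set M := mat A ψ with hM
  set ρ := rdm A ψ with hρ
  have hρM : ρ = M * Mᴴ := rfl
  have hρh : ρ.IsHermitian := rdm_isHermitian A ψ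
  set Γ := cfc G ρ with hΓdef
  have hΓ : Γ.IsHermitian := cfc_predicate G ρ
  have hcont : ∀ f : ℝ → ℝ, ContinuousOn f (spectrum ℝ ρ) := fun f =>
    (Matrix.finite_real_spectrum (A := ρ)).continuousOn f
  have hid : cfc (fun x : ℝ => x) ρ = ρ := cfc_id' ℝ ρ
  have hmul1 : cfc (fun x => x * G x) ρ = ρ * Γ := by
    rw [cfc_mul (fun x : ℝ => x) G ρ (hcont _) (hcont _), hid]
  have hmul1' : cfc (fun x => x * G x) ρ = Γ * ρ := by
    have : (fun x : ℝ => x * G x) = fun x => G x * x := by funext x; ring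
    rw [this, cfc_mul G (fun x : ℝ => x) ρ (hcont _) (hcont _), hid]
  have hcomm : Γ * ρ = ρ * Γ := by rw [← hmul1', hmul1]
  have hmul2 : cfc (fun x => x * G x ^ 2) ρ = Γ * (ρ * Γ) := by
    have : (fun x : ℝ => x * G x ^ 2) = fun x => G x * (x * G x) := by funext x; ring
    rw [this, cfc_mul G (fun x : ℝ => x * G x) ρ (hcont _) (hcont _), hmul1]
  -- the vectors
  set φ := act A Γ ψ with hφ
  set ω := act A (Γ * Γ) ψ with hω
  have hmφ : mat A φ = Γ * M := mat_act A Γ ψ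
  have hmω : mat A ω = Γ * Γ * M := mat_act A (Γ * Γ) ψ
  -- traces
  have htr1 : ip ψ φ = Matrix.trace (cfc (fun x => x * G x) ρ) := by
    rw [ip_mat A, hmφ, hmul1', hρM, ← hM, Matrix.trace_mul_comm Mᴴ (Γ * M), Matrix.mul_assoc]
  have htr2 : ip φ φ = Matrix.trace (cfc (fun x => x * G x ^ 2) ρ) := by
    rw [ip_mat A, hmφ, hmul2, Matrix.conjTranspose_mul, hΓ.eq, hρM,
      Matrix.trace_mul_comm (Mᴴ * Γ) (Γ * M)]
    simp only [Matrix.mul_assoc]
  have htr3 : ip ω ψ = ip φ φ := by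
    rw [ip_mat A, ip_mat A, hmφ, hmω, ← hM, Matrix.conjTranspose_mul, Matrix.conjTranspose_mul,
      Matrix.conjTranspose_mul, hΓ.eq]
    simp only [Matrix.mul_assoc]
  set lam := (rdm_isHermitian A ψ).eigenvalues with hlam
  have hn1 : (∑ σ, ‖φ σ‖ ^ 2 : ℝ) = ∑ i, lam i * G (lam i) ^ 2 := by
    have h1 := trf_eq hρh (fun x => x * G x ^ 2)
    unfold trf at h1
    rw [← htr2, ip_self, Complex.ofReal_re] at h1
    exact h1
  have hn2 : ip ψ φ = ((∑ i, lam i * G (lam i) : ℝ) : ℂ) := by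
    have h1 := trf_eq hρh (fun x => x * G x)
    unfold trf at h1
    rw [← htr1] at h1
    have h2 : star (ip ψ φ) = ip ψ φ := by
      rw [htr1, ← Matrix.trace_conjTranspose]
      have h3 : (cfc (fun x => x * G x) ρ).IsHermitian := cfc_predicate _ ρ
      rw [h3.eq]
    have h3 : ip ψ φ = (((ip ψ φ).re : ℝ) : ℂ) := by
      exact (Complex.conj_eq_iff_re.mp h2).symm
    rw [h3, h1]
  -- energy
  have hen := energy hH hg φ
  have hE := hg.2.1
  set H := ham Ω h L with hHdef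
  have hω1 : ip ω (H *ᵥ ψ) = ((E * ∑ σ, ‖φ σ‖ ^ 2 : ℝ) : ℂ) := by
    rw [hE, ip_smul_right, htr3, ip_self]
    push_cast
    ring
  have hω2 : ip ψ (H *ᵥ ω) = ((E * ∑ σ, ‖φ σ‖ ^ 2 : ℝ) : ℂ) := by
    rw [← ip_herm hH, hω1, Complex.star_def, Complex.conj_ofReal]
  -- decomposition
  have hsum : ∀ α β : (Tor L → Fin d) → ℂ,
      ip α (H *ᵥ β) = ∑ v : Tor L, ip α (place Ω h L v *ᵥ β) := by
    intro α β
    rw [hHdef]
    unfold ham ip
    rw [Finset.sum_comm]
    refine Finset.sum_congr rfl fun σ _ => ?_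
    rw [← Finset.mul_sum]
    congr 1
    rw [Matrix.sum_mulVec, Finset.sum_apply]
  set S : ℝ := ∑ i, W (lam i) with hS
  have hS0 : 0 ≤ S := by
    refine Finset.sum_nonneg fun i _ => hW _ ?_
    exact (Matrix.posSemidef_self_mul_conjTranspose (mat A ψ)).eigenvalues_nonneg i
  have hN0 : 0 ≤ hN h := Finset.sum_nonneg fun s _ => Finset.sum_nonneg fun t _ => norm_nonneg _
  set T : Tor L → ℂ := fun v => ip φ (place Ω h L v *ᵥ φ) - ip ω (place Ω h L v *ᵥ ψ) / 2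
    - ip ψ (place Ω h L v *ᵥ ω) / 2 with hT
  have hTsum : (ip φ (H *ᵥ φ)).re - E * ∑ σ, ‖φ σ‖ ^ 2 = (∑ v, T v).re := by
    have h1 : ∑ v, T v = ip φ (H *ᵥ φ) - ip ω (H *ᵥ ψ) / 2 - ip ψ (H *ᵥ ω) / 2 := by
      rw [hsum, hsum, hsum, hT, Finset.sum_sub_distrib, Finset.sum_sub_distrib,
        Finset.sum_div, Finset.sum_div]
    rw [h1, hω1, hω2]
    have h2 : ((E * ∑ σ, ‖φ σ‖ ^ 2 : ℝ) : ℂ) / 2 = (((E * ∑ σ, ‖φ σ‖ ^ 2) / 2 : ℝ) : ℂ) := by
      push_cast
      ring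
    rw [h2, Complex.sub_re, Complex.sub_re, Complex.ofReal_re]
    ring
  have hTQ : ∀ v, ‖T v‖ ≤ if (∃ x ∈ Ω, v + red L x ∈ A) ∧ ∃ y ∈ Ω, v + red L y ∉ A then
      hN h * (2 * κ * S) else 0 := by
    intro v
    obtain ⟨a, b, hab, hpl, hb1, ha1⟩ := place_decomp Ω h v A
    have h1 : T v = ∑ s, ∑ t, h s t * Qf M Γ (a s t) (b s t) := by
      rw [hT]
      simp only
      rw [hpl, hpl, hpl, Finset.sum_div, Finset.sum_div, ← Finset.sum_sub_distrib,
        ← Finset.sum_sub_distrib]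
      refine Finset.sum_congr rfl fun s _ => ?_
      rw [Finset.sum_div, Finset.sum_div, ← Finset.sum_sub_distrib, ← Finset.sum_sub_distrib]
      refine Finset.sum_congr rfl fun t _ => ?_
      unfold Qf
      rw [hmφ, hmω, ← hM]
      ring
    split_ifs with hc
    · rw [h1]
      unfold hN
      rw [Finset.sum_mul]
      refine (norm_sum_le _ _).trans (Finset.sum_le_sum fun s _ => ?_)
      rw [Finset.sum_mul]
      refine (norm_sum_le _ _).trans (Finset.sum_le_sum fun t _ => ?_)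
      rw [norm_mul]
      exact mul_le_mul_of_nonneg_left (Qf_boundW M hκ hW hG (hab s t).1 (hab s t).2)
        (norm_nonneg _)
    · rw [h1, norm_le_zero_iff]
      refine Finset.sum_eq_zero fun s _ => Finset.sum_eq_zero fun t _ => ?_
      by_cases hin : ∃ x ∈ Ω, v + red L x ∈ A
      · have hall : ∀ x ∈ Ω, v + red L x ∈ A := by
          intro x hx
          by_contra hxA
          exact hc ⟨hin, x, hx, hxA⟩
        rw [hb1 hall s t, Qf_one_right M hΓ hcomm, mul_zero]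
      · have hall : ∀ x ∈ Ω, v + red L x ∉ A := fun x hx hxA => hin ⟨x, hx, hxA⟩
        rw [ha1 hall s t, Qf_one_left M hΓ, mul_zero]
  have hTle : (∑ v, T v).re ≤ (NN Ω * bdry A : ℕ) * (hN h * (2 * κ * S)) := by
    refine (Complex.re_le_norm _).trans ((norm_sum_le _ _).trans
      ((Finset.sum_le_sum fun v _ => hTQ v).trans ?_))
    rw [← Finset.sum_filter, Finset.sum_const, nsmul_eq_mul]
    refine mul_le_mul_of_nonneg_right ?_ (by positivity)
    exact_mod_cast cross_card Ω A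
  rw [← hTsum] at hTle
  have hfin := hen.trans hTle
  rw [hn1, hn2, Complex.norm_real, Real.norm_eq_abs, sq_abs] at hfin
  have hgoal : κ * (2 * NN Ω * hN h * bdry A / Δ) * S
      = ((NN Ω * bdry A : ℕ) * (hN h * (2 * κ * S))) / Δ := by
    push_cast
    field_simp
  rw [hgoal, le_div_iff₀ hΔ]
  linarith [hfin]

end Pool.Agent.AL
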