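import Pool.Agent.AL.Defs

/-!
# MP_f207dd_mp : matrices, definitions
-/

namespace Pool.Agent.AL

open scoped Matrix Kronecker

noncomputable section

universe u v w

section
variable {m : Type u} {n : Type v} [Fintype m] [DecidableEq m] [Fintype n] [DecidableEq n]

/-- `Tr f(ρ)` for hermitian `ρ` -/
def trf (f : ℝ → ℝ) (ρ : Matrix m m ℂ) : ℝ := (Matrix.trace (cfc f ρ)).re

omit [DecidableEq n] in
/-- the entropy of `N Nᴴ` -/
def Ent (N : Matrix m n ℂ) : ℝ :=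
  ∑ i, Real.negMulLog ((Matrix.isHermitian_mul_conjTranspose_self N).eigenvalues i)

/-- the logarithm of a positive definite matrix -/
def lg (T : Matrix m m ℂ) : Matrix m m ℂ := cfc Real.log T

/-- the relative entropy `Tr ρ (log ρ - log σ)` -/
def rel (ρ σ : Matrix m m ℂ) : ℝ := (Matrix.trace (ρ * (lg ρ - lg σ))).re

/-- trace over the first factor -/
def ptr (ρ : Matrix (m × n) (m × n) ℂ) : Matrix n n ℂ :=
  Matrix.of fun i j => ∑ x, ρ (x, i) (x, j)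

omit [DecidableEq m] [DecidableEq n] in
/-- contractions -/
def Con (X : Matrix m n ℂ) : Prop :=
  (∀ x : n → ℂ, ∑ i, ‖(X *ᵥ x) i‖ ^ 2 ≤ ∑ j, ‖x j‖ ^ 2) ∧
    ∀ y : m → ℂ, ∑ j, ‖(Xᴴ *ᵥ y) j‖ ^ 2 ≤ ∑ i, ‖y i‖ ^ 2

omit [DecidableEq n] in
/-- the form `Tr ((Γ M)ᴴ a (Γ M) b) - Tr ((Γ² M)ᴴ a M b) / 2 - Tr (Mᴴ a (Γ² M) b) / 2` -/
def Qf (M : Matrix m n ℂ) (Γ a : Matrix m m ℂ) (b : Matrix n n ℂ) : ℂ :=
  Matrix.trace ((Γ * M)ᴴ * a * (Γ * M) * b) - Matrix.trace ((Γ * Γ * M)ᴴ * a * M * b) / 2 -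
    Matrix.trace (Mᴴ * a * (Γ * Γ * M) * b) / 2

end

/-- the condition on the functions of the eigenvalues: `√(xy) (G x - G y)² ≤ κ (x + y)`, and `G` is
constant on `(0, t]` -/
def Gok (κ t : ℝ) (G : ℝ → ℝ) : Prop :=
  (∀ x y : ℝ, 0 < x → 0 < y → Real.sqrt (x * y) * (G x - G y) ^ 2 ≤ κ * (x + y)) ∧
    ∀ x y : ℝ, 0 < x → x ≤ t → 0 < y → y ≤ t → G x = G y

/-- a constant of the interaction: bound for the number of the translates of `Ω` which meet both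
sides, per boundary edge -/
def NN (Ω : Finset (ℤ × ℤ)) : ℕ :=
  ∑ x ∈ Ω, ∑ y ∈ Ω, ((x.1 - y.1).natAbs + (x.2 - y.2).natAbs)

/-- the sum of the absolute values of the entries of `h` -/
def hN {Ω : Finset (ℤ × ℤ)} {d : ℕ} (h : Matrix (Ω → Fin d) (Ω → Fin d) ℂ) : ℝ :=
  ∑ s, ∑ t, ‖h s t‖

/-- the Poincaré inequality with constant `s` for the probability vector `lam` -/
def PI {ι : Type*} [Fintype ι] (lam : ι → ℝ) (s : ℝ) : Prop := by
  classical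
  exact ∀ (κ t : ℝ) (G : ℝ → ℝ), 0 ≤ κ → 0 ≤ t → Gok κ t G →
    ∑ i, lam i * G (lam i) ^ 2 - (∑ i, lam i * G (lam i)) ^ 2 ≤
      κ * s * ∑ i ∈ Finset.univ.filter (fun i => t < lam i), lam i

end

end Pool.Agent.AL
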