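import Pool.Agent.AL.Geo

/-!
# PIECE AL-Rect: the function `F(a, b)` on rectangles

`sub`: `ssa` and `nonneg` of the intersection.
`F_add1`: `rect (a + a') b = rect a b ∪ (rect a' b + (a, 0))` and `ti`.
`F_conc1`: `ssa` for `rect (a + 1) b` and its translate by `(1, 0)`; the union is `rect (a + 2) b`,
the intersection the translate of `rect a b` by `(1, 0)`.
`F_le`: strong induction on `a + b` (Euclid): `a = b`: `c a ≤ c (2 a)`; `a < b`:
`F a b ≤ F a a + F a (b - a) ≤ c a + c (a + (b - a))`; `a = 0`: `F = 0`.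
`F_up2`: it suffices to treat one step `b → b + 1`, `n ≤ b + 1 ≤ L`: the differences
`F n (j + 1) - F n j` are antitone in `j` (by `F_conc2`), and their sum over `j ≤ b` is `F n (b + 1)`
(`F n 0 = 0`), so `(b + 1) (F n (b + 1) - F n b) ≤ F n (b + 1) ≤ c (n + b + 1) ≤ 2 c (b + 1)`.
`F_mono1`: `F a b ≤ 2 F a' b` for `a ≤ a'`, `2 a' ≤ L`: for the concave function `F(·, b)` on
`[0, L]` with `F(L, b) ≥ 0` one has `(L - a) F(a', b) ≥ (L - a') F(a, b)`, and
`2 (L - a') ≥ L ≥ L - a`.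
-/

namespace Pool.Agent.AL

variable {L : ℕ} (P : PF L)

/-! ### sets -/

private theorem Rect_sub {a b : ℕ} (ha : a ≤ L) (hb : b ≤ L) : rect a b ⊆ Box L := by
  intro p hp
  rw [mem_rect] at hp
  rw [mem_Box]
  omega

private theorem Rect_mem {a b : ℕ} {u v : ℤ} {p : Pt} :
    p ∈ (rect a b).image (· + ((u, v) : Pt)) ↔
      (u ≤ p.1 ∧ p.1 < u + a) ∧ v ≤ p.2 ∧ p.2 < v + b := by
  simp only [Finset.mem_image]
  constructor
  · rintro ⟨q, hq, rfl⟩
    rw [mem_rect] at hq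
    simp only [Prod.fst_add, Prod.snd_add]
    omega
  · intro h
    refine ⟨(p.1 - u, p.2 - v), ?_, ?_⟩
    · rw [mem_rect]
      simp only
      omega
    · ext <;> simp

private theorem Rect_img_sub {a b u v : ℕ} (hu : u + a ≤ L) (hv : v + b ≤ L) :
    (rect a b).image (· + (((u : ℤ), (v : ℤ)) : Pt)) ⊆ Box L := by
  intro p hp
  rw [Rect_mem] at hp
  rw [mem_Box]
  omega

private theorem Rect_ti {a b u v : ℕ} (hu : u + a ≤ L) (hv : v + b ≤ L) :
    P.g ((rect a b).image (· + (((u : ℤ), (v : ℤ)) : Pt))) = P.F a b :=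
  P.ti _ _ (Rect_sub (by omega) (by omega)) (Rect_img_sub hu hv)

/-! ### concave sequences -/

private theorem Rect_anti {f : ℕ → ℝ} (hf : ∀ j, j + 2 ≤ L → f (j + 2) + f j ≤ 2 * f (j + 1))
    {i j : ℕ} (hij : i ≤ j) (hj : j + 1 ≤ L) : f (j + 1) - f j ≤ f (i + 1) - f i := by
  induction j, hij using Nat.le_induction with
  | base => exact le_rfl
  | succ j hij ih =>
    have h1 := ih (by omega)
    have h2 := hf j (by omega)
    linarith

private theorem Rect_s1 {f : ℕ → ℝ} (hf : ∀ j, j + 2 ≤ L → f (j + 2) + f j ≤ 2 * f (j + 1))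
    {i j : ℕ} (hij : i ≤ j) (hj : j + 1 ≤ L) :
    ((j : ℝ) + 1 - i) * (f (j + 1) - f j) ≤ f (j + 1) - f i := by
  induction j, hij using Nat.le_induction with
  | base =>
    have : ((i : ℝ) + 1 - i) = 1 := by ring
    rw [this, one_mul]
  | succ j hij ih =>
    have h1 := ih (by omega)
    have h2 := hf j (by omega)
    have h3 : (i : ℝ) ≤ j := by exact_mod_cast hij
    have h4 : ((j : ℝ) + 1 - i) * (f (j + 1 + 1) - f (j + 1)) ≤
        ((j : ℝ) + 1 - i) * (f (j + 1) - f j) :=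
      mul_le_mul_of_nonneg_left (by linarith) (by linarith)
    push_cast
    nlinarith

private theorem Rect_s2 {f : ℕ → ℝ} (hf : ∀ j, j + 2 ≤ L → f (j + 2) + f j ≤ 2 * f (j + 1))
    {i j : ℕ} (hij : i + 1 ≤ j) (hj : j ≤ L) :
    f j - f (i + 1) ≤ ((j : ℝ) - (i + 1)) * (f (i + 1) - f i) := by
  induction j, hij using Nat.le_induction with
  | base => push_cast; simp
  | succ j hij ih =>
    have h1 := ih (by omega)
    have h2 := Rect_anti hf (show i ≤ j by omega) hj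
    push_cast
    nlinarith

private theorem Rect_key {f : ℕ → ℝ} (hf : ∀ j, j + 2 ≤ L → f (j + 2) + f j ≤ 2 * f (j + 1))
    (hL : 0 ≤ f L) {a a' : ℕ} (h : a ≤ a') (h' : a' ≤ L) :
    ((L : ℝ) - a') * f a ≤ ((L : ℝ) - a) * f a' := by
  rcases Nat.eq_or_lt_of_le h with rfl | h
  · exact le_rfl
  · obtain ⟨i, rfl⟩ : ∃ i, a' = i + 1 := ⟨a' - 1, by omega⟩
    have h1 := Rect_s1 hf (show a ≤ i by omega) h'
    have h2 := Rect_s2 hf (show i + 1 ≤ L by omega) le_rfl
    have h3 : ((i : ℝ) + 1) ≤ L := by exact_mod_cast h'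
    have h4 : (a : ℝ) ≤ i := by exact_mod_cast (show a ≤ i by omega)
    have h5 := mul_le_mul_of_nonneg_left h1 (show (0 : ℝ) ≤ (L : ℝ) - (i + 1) by linarith)
    have h6 := mul_le_mul_of_nonneg_left h2 (show (0 : ℝ) ≤ (i : ℝ) + 1 - a by linarith)
    have h7 : 0 ≤ ((i : ℝ) + 1 - a) * f L := mul_nonneg (by linarith) hL
    push_cast
    nlinarith

private theorem Rect_step {f : ℕ → ℝ} (hf : ∀ j, j + 2 ≤ L → f (j + 2) + f j ≤ 2 * f (j + 1))
    (h0 : f 0 = 0) {c : ℝ} {n : ℕ} (hc : 0 ≤ c)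
    (hb : ∀ b, b ≤ L → f b ≤ c * ((n : ℝ) + b)) {b m : ℕ} (hbm : b ≤ m) (hm : m ≤ L)
    (hn : n ≤ b + 1) : f m ≤ f b + 2 * c * ((m : ℝ) - b) := by
  induction m, hbm using Nat.le_induction with
  | base => simp
  | succ m hbm ih =>
    have h1 := ih (by omega)
    have h2 := Rect_s1 hf (Nat.zero_le m) hm
    have h3 := hb (m + 1) hm
    have h4 : (n : ℝ) ≤ (m : ℝ) + 1 := by exact_mod_cast (show n ≤ m + 1 by omega)
    have h5 : (0 : ℝ) < (m : ℝ) + 1 := by positivity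
    have h6 : f (m + 1) - f m ≤ 2 * c := by
      by_contra h7
      push Not at h7
      have h8 := mul_lt_mul_of_pos_left h7 h5
      have h9 : c * ((n : ℝ) + (m + 1)) ≤ c * (2 * ((m : ℝ) + 1)) :=
        mul_le_mul_of_nonneg_left (by linarith) hc
      push_cast at h2 h3
      rw [h0] at h2
      nlinarith
    push_cast
    nlinarith

/-! ### the inequalities -/

theorem PF.sub {K M : Finset Pt} (hK : K ⊆ Box L) (hM : M ⊆ Box L) :
    P.g (K ∪ M) ≤ P.g K + P.g M := by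
  have h1 := P.ssa K M hK hM
  have h2 := P.nonneg (K ∩ M) (Finset.inter_subset_left.trans hK)
  linarith

theorem F_zero_left (b : ℕ) : P.F 0 b = 0 := by
  have h : rect 0 b = ∅ := by simp [rect]
  rw [PF.F, h, P.empty]

theorem F_zero_right (a : ℕ) : P.F a 0 = 0 := by
  have h : rect a 0 = ∅ := by simp [rect]
  rw [PF.F, h, P.empty]

theorem F_nonneg {a b : ℕ} (ha : a ≤ L) (hb : b ≤ L) : 0 ≤ P.F a b :=
  P.nonneg _ (Rect_sub ha hb)

theorem F_add1 {a a' b : ℕ} (h : a + a' ≤ L) (hb : b ≤ L) :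
    P.F (a + a') b ≤ P.F a b + P.F a' b := by
  have h1 : rect (a + a') b =
      rect a b ∪ (rect a' b).image (· + (((a : ℤ), ((0 : ℕ) : ℤ)) : Pt)) := by
    ext p
    rw [Finset.mem_union, Rect_mem, mem_rect, mem_rect]
    push_cast
    omega
  have h2 := P.sub (Rect_sub (L := L) (a := a) (b := b) (by omega) hb)
    (Rect_img_sub (L := L) (a := a') (b := b) (u := a) (v := 0) h (by omega))
  rw [← h1, Rect_ti P h (by omega)] at h2
  exact h2

theorem F_add2 {a b b' : ℕ} (ha : a ≤ L) (h : b + b' ≤ L) :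
    P.F a (b + b') ≤ P.F a b + P.F a b' := by
  have h1 : rect a (b + b') =
      rect a b ∪ (rect a b').image (· + ((((0 : ℕ) : ℤ), (b : ℤ)) : Pt)) := by
    ext p
    rw [Finset.mem_union, Rect_mem, mem_rect, mem_rect]
    push_cast
    omega
  have h2 := P.sub (Rect_sub (L := L) (a := a) (b := b) ha (by omega))
    (Rect_img_sub (L := L) (a := a) (b := b') (u := 0) (v := b) (by omega) h)
  rw [← h1, Rect_ti P (by omega) h] at h2
  exact h2

theorem F_conc1 {a b : ℕ} (h : a + 2 ≤ L) (hb : b ≤ L) :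
    P.F (a + 2) b + P.F a b ≤ 2 * P.F (a + 1) b := by
  have h1 : rect (a + 2) b =
      rect (a + 1) b ∪ (rect (a + 1) b).image (· + ((((1 : ℕ) : ℤ), ((0 : ℕ) : ℤ)) : Pt)) := by
    ext p
    rw [Finset.mem_union, Rect_mem, mem_rect, mem_rect]
    push_cast
    omega
  have h2 : (rect a b).image (· + ((((1 : ℕ) : ℤ), ((0 : ℕ) : ℤ)) : Pt)) =
      rect (a + 1) b ∩ (rect (a + 1) b).image (· + ((((1 : ℕ) : ℤ), ((0 : ℕ) : ℤ)) : Pt)) := by
    ext p
    rw [Finset.mem_inter, Rect_mem, Rect_mem, mem_rect]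
    push_cast
    omega
  have h3 := P.ssa _ _ (Rect_sub (L := L) (a := a + 1) (b := b) (by omega) hb)
    (Rect_img_sub (L := L) (a := a + 1) (b := b) (u := 1) (v := 0) (by omega) (by omega))
  rw [← h1, ← h2, Rect_ti P (by omega) (by omega), Rect_ti P (by omega) (by omega)] at h3
  change P.F (a + 2) b + P.F a b ≤ P.F (a + 1) b + P.F (a + 1) b at h3
  linarith

theorem F_conc2 {a b : ℕ} (ha : a ≤ L) (h : b + 2 ≤ L) :
    P.F a (b + 2) + P.F a b ≤ 2 * P.F a (b + 1) := by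
  have h1 : rect a (b + 2) =
      rect a (b + 1) ∪ (rect a (b + 1)).image (· + ((((0 : ℕ) : ℤ), ((1 : ℕ) : ℤ)) : Pt)) := by
    ext p
    rw [Finset.mem_union, Rect_mem, mem_rect, mem_rect]
    push_cast
    omega
  have h2 : (rect a b).image (· + ((((0 : ℕ) : ℤ), ((1 : ℕ) : ℤ)) : Pt)) =
      rect a (b + 1) ∩ (rect a (b + 1)).image (· + ((((0 : ℕ) : ℤ), ((1 : ℕ) : ℤ)) : Pt)) := by
    ext p
    rw [Finset.mem_inter, Rect_mem, Rect_mem, mem_rect]
    push_cast
    omega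
  have h3 := P.ssa _ _ (Rect_sub (L := L) (a := a) (b := b + 1) ha (by omega))
    (Rect_img_sub (L := L) (a := a) (b := b + 1) (u := 0) (v := 1) (by omega) (by omega))
  rw [← h1, ← h2, Rect_ti P (by omega) (by omega), Rect_ti P (by omega) (by omega)] at h3
  change P.F a (b + 2) + P.F a b ≤ P.F a (b + 1) + P.F a (b + 1) at h3
  linarith

theorem F_le {c : ℝ} (hc : 0 ≤ c) (hS : Sq P c) {a b : ℕ} (ha : a ≤ L) (hb : b ≤ L) :
    P.F a b ≤ c * ((a : ℝ) + b) := by
  induction hs : a + b using Nat.strong_induction_on generalizing a b with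
  | _ s ih =>
    rcases Nat.eq_zero_or_pos a with rfl | ha0
    · rw [F_zero_left]
      positivity
    rcases Nat.eq_zero_or_pos b with rfl | hb0
    · rw [F_zero_right]
      positivity
    rcases le_total a b with hab | hab
    · have h1 := F_add2 P ha (show a + (b - a) ≤ L by omega)
      have h2 := ih (a + (b - a)) (by omega) ha (show b - a ≤ L by omega) rfl
      have h3 := hS a ha
      rw [Nat.add_sub_cancel' hab] at h1
      rw [Nat.cast_sub hab] at h2
      nlinarith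
    · have h1 := F_add1 P (show b + (a - b) ≤ L by omega) hb
      have h2 := ih ((a - b) + b) (by omega) (show a - b ≤ L by omega) hb rfl
      have h3 := hS b hb
      rw [Nat.add_sub_cancel' hab] at h1
      rw [Nat.cast_sub hab] at h2
      nlinarith

theorem F_up1 {c : ℝ} (hc : 0 ≤ c) (hS : Sq P c) {n₁ n m : ℕ} (hn : n ≤ L) (hm : m ≤ L)
    (h : n₁ ≤ n) (hm1 : m ≤ n₁ + 1) : P.F n m ≤ P.F n₁ m + 2 * c * ((n : ℝ) - n₁) :=
  Rect_step (f := fun j => P.F j m) (fun _ hj => F_conc1 P hj hm) (F_zero_left P m) hc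
    (fun b hb => by
      have h1 := F_le P hc hS hb hm
      rw [add_comm] at h1
      exact h1) h hn hm1

theorem F_up2 {c : ℝ} (hc : 0 ≤ c) (hS : Sq P c) {n d m : ℕ} (hn : n ≤ L) (hm : m ≤ L)
    (h : d ≤ m) (hn1 : n ≤ d + 1) : P.F n m ≤ P.F n d + 2 * c * ((m : ℝ) - d) :=
  Rect_step (f := fun j => P.F n j) (fun _ hj => F_conc2 P hn hj) (F_zero_right P n) hc
    (fun _ hb => F_le P hc hS hn hb) h hm hn1

private theorem Rect_mono {f : ℕ → ℝ}
    (hf : ∀ j, j + 2 ≤ L → f (j + 2) + f j ≤ 2 * f (j + 1)) (hf0 : ∀ j, j ≤ L → 0 ≤ f j)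
    (h0 : f 0 = 0) {a a' : ℕ} (h : a ≤ a') (ha : 2 * a' ≤ L) : f a ≤ 2 * f a' := by
  rcases Nat.eq_zero_or_pos a with rfl | ha0
  · rw [h0]
    exact mul_nonneg zero_le_two (hf0 a' (by omega))
  · have h1 := Rect_key hf (hf0 L le_rfl) h (show a' ≤ L by omega)
    have h2 : (0 : ℝ) ≤ a := Nat.cast_nonneg a
    have h3 : 2 * (a' : ℝ) ≤ L := by exact_mod_cast ha
    have h4 : (0 : ℝ) < a := by exact_mod_cast ha0
    have h5 : (a : ℝ) ≤ a' := by exact_mod_cast h
    have h6 := hf0 a' (by omega)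
    have h7 : ((L : ℝ) - a) * f a' ≤ (2 * ((L : ℝ) - a')) * f a' :=
      mul_le_mul_of_nonneg_right (by linarith) h6
    have h8 : (0 : ℝ) < (L : ℝ) - a' := by linarith
    by_contra h9
    push Not at h9
    have h10 := mul_lt_mul_of_pos_left h9 h8
    nlinarith

theorem F_mono1 {a a' b : ℕ} (h : a ≤ a') (ha : 2 * a' ≤ L) (hb : b ≤ L) :
    P.F a b ≤ 2 * P.F a' b :=
  Rect_mono (f := fun j => P.F j b) (fun _ hj => F_conc1 P hj hb) (fun _ hj => F_nonneg P hj hb)
    (F_zero_left P b) h ha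

theorem F_mono2 {a b b' : ℕ} (h : b ≤ b') (hb : 2 * b' ≤ L) (ha : a ≤ L) :
    P.F a b ≤ 2 * P.F a b' :=
  Rect_mono (f := fun j => P.F a j) (fun _ hj => F_conc2 P ha hj) (fun _ hj => F_nonneg P ha hj)
    (F_zero_right P a) h hb

end Pool.Agent.AL
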