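import Pool.Agent.AL.TrC
import Pool.Agent.AL.Mono

/-!
# PIECE AL-SSA: strong subadditivity for positive matrices

`S ρ = trf negMulLog ρ = - Tr ρ lg ρ` for positive definite `ρ` (`trf_negMulLog`).
`ssa_pd`: `rel_mono` for `ρ` and `σ = ρ₁₂ ⊗ 1`, i.e. `σ (x, (y, z)) (x', (y', z')) =
if z = z' then m12 ρ (x, y) (x', y') else 0` (a `submatrix` of `m12 ρ ⊗ₖ 1` by the associator, so
`lg σ` is the same with `lg (m12 ρ)`, by `lg_submatrix`, `lg_kron`, `lg_one`).
`rel ρ σ = - S ρ + S (m12 ρ)`, `ptr ρ = m23 ρ`, `ptr σ = m2 ρ ⊗ₖ 1`, and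
`rel (ptr ρ) (ptr σ) = - S (m23 ρ) + S (m2 ρ)`.
`ssa_psd`: apply `ssa_pd` to `ρ + ε`, `ε > 0`: `m12 (ρ + ε) = m12 ρ + ε |γ|`, `m23 (ρ + ε) = m23 ρ +
ε |α|`, `m2 (ρ + ε) = m2 ρ + ε |α| |γ|`, and let `ε → 0` with `trf_add`, `trf_eq` and the continuity
of `negMulLog` (`Real.continuous_negMulLog`).
`ssa4`: `ρ = N Nᴴ` with `N (x, (y, z)) w = Ψ x y z w`; `m12 ρ = N' N'ᴴ` etc.
-/

namespace Pool.Agent.AL

open scoped Matrix Kronecker ComplexOrder

universe u

section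
variable {α β γ : Type u} [Fintype α] [DecidableEq α] [Fintype β] [DecidableEq β] [Fintype γ]
  [DecidableEq γ]

/-- trace over the third factor -/
noncomputable def m12 (ρ : Matrix (α × (β × γ)) (α × (β × γ)) ℂ) :
    Matrix (α × β) (α × β) ℂ :=
  Matrix.of fun p q => ∑ z, ρ (p.1, (p.2, z)) (q.1, (q.2, z))

/-- trace over the first and third factor -/
noncomputable def m2 (ρ : Matrix (α × (β × γ)) (α × (β × γ)) ℂ) : Matrix β β ℂ :=
  Matrix.of fun y y' => ∑ x, ∑ z, ρ (x, (y, z)) (x, (y', z))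

omit [DecidableEq α] [DecidableEq β] [DecidableEq γ] [Fintype α] [Fintype β] in
private theorem m12_eq (ρ : Matrix (α × (β × γ)) (α × (β × γ)) ℂ) :
    m12 ρ = ptr (m := γ) (n := α × β) (ρ.submatrix
      (fun p : γ × (α × β) => (p.2.1, (p.2.2, p.1)))
      (fun p : γ × (α × β) => (p.2.1, (p.2.2, p.1)))) := by
  ext p q
  rfl

omit [DecidableEq α] [DecidableEq β] [DecidableEq γ] [Fintype β] in
private theorem m2_eq (ρ : Matrix (α × (β × γ)) (α × (β × γ)) ℂ) :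
    m2 ρ = ptr (m12 ρ) := by
  ext p q
  rfl

private theorem m12_posDef [Nonempty γ] {ρ : Matrix (α × (β × γ)) (α × (β × γ)) ℂ}
    (hρ : ρ.PosDef) : (m12 ρ).PosDef := by
  rw [m12_eq]
  refine ptr_posDef (hρ.submatrix ?_)
  rintro ⟨z, x, y⟩ ⟨z', x', y'⟩ h
  simp only [Prod.mk.injEq] at h
  obtain ⟨rfl, rfl, rfl⟩ := h
  rfl

omit [DecidableEq α] [DecidableEq β] in
private theorem tr_m12 (ρ : Matrix (α × (β × γ)) (α × (β × γ)) ℂ)
    (A : Matrix (α × β) (α × β) ℂ) :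
    Matrix.trace (ρ * (A ⊗ₖ (1 : Matrix γ γ ℂ)).submatrix (Equiv.prodAssoc α β γ).symm
      (Equiv.prodAssoc α β γ).symm) = Matrix.trace (m12 ρ * A) := by
  simp only [Matrix.trace, Matrix.diag, Matrix.mul_apply, Fintype.sum_prod_type, m12,
    Matrix.of_apply, Matrix.submatrix_apply, Equiv.prodAssoc_symm_apply,
    Matrix.kroneckerMap_apply, Matrix.one_apply]
  refine Finset.sum_congr rfl fun x _ => Finset.sum_congr rfl fun y _ => ?_
  rw [Finset.sum_comm]
  refine Finset.sum_congr rfl fun x' _ => ?_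
  rw [Finset.sum_comm]
  refine Finset.sum_congr rfl fun y' _ => ?_
  rw [Finset.sum_mul]
  refine Finset.sum_congr rfl fun z _ => ?_
  rw [Finset.sum_eq_single z]
  · simp
  · intro z' _ hz
    simp [hz]
  · simp

omit [DecidableEq β] in
private theorem tr_m2 (τ : Matrix (β × γ) (β × γ) ℂ) (B : Matrix β β ℂ) :
    Matrix.trace (τ * (B ⊗ₖ (1 : Matrix γ γ ℂ))) =
      Matrix.trace ((Matrix.of fun y y' => ∑ z, τ (y, z) (y', z) : Matrix β β ℂ) * B) := by
  simp only [Matrix.trace, Matrix.diag, Matrix.mul_apply, Fintype.sum_prod_type,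
    Matrix.of_apply, Matrix.kroneckerMap_apply, Matrix.one_apply]
  refine Finset.sum_congr rfl fun y _ => ?_
  rw [Finset.sum_comm]
  refine Finset.sum_congr rfl fun y' _ => ?_
  rw [Finset.sum_mul]
  refine Finset.sum_congr rfl fun z _ => ?_
  rw [Finset.sum_eq_single z]
  · simp
  · intro z' _ hz
    simp [hz]
  · simp

omit [DecidableEq α] [DecidableEq β] [DecidableEq γ] [Fintype β] in
private theorem m2_eq' (ρ : Matrix (α × (β × γ)) (α × (β × γ)) ℂ) :
    (Matrix.of fun y y' => ∑ z, ptr ρ (y, z) (y', z) : Matrix β β ℂ) = m2 ρ := by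
  ext y y'
  simp only [Matrix.of_apply, ptr, m2]
  exact Finset.sum_comm

omit [DecidableEq α] [DecidableEq β] [Fintype β] in
private theorem ptr_sub (ρ : Matrix (α × (β × γ)) (α × (β × γ)) ℂ) :
    ptr ((m12 ρ ⊗ₖ (1 : Matrix γ γ ℂ)).submatrix (Equiv.prodAssoc α β γ).symm
      (Equiv.prodAssoc α β γ).symm) = m2 ρ ⊗ₖ (1 : Matrix γ γ ℂ) := by
  ext ⟨y, z⟩ ⟨y', z'⟩
  simp only [ptr, m2, m12, Matrix.of_apply, Matrix.submatrix_apply,
    Equiv.prodAssoc_symm_apply, Matrix.kroneckerMap_apply, Finset.sum_mul]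

theorem ssa_pd [Nonempty α] [Nonempty γ] {ρ : Matrix (α × (β × γ)) (α × (β × γ)) ℂ}
    (hρ : ρ.PosDef) :
    trf Real.negMulLog ρ + trf Real.negMulLog (m2 ρ) ≤
      trf Real.negMulLog (m12 ρ) + trf Real.negMulLog (ptr ρ) := by
  have h12 : (m12 ρ).PosDef := m12_posDef hρ
  have h2 : (m2 ρ).PosDef := by
    rw [m2_eq]
    exact ptr_posDef h12
  have hp : (ptr ρ).PosDef := ptr_posDef hρ
  have h1 : (1 : Matrix γ γ ℂ).PosDef := Matrix.PosDef.one
  have hk : (m12 ρ ⊗ₖ (1 : Matrix γ γ ℂ)).PosDef := h12.kronecker h1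
  have hs := hk.submatrix (Equiv.prodAssoc α β γ).symm.injective
  have hlg : lg ((m12 ρ ⊗ₖ (1 : Matrix γ γ ℂ)).submatrix (Equiv.prodAssoc α β γ).symm
      (Equiv.prodAssoc α β γ).symm) = (lg (m12 ρ) ⊗ₖ (1 : Matrix γ γ ℂ)).submatrix
        (Equiv.prodAssoc α β γ).symm (Equiv.prodAssoc α β γ).symm := by
    rw [lg_submatrix hk.isHermitian, lg_kron h12 h1, lg_one, Matrix.kronecker_zero, add_zero]
  have hlg2 : lg (m2 ρ ⊗ₖ (1 : Matrix γ γ ℂ)) = lg (m2 ρ) ⊗ₖ (1 : Matrix γ γ ℂ) := by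
    rw [lg_kron h2 h1, lg_one, Matrix.kronecker_zero, add_zero]
  have hmono := rel_mono hρ hs
  rw [ptr_sub] at hmono
  simp only [rel] at hmono
  rw [hlg, hlg2, Matrix.mul_sub, Matrix.mul_sub, Matrix.trace_sub, Matrix.trace_sub, tr_m12,
    tr_m2, m2_eq', Complex.sub_re, Complex.sub_re] at hmono
  rw [trf_negMulLog hρ, trf_negMulLog h2, trf_negMulLog h12, trf_negMulLog hp]
  linarith

omit [DecidableEq α] [DecidableEq β] [DecidableEq γ] [Fintype α] [Fintype β] in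
private theorem m12_mul {ι : Type*} [Fintype ι] (N : Matrix (α × (β × γ)) ι ℂ) :
    m12 (N * Nᴴ) = (Matrix.of fun (p : α × β) (q : γ × ι) => N (p.1, (p.2, q.1)) q.2) *
      (Matrix.of fun (p : α × β) (q : γ × ι) => N (p.1, (p.2, q.1)) q.2)ᴴ := by
  ext p q
  simp only [m12, Matrix.of_apply, Matrix.mul_apply, Matrix.conjTranspose_apply,
    Fintype.sum_prod_type]

omit [DecidableEq α] [DecidableEq β] [DecidableEq γ] [Fintype β] [Fintype γ] in
private theorem ptr_mul {ι : Type*} [Fintype ι] (N : Matrix (α × (β × γ)) ι ℂ) :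
    ptr (N * Nᴴ) = (Matrix.of fun (p : β × γ) (q : α × ι) => N (q.1, p) q.2) *
      (Matrix.of fun (p : β × γ) (q : α × ι) => N (q.1, p) q.2)ᴴ := by
  ext p q
  simp only [ptr, Matrix.of_apply, Matrix.mul_apply, Matrix.conjTranspose_apply,
    Fintype.sum_prod_type]

omit [DecidableEq α] [DecidableEq β] [DecidableEq γ] [Fintype β] in
private theorem m2_mul {ι : Type*} [Fintype ι] (N : Matrix (α × (β × γ)) ι ℂ) :
    m2 (N * Nᴴ) =
      (Matrix.of fun (y : β) (q : α × (γ × ι)) => N (q.1, (y, q.2.1)) q.2.2) *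
      (Matrix.of fun (y : β) (q : α × (γ × ι)) => N (q.1, (y, q.2.1)) q.2.2)ᴴ := by
  ext p q
  simp only [m2, Matrix.of_apply, Matrix.mul_apply, Matrix.conjTranspose_apply,
    Fintype.sum_prod_type]

omit [DecidableEq α] [DecidableEq β] [DecidableEq γ] [Fintype α] [Fintype β] in
private theorem m12_herm {ρ : Matrix (α × (β × γ)) (α × (β × γ)) ℂ} (h : ρ.IsHermitian) :
    (m12 ρ).IsHermitian := by
  ext p q
  simp only [Matrix.conjTranspose_apply, m12, Matrix.of_apply, star_sum]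
  exact Finset.sum_congr rfl fun z _ => h.apply _ _

omit [DecidableEq α] [DecidableEq β] [DecidableEq γ] [Fintype β] in
private theorem m2_herm {ρ : Matrix (α × (β × γ)) (α × (β × γ)) ℂ} (h : ρ.IsHermitian) :
    (m2 ρ).IsHermitian := by
  ext p q
  simp only [Matrix.conjTranspose_apply, m2, Matrix.of_apply, star_sum]
  exact Finset.sum_congr rfl fun x _ => Finset.sum_congr rfl fun z _ => h.apply _ _

omit [DecidableEq α] [DecidableEq β] [DecidableEq γ] [Fintype β] [Fintype γ] in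
private theorem ptr_herm {ρ : Matrix (α × (β × γ)) (α × (β × γ)) ℂ} (h : ρ.IsHermitian) :
    (ptr ρ).IsHermitian := by
  ext p q
  simp only [Matrix.conjTranspose_apply, ptr, Matrix.of_apply, star_sum]
  exact Finset.sum_congr rfl fun x _ => h.apply _ _

private theorem tendsto_trf {m : Type*} [Fintype m] [DecidableEq m] {ρ : Matrix m m ℂ}
    (h : ρ.IsHermitian) (c : ℝ) :
    Filter.Tendsto (fun ε : ℝ => trf Real.negMulLog (ρ + ((c * ε : ℝ) : ℂ) • 1))
      (nhdsWithin 0 (Set.Ioi 0)) (nhds (trf Real.negMulLog ρ)) := by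
  have hc : Continuous fun ε : ℝ => ∑ i, Real.negMulLog (h.eigenvalues i + c * ε) := by
    refine continuous_finsetSum _ fun i _ => ?_
    exact Real.continuous_negMulLog.comp (by fun_prop)
  have h0 := hc.tendsto 0
  rw [trf_eq h]
  simp only [mul_zero, add_zero] at h0
  refine (h0.mono_left nhdsWithin_le_nhds).congr fun ε => ?_
  rw [trf_add h]

omit [Fintype α] [Fintype β] in
private theorem m12_add (ρ : Matrix (α × (β × γ)) (α × (β × γ)) ℂ) (ε : ℝ) :
    m12 (ρ + ((ε : ℝ) : ℂ) • 1) = m12 ρ + (((Fintype.card γ : ℝ) * ε : ℝ) : ℂ) • 1 := by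
  ext ⟨x, y⟩ ⟨x', y'⟩
  simp only [m12, Matrix.of_apply, Matrix.add_apply, Matrix.smul_apply, Matrix.one_apply,
    Prod.mk.injEq, and_true, smul_eq_mul, Finset.sum_add_distrib, Finset.sum_const,
    Finset.card_univ, nsmul_eq_mul]
  push_cast
  ring

omit [Fintype β] [Fintype γ] in
private theorem ptr_add (ρ : Matrix (α × (β × γ)) (α × (β × γ)) ℂ) (ε : ℝ) :
    ptr (ρ + ((ε : ℝ) : ℂ) • 1) = ptr ρ + (((Fintype.card α : ℝ) * ε : ℝ) : ℂ) • 1 := by
  ext p q
  simp only [ptr, Matrix.of_apply, Matrix.add_apply, Matrix.smul_apply, Matrix.one_apply,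
    Prod.mk.injEq, true_and, smul_eq_mul, Finset.sum_add_distrib, Finset.sum_const,
    Finset.card_univ, nsmul_eq_mul]
  push_cast
  ring

omit [Fintype β] in
private theorem m2_add (ρ : Matrix (α × (β × γ)) (α × (β × γ)) ℂ) (ε : ℝ) :
    m2 (ρ + ((ε : ℝ) : ℂ) • 1) =
      m2 ρ + (((Fintype.card α : ℝ) * (Fintype.card γ : ℝ) * ε : ℝ) : ℂ) • 1 := by
  ext p q
  simp only [m2, Matrix.of_apply, Matrix.add_apply, Matrix.smul_apply, Matrix.one_apply,
    Prod.mk.injEq, true_and, and_true, smul_eq_mul, Finset.sum_add_distrib, Finset.sum_const,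
    Finset.card_univ, nsmul_eq_mul]
  push_cast
  ring

theorem ssa_psd [Nonempty α] [Nonempty γ] {ρ : Matrix (α × (β × γ)) (α × (β × γ)) ℂ}
    (hρ : ρ.PosSemidef) :
    trf Real.negMulLog ρ + trf Real.negMulLog (m2 ρ) ≤
      trf Real.negMulLog (m12 ρ) + trf Real.negMulLog (ptr ρ) := by
  have hh := hρ.isHermitian
  have t1 := tendsto_trf hh 1
  have t2 := tendsto_trf (m2_herm hh) ((Fintype.card α : ℝ) * (Fintype.card γ : ℝ))
  have t3 := tendsto_trf (m12_herm hh) (Fintype.card γ : ℝ)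
  have t4 := tendsto_trf (ptr_herm hh) (Fintype.card α : ℝ)
  refine le_of_tendsto_of_tendsto (t1.add t2) (t3.add t4) ?_
  filter_upwards [self_mem_nhdsWithin] with ε hε
  have hε' : (0 : ℝ) < ε := hε
  have hpd : (ρ + ((ε : ℝ) : ℂ) • (1 : Matrix (α × (β × γ)) (α × (β × γ)) ℂ)).PosDef := by
    refine Matrix.PosDef.posSemidef_add hρ (Matrix.PosDef.one.smul ?_)
    exact_mod_cast hε'
  have := ssa_pd hpd
  rw [m2_add, m12_add, ptr_add] at this
  rw [one_mul]
  exact this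

theorem ssa4 {δ : Type u} [Fintype δ] [Nonempty α] [Nonempty γ] (Ψ : α → β → γ → δ → ℂ) :
    Ent (Matrix.of fun (p : α × (β × γ)) (w : δ) => Ψ p.1 p.2.1 p.2.2 w) +
      Ent (Matrix.of fun (y : β) (q : α × (γ × δ)) => Ψ q.1 y q.2.1 q.2.2) ≤
    Ent (Matrix.of fun (p : α × β) (q : γ × δ) => Ψ p.1 p.2 q.1 q.2) +
      Ent (Matrix.of fun (p : β × γ) (q : α × δ) => Ψ q.1 p.1 p.2 q.2) := by
  have h := ssa_psd (Matrix.posSemidef_self_mul_conjTranspose
    (Matrix.of fun (p : α × (β × γ)) (w : δ) => Ψ p.1 p.2.1 p.2.2 w))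
  rw [m2_mul, m12_mul, ptr_mul] at h
  rw [Ent_eq, Ent_eq, Ent_eq, Ent_eq]
  exact h

end

end Pool.Agent.AL
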