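import Pool.Agent.AL.Wind

/-!
# PIECE AL-Sep: the regions above and below `U`

`mem_Up_iff`: shift `k` and `j` by one.
`flat_Up`: let `p, p + (1, 0) ∈ Up`, `p + (0, -1) ∈ Up`; if `q := p + (1, 0) + (0, -1) ∉ Up` then
`q ∈ U` by `mem_Up_iff`, and `p + (0, -1) ∈ K` is a horizontal neighbour of `q`, so it is in `U`
by `HC`, contradiction. Similarly the other direction.
`sep`: let `S` be the maximal horizontal run of `K` containing `p` and `p'` (`K` is finite, so
`x₁ ≤ min` and `x₂ ≥ max` exist with `(x, y) ∈ K` for `x₁ ≤ x ≤ x₂` and `(x₁ - 1, y) ∉ K`,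
`(x₂ + 1, y) ∉ K`). `S ∩ U = ∅`: otherwise `S ⊆ U` by `HC`, but `p ∉ U`. From `p + (0, -1)` there is a
path down in `K` to a point of `U`, all its points have height `< p.2` or are in `U`, so it avoids
`S`; similarly from `p' + (0, 1)` up. `U` is connected and avoids `S`. Together (with `Pth.symm`,
`Pth.mono`, `Pth.trans`) a path in `K \ S` from `p' + (0, 1)` to `p + (0, -1)`: contradiction to
`no_path`.
-/

namespace Pool.Agent.AL

private theorem Sep_add (q : Pt) (a b c : ℤ) (h : a + b = c) :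
    q + (0, a) + (0, b) = q + (0, c) := by
  ext
  · simp
  · simp only [Prod.snd_add]
    omega

private theorem Sep_zero (q : Pt) (a : ℤ) (h : a = 0) : q + (0, a) = q := by
  subst h
  ext <;> simp

theorem mem_Up_iff {K U : Finset Pt} {q : Pt} :
    q ∈ Up K U ↔ q ∈ K ∧ q ∉ U ∧ (q + (0, -1) ∈ U ∨ q + (0, -1) ∈ Up K U) := by
  simp only [Up, Finset.mem_filter]
  constructor
  · rintro ⟨h1, k, h2, h3⟩
    have h0 := h3 0 (Nat.zero_le _)
    rw [Sep_zero q _ (by simp)] at h0
    refine ⟨h1, h0.2, ?_⟩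
    rcases k with _ | k
    · left
      rw [← show q + (0, -(((0 : ℕ) : ℤ) + 1)) = q + (0, -1) by norm_num]
      exact h2
    · right
      refine ⟨?_, k, ?_, ?_⟩
      · have := (h3 1 (by omega)).1
        rwa [show q + (0, -((1 : ℕ) : ℤ)) = q + (0, -1) by norm_num] at this
      · rw [Sep_add q _ _ (-(((k + 1 : ℕ) : ℤ) + 1)) (by push_cast; ring)]
        exact h2
      · intro j hj
        have := h3 (j + 1) (by omega)
        rwa [← Sep_add q (-1) (-(j : ℤ)) (-((j + 1 : ℕ) : ℤ)) (by push_cast; ring)] at this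
  · rintro ⟨h1, h2, h3 | ⟨h3, k, h4, h5⟩⟩
    · refine ⟨h1, 0, ?_, ?_⟩
      · rw [show q + (0, -(((0 : ℕ) : ℤ) + 1)) = q + (0, -1) by norm_num]
        exact h3
      · intro j hj
        have : j = 0 := by omega
        subst this
        rw [Sep_zero q _ (by simp)]
        exact ⟨h1, h2⟩
    · refine ⟨h1, k + 1, ?_, ?_⟩
      · rw [← Sep_add q (-1) (-((k : ℤ) + 1)) (-(((k + 1 : ℕ) : ℤ) + 1)) (by push_cast; ring)]
        exact h4
      · intro j hj
        rcases j with _ | j
        · rw [Sep_zero q _ (by simp)]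
          exact ⟨h1, h2⟩
        · rw [← Sep_add q (-1) (-(j : ℤ)) (-((j + 1 : ℕ) : ℤ)) (by push_cast; ring)]
          exact h5 j (by omega)

theorem mem_Dn_iff {K U : Finset Pt} {q : Pt} :
    q ∈ Dn K U ↔ q ∈ K ∧ q ∉ U ∧ (q + (0, 1) ∈ U ∨ q + (0, 1) ∈ Dn K U) := by
  simp only [Dn, Finset.mem_filter]
  constructor
  · rintro ⟨h1, k, h2, h3⟩
    have h0 := h3 0 (Nat.zero_le _)
    rw [Sep_zero q _ (by simp)] at h0
    refine ⟨h1, h0.2, ?_⟩
    rcases k with _ | k
    · left
      rw [← show q + (0, (((0 : ℕ) : ℤ) + 1)) = q + (0, 1) by norm_num]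
      exact h2
    · right
      refine ⟨?_, k, ?_, ?_⟩
      · have := (h3 1 (by omega)).1
        rwa [show q + (0, ((1 : ℕ) : ℤ)) = q + (0, 1) by norm_num] at this
      · rw [Sep_add q _ _ (((k + 1 : ℕ) : ℤ) + 1) (by push_cast; ring)]
        exact h2
      · intro j hj
        have := h3 (j + 1) (by omega)
        rwa [← Sep_add q 1 (j : ℤ) ((j + 1 : ℕ) : ℤ) (by push_cast; ring)] at this
  · rintro ⟨h1, h2, h3 | ⟨h3, k, h4, h5⟩⟩
    · refine ⟨h1, 0, ?_, ?_⟩
      · rw [show q + (0, (((0 : ℕ) : ℤ) + 1)) = q + (0, 1) by norm_num]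
        exact h3
      · intro j hj
        have : j = 0 := by omega
        subst this
        rw [Sep_zero q _ (by simp)]
        exact ⟨h1, h2⟩
    · refine ⟨h1, k + 1, ?_, ?_⟩
      · rw [← Sep_add q 1 ((k : ℤ) + 1) (((k + 1 : ℕ) : ℤ) + 1) (by push_cast; ring)]
        exact h4
      · intro j hj
        rcases j with _ | j
        · rw [Sep_zero q _ (by simp)]
          exact ⟨h1, h2⟩
        · rw [← Sep_add q 1 (j : ℤ) ((j + 1 : ℕ) : ℤ) (by push_cast; ring)]
          exact h5 j (by omega)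

private theorem Sep_comm (p u v : Pt) : p + u + v = p + v + u := by
  rw [add_assoc, add_comm u v, ← add_assoc]

private theorem Sep_back (p : Pt) : p + (1, 0) + (-1, 0) = p := by
  ext <;> simp

private theorem Sep_flat {K U D : Finset Pt} (hH : HC K U) (v : Pt)
    (hD : ∀ q, q ∈ D ↔ q ∈ K ∧ q ∉ U ∧ (q + v ∈ U ∨ q + v ∈ D)) : Flat v D := by
  intro p hp hp1
  have h1 := (hD p).1 hp
  have h2 := (hD (p + (1, 0))).1 hp1
  constructor
  · intro h
    rcases h2.2.2 with h3 | h3
    · exfalso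
      have h4 := (hD (p + v)).1 h
      have h5 := (hH _ h3).2
      rw [Sep_comm p (1, 0) v, Sep_back] at h5
      exact h4.2.1 (h5 h4.1)
    · exact h3
  · intro h
    rcases h1.2.2 with h3 | h3
    · exfalso
      have h4 := (hD (p + (1, 0) + v)).1 h
      have h5 := (hH _ h3).1
      rw [Sep_comm p v (1, 0)] at h5
      exact h4.2.1 (h5 h4.1)
    · exact h3

theorem flat_Up {K U : Finset Pt} (hH : HC K U) : Flat (0, -1) (Up K U) :=
  Sep_flat hH (0, -1) fun _ => mem_Up_iff

theorem flat_Dn {K U : Finset Pt} (hH : HC K U) : Flat (0, 1) (Dn K U) :=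
  Sep_flat hH (0, 1) fun _ => mem_Dn_iff

private theorem Sep_bound (K : Finset Pt) : ∃ B : ℤ, ∀ q ∈ K, |q.1| ≤ B :=
  ⟨∑ q ∈ K, |q.1|, fun _ hq =>
    Finset.single_le_sum (f := fun q : Pt => |q.1|) (fun i _ => abs_nonneg i.1) hq⟩

private theorem Sep_left (K : Finset Pt) (y m : ℤ) (hm : (m, y) ∈ K) :
    ∃ x₁ ≤ m, (x₁ - 1, y) ∉ K ∧ ∀ x, x₁ ≤ x → x ≤ m → (x, y) ∈ K := by
  classical
  obtain ⟨B, hB⟩ := Sep_bound K
  have hex : ∃ n : ℕ, (m - n - 1, y) ∉ K := by
    refine ⟨(|m| + B).toNat, fun h => ?_⟩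
    have h1 := hB _ h
    have h2 := hB _ hm
    have h3 : ((|m| + B).toNat : ℤ) = |m| + B :=
      Int.toNat_of_nonneg (by have := abs_nonneg m; have h4 : |m| ≤ B := h2; omega)
    have h4 : |m - ((|m| + B).toNat : ℤ) - 1| ≤ B := h1
    rw [h3] at h4
    have h5 := neg_abs_le (m - (|m| + B) - 1)
    have h6 := le_abs_self m
    omega
  refine ⟨m - (Nat.find hex : ℤ), by omega, Nat.find_spec hex, fun x h1 h2 => ?_⟩
  by_contra hx
  rcases eq_or_lt_of_le h2 with h3 | h3
  · rw [h3] at hx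
    exact hx hm
  · have h4 : (m - ((m - x - 1).toNat : ℤ) - 1, y) ∉ K := by
      rw [Int.toNat_of_nonneg (by omega)]
      rw [show m - (m - x - 1) - 1 = x by ring]
      exact hx
    have h5 := Nat.find_min' hex h4
    have h6 : ((m - x - 1).toNat : ℤ) = m - x - 1 := Int.toNat_of_nonneg (by omega)
    omega

private theorem Sep_right (K : Finset Pt) (y m : ℤ) (hm : (m, y) ∈ K) :
    ∃ x₂ ≥ m, (x₂ + 1, y) ∉ K ∧ ∀ x, m ≤ x → x ≤ x₂ → (x, y) ∈ K := by
  classical
  obtain ⟨B, hB⟩ := Sep_bound K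
  have hex : ∃ n : ℕ, (m + n + 1, y) ∉ K := by
    refine ⟨(|m| + B).toNat, fun h => ?_⟩
    have h1 := hB _ h
    have h2 := hB _ hm
    have h3 : ((|m| + B).toNat : ℤ) = |m| + B :=
      Int.toNat_of_nonneg (by have := abs_nonneg m; have h4 : |m| ≤ B := h2; omega)
    have h4 : |m + ((|m| + B).toNat : ℤ) + 1| ≤ B := h1
    rw [h3] at h4
    have h5 := le_abs_self (m + (|m| + B) + 1)
    have h6 := neg_abs_le m
    omega
  refine ⟨m + (Nat.find hex : ℤ), by omega, Nat.find_spec hex, fun x h1 h2 => ?_⟩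
  by_contra hx
  rcases eq_or_lt_of_le h1 with h3 | h3
  · rw [← h3] at hx
    exact hx hm
  · have h4 : (m + ((x - m - 1).toNat : ℤ) + 1, y) ∉ K := by
      rw [Int.toNat_of_nonneg (by omega)]
      rw [show m + (x - m - 1) + 1 = x by ring]
      exact hx
    have h5 := Nat.find_min' hex h4
    have h6 : ((x - m - 1).toNat : ℤ) = x - m - 1 := Int.toNat_of_nonneg (by omega)
    omega

private theorem Sep_path (T : Set Pt) (e : ℤ) (he : e = 1 ∨ e = -1) (q : Pt) (n : ℕ)
    (h : ∀ j : ℕ, j ≤ n → q + (0, e * j) ∈ T) : Pth T q (q + (0, e * n)) := by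
  induction n with
  | zero =>
    rw [Sep_zero q _ (by simp)]
    exact Relation.ReflTransGen.refl
  | succ n ih =>
    refine Relation.ReflTransGen.tail (ih fun j hj => h j (by omega)) ⟨?_, h (n + 1) le_rfl⟩
    rcases he with rfl | rfl
    · right; right; left
      exact (Sep_add q _ _ _ (by push_cast; ring)).symm
    · right; right; right
      exact (Sep_add q _ _ _ (by push_cast; ring)).symm

theorem sep {K U : Finset Pt} (hUK : U ⊆ K) (hc : Cn ((K : Set Pt)ᶜ)) (hU : Cn (U : Set Pt))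
    (hH : HC K U) {p p' : Pt} (hp : p ∈ K) (hpU : p ∉ U) (hrow : p.2 = p'.2)
    (hrun : ∀ x, min p.1 p'.1 ≤ x → x ≤ max p.1 p'.1 → (x, p.2) ∈ K)
    (hlow : p + (0, -1) ∈ U ∨ p + (0, -1) ∈ Up K U)
    (hup : p' + (0, 1) ∈ U ∨ p' + (0, 1) ∈ Dn K U) : False := by
  obtain ⟨x₁, hx1, hn1, hs1⟩ := Sep_left K p.2 (min p.1 p'.1) (hrun _ le_rfl (min_le_max))
  obtain ⟨x₂, hx2, hn2, hs2⟩ := Sep_right K p.2 (max p.1 p'.1) (hrun _ (min_le_max) le_rfl)
  have hSK : ∀ x, x₁ ≤ x → x ≤ x₂ → (x, p.2) ∈ K := by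
    intro x h1 h2
    rcases le_total x (min p.1 p'.1) with h | h
    · exact hs1 x h1 h
    · rcases le_total x (max p.1 p'.1) with h' | h'
      · exact hrun x h h'
      · exact hs2 x h' h2
  have hSU : ∀ x, x₁ ≤ x → x ≤ x₂ → (x, p.2) ∉ U := by
    intro x h1 h2 hxU
    have hR : ∀ n : ℕ, x + n ≤ x₂ → (x + n, p.2) ∈ U := by
      intro n
      induction n with
      | zero => intro _; simpa using hxU
      | succ n ih =>
        intro h
        have h3 := ih (by push_cast at h; omega)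
        have h4 := (hH _ h3).1
        rw [show ((x + n, p.2) : Pt) + (1, 0) = (x + ((n + 1 : ℕ) : ℤ), p.2) by
          ext
          · simp only [Prod.fst_add]; push_cast; ring
          · simp] at h4
        exact h4 (hSK _ (by push_cast; omega) h)
    have hL : ∀ n : ℕ, x₁ ≤ x - n → (x - n, p.2) ∈ U := by
      intro n
      induction n with
      | zero => intro _; simpa using hxU
      | succ n ih =>
        intro h
        have h3 := ih (by push_cast at h; omega)
        have h4 := (hH _ h3).2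
        rw [show ((x - n, p.2) : Pt) + (-1, 0) = (x - ((n + 1 : ℕ) : ℤ), p.2) by
          ext
          · simp only [Prod.fst_add]; push_cast; ring
          · simp] at h4
        exact h4 (hSK _ h (by push_cast; omega))
    apply hpU
    have hp1 : x₁ ≤ p.1 := le_trans hx1 (min_le_left _ _)
    have hp2 : p.1 ≤ x₂ := le_trans (le_max_left _ _) hx2
    rcases le_total x p.1 with h | h
    · have := hR (p.1 - x).toNat (by rw [Int.toNat_of_nonneg (by omega)]; omega)
      rw [Int.toNat_of_nonneg (by omega)] at this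
      rwa [show ((x + (p.1 - x), p.2) : Pt) = p by ext <;> simp] at this
    · have := hL (x - p.1).toNat (by rw [Int.toNat_of_nonneg (by omega)]; omega)
      rw [Int.toNat_of_nonneg (by omega)] at this
      rwa [show ((x - (x - p.1), p.2) : Pt) = p by ext <;> simp] at this
  set S : Set Pt := {q | q.2 = p.2 ∧ x₁ ≤ q.1 ∧ q.1 ≤ x₂} with hS
  have hUT : (U : Set Pt) ⊆ (K : Set Pt) \ S := by
    intro q hq
    refine ⟨hUK hq, fun hqS => ?_⟩
    refine hSU q.1 hqS.2.1 hqS.2.2 ?_
    rw [← hqS.1]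
    exact hq
  -- from `p + (0, -1)` to `U`
  have hA : ∃ u ∈ U, Pth ((K : Set Pt) \ S) (p + (0, -1)) u := by
    rcases hlow with h | h
    · exact ⟨_, h, Relation.ReflTransGen.refl⟩
    · simp only [Up, Finset.mem_filter] at h
      obtain ⟨-, k, h2, h3⟩ := h
      refine ⟨_, h2, ?_⟩
      have := Sep_path ((K : Set Pt) \ S) (-1) (Or.inr rfl) (p + (0, -1)) (k + 1) ?_
      · rwa [show ((-1 : ℤ) * ((k + 1 : ℕ) : ℤ)) = -((k : ℤ) + 1) by push_cast; ring] at this
      · intro j hj
        rcases Nat.lt_or_ge k j with hjk | hjk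
        · have : j = k + 1 := by omega
          subst this
          rw [show ((-1 : ℤ) * ((k + 1 : ℕ) : ℤ)) = -((k : ℤ) + 1) by push_cast; ring]
          exact hUT h2
        · rw [show ((-1 : ℤ) * (j : ℤ)) = -(j : ℤ) by ring]
          refine ⟨(h3 j hjk).1, fun hq => ?_⟩
          have h5 := hq.1
          simp only [Prod.snd_add] at h5
          omega
  have hB : ∃ u ∈ U, Pth ((K : Set Pt) \ S) (p' + (0, 1)) u := by
    rcases hup with h | h
    · exact ⟨_, h, Relation.ReflTransGen.refl⟩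
    · simp only [Dn, Finset.mem_filter] at h
      obtain ⟨-, k, h2, h3⟩ := h
      refine ⟨_, h2, ?_⟩
      have := Sep_path ((K : Set Pt) \ S) 1 (Or.inl rfl) (p' + (0, 1)) (k + 1) ?_
      · rwa [show ((1 : ℤ) * ((k + 1 : ℕ) : ℤ)) = (k : ℤ) + 1 by push_cast; ring] at this
      · intro j hj
        rcases Nat.lt_or_ge k j with hjk | hjk
        · have : j = k + 1 := by omega
          subst this
          rw [show ((1 : ℤ) * ((k + 1 : ℕ) : ℤ)) = (k : ℤ) + 1 by push_cast; ring]
          exact hUT h2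
        · rw [show ((1 : ℤ) * (j : ℤ)) = (j : ℤ) by ring]
          refine ⟨(h3 j hjk).1, fun hq => ?_⟩
          have h5 := hq.1
          simp only [Prod.snd_add] at h5
          omega
  obtain ⟨u, huU, hu⟩ := hA
  obtain ⟨u', huU', hu'⟩ := hB
  have hmemA : p + (0, -1) ∈ (K : Set Pt) \ S := by
    have h1 : p + (0, -1) ∈ K := by
      rcases hlow with h | h
      · exact hUK h
      · exact (mem_Up_iff.1 h).1
    refine ⟨h1, fun hq => ?_⟩
    have h5 := hq.1
    simp only [Prod.snd_add] at h5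
    omega
  have hmemB : p' + (0, 1) ∈ (K : Set Pt) \ S := by
    have h1 : p' + (0, 1) ∈ K := by
      rcases hup with h | h
      · exact hUK h
      · exact (mem_Dn_iff.1 h).1
    refine ⟨h1, fun hq => ?_⟩
    have h5 := hq.1
    simp only [Prod.snd_add] at h5
    omega
  have hpath : Pth ((K : Set Pt) \ S) (p' + (0, 1)) (p + (0, -1)) :=
    (hu'.trans ((hU u' huU' u huU).mono hUT)).trans (hu.symm hmemA)
  have e1 : p' + (0, 1) = (p'.1, p.2 + 1) := by
    ext
    · simp
    · simp only [Prod.snd_add]; omega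
  have e2 : p + (0, -1) = (p.1, p.2 - 1) := by
    ext
    · simp
    · simp only [Prod.snd_add]; omega
  rw [e1, e2] at hpath
  rw [e1] at hmemB
  rw [e2] at hmemA
  exact no_path (K : Set Pt) hc x₁ x₂ p.2 p'.1 p.1 hn1 hn2 hSK
    ⟨le_trans hx1 (min_le_right _ _), le_trans (le_max_right _ _) hx2⟩
    ⟨le_trans hx1 (min_le_left _ _), le_trans (le_max_left _ _) hx2⟩ hmemB.1 hmemA.1 hpath

end Pool.Agent.AL
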