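import Pool.Agent.AL.Sym
import Pool.Agent.AL.Sep
import Pool.Agent.AL.Count

/-!
# PIECE AL-Stage: one stage of the induction

Names: `A = Up K U`, `B = Dn K U`, `D = A ∪ B`, `U' = U ∪ A ∪ B`.
`stage_cn`: every point of `A` (`B`) has a vertical path in `A ∪ U` to a point of `U`.
`stage_vc`: from `mem_Up_iff`, `mem_Dn_iff`.
`stage`: by `HC` a point of `D` has no horizontal neighbour in `U` (it would be in `U`). By `sep`
(1) `p ∈ A → p + (0, 1) ∉ U`; `p ∈ B → p + (0, -1) ∉ U`;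
(2) `A` and `B` are disjoint (`p' = p`, using `mem_Up_iff`, `mem_Dn_iff`);
(3) `p ∈ A → p + (±1, 0) ∉ B`; vertical neighbours: `p ∈ A`, `p + (0, 1) ∈ B` would give
`p + (0, 1) ∈ A` by `mem_Up_iff`; `p ∈ A`, `p + (0, -1) ∈ B`: `p + (0, -1) ∈ U ∪ A`. So no point of
`A` is adjacent to a point of `B`.
Hence `EE A U = ed (0, -1) A U ≤ bd (0, 1) A K ≤ BB A K` by `ed_le_bd`, similarly for `B`, so
`EE D U ≤ BB D K`. `g U' ≤ g U + g A + g B ≤ g U + c (per A + per B)` by `PF.sub`, `flat_up`,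
`flat_down`, `flat_Up`, `flat_Dn`, and `per A + per B = per D = BB D K + EE D U + EE D (K \ U')`
(`per_eq`, `K \ D = U ∪ (K \ U')`). With `BB (K \ U) K = BB D K + BB (K \ U') K`,
`EE (K \ U) U = EE D U + EE (K \ U') U`, `EE (K \ U') U' = EE (K \ U') U + EE (K \ U') D` one gets
`Phi U' - Phi U ≤ c (2 EE D U - 2 BB D K) ≤ 0`.
-/

namespace Pool.Agent.AL

variable {L : ℕ}

private theorem Stage_mem_up {K U : Finset Pt} {q : Pt} : q ∈ Up K U ↔ q ∈ K ∧
    ∃ k : ℕ, q + (0, -((k : ℤ) + 1)) ∈ U ∧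
      ∀ j : ℕ, j ≤ k → q + (0, -(j : ℤ)) ∈ K ∧ q + (0, -(j : ℤ)) ∉ U := by
  simp only [Up, Finset.mem_filter]

private theorem Stage_mem_dn {K U : Finset Pt} {q : Pt} : q ∈ Dn K U ↔ q ∈ K ∧
    ∃ k : ℕ, q + (0, (k : ℤ) + 1) ∈ U ∧
      ∀ j : ℕ, j ≤ k → q + (0, (j : ℤ)) ∈ K ∧ q + (0, (j : ℤ)) ∉ U := by
  simp only [Dn, Finset.mem_filter]

theorem stage_subset {K U : Finset Pt} (hUK : U ⊆ K) : U ∪ Up K U ∪ Dn K U ⊆ K := by
  refine Finset.union_subset (Finset.union_subset hUK ?_) ?_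
  · exact fun p hp => (Stage_mem_up.1 hp).1
  · exact fun p hp => (Stage_mem_dn.1 hp).1

private theorem Stage_up (p : Pt) : p + (0, 1) + (0, -1) = p := by
  ext <;> simp

private theorem Stage_dn (p : Pt) : p + (0, -1) + (0, 1) = p := by
  ext <;> simp

private theorem Stage_sh (q : Pt) (a b c : ℤ) (h : a + b = c) :
    q + (0, a) + (0, b) = q + (0, c) := by
  ext
  · simp
  · simp only [Prod.snd_add]
    omega

private theorem Stage_pUp {K U : Finset Pt} {T : Set Pt} (hU : (U : Set Pt) ⊆ T)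
    (hA : (Up K U : Set Pt) ⊆ T) (k : ℕ) : ∀ q : Pt, q ∈ K →
      q + (0, -((k : ℤ) + 1)) ∈ U →
      (∀ j : ℕ, j ≤ k → q + (0, -(j : ℤ)) ∈ K ∧ q + (0, -(j : ℤ)) ∉ U) →
      ∃ u ∈ U, Pth T q u := by
  induction k with
  | zero =>
    intro q _ h1 _
    refine ⟨_, h1, ?_⟩
    refine Relation.ReflTransGen.single ⟨?_, hU h1⟩
    right; right; right
    rw [Nat.cast_zero, zero_add]
  | succ k ih =>
    intro q hq h1 h2
    have h3 : q + (0, -1) + (0, -((k : ℤ) + 1)) ∈ U := by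
      rw [Stage_sh q (-1) (-((k : ℤ) + 1)) (-(((k + 1 : ℕ) : ℤ) + 1)) (by push_cast; ring)]
      exact h1
    have h4 : ∀ j : ℕ, j ≤ k → q + (0, -1) + (0, -(j : ℤ)) ∈ K ∧
        q + (0, -1) + (0, -(j : ℤ)) ∉ U := by
      intro j hj
      rw [Stage_sh q (-1) (-(j : ℤ)) (-((j + 1 : ℕ) : ℤ)) (by push_cast; ring)]
      exact h2 (j + 1) (by omega)
    have h5 : q + (0, -1) ∈ K := by
      have := (h2 1 (by omega)).1
      rwa [Nat.cast_one] at this
    obtain ⟨u, hu, hp⟩ := ih _ h5 h3 h4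
    refine ⟨u, hu, Relation.ReflTransGen.head ⟨?_, ?_⟩ hp⟩
    · right; right; right
      rfl
    · apply hA
      rw [Finset.mem_coe, Stage_mem_up]
      exact ⟨h5, k, h3, h4⟩

private theorem Stage_pDn {K U : Finset Pt} {T : Set Pt} (hU : (U : Set Pt) ⊆ T)
    (hA : (Dn K U : Set Pt) ⊆ T) (k : ℕ) : ∀ q : Pt, q ∈ K →
      q + (0, (k : ℤ) + 1) ∈ U →
      (∀ j : ℕ, j ≤ k → q + (0, (j : ℤ)) ∈ K ∧ q + (0, (j : ℤ)) ∉ U) →
      ∃ u ∈ U, Pth T q u := by
  induction k with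
  | zero =>
    intro q _ h1 _
    refine ⟨_, h1, ?_⟩
    refine Relation.ReflTransGen.single ⟨?_, hU h1⟩
    right; right; left
    rw [Nat.cast_zero, zero_add]
  | succ k ih =>
    intro q hq h1 h2
    have h3 : q + (0, 1) + (0, (k : ℤ) + 1) ∈ U := by
      rw [Stage_sh q 1 ((k : ℤ) + 1) (((k + 1 : ℕ) : ℤ) + 1) (by push_cast; ring)]
      exact h1
    have h4 : ∀ j : ℕ, j ≤ k → q + (0, 1) + (0, (j : ℤ)) ∈ K ∧
        q + (0, 1) + (0, (j : ℤ)) ∉ U := by
      intro j hj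
      rw [Stage_sh q 1 (j : ℤ) ((j + 1 : ℕ) : ℤ) (by push_cast; ring)]
      exact h2 (j + 1) (by omega)
    have h5 : q + (0, 1) ∈ K := by
      have := (h2 1 (by omega)).1
      rwa [Nat.cast_one] at this
    obtain ⟨u, hu, hp⟩ := ih _ h5 h3 h4
    refine ⟨u, hu, Relation.ReflTransGen.head ⟨?_, ?_⟩ hp⟩
    · right; right; left
      rfl
    · apply hA
      rw [Finset.mem_coe, Stage_mem_dn]
      exact ⟨h5, k, h3, h4⟩

theorem stage_cn {K U : Finset Pt} (hUK : U ⊆ K) (hU : Cn (U : Set Pt)) :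
    Cn ((U ∪ Up K U ∪ Dn K U : Finset Pt) : Set Pt) := by
  set T : Set Pt := ((U ∪ Up K U ∪ Dn K U : Finset Pt) : Set Pt) with hT
  have h1 : (U : Set Pt) ⊆ T := fun p hp => by
    rw [hT, Finset.mem_coe, Finset.mem_union, Finset.mem_union]
    exact Or.inl (Or.inl hp)
  have h2 : (Up K U : Set Pt) ⊆ T := fun p hp => by
    rw [hT, Finset.mem_coe, Finset.mem_union, Finset.mem_union]
    exact Or.inl (Or.inr hp)
  have h3 : (Dn K U : Set Pt) ⊆ T := fun p hp => by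
    rw [hT, Finset.mem_coe, Finset.mem_union, Finset.mem_union]
    exact Or.inr hp
  have key : ∀ p ∈ T, ∃ u ∈ U, Pth T p u := by
    intro p hp
    rw [hT, Finset.mem_coe, Finset.mem_union, Finset.mem_union] at hp
    rcases hp with (hp | hp) | hp
    · exact ⟨p, hp, Relation.ReflTransGen.refl⟩
    · rw [Stage_mem_up] at hp
      obtain ⟨hpK, k, h4, h5⟩ := hp
      exact Stage_pUp h1 h2 k p hpK h4 h5
    · rw [Stage_mem_dn] at hp
      obtain ⟨hpK, k, h4, h5⟩ := hp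
      exact Stage_pDn h1 h3 k p hpK h4 h5
  intro p hp q hq
  obtain ⟨u, hu, hpu⟩ := key p hp
  obtain ⟨u', hu', hqu⟩ := key q hq
  exact (hpu.trans ((hU u hu u' hu').mono h1)).trans (hqu.symm hq)

theorem stage_vc (K U : Finset Pt) : VC K (U ∪ Up K U ∪ Dn K U) := by
  intro p hp
  rw [Finset.mem_union, Finset.mem_union] at hp
  constructor
  · intro hK
    rw [Finset.mem_union, Finset.mem_union]
    by_cases hU : p + (0, 1) ∈ U
    · exact Or.inl (Or.inl hU)
    rcases hp with (hp | hp) | hp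
    · refine Or.inl (Or.inr (mem_Up_iff.2 ⟨hK, hU, Or.inl ?_⟩))
      rwa [Stage_up]
    · refine Or.inl (Or.inr (mem_Up_iff.2 ⟨hK, hU, Or.inr ?_⟩))
      rwa [Stage_up]
    · rcases (mem_Dn_iff.1 hp).2.2 with h | h
      · exact absurd h hU
      · exact Or.inr h
  · intro hK
    rw [Finset.mem_union, Finset.mem_union]
    by_cases hU : p + (0, -1) ∈ U
    · exact Or.inl (Or.inl hU)
    rcases hp with (hp | hp) | hp
    · refine Or.inr (mem_Dn_iff.2 ⟨hK, hU, Or.inl ?_⟩)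
      rwa [Stage_dn]
    · rcases (mem_Up_iff.1 hp).2.2 with h | h
      · exact absurd h hU
      · exact Or.inl (Or.inr h)
    · refine Or.inr (mem_Dn_iff.2 ⟨hK, hU, Or.inr ?_⟩)
      rwa [Stage_dn]

private theorem Stage_ed_zero (u : Pt) {X Y : Finset Pt} (h : ∀ p ∈ X, p + u ∉ Y) :
    ed u X Y = 0 := by
  unfold ed
  rw [Finset.card_eq_zero, Finset.filter_eq_empty_iff]
  exact fun p hp => h p hp

theorem stage (P : PF L) {c : ℝ} (hc : 0 ≤ c) (hS : Sq P c) {K U : Finset Pt}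
    (hK : K ⊆ Box L) (hKc : Cn ((K : Set Pt)ᶜ)) (hUK : U ⊆ K) (hU : Cn (U : Set Pt))
    (hH : HC K U) : Phi P c K (U ∪ Up K U ∪ Dn K U) ≤ Phi P c K U := by
  set A := Up K U with hA
  set B := Dn K U with hB
  have hAK : A ⊆ K := fun p hp => (Stage_mem_up.1 hp).1
  have hBK : B ⊆ K := fun p hp => (Stage_mem_dn.1 hp).1
  have hAU : Disjoint A U := Finset.disjoint_left.2 fun p hp => (mem_Up_iff.1 hp).2.1
  have hBU : Disjoint B U := Finset.disjoint_left.2 fun p hp => (mem_Dn_iff.1 hp).2.1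
  have hrun0 : ∀ p ∈ K, ∀ x, min p.1 p.1 ≤ x → x ≤ max p.1 p.1 → (x, p.2) ∈ K := by
    intro p hp x h1 h2
    rw [min_self] at h1
    rw [max_self] at h2
    rw [le_antisymm h2 h1]
    exact hp
  have hA1 : ∀ p ∈ A, p + (0, 1) ∉ U := fun p hp h =>
    sep hUK hKc hU hH (hAK hp) (mem_Up_iff.1 hp).2.1 rfl (hrun0 p (hAK hp))
      (mem_Up_iff.1 hp).2.2 (Or.inl h)
  have hB1 : ∀ p ∈ B, p + (0, -1) ∉ U := fun p hp h =>
    sep hUK hKc hU hH (hBK hp) (mem_Dn_iff.1 hp).2.1 rfl (hrun0 p (hBK hp))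
      (Or.inl h) (mem_Dn_iff.1 hp).2.2
  have hAB : Disjoint A B := Finset.disjoint_left.2 fun p hp hp' =>
    sep hUK hKc hU hH (hAK hp) (mem_Up_iff.1 hp).2.1 rfl (hrun0 p (hAK hp))
      (mem_Up_iff.1 hp).2.2 (mem_Dn_iff.1 hp').2.2
  have hAB3 : ∀ p ∈ A, ∀ q ∈ B, p.2 = q.2 → (∀ x, min p.1 q.1 ≤ x → x ≤ max p.1 q.1 →
      x = p.1 ∨ x = q.1) → False := by
    intro p hp q hq h1 h2
    refine sep hUK hKc hU hH (hAK hp) (mem_Up_iff.1 hp).2.1 h1 ?_ (mem_Up_iff.1 hp).2.2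
      (mem_Dn_iff.1 hq).2.2
    intro x h3 h4
    rcases h2 x h3 h4 with rfl | rfl
    · exact hAK hp
    · rw [h1]
      exact hBK hq
  have hEAB : EE A B = 0 := by
    refine EE_eq_zero fun p hp q hq hadj => ?_
    rcases hadj with rfl | rfl | rfl | rfl
    · refine hAB3 p hp _ hq (by simp) ?_
      intro x h1 h2
      simp only [Prod.fst_add] at h1 h2 ⊢
      omega
    · refine hAB3 p hp _ hq (by simp) ?_
      intro x h1 h2
      simp only [Prod.fst_add] at h1 h2 ⊢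
      omega
    · refine Finset.disjoint_left.1 hAB (mem_Up_iff.2 ⟨hBK hq, (mem_Dn_iff.1 hq).2.1,
        Or.inr ?_⟩) hq
      rwa [Stage_up]
    · rcases (mem_Up_iff.1 hp).2.2 with h | h
      · exact Finset.disjoint_left.1 hBU hq h
      · exact Finset.disjoint_left.1 hAB h hq
  have hhor : ∀ X : Finset Pt, X ⊆ K → Disjoint X U → ed (1, 0) X U = 0 ∧ ed (-1, 0) X U = 0 := by
    intro X hXK hXU
    constructor
    · refine Stage_ed_zero _ fun p hp h => ?_
      have h1 := (hH _ h).2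
      rw [show p + (1, 0) + (-1, 0) = p by ext <;> simp] at h1
      exact Finset.disjoint_left.1 hXU hp (h1 (hXK hp))
    · refine Stage_ed_zero _ fun p hp h => ?_
      have h1 := (hH _ h).1
      rw [show p + (-1, 0) + (1, 0) = p by ext <;> simp] at h1
      exact Finset.disjoint_left.1 hXU hp (h1 (hXK hp))
  have hEA : EE A U ≤ BB A K := by
    have h1 := hhor A hAK hAU
    have h2 : ed (0, 1) A U = 0 := Stage_ed_zero _ hA1
    have h3 := ed_le_bd (K := K) hAU fun p hp hpK =>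
      mem_Up_iff.2 ⟨hpK, hA1 p hp, Or.inr (by rwa [Stage_up])⟩
    unfold EE BB
    omega
  have hEB : EE B U ≤ BB B K := by
    have h1 := hhor B hBK hBU
    have h2 : ed (0, -1) B U = 0 := Stage_ed_zero _ hB1
    have h3 := ed_le_bd' (K := K) hBU fun p hp hpK =>
      mem_Dn_iff.2 ⟨hpK, hB1 p hp, Or.inr (by rwa [Stage_dn])⟩
    unfold EE BB
    omega
  -- the rest
  set R := K \ (U ∪ A ∪ B) with hR
  have hRA : Disjoint R A := Finset.disjoint_left.2 fun p hp h =>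
    (Finset.mem_sdiff.1 hp).2 (Finset.mem_union_left _ (Finset.mem_union_right _ h))
  have hRB : Disjoint R B := Finset.disjoint_left.2 fun p hp h =>
    (Finset.mem_sdiff.1 hp).2 (Finset.mem_union_right _ h)
  have hRU : Disjoint R U := Finset.disjoint_left.2 fun p hp h =>
    (Finset.mem_sdiff.1 hp).2 (Finset.mem_union_left _ (Finset.mem_union_left _ h))
  have hKU : K \ U = (A ∪ B) ∪ R := by
    ext p
    simp only [hR, Finset.mem_sdiff, Finset.mem_union]
    constructor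
    · rintro ⟨h1, h2⟩
      by_cases h3 : p ∈ A
      · exact Or.inl (Or.inl h3)
      · by_cases h4 : p ∈ B
        · exact Or.inl (Or.inr h4)
        · exact Or.inr ⟨h1, by tauto⟩
    · rintro ((h1 | h1) | h1)
      · exact ⟨hAK h1, Finset.disjoint_left.1 hAU h1⟩
      · exact ⟨hBK h1, Finset.disjoint_left.1 hBU h1⟩
      · exact ⟨h1.1, fun h2 => h1.2 (Or.inl (Or.inl h2))⟩
  have hKA : K \ A = (U ∪ B) ∪ R := by
    ext p
    simp only [hR, Finset.mem_sdiff, Finset.mem_union]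
    constructor
    · rintro ⟨h1, h2⟩
      by_cases h3 : p ∈ U
      · exact Or.inl (Or.inl h3)
      · by_cases h4 : p ∈ B
        · exact Or.inl (Or.inr h4)
        · exact Or.inr ⟨h1, by tauto⟩
    · rintro ((h1 | h1) | h1)
      · exact ⟨hUK h1, fun h2 => Finset.disjoint_left.1 hAU h2 h1⟩
      · exact ⟨hBK h1, fun h2 => Finset.disjoint_left.1 hAB h2 h1⟩
      · exact ⟨h1.1, fun h2 => h1.2 (Or.inl (Or.inr h2))⟩
  have hKB : K \ B = (U ∪ A) ∪ R := by
    ext p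
    simp only [hR, Finset.mem_sdiff, Finset.mem_union]
    constructor
    · rintro ⟨h1, h2⟩
      by_cases h3 : p ∈ U
      · exact Or.inl (Or.inl h3)
      · by_cases h4 : p ∈ A
        · exact Or.inl (Or.inr h4)
        · exact Or.inr ⟨h1, by tauto⟩
    · rintro ((h1 | h1) | h1)
      · exact ⟨hUK h1, fun h2 => Finset.disjoint_left.1 hBU h2 h1⟩
      · exact ⟨hAK h1, fun h2 => Finset.disjoint_left.1 hAB h1 h2⟩
      · exact ⟨h1.1, fun h2 => h1.2 (Or.inr h2)⟩
  have hDR : Disjoint (A ∪ B) R := Finset.disjoint_union_left.2 ⟨hRA.symm, hRB.symm⟩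
  have e1 : BB (K \ U) K = BB A K + BB B K + BB R K := by
    rw [hKU, BB_union hDR, BB_union hAB]
  have e2 : EE (K \ U) U = EE A U + EE B U + EE R U := by
    rw [hKU, EE_union_left hDR, EE_union_left hAB]
  have e3 : EE R (U ∪ A ∪ B) = EE R U + EE R A + EE R B := by
    rw [EE_union_right R (Finset.disjoint_union_left.2 ⟨hBU.symm, hAB⟩),
      EE_union_right R hAU.symm]
  have e4 : per A = BB A K + (EE A U + EE A B + EE A R) := by
    rw [per_eq hAK, hKA, EE_union_right A (Finset.disjoint_union_left.2 ⟨hRU.symm, hRB.symm⟩),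
      EE_union_right A hBU.symm]
  have e5 : per B = BB B K + (EE B U + EE B A + EE B R) := by
    rw [per_eq hBK, hKB, EE_union_right B (Finset.disjoint_union_left.2 ⟨hRU.symm, hRA.symm⟩),
      EE_union_right B hAU.symm]
  have e6 : EE B A = 0 := by rw [EE_comm, hEAB]
  have e7 : EE A R = EE R A := EE_comm _ _
  have e8 : EE B R = EE R B := EE_comm _ _
  have hAbox : A ⊆ Box L := hAK.trans hK
  have hBbox : B ⊆ Box L := hBK.trans hK
  have hUbox : U ⊆ Box L := hUK.trans hK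
  have g1 : P.g (U ∪ A ∪ B) ≤ P.g (U ∪ A) + P.g B :=
    P.sub (Finset.union_subset hUbox hAbox) hBbox
  have g2 : P.g (U ∪ A) ≤ P.g U + P.g A := P.sub hUbox hAbox
  have g3 : P.g A ≤ c * per A := flat_up P hc hS A hAbox (flat_Up hH)
  have g4 : P.g B ≤ c * per B := flat_down P hc hS B hBbox (flat_Dn hH)
  have n1 : (per A : ℝ) = BB A K + (EE A U + EE R A) := by
    rw [e4, hEAB, e7]
    push_cast
    ring
  have n2 : (per B : ℝ) = BB B K + (EE B U + EE R B) := by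
    rw [e5, e6, e8]
    push_cast
    ring
  have n3 : (EE A U : ℝ) ≤ BB A K := by exact_mod_cast hEA
  have n4 : (EE B U : ℝ) ≤ BB B K := by exact_mod_cast hEB
  unfold Phi
  rw [← hR, e1, e2, e3]
  push_cast
  rw [n1] at g3
  rw [n2] at g4
  have n5 := mul_le_mul_of_nonneg_left n3 hc
  have n6 := mul_le_mul_of_nonneg_left n4 hc
  nlinarith

end Pool.Agent.AL
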