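import Pool.Agent.AL.FlatUp

/-!
# PIECE AL-Sym: exchange of the coordinates and reflection
-/

namespace Pool.Agent.AL

variable {L : ℕ}

theorem swp_swp (K : Finset Pt) : swp (swp K) = K := by
  ext p
  rw [mem_swp, mem_swp]

theorem swp_subset_Box {K : Finset Pt} (h : K ⊆ Box L) : swp K ⊆ Box L := by
  intro p hp
  rw [mem_swp] at hp
  have := mem_Box.1 (h hp)
  exact mem_Box.2 ⟨this.2, this.1⟩

theorem swp_sdiff (K U : Finset Pt) : swp (K \ U) = swp K \ swp U := by
  ext p
  simp only [mem_swp, Finset.mem_sdiff]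

theorem flp_subset_Box {K : Finset Pt} (h : K ⊆ Box L) : flp L K ⊆ Box L := by
  intro p hp
  rw [mem_flp] at hp
  have := mem_Box.1 (h hp)
  simp only at this
  refine mem_Box.2 ⟨this.1, ?_, ?_⟩ <;> omega

private theorem Sym_swp_union (K M : Finset Pt) : swp (K ∪ M) = swp K ∪ swp M := by
  ext p
  simp only [mem_swp, Finset.mem_union]

private theorem Sym_swp_inter (K M : Finset Pt) : swp (K ∩ M) = swp K ∩ swp M := by
  ext p
  simp only [mem_swp, Finset.mem_inter]

private theorem Sym_flp_union (K M : Finset Pt) : flp L (K ∪ M) = flp L K ∪ flp L M := by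
  ext p
  simp only [mem_flp, Finset.mem_union]

private theorem Sym_flp_inter (K M : Finset Pt) : flp L (K ∩ M) = flp L K ∩ flp L M := by
  ext p
  simp only [mem_flp, Finset.mem_inter]

private theorem Sym_swp_disj {K M : Finset Pt} (h : Disjoint K M) : Disjoint (swp K) (swp M) := by
  rw [Finset.disjoint_left] at h ⊢
  intro p h1 h2
  exact h (mem_swp.1 h1) (mem_swp.1 h2)

private theorem Sym_flp_disj {K M : Finset Pt} (h : Disjoint K M) :
    Disjoint (flp L K) (flp L M) := by
  rw [Finset.disjoint_left] at h ⊢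
  intro p h1 h2
  exact h (mem_flp.1 h1) (mem_flp.1 h2)

private theorem Sym_mem_tr {K : Finset Pt} {v p : Pt} : p ∈ K.image (· + v) ↔ p - v ∈ K := by
  rw [Finset.mem_image]
  constructor
  · rintro ⟨q, hq, rfl⟩
    rwa [add_sub_cancel_right]
  · intro h
    exact ⟨_, h, sub_add_cancel p v⟩

private theorem Sym_swp_tr (K : Finset Pt) (v : Pt) :
    swp (K.image (· + v)) = (swp K).image (· + (v.2, v.1)) := by
  ext p
  rw [mem_swp, Sym_mem_tr, Sym_mem_tr, mem_swp]
  rfl

private theorem Sym_flp_tr (K : Finset Pt) (v : Pt) :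
    flp L (K.image (· + v)) = (flp L K).image (· + (v.1, -v.2)) := by
  ext p
  rw [mem_flp, Sym_mem_tr, Sym_mem_tr, mem_flp]
  have : ((p.1, (L : ℤ) - 1 - p.2) : Pt) - v =
      ((p - (v.1, -v.2)).1, (L : ℤ) - 1 - (p - (v.1, -v.2)).2) := by
    ext
    · rfl
    · simp only [Prod.snd_sub]
      ring
  rw [this]

/-- `P` composed with the exchange of the coordinates -/
noncomputable def PF.swap (P : PF L) : PF L where
  g K := P.g (swp K)
  empty := P.empty
  nonneg K hK := P.nonneg _ (swp_subset_Box hK)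
  ssa K M hK hM := by
    rw [Sym_swp_union, Sym_swp_inter]
    exact P.ssa _ _ (swp_subset_Box hK) (swp_subset_Box hM)
  tri K M hK hM h := by
    rw [Sym_swp_union]
    exact P.tri _ _ (swp_subset_Box hK) (swp_subset_Box hM) (Sym_swp_disj h)
  ti K v hK hv := by
    have h := swp_subset_Box hv
    rw [Sym_swp_tr] at h ⊢
    exact P.ti _ _ (swp_subset_Box hK) h

/-- `P` composed with the reflection -/
noncomputable def PF.flip (P : PF L) : PF L where
  g K := P.g (flp L K)
  empty := P.empty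
  nonneg K hK := P.nonneg _ (flp_subset_Box hK)
  ssa K M hK hM := by
    rw [Sym_flp_union, Sym_flp_inter]
    exact P.ssa _ _ (flp_subset_Box hK) (flp_subset_Box hM)
  tri K M hK hM h := by
    rw [Sym_flp_union]
    exact P.tri _ _ (flp_subset_Box hK) (flp_subset_Box hM) (Sym_flp_disj h)
  ti K v hK hv := by
    have h := flp_subset_Box hv
    rw [Sym_flp_tr] at h ⊢
    exact P.ti _ _ (flp_subset_Box hK) h

private theorem Sym_swp_rect (n : ℕ) : swp (rect n n) = rect n n := by
  ext p
  rw [mem_swp, mem_rect, mem_rect]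
  exact and_comm

theorem Sq_swap {P : PF L} {c : ℝ} (h : Sq P c) : Sq P.swap c := by
  intro n hn
  change P.g (swp (rect n n)) ≤ c * n
  rw [Sym_swp_rect]
  exact h n hn

/-- `flp L (rect n n)` is the translate of `rect n n` by `(0, L - n)` -/
theorem Sq_flip {P : PF L} {c : ℝ} (h : Sq P c) : Sq P.flip c := by
  intro n hn
  change P.g (flp L (rect n n)) ≤ c * n
  have hn' : (n : ℤ) ≤ L := by exact_mod_cast hn
  have h1 : flp L (rect n n) = (rect n n).image (· + (0, (L : ℤ) - n)) := by
    ext p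
    rw [mem_flp, Sym_mem_tr, mem_rect, mem_rect]
    simp only [Prod.fst_sub, Prod.snd_sub]
    omega
  have h2 : rect n n ⊆ Box L := by
    intro p hp
    have := mem_rect.1 hp
    exact mem_Box.2 (by omega)
  rw [h1, P.ti _ _ h2 (by rw [← h1]; exact flp_subset_Box h2)]
  exact h n hn

private theorem Sym_bd_swp (u : Pt) (X K : Finset Pt) :
    bd u (swp X) (swp K) = bd (u.2, u.1) X K := by
  unfold bd
  have h : ((swp X).filter fun p => p + u ∉ swp K) =
      swp (X.filter fun p => p + (u.2, u.1) ∉ K) := by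
    ext p
    rw [Finset.mem_filter, mem_swp, mem_swp, mem_swp, Finset.mem_filter]
    rfl
  rw [h]
  exact Finset.card_image_of_injective _ fun p q hpq => by
    simp only [Prod.mk.injEq] at hpq
    exact Prod.ext hpq.2 hpq.1

private theorem Sym_ed_swp (u : Pt) (X K : Finset Pt) :
    ed u (swp X) (swp K) = ed (u.2, u.1) X K := by
  unfold ed
  have h : ((swp X).filter fun p => p + u ∈ swp K) =
      swp (X.filter fun p => p + (u.2, u.1) ∈ K) := by
    ext p
    rw [Finset.mem_filter, mem_swp, mem_swp, mem_swp, Finset.mem_filter]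
    rfl
  rw [h]
  exact Finset.card_image_of_injective _ fun p q hpq => by
    simp only [Prod.mk.injEq] at hpq
    exact Prod.ext hpq.2 hpq.1

private theorem Sym_bd_flp (u : Pt) (X K : Finset Pt) :
    bd u (flp L X) (flp L K) = bd (u.1, -u.2) X K := by
  unfold bd
  have h : ((flp L X).filter fun p => p + u ∉ flp L K) =
      flp L (X.filter fun p => p + (u.1, -u.2) ∉ K) := by
    ext p
    rw [Finset.mem_filter, mem_flp, mem_flp, mem_flp, Finset.mem_filter]
    have : (((p + u).1, (L : ℤ) - 1 - (p + u).2) : Pt) =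
        (p.1, (L : ℤ) - 1 - p.2) + (u.1, -u.2) := by
      ext
      · rfl
      · simp only [Prod.snd_add]
        ring
    rw [this]
  rw [h]
  exact Finset.card_image_of_injective _ fun p q hpq => by
    simp only [Prod.mk.injEq] at hpq
    exact Prod.ext hpq.1 (by omega)

theorem BB_swp (X K : Finset Pt) : BB (swp X) (swp K) = BB X K := by
  unfold BB
  simp only [Sym_bd_swp]
  omega

theorem EE_swp (X Y : Finset Pt) : EE (swp X) (swp Y) = EE X Y := by
  unfold EE
  simp only [Sym_ed_swp]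
  omega

theorem per_flp (K : Finset Pt) : per (flp L K) = per K := by
  unfold per BB
  simp only [Sym_bd_flp, neg_zero, neg_neg]
  omega

private theorem Sym_adj {p q : Pt} (h : Adj p q) : Adj (p.2, p.1) (q.2, q.1) := by
  rcases h with rfl | rfl | rfl | rfl
  · exact Or.inr (Or.inr (Or.inl rfl))
  · exact Or.inr (Or.inr (Or.inr rfl))
  · exact Or.inl rfl
  · exact Or.inr (Or.inl rfl)

private theorem Sym_cn {T T' : Set Pt} (h1 : ∀ p : Pt, p ∈ T' ↔ (p.2, p.1) ∈ T) (h : Cn T) :
    Cn T' := by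
  intro p hp q hq
  have h2 := h _ ((h1 p).1 hp) _ ((h1 q).1 hq)
  have key : ∀ b : Pt, Pth T (p.2, p.1) b → Pth T' p (b.2, b.1) := by
    intro b hb
    induction hb with
    | refl => exact Relation.ReflTransGen.refl
    | tail _ hbc ih =>
      exact Relation.ReflTransGen.tail ih ⟨Sym_adj hbc.1, (h1 _).2 hbc.2⟩
  exact key _ h2

theorem Cn_swp {K : Finset Pt} (h : Cn (K : Set Pt)) : Cn (swp K : Set Pt) := by
  refine Sym_cn (fun p => ?_) h
  rw [Finset.mem_coe, Finset.mem_coe, mem_swp]

theorem Cn_compl_swp {K : Finset Pt} (h : Cn ((K : Set Pt)ᶜ)) : Cn ((swp K : Set Pt)ᶜ) := by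
  refine Sym_cn (fun p => ?_) h
  rw [Set.mem_compl_iff, Set.mem_compl_iff, Finset.mem_coe, Finset.mem_coe, mem_swp]

theorem HC_swp {K U : Finset Pt} (h : VC K U) : HC (swp K) (swp U) := by
  intro p hp
  obtain ⟨h1, h2⟩ := h _ (mem_swp.1 hp)
  exact ⟨fun h3 => mem_swp.2 (h1 (mem_swp.1 h3)), fun h3 => mem_swp.2 (h2 (mem_swp.1 h3))⟩

theorem Phi_swap (P : PF L) (c : ℝ) (K U : Finset Pt) :
    Phi P.swap c (swp K) (swp U) = Phi P c K U := by
  unfold Phi
  rw [← swp_sdiff, BB_swp, EE_swp]
  change P.g (swp (swp U)) + _ = _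
  rw [swp_swp]

/-- apply `flat_up` to `P.flip` and `flp L D` -/
theorem flat_down (P : PF L) {c : ℝ} (hc : 0 ≤ c) (hS : Sq P c) (D : Finset Pt)
    (hD : D ⊆ Box L) (hF : Flat (0, 1) D) : P.g D ≤ c * per D := by
  have h1 : flp L (flp L D) = D := by
    ext p
    rw [mem_flp, mem_flp]
    have : (((p.1, (L : ℤ) - 1 - p.2) : Pt).1, (L : ℤ) - 1 - ((p.1, (L : ℤ) - 1 - p.2) : Pt).2) =
        p := by
      ext
      · rfl
      · simp only
        ring
    rw [this]
  have h2 : Flat (0, -1) (flp L D) := by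
    intro p hp hp1
    have h3 : ((p.1, (L : ℤ) - 1 - p.2) : Pt) + (1, 0) ∈ D := by
      have := mem_flp.1 hp1
      have h4 : (((p + (1, 0)).1, (L : ℤ) - 1 - (p + (1, 0)).2) : Pt) =
          (p.1, (L : ℤ) - 1 - p.2) + (1, 0) := by
        ext
        · rfl
        · simp only [Prod.snd_add]
          ring
      rwa [← h4]
    have h5 := hF _ (mem_flp.1 hp) h3
    rw [mem_flp, mem_flp]
    have h6 : (((p + (0, -1)).1, (L : ℤ) - 1 - (p + (0, -1)).2) : Pt) =
        (p.1, (L : ℤ) - 1 - p.2) + (0, 1) := by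
      ext
      · rfl
      · simp only [Prod.snd_add]
        ring
    have h7 : (((p + (1, 0) + (0, -1)).1, (L : ℤ) - 1 - (p + (1, 0) + (0, -1)).2) : Pt) =
        (p.1, (L : ℤ) - 1 - p.2) + (1, 0) + (0, 1) := by
      ext
      · rfl
      · simp only [Prod.snd_add]
        ring
    rw [h6, h7]
    exact h5
  have h3 := flat_up P.flip hc (Sq_flip hS) (flp L D) (flp_subset_Box hD) h2
  rw [per_flp] at h3
  change P.g (flp L (flp L D)) ≤ _ at h3
  rwa [h1] at h3

end Pool.Agent.AL
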