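import Pool.Agent.AL.Defs
import Pool.Agent.AL.Rect

/-!
# PIECE AL-TorPF: from the torus to the box; dyadic squares

`EF.nonneg`: `f A + f Aᶜ ≥ f univ + f ∅ = f ∅ᶜ + f ∅ = 0`.
`toPF`: `red L` is injective on `Box L`; `ssa`: `Finset.image_union`, image of the intersection.
`tri`: for disjoint `A, B` in the torus, `C = (A ∪ B)ᶜ`: `Aᶜ = B ∪ C`,
`f A = f (B ∪ C) ≤ f B + f C = f B + f (A ∪ B)`.
`dyad`: let `p = 2^k` be the largest power of two with `2 p ≤ L`, so `L < 4 p`. `n ≤ p`: let `q` be the
smallest power of two `≥ n`, `q ≤ p`, `q ≤ 2 n`: `F n n ≤ 4 F q q ≤ 4 c q ≤ 8 c n` by `F_mono1`,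
`F_mono2`. `n > p`: `n ≤ L < 4 p`, cut both sides into four parts `≤ p` (`F_add1`, `F_add2`):
`F n n ≤ 16 · 4 F p p ≤ 64 c p ≤ 64 c n`. (`n = 0`: `F 0 0 = 0`.)
-/

namespace Pool.Agent.AL

variable {L : ℕ} [NeZero L]

theorem EF.nonneg (E : EF L) (A : Finset (Tor L)) : 0 ≤ E.f A := by
  have h1 := E.ssa A Aᶜ
  have h2 : A ∪ Aᶜ = (∅ : Finset (Tor L))ᶜ := by
    rw [Finset.union_compl, Finset.compl_empty]
  have h3 : A ∩ Aᶜ = (∅ : Finset (Tor L)) := Finset.inter_compl A
  rw [h2, h3, E.compl, E.compl, E.empty] at h1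
  linarith

omit [NeZero L] in
private theorem torPF_red_inj {x y : ℤ} (hx : 0 ≤ x ∧ x < L) (hy : 0 ≤ y ∧ y < L)
    (h : (x : ZMod L) = (y : ZMod L)) : x = y := by
  have h1 := (ZMod.intCast_eq_intCast_iff x y L).1 h
  have h2 : x % (L : ℤ) = y % (L : ℤ) := h1
  rwa [Int.emod_eq_of_lt hx.1 hx.2, Int.emod_eq_of_lt hy.1 hy.2] at h2

private theorem torPF_injOn : Set.InjOn (red L) (Box L : Set Pt) := by
  intro p hp q hq h
  rw [Finset.mem_coe, mem_Box] at hp hq
  have h1 : ((p.1 : ZMod L), (p.2 : ZMod L)) = ((q.1 : ZMod L), (q.2 : ZMod L)) := h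
  rw [Prod.mk.injEq] at h1
  exact Prod.ext (torPF_red_inj hp.1 hq.1 h1.1) (torPF_red_inj hp.2 hq.2 h1.2)

private theorem torPF_inter {K M : Finset Pt} (hK : K ⊆ Box L) (hM : M ⊆ Box L) :
    (K ∩ M).image (red L) = K.image (red L) ∩ M.image (red L) := by
  apply Finset.image_inter_of_injOn
  intro x hx y hy h
  rw [Set.mem_union, Finset.mem_coe, Finset.mem_coe] at hx hy
  refine torPF_injOn ?_ ?_ h
  · exact Finset.mem_coe.2 (hx.elim (fun h => hK h) fun h => hM h)
  · exact Finset.mem_coe.2 (hy.elim (fun h => hK h) fun h => hM h)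

omit [NeZero L] in
private theorem torPF_red_add (p v : Pt) : red L (p + v) = red L p + red L v := by
  unfold red
  ext <;> simp

/-- the set function on the box -/
noncomputable def EF.toPF (E : EF L) : PF L where
  g K := E.f (K.image (red L))
  empty := by
    rw [Finset.image_empty, E.empty]
  nonneg := fun K _ => E.nonneg _
  ssa := by
    intro K M hK hM
    rw [Finset.image_union, torPF_inter hK hM]
    exact E.ssa _ _
  tri := by
    intro K M hK hM hKM
    rw [Finset.image_union]
    have h0 : K.image (red L) ∩ M.image (red L) = ∅ := by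
      rw [← torPF_inter hK hM, Finset.disjoint_iff_inter_eq_empty.1 hKM, Finset.image_empty]
    set A : Finset (Tor L) := K.image (red L) with hA
    set B : Finset (Tor L) := M.image (red L) with hB
    have h1 : Aᶜ = B ∪ (A ∪ B)ᶜ := by
      ext x
      have hx : ¬ (x ∈ A ∧ x ∈ B) := by
        intro h
        have : x ∈ A ∩ B := Finset.mem_inter.2 h
        rw [h0] at this
        exact Finset.notMem_empty x this
      simp only [Finset.mem_compl, Finset.mem_union]
      tauto
    have h2 := E.ssa B (A ∪ B)ᶜ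
    rw [← h1, E.compl, E.compl] at h2
    have h3 := E.nonneg (B ∩ (A ∪ B)ᶜ)
    linarith
  ti := by
    intro K v _ _
    have h1 : (K.image (· + v)).image (red L) = (K.image (red L)).image (· + red L v) := by
      rw [Finset.image_image, Finset.image_image]
      apply Finset.image_congr
      intro p _
      exact torPF_red_add p v
    rw [h1]
    exact E.ti _ _

theorem toPF_F (E : EF L) {n : ℕ} (hn : n ≤ L) : E.toPF.F n n = E.f (Qs L n) := by
  have h1 : (rect n n).image (red L) = Qs L n := by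
    ext v
    rw [Finset.mem_image]
    unfold Qs
    rw [Finset.mem_filter]
    constructor
    · rintro ⟨p, hp, rfl⟩
      rw [mem_rect] at hp
      refine ⟨Finset.mem_univ _, ?_, ?_⟩
      · have h2 : (((p.1 : ZMod L).val : ℕ) : ℤ) = p.1 % L := ZMod.val_intCast p.1
        rw [Int.emod_eq_of_lt hp.1.1 (by omega)] at h2
        change (p.1 : ZMod L).val < n
        omega
      · have h2 : (((p.2 : ZMod L).val : ℕ) : ℤ) = p.2 % L := ZMod.val_intCast p.2
        rw [Int.emod_eq_of_lt hp.2.1 (by omega)] at h2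
        change (p.2 : ZMod L).val < n
        omega
    · rintro ⟨_, h2, h3⟩
      refine ⟨((v.1.val : ℤ), (v.2.val : ℤ)), ?_, ?_⟩
      · rw [mem_rect]
        simp only [Nat.cast_nonneg, Nat.cast_lt, true_and]
        exact ⟨h2, h3⟩
      · unfold red
        ext
        · simp
        · simp
  change E.f ((rect n n).image (red L)) = E.f (Qs L n)
  rw [h1]

omit [NeZero L] in
private theorem torPF_cut (P : PF L) {p : ℕ} (hp : 2 * p ≤ L) {b : ℕ} (hb : b ≤ p) :
    ∀ t a : ℕ, a ≤ L → a ≤ t * p → P.F a b ≤ t * (4 * P.F p p) := by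
  have hM : 0 ≤ P.F p p := F_nonneg P (by omega) (by omega)
  intro t
  induction t with
  | zero =>
    intro a _ h
    have : a = 0 := by omega
    subst this
    rw [F_zero_left]
    simp
  | succ t ih =>
    intro a ha h
    have h1 : a = (a - min a p) + min a p := by omega
    have h2 : min a p ≤ p := min_le_right _ _
    have h3 : P.F ((a - min a p) + min a p) b ≤ P.F (a - min a p) b + P.F (min a p) b :=
      F_add1 P (by omega) (by omega)
    rw [← h1] at h3
    have h4 : P.F (a - min a p) b ≤ t * (4 * P.F p p) := by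
      apply ih
      · omega
      · rw [add_mul, one_mul] at h
        rcases le_total a p with hap | hap
        · rw [min_eq_left hap]
          omega
        · rw [min_eq_right hap]
          omega
    have h5 : P.F (min a p) b ≤ 2 * P.F p b := F_mono1 P h2 hp (by omega)
    have h6 : P.F p b ≤ 2 * P.F p p := F_mono2 P hb hp (by omega)
    push_cast
    nlinarith

omit [NeZero L] in
private theorem torPF_cut2 (P : PF L) {p : ℕ} (hp : 2 * p ≤ L) {s a : ℕ} (ha : a ≤ L)
    (has : a ≤ s * p) :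
    ∀ t b : ℕ, b ≤ L → b ≤ t * p → P.F a b ≤ t * (s * (4 * P.F p p)) := by
  have hM : 0 ≤ P.F p p := F_nonneg P (by omega) (by omega)
  intro t
  induction t with
  | zero =>
    intro b _ h
    have : b = 0 := by omega
    subst this
    rw [F_zero_right]
    simp
  | succ t ih =>
    intro b hb h
    have h1 : b = (b - min b p) + min b p := by omega
    have h2 : min b p ≤ p := min_le_right _ _
    have h3 : P.F a ((b - min b p) + min b p) ≤ P.F a (b - min b p) + P.F a (min b p) :=
      F_add2 P ha (by omega)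
    rw [← h1] at h3
    have h4 : P.F a (b - min b p) ≤ t * (s * (4 * P.F p p)) := by
      apply ih
      · omega
      · rw [add_mul, one_mul] at h
        rcases le_total b p with hbp | hbp
        · rw [min_eq_left hbp]
          omega
        · rw [min_eq_right hbp]
          omega
    have h5 : P.F a (min b p) ≤ s * (4 * P.F p p) := torPF_cut P hp h2 s a ha has
    push_cast
    linarith

omit [NeZero L] in
theorem dyad (P : PF L) (hL : 2 ≤ L) {c : ℝ} (hc : 0 ≤ c)
    (h : ∀ k : ℕ, 2 * 2 ^ k ≤ L → P.F (2 ^ k) (2 ^ k) ≤ c * 2 ^ k) : Sq P (64 * c) := by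
  intro n hn
  obtain ⟨k, hk1, hk2⟩ : ∃ k : ℕ, 2 * 2 ^ k ≤ L ∧ L < 4 * 2 ^ k := by
    refine ⟨Nat.log 2 (L / 2), ?_, ?_⟩
    · have h1 : 2 ^ Nat.log 2 (L / 2) ≤ L / 2 := Nat.pow_log_le_self 2 (by omega)
      omega
    · have h1 : L / 2 < 2 ^ (Nat.log 2 (L / 2) + 1) := Nat.lt_pow_succ_log_self (by norm_num) _
      rw [pow_succ] at h1
      omega
  have hck := h k hk1
  have hpow : (0 : ℝ) < (2 : ℝ) ^ k := by positivity
  rcases Nat.eq_zero_or_pos n with hn0 | hn0
  · subst hn0
    rw [F_zero_left]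
    simp
  rcases Nat.lt_or_ge (2 ^ k) n with hnk | hnk
  · have h1 := torPF_cut2 P hk1 hn (s := 4) (by omega) 4 n hn (by omega)
    push_cast at h1
    have h2 : ((2 : ℝ) ^ k) ≤ n := by
      have : ((2 ^ k : ℕ) : ℝ) ≤ n := by exact_mod_cast hnk.le
      push_cast at this
      exact this
    have h3 : c * 2 ^ k ≤ c * n := mul_le_mul_of_nonneg_left h2 hc
    linarith
  · have h1 : Nat.clog 2 n ≤ k := by
      rw [Nat.clog_le_iff_le_pow (by norm_num)]
      exact hnk
    have h2 : 2 ^ Nat.clog 2 n ≤ 2 ^ k := Nat.pow_le_pow_right (by norm_num) h1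
    have h3 : n ≤ 2 ^ Nat.clog 2 n := Nat.le_pow_clog (by norm_num) n
    have h4 : 2 ^ Nat.clog 2 n ≤ 2 * n := by
      rcases Nat.lt_or_ge 1 n with h5 | h5
      · have h6 := Nat.pow_pred_clog_lt_self (b := 2) (by norm_num) h5
        have h7 : 0 < Nat.clog 2 n := Nat.clog_pos (by norm_num) h5
        obtain ⟨m, hm⟩ := Nat.exists_eq_succ_of_ne_zero h7.ne'
        rw [hm] at h6 ⊢
        rw [Nat.pred_succ] at h6
        rw [Nat.succ_eq_add_one, pow_succ]
        omega
      · have : n = 1 := by omega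
        subst this
        simp
    have h5 := h (Nat.clog 2 n) (by omega)
    have h6 : P.F n n ≤ 2 * P.F (2 ^ Nat.clog 2 n) n := F_mono1 P h3 (by omega) hn
    have h7 : P.F (2 ^ Nat.clog 2 n) n ≤ 2 * P.F (2 ^ Nat.clog 2 n) (2 ^ Nat.clog 2 n) :=
      F_mono2 P h3 (by omega) (by omega)
    have h8 : ((2 : ℝ) ^ Nat.clog 2 n) ≤ 2 * n := by
      have : ((2 ^ Nat.clog 2 n : ℕ) : ℝ) ≤ ((2 * n : ℕ) : ℝ) := by exact_mod_cast h4
      push_cast at this
      exact this
    have h9 : c * 2 ^ Nat.clog 2 n ≤ c * (2 * n) := mul_le_mul_of_nonneg_left h8 hc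
    have h10 : 0 ≤ c * n := by positivity
    nlinarith

end Pool.Agent.AL
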