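import Pool.Agent.AL.Geo

/-!
# PIECE AL-Wind: a maximal horizontal run of `K` separates its upper from its lower neighbours

Let `T` be a set, `u ∈ T`, `Pth T u v`. CLAIM (induction on the path): there is `N : Pt → ℤ` with
(i) `p + (1, 0) ∉ T → N p = N (p + (1, 0))`,
(ii) `p + (0, 1) ∉ T → N p - N (p + (0, 1)) = [v ∈ Reg (p + (0, 1))] - [u ∈ Reg (p + (0, 1))]`,
where `Reg q = {r | r.2 = q.2 ∧ q.1 < r.1}` and `[..]` is `1` or `0`.
(`N p` = number of the steps up from row `p.2` to row `p.2 + 1` to the right of `p`, minus the number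
of the steps down.) Start: `N = 0`. A step `w → w'` (both in `T`): up: add
`[w.2 = p.2 ∧ p.1 < w.1]`; down: subtract `[w'.2 = p.2 ∧ p.1 < w'.1]`; horizontal: no change. (i):
the values of the added term at `p` and `p + (1, 0)` differ only if `w = p + (1, 0)` (resp.
`w' = p + (1, 0)`). (ii): for vertical steps direct; for a horizontal step the right side changes
only if `w` or `w'` is `p + (0, 1)`.

`no_path`: `S = {q | q.2 = y ∧ x₁ ≤ q.1 ∧ q.1 ≤ x₂}`, `T = K \ S`, `u = (a, y + 1)`, `v = (b, y - 1)`,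
`N` from the claim, `M p = N p + [p.2 = y ∧ p.1 < a] + [p.2 = y - 1 ∧ p.1 < b]`.
(A) `M p = M q` for neighbours `p, q ∉ K`: horizontal: (i), and the new terms at `p` and `p + (1, 0)`
differ only if `p + (1, 0) = (a, y) ∈ K` or `p + (1, 0) = (b, y - 1) ∈ K`. Vertical, `p`,
`p + (0, 1) ∉ K`: by (ii) `M p - M (p + (0, 1)) = [p.2 = y - 1 ∧ p.1 < b] - [p.2 = y - 1 ∧ p.1 < a]`,
and if `p.2 = y - 1` then `(p.1, y) ∉ K`, so `p.1 ∉ [x₁, x₂]` and both are equal.
(B) So `M` is constant on `Kᶜ` (it is connected). But `N (x₁ - 1, y) = N (x₂ + 1, y)` by (i)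
(the points `(x, y)`, `x₁ ≤ x ≤ x₂ + 1` are not in `T`), so `M (x₁ - 1, y) = M (x₂ + 1, y) + 1`.
-/

namespace Pool.Agent.AL

open Classical in
/-- `1` if `v` is in the row of `q`, to the right of `q` -/
private noncomputable def Wind_ind (q v : Pt) : ℤ := if v.2 = q.2 ∧ q.1 < v.1 then 1 else 0

private theorem Wind_right {q v : Pt} (h : q + (1, 0) ≠ v) :
    Wind_ind q v = Wind_ind (q + (1, 0)) v := by
  obtain ⟨q1, q2⟩ := q
  obtain ⟨v1, v2⟩ := v
  simp only [Wind_ind, Prod.mk_add_mk, ne_eq, Prod.mk.injEq] at h ⊢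
  split_ifs <;> first | rfl | omega

private theorem Wind_up (p v : Pt) : Wind_ind (p + (0, 1)) (v + (0, 1)) = Wind_ind p v := by
  obtain ⟨q1, q2⟩ := p
  obtain ⟨v1, v2⟩ := v
  simp only [Wind_ind, Prod.mk_add_mk]
  split_ifs <;> first | rfl | omega

private theorem Wind_step {q v : Pt} (h : q ≠ v) : Wind_ind q (v + (1, 0)) = Wind_ind q v := by
  obtain ⟨q1, q2⟩ := q
  obtain ⟨v1, v2⟩ := v
  simp only [Wind_ind, Prod.mk_add_mk, ne_eq, Prod.mk.injEq] at h ⊢
  split_ifs <;> first | rfl | omega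

private theorem Wind_claim (T : Set Pt) (u : Pt) (hu : u ∈ T) (v : Pt) (h : Pth T u v) :
    v ∈ T ∧ ∃ N : Pt → ℤ, (∀ p, p + (1, 0) ∉ T → N p = N (p + (1, 0))) ∧
      ∀ p, p + (0, 1) ∉ T →
        N p - N (p + (0, 1)) = Wind_ind (p + (0, 1)) v - Wind_ind (p + (0, 1)) u := by
  induction h with
  | refl => exact ⟨hu, fun _ => 0, fun _ _ => rfl, fun _ _ => by simp⟩
  | @tail w w' _ hw ih =>
    obtain ⟨hwT, N, hN1, hN2⟩ := ih
    obtain ⟨hadj, hw'⟩ := hw
    refine ⟨hw', ?_⟩
    rcases hadj with rfl | rfl | rfl | rfl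
    · refine ⟨N, hN1, fun p hp => ?_⟩
      have hne : p + (0, 1) ≠ w := fun h => hp (h ▸ hwT)
      rw [hN2 p hp, Wind_step hne]
    · refine ⟨N, hN1, fun p hp => ?_⟩
      have hne : p + (0, 1) ≠ w + (-1, 0) := fun h => hp (h ▸ hw')
      have h1 := Wind_step hne
      have h2 : w + (-1, 0) + (1, 0) = w := by
        obtain ⟨a, b⟩ := w
        simp
      rw [h2] at h1
      rw [hN2 p hp, h1]
    · refine ⟨fun p => N p + Wind_ind p w, fun p hp => ?_, fun p hp => ?_⟩
      · have hne : p + (1, 0) ≠ w := fun h => hp (h ▸ hwT)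
        simp only
        rw [hN1 p hp, Wind_right hne]
      · have h1 := hN2 p hp
        have h2 := Wind_up p w
        simp only
        omega
    · refine ⟨fun p => N p - Wind_ind p (w + (0, -1)), fun p hp => ?_, fun p hp => ?_⟩
      · have hne : p + (1, 0) ≠ w + (0, -1) := fun h => hp (h ▸ hw')
        simp only
        rw [hN1 p hp, Wind_right hne]
      · have h1 := hN2 p hp
        have h2 := Wind_up p (w + (0, -1))
        have h3 : w + (0, -1) + (0, 1) = w := by
          obtain ⟨a, b⟩ := w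
          simp
        rw [h3] at h2
        simp only
        omega

theorem no_path (K : Set Pt) (hc : Cn Kᶜ) (x₁ x₂ y a b : ℤ) (h1 : (x₁ - 1, y) ∉ K)
    (h2 : (x₂ + 1, y) ∉ K) (hS : ∀ x, x₁ ≤ x → x ≤ x₂ → (x, y) ∈ K) (ha : x₁ ≤ a ∧ a ≤ x₂)
    (hb : x₁ ≤ b ∧ b ≤ x₂) (hu : (a, y + 1) ∈ K) (hv : (b, y - 1) ∈ K) :
    ¬ Pth (K \ {q | q.2 = y ∧ x₁ ≤ q.1 ∧ q.1 ≤ x₂}) (a, y + 1) (b, y - 1) := by
  intro hp
  have huT : ((a, y + 1) : Pt) ∈ K \ {q : Pt | q.2 = y ∧ x₁ ≤ q.1 ∧ q.1 ≤ x₂} := by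
    refine ⟨hu, fun h => ?_⟩
    have := h.1
    simp only at this
    omega
  obtain ⟨-, N, hN1, hN2⟩ := Wind_claim _ _ huT _ hp
  set M : Pt → ℤ := fun p => N p + Wind_ind p (a, y) + Wind_ind p (b, y - 1) with hM
  have hH : ∀ p : Pt, p ∉ K → p + (1, 0) ∉ K → M p = M (p + (1, 0)) := by
    intro p _ hq
    have e1 := hN1 p fun h => hq h.1
    have e2 : Wind_ind p (a, y) = Wind_ind (p + (1, 0)) (a, y) :=
      Wind_right fun h => hq (h ▸ hS a ha.1 ha.2)
    have e3 : Wind_ind p (b, y - 1) = Wind_ind (p + (1, 0)) (b, y - 1) :=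
      Wind_right fun h => hq (h ▸ hv)
    simp only [hM]
    rw [e1, e2, e3]
  have hV : ∀ p : Pt, p ∉ K → p + (0, 1) ∉ K → M p = M (p + (0, 1)) := by
    intro p _ hq
    have e1 := hN2 p fun h => hq h.1
    have e2 : Wind_ind (p + (0, 1)) (a, y + 1) = Wind_ind p (a, y) := by
      have := Wind_up p (a, y)
      simpa using this
    have e3 : Wind_ind p (b, y - 1) = Wind_ind (p + (0, 1)) (a, y) := by
      obtain ⟨p1, p2⟩ := p
      have e4 : p2 = y - 1 → ¬ (x₁ ≤ p1 ∧ p1 ≤ x₂) := by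
        rintro rfl ⟨h3, h4⟩
        apply hq
        have := hS p1 h3 h4
        simpa using this
      simp only [Wind_ind, Prod.mk_add_mk]
      split_ifs with h3 h4 h4
      · rfl
      · exfalso
        have := e4 h3.1.symm
        omega
      · exfalso
        have := e4 (by omega)
        omega
      · rfl
    simp only [hM]
    omega
  have hA : ∀ p q : Pt, Adj p q → p ∉ K → q ∉ K → M p = M q := by
    intro p q hpq hpK hqK
    rcases hpq with rfl | rfl | rfl | rfl
    · exact hH p hpK hqK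
    · have e : p + (-1, 0) + (1, 0) = p := by
        obtain ⟨a, b⟩ := p
        simp
      have := hH (p + (-1, 0)) hqK (by rw [e]; exact hpK)
      rw [e] at this
      exact this.symm
    · exact hV p hpK hqK
    · have e : p + (0, -1) + (0, 1) = p := by
        obtain ⟨a, b⟩ := p
        simp
      have := hV (p + (0, -1)) hqK (by rw [e]; exact hpK)
      rw [e] at this
      exact this.symm
  have hB : ∀ p q : Pt, p ∈ Kᶜ → Pth Kᶜ p q → q ∈ Kᶜ ∧ M p = M q := by
    intro p q hpK h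
    induction h with
    | refl => exact ⟨hpK, rfl⟩
    | tail _ hw ih => exact ⟨hw.2, ih.2.trans (hA _ _ hw.1 ih.1 hw.2)⟩
  have hC := (hB _ _ h1 (hc _ h1 _ h2)).2
  have hD : ∀ n : ℕ, x₁ - 1 + n ≤ x₂ + 1 → N (x₁ - 1, y) = N (x₁ - 1 + n, y) := by
    intro n
    induction n with
    | zero => intro _; simp
    | succ n ih =>
      intro hn
      push_cast at hn
      rw [ih (by omega)]
      have e : ((x₁ - 1 + (n : ℤ), y) : Pt) + (1, 0) = (x₁ - 1 + ((n + 1 : ℕ) : ℤ), y) := by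
        simp only [Prod.mk_add_mk, add_zero]
        congr 1
        push_cast
        ring
      have := hN1 (x₁ - 1 + (n : ℤ), y) (by
        rw [e]
        rintro ⟨h3, h4⟩
        apply h4
        refine ⟨rfl, ?_, ?_⟩
        · push_cast
          omega
        · simp only
          by_contra h5
          have h6 : x₁ - 1 + ((n + 1 : ℕ) : ℤ) = x₂ + 1 := by
            push_cast at h5 ⊢
            omega
          rw [h6] at h3
          exact h2 h3)
      rw [this, e]
  have hE : N (x₁ - 1, y) = N (x₂ + 1, y) := by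
    have := hD (x₂ + 1 - (x₁ - 1)).toNat (by
      rw [Int.toNat_of_nonneg (by omega)]
      omega)
    rw [this, Int.toNat_of_nonneg (by omega)]
    congr 2
    ring
  have f1 : Wind_ind (x₁ - 1, y) (a, y) = 1 := by
    simp only [Wind_ind]
    rw [if_pos ⟨trivial, by omega⟩]
  have f2 : Wind_ind (x₂ + 1, y) (a, y) = 0 := by
    simp only [Wind_ind]
    rw [if_neg (by omega)]
  have f3 : Wind_ind (x₁ - 1, y) (b, y - 1) = 0 := by
    simp only [Wind_ind]
    rw [if_neg (by omega)]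
  have f4 : Wind_ind (x₂ + 1, y) (b, y - 1) = 0 := by
    simp only [Wind_ind]
    rw [if_neg (by omega)]
  simp only [hM] at hC
  rw [hE, f1, f2, f3, f4] at hC
  omega

end Pool.Agent.AL
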